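import Pool.Agent.Lib.MP_751085_ag.ZC.K.KDefs
import Pool.Agent.Lib.MP_751085_ag.ZC.V.D

/-! Good models of the fibres of a chart: the statements that block K uses. -/

namespace Pool.Agent.ZFy

open Pool.Agent.ZCy
open scoped Classical WithZero
open Polynomial

/-- the separable closure -/
abbrev Ks (K : Type) [Field K] : Type := SeparableClosure K

/-- a place of `E` over the constants `κ` -/
def Plc {K E : Type} [Field K] [Field E] (κ : K →+* E) (v : Vl E) : Prop := Nrm v ∧ Triv κ v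

/-- all orders of `u` are divisible by `m` -/
def TyW (m : ℕ) {K E : Type} [Field K] [Field E] (κ : K →+* E) (u : E) : Prop :=
  ∀ v, Plc κ v → (m : ℤ) ∣ ord v u

/-- `w` is a Gauss valuation above `π` -/
def Gau {R KK F : Type} [CommRing R] [Field KK] [Field F] (α : R →+* KK) (ψ : KK[X] →+* F) (π : R)
    (w : Vl F) : Prop := Cen (ψ.comp (mapRingHom α)) w (C π)

/-- The curve with function field `F` over `KK = Frac R` has a good model. -/
structure GMI (l : ℕ) {R KK F : Type} [CommRing R] [Field KK] [Field F] (α : R →+* KK)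
    (ψ : KK[X] →+* F) : Prop where
  /-- unramified `l`-covers that split at one point at infinity lie in `Frac R⟦s⟧`, and the Gauss
  valuation has one prolongation -/
  ta : ∀ (N : Type) [Field N] [Algebra F N] [FiniteDimensional F N] [IsGalois F N]
    (ι : N →+* Ls KK), IsPGroup l (N ≃ₐ[F] N) → (∀ p, ι (algebraMap F N (ψ p)) = tL KK p) →
    (∀ w : Vl N, Triv (((algebraMap F N).comp ψ).comp C) w → Ine F w = ⊥) →
    (∀ x, ∃ a b : Ps R, b ≠ 0 ∧ ι x * lau α b = lau α a) ∧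
      ∀ (π : R) (w w' : Vl N), Irreducible π → Gau α ((algebraMap F N).comp ψ) π w →
        Gau α ((algebraMap F N).comp ψ) π w' → ∀ x, w' x ≤ 1 ↔ w x ≤ 1
  /-- Kummer classes of the special fibre lift -/
  lift : ∀ (π : R) (w : Vl F) (κ Fb : Type) [Field κ] [Field Fb] (r : R →+* κ) (c : κ →+* Fb)
    (ρ : w.integer →+* Fb), Irreducible π → Gau α ψ π w → IsRed w ρ → Function.Surjective ρ →
    Function.Surjective r → (∀ (a : R) (y : w.integer), (y : F) = ψ (C (α a)) → ρ y = c (r a)) →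
    ∀ u : Fb, u ≠ 0 → TyW l c u → ∃ (y : w.integer) (z : Fb), z ≠ 0 ∧ ρ y = u * z ^ l ∧
      TyW l (ψ.comp C) (y : F)

/-- The curve `χ = 0` over `B` has good models wherever the condition `U` holds. -/
def GoodC {B : Type} [CommRing B] (χ : B[X][X]) (U : ∀ (R : Type) [CommRing R], (B →+* R) → Prop) :
    Prop :=
  ∀ (R KK F : Type) [CommRing R] [IsDomain R] [CDVR R] [IsAlgClosed (IsLocalRing.ResidueField R)]
    [Field KK] [Field F] (η : B →+* R) (α : R →+* KK) (ψ : KK[X] →+* F) (θ : F) (l : ℕ),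
    IsFr α → U R η → FFd ψ θ (χ.map (mapRingHom (α.comp η))) → l.Prime → IsUnit (l : R) →
    GMI l α ψ

/-- `χ` as a polynomial in `τ` and `Z` -/
noncomputable def cχ {O σ : Type} [CommRing O] (c : PChart O σ) : (MP σ O)[X][X] :=
  c.χ.map (MvPolynomial.optionEquivLeft O σ : MP (Option σ) O →+* (MP σ O)[X])

/-- the fibres of the chart have good models off `Φ = 0` -/
def GoodM {O σ : Type} [CommRing O] (c : PChart O σ) (Φ : MP σ O) : Prop :=
  GoodC (cχ c) fun _ _ η => IsUnit (η Φ)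

/-- Kummer classes descend to an algebraically closed field of constants. -/
def RGD : Prop :=
  ∀ (M₀ M F₀ F : Type) [Field M₀] [IsAlgClosed M₀] [Field M] [IsAlgClosed M] [Field F₀] [Field F]
    (γ : M₀ →+* M) (ψ₀ : M₀[X] →+* F₀) (ψ : M[X] →+* F) (j : F₀ →+* F) (θ : F₀) (χ : M₀[X][X])
    (l : ℕ), l.Prime → (l : M₀) ≠ 0 → χ.Monic → FFd ψ₀ θ χ → FFd ψ (j θ) (χ.map (mapRingHom γ)) →
    (∀ p, j (ψ₀ p) = ψ (p.map γ)) → (χ.map (tL M₀)).Splits → (χ.map ψ₀).Separable →
    ∀ u : F, TyW l (ψ.comp C) u → ∃ (u₀ : F₀) (z : F), TyW l (ψ₀.comp C) u₀ ∧ u = j u₀ * z ^ l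

/-- There are finitely many Kummer classes. -/
def FIN : Prop :=
  ∀ (M F : Type) [Field M] [IsAlgClosed M] [Field F] (ψ : M[X] →+* F) (θ : F) (χ : M[X][X])
    (l : ℕ), l.Prime → (l : M) ≠ 0 → χ.Monic → FFd ψ θ χ → (χ.map (tL M)).Splits →
    (χ.map ψ).Separable → ∃ U : Finset F, ∀ u : F, TyW l (ψ.comp C) u →
      ∃ u' ∈ U, ∃ z : F, u = u' * z ^ l

/-- The Galois group of `K₃` fixes the unramified Kummer classes of the curve with function
field `F` and constants `κ`. -/
def WFix (l : ℕ) {K F : Type} [Field K] [Field F] (κ : K →+* F) (K₃ : Type) [Field K₃]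
    [Algebra K K₃] : Prop :=
  ∀ (Fs : Type) [Field Fs] [Algebra F Fs] (c : Ks K →+* Fs) (e : K₃ →ₐ[K] Ks K)
    (g : Fs ≃ₐ[F] Fs), (∀ a, c (algebraMap K _ a) = algebraMap F Fs (κ a)) →
    IntermediateField.adjoin F (Set.range c) = ⊤ → (∀ a, g (c (e a)) = c (e a)) →
    ∀ u, TyW l c u → ∃ z, g u = u * z ^ l

end Pool.Agent.ZFy
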