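import Pool.Agent.Lib.MP_751085_ag.ZF.K.Cmp
import Pool.Agent.Lib.MP_751085_ag.ZC.V.Enl

/-! The field of definition of the Kummer classes. -/

namespace Pool.Agent.ZCy.F.Kp

open Pool.Agent.ZFy Pool.Agent.ZFy.GM
open scoped Classical WithZero IntermediateField
open Polynomial groupCohomology

set_option linter.unusedSectionVars false

theorem kz_mono {l : ℕ} {k σ T T' : Type} [Field k] {c : PChart k σ} {Φ : MP σ k} [Field T]
    [Field T'] [Algebra (RF (Option σ) k) T] [Algebra (RF (Option σ) k) T']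
    (i : T →ₐ[RF (Option σ) k] T') (h : KZ l c Φ T) : KZ l c Φ T' := by
  obtain ⟨K, K₀, _, _, _, _, _, α, e, h1, h2, h3, h4⟩ := h
  exact ⟨K, K₀, _, _, _, ‹_›, ‹_›, α, (i : T →+* T').comp e, h1, h2,
    fun p => (congrArg i (h3 p)).trans (i.commutes _), h4⟩

theorem k0ex_of (hF : FIN) : K0EX := by
  intro k _ σ _ c Φ hi hG _ Λ
  induction Λ using Finset.induction_on with
  | empty =>
    obtain ⟨α, β, hb⟩ := c.bez
    obtain ⟨r, hr⟩ := c.dvd
    have h1 := IsFractionRing.injective (MP (Option σ) k) (RF (Option σ) k)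
    obtain ⟨N, _, _, _, _, _, _, h2, h3⟩ := enl_gen (E := RF (Option σ) k)
      (α := algebraMap (MP (Option σ) k) (RF (Option σ) k)) (Θ := c.brs Φ)
      (fun _ w _ _ _ => (ine_self w).1) c.monic ((map_ne_zero_iff _ h1).2 (kx_sep c h1).1) hb
      (hr.trans (pow_dvd_pow_of_dvd (dvd_mul_right _ _) r))
    exact fun _ => ⟨N, _, _, ‹_›, ‹_›, h2, h3, fun _ h => absurd h (Finset.notMem_empty _)⟩
  | insert l Λ _ ih =>
    intro h
    obtain ⟨T, _, _, _, _, h1, h2, h3⟩ := ih fun l hl => h l (Finset.mem_insert_of_mem hl)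
    obtain ⟨hl, hl0⟩ := h l (Finset.mem_insert_self _ _)
    obtain ⟨K₀, _, _, _, _, h4, h5⟩ := kx_k0 c hF hi hG hl hl0
    obtain ⟨E, _, _, _, _, e, h6, h7⟩ := kx_bc c h4
    obtain ⟨N, _, _, _, _, i, i', h8⟩ := kx_cmp h6 h1
    refine ⟨N, _, _, ‹_›, ‹_›, h8, ?_, fun l' hl' => ?_⟩
    · have := h2.map (i' : T →+* N)
      rwa [Polynomial.map_map, ← RingHom.comp_assoc, i'.comp_algebraMap] at this
    · rcases Finset.mem_insert.1 hl' with rfl | hl'
      · exact kz_mono i ⟨RF σ k, K₀, _, _, _, ‹_›, ‹_›, _, e, isFr_alg _ _, h4, h7, h5⟩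
      · exact kz_mono i' (h3 _ hl')

end Pool.Agent.ZCy.F.Kp
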