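import Pool.Agent.Lib.MP_751085_ag.ZF.K.KDf2
import Pool.Agent.Lib.MP_751085_ag.ZC.V.HarB
import Pool.Agent.Lib.MP_751085_ag.ZC.K.Val

/-! Residues and constants. -/

namespace Pool.Agent.ZCy.F.Kp

open Pool.Agent.ZFy Pool.Agent.ZFy.GM
open scoped Classical WithZero IntermediateField
open Polynomial groupCohomology

set_option linter.unusedSectionVars false

/-- a monic polynomial that splits also splits after reduction -/
theorem kx_rspl {A T Ω : Type} [CommRing A] [Field T] [Field Ω] {φ : A →+* T} {w : Vl T}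
    (h1 : ∀ a, w (φ a) ≤ 1) (ρ : w.integer →+* Ω) {φ' : A →+* Ω}
    (hρ : ∀ (a : A) (y : w.integer), (y : T) = φ a → ρ y = φ' a) {χ : A[X]} (hm : χ.Monic)
    (hs : (χ.map φ).Splits) : (χ.map φ').Splits := by
  let ψ : A →+* w.integer := φ.codRestrict w.integer h1
  have e : (χ.map ψ).map w.integer.subtype = χ.map φ := by
    rw [Polynomial.map_map]
    rfl
  have h2 : (χ.map ψ).Splits := Splits.of_splits_map_of_injective (i := w.integer.subtype)
    Subtype.val_injective (e ▸ hs) fun a ha => by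
      rw [e] at ha
      exact ⟨⟨a, le_one_of_int h1 ⟨χ, hm, (eval₂_eq_eval_map φ).trans (mem_roots'.1 ha).2⟩⟩, rfl⟩
  have := h2.map ρ
  rwa [Polynomial.map_map, show ρ.comp ψ = φ' from RingHom.ext fun a => hρ a _ rfl] at this

/-- residues are algebraic -/
theorem kxw_res {A K E κ Ω : Type} [CommRing A] [WfDvdMonoid A] [Field K] [Field E] [Field κ]
    [Field Ω] [Algebra K E] [Algebra.IsAlgebraic K E] {α : A →+* K} (hα : IsFr α) {P : A}
    (hP : Prime P) {w : Vl E} (hc : Cen (tE E α) w P) {ρ : w.integer →+* Ω} (hρ : IsRed w ρ)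
    (ι : κ →+* Ω) (h : ∀ (a : A) (y : w.integer), (y : E) = tE E α a → ρ y ∈ ι.range)
    (x : w.integer) : ι.IsIntegralElem (ρ x) := by
  have ho := Over.comap (algebraMap K E) w
  have hc' : Cen α (w.comap (algebraMap K E)) P := hc
  obtain ⟨f, ⟨i, hi⟩, hf⟩ := exists_poly_red ho x
  have h1 : ∀ y, ρ (ho.int y) ∈ ι.fieldRange := fun y => by
    obtain ⟨a, b, hb, e⟩ := (hc'.le_one_iff hα hP y).1 y.2
    have h2 : ρ ⟨tE E α b, hc.1 b⟩ ≠ 0 := fun e => hb ((hc.2 b).1 ((hρ _).1 e))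
    have h3 : ρ (ho.int y) * ρ ⟨tE E α b, hc.1 b⟩ = ρ ⟨tE E α a, hc.1 a⟩ := by
      rw [← map_mul]
      exact congrArg ρ (Subtype.ext ((map_mul (algebraMap K E) _ _).symm.trans (congrArg _ e)))
    rw [eq_div_of_mul_eq h2 h3]
    exact div_mem (h a _ rfl) (h b _ rfl)
  obtain ⟨g, hg⟩ := (mem_lifts _).1 ((lifts_iff_coeff_lifts (f := ι) (f.map (ρ.comp ho.int))).2
    fun n => by
      rw [coeff_map]
      exact h1 _)
  let _ := ι.toAlgebra
  refine IsAlgebraic.isIntegral (K := κ) ⟨g, fun e => ?_, ?_⟩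
  · have h2 := congrArg (coeff · i) hg
    rw [e, Polynomial.map_zero, coeff_zero, coeff_map] at h2
    exact ((hρ.comp_int ho).ne_zero _).2 hi h2.symm
  · rw [aeval_def, eval₂_eq_eval_map]
    change eval _ (g.map ι) = 0
    rw [hg, ← eval₂_eq_eval_map, ← hom_eval₂, hf, map_zero]

/-- `K` is algebraically closed in `K(τ)` -/
theorem kx_acl {K L : Type} [Field K] [Field L] {ψ : K[X] →+* L} (hψ : IsFr ψ) {y : L}
    (hy : (ψ.comp C).IsIntegralElem y) : ∃ a, ψ (C a) = y := by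
  let _ := ψ.toAlgebra
  have := hψ.frac
  obtain ⟨p, hm, hp⟩ := hy
  obtain ⟨q, rfl⟩ := IsIntegrallyClosed.algebraMap_eq_of_integral (R := K[X]) (x := y)
    ⟨p.map C, hm.map _, by rw [eval₂_map]; exact hp⟩
  have h1 : IsAlgebraic K q := ⟨p, hm.ne_zero, hψ.1 (by
    rw [map_zero, aeval_def, hom_eval₂]
    exact hp)⟩
  have h2 : q.natDegree = 0 := by_contra fun h => q.transcendental h
    (mem_nonZeroDivisors_of_ne_zero (leadingCoeff_ne_zero.2 fun e => h (by rw [e, natDegree_zero])))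
    h1
  exact ⟨_, congrArg ψ (eq_C_of_natDegree_eq_zero h2).symm⟩

/-- the constants of `T` -/
theorem kx_cl {K L T : Type} [Field K] [Field L] [Field T] [Algebra L T] [FiniteDimensional L T]
    [IsGalois L T] {ψ : K[X] →+* L} (hψ : IsFr ψ) : ∃ (K₃ : Type) (_ : Field K₃) (_ : Algebra K K₃)
      (_ : FiniteDimensional K K₃) (_ : IsGalois K K₃) (e : K₃ →+* T),
      (∀ a, e (algebraMap K K₃ a) = tE T ψ (C a)) ∧
      ∀ y, ((tE T ψ).comp C).IsIntegralElem y → y ∈ e.range := by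
  let _ := (ψ.comp C).toAlgebra
  let _ := ((tE T ψ).comp C).toAlgebra
  have : IsScalarTower K L T := IsScalarTower.of_algebraMap_eq fun _ => rfl
  let r : (T ≃ₐ[L] T) →* (algebraicClosure K T ≃ₐ[K] algebraicClosure K T) :=
    MonoidHom.mk' (fun g => algebraicClosure.algEquivOfAlgEquiv (g.restrictScalars K))
      fun _ _ => AlgEquiv.ext fun _ => rfl
  have : Finite r.range := Finite.of_surjective _ r.rangeRestrict_surjective
  have : IsGaloisGroup r.range K (algebraicClosure K T) := ⟨inferInstance, inferInstance, ⟨by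
    intro y hy
    obtain ⟨b, hb⟩ := mem_range_of_fix (K := L) (x := (y : T)) fun g =>
      congrArg Subtype.val (hy ⟨r g, g, rfl⟩)
    have h1 : IsIntegral K (algebraMap L T b) := hb ▸ mem_algebraicClosure_iff'.1 y.2
    obtain ⟨a, rfl⟩ := kx_acl hψ (y := b)
      ((isIntegral_algebraMap_iff (algebraMap L T).injective).1 h1)
    exact ⟨a, Subtype.ext hb⟩⟩⟩
  exact ⟨algebraicClosure K T, _, _, IsGaloisGroup.finiteDimensional r.range K _,
    IsGaloisGroup.isGalois r.range K _, algebraMap _ T, fun _ => rfl,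
    fun y hy => ⟨⟨y, mem_algebraicClosure_iff'.2 hy⟩, rfl⟩⟩

end Pool.Agent.ZCy.F.Kp
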