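import Pool.Agent.Lib.MP_751085_ag.ZF.K.KDf2
import Pool.Agent.Lib.MP_751085_ag.ZC.V.Hns
import Pool.Agent.Lib.MP_751085_ag.ZC.CMap

/-! The expansion along a hyperplane. -/

namespace Pool.Agent.ZCy.F.Kp

open Pool.Agent.ZFy Pool.Agent.ZFy.GM
open scoped Classical WithZero IntermediateField
open Polynomial groupCohomology

set_option linter.unusedSectionVars false

variable {k σ : Type} [Field k]

theorem pk9b_hyp0 (p : MP (Option σ) k) : hyp0 p = (tp p).coeff 0 := by
  refine RingHom.congr_fun (g := constantCoeff.comp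
    (MvPolynomial.optionEquivLeft k σ : MP (Option σ) k →+* (MP σ k)[X]))
    (MvPolynomial.ringHom_ext (fun a => by simp [hyp0]) fun i => ?_) p
  cases i <;> simp [hyp0]

theorem kx_hyp0 : Prime (MvPolynomial.X none : MP (Option σ) k) ∧
    ∀ p : MP (Option σ) k, hyp0 p = 0 ↔ MvPolynomial.X none ∣ p := by
  refine ⟨MvPolynomial.X_prime, fun p => ?_⟩
  rw [← map_dvd_iff (MvPolynomial.optionEquivLeft k σ), MvPolynomial.optionEquivLeft_X_none,
    X_dvd_iff, pk9b_hyp0]

theorem kx_upX (p : MP (Option σ) k) :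
    (MvPolynomial.X (some none) : MP (Option (Option σ)) k) ∣ up p ↔ MvPolynomial.X none ∣ p := by
  refine ⟨fun h => ?_, fun h => by simpa using map_dvd (MvPolynomial.rename (R := k) some) h⟩
  have h1 := map_dvd (MvPolynomial.optionEquivLeft k (Option σ)) h
  rw [MvPolynomial.optionEquivLeft_X_some, C_dvd_iff_dvd_coeff] at h1
  have h2 := h1 0
  rwa [show MvPolynomial.optionEquivLeft k _ (up p) = C p from tp_up p, coeff_C_zero] at h2

theorem kx_eta {κ : Type} [Field κ] {β : MP σ k →+* κ} (hβ : Function.Injective β) :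
    ∃ η : MP (Option σ) k →+* Ps κ, Function.Injective η ∧
      ∀ p, PowerSeries.constantCoeff (η p) = β (hyp0 p) := by
  refine ⟨(coeToPowerSeries.ringHom.comp (mapRingHom β)).comp
    (MvPolynomial.optionEquivLeft k σ : MP (Option σ) k →+* (MP σ k)[X]),
    ((coe_injective κ).comp (map_injective β hβ)).comp (MvPolynomial.optionEquivLeft k σ).injective,
    fun p => ?_⟩
  rw [pk9b_hyp0, ← coeff_map, ← coeff_coe, PowerSeries.coeff_zero_eq_constantCoeff_apply]
  rfl

theorem kx_lift {K K₀ κ : Type} [Field K] [Field K₀] [Field κ] [Algebra K K₀]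
    [FiniteDimensional K K₀] [IsGalois K K₀] {α : MP (Option σ) k →+* K} (hα : IsFr α) {w : Vl K₀}
    (hc : Cen (tE K₀ α) w (MvPolynomial.X none)) (hI : Ine K w = ⊥) {ρ : w.integer →+* κ}
    (hρ : IsRed w ρ) {β : MP σ k →+* κ} (hβ : Function.Injective β)
    (hb : ∀ (p : MP (Option σ) k) (y : w.integer), (y : K₀) = tE K₀ α p → ρ y = β (hyp0 p)) :
    ∃ (η : MP (Option σ) k →+* Ps κ) (γ : K₀ →+* Ls κ),
      (∀ p, PowerSeries.constantCoeff (η p) = β (hyp0 p)) ∧
      ∀ p, γ (tE K₀ α p) = lau (RingHom.id κ) (η p) := by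
  obtain ⟨η, hη, h0⟩ := kx_eta hβ
  have hl := isVR_lval κ
  obtain ⟨φ, hφ⟩ := hα.exists_lift (β := (lau (RingHom.id κ)).comp η) (hl.2.1.comp hη)
  have hz : ∀ p, β (hyp0 p) = 0 ↔ MvPolynomial.X none ∣ p := fun p =>
    (map_eq_zero_iff β hβ).trans (kx_hyp0.2 p)
  have hv : Cen α (w.comap (algebraMap K K₀)) (MvPolynomial.X none) := hc
  have ho : Over φ (w.comap (algebraMap K K₀)) (lval κ) :=
    Cen.iff hα kx_hyp0.1 hv (v' := (lval κ).comap φ)
      ⟨fun a => (congrArg (lval κ) (hφ a)).trans_le (hl.le_one _), fun a => by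
        rw [Valuation.comap_apply, hφ, RingHom.comp_apply, (hl.cen PowerSeries.X_irreducible).2,
          PowerSeries.X_dvd_iff, h0, hz]⟩
  obtain ⟨γ, hγ, -⟩ := hens (Over.comap _ w) hI hl ho
    (hρ.comp (PowerSeries.residueFieldOfPowerSeries (k := κ)).symm.toRingHom) fun a y e => by
      obtain ⟨p, q, hq, e1⟩ := (hv.le_one_iff hα kx_hyp0.1 a).1 a.2
      have e2 : y * η q = η p := hl.2.1 (by
        rw [map_mul, ← e]
        exact ((congrArg _ (hφ q).symm).trans (map_mul φ _ _).symm).trans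
          ((congrArg φ e1).trans (hφ p)))
      refine (PowerSeries.residueFieldOfPowerSeries (k := κ)).symm_apply_eq.2
        (mul_right_cancel₀ (mt (hz q).1 hq) ?_)
      have e3 := congrArg PowerSeries.constantCoeff e2
      rw [map_mul, h0, h0] at e3
      have e4 := hb p ((Over.comap _ w).int a * (⟨_, hc.1 q⟩ : w.integer))
        ((map_mul (algebraMap K K₀) _ _).symm.trans (congrArg _ e1))
      rw [map_mul, hb q ⟨_, hc.1 q⟩ rfl] at e4
      exact e4.trans e3.symm
  exact ⟨η, γ, h0, fun p => (hγ _).trans (hφ p)⟩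

end Pool.Agent.ZCy.F.Kp
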