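import Pool.Agent.Lib.MP_751085_ag.ZF.K.KDf2
import Pool.Agent.Lib.MP_751085_ag.ZC.K.Val
import Pool.Agent.Lib.MP_751085_ag.ZC.V.Zor
import Pool.Agent.Lib.MP_751085_ag.ZC.V.Lau

/-! Extensions of the constants. -/

namespace Pool.Agent.ZCy.F.Kp

open Pool.Agent.ZFy Pool.Agent.ZFy.GM
open scoped Classical WithZero IntermediateField
open Polynomial groupCohomology

set_option linter.unusedSectionVars false

variable {K K' F T : Type} [Field K] [Field K'] [Field F] [Field T] {m : ℕ}

section ty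

variable {κ : K →+* F} {u u' : F}

theorem tyw_dvd (h : TyW m κ u) {w : Vl F} (hw : Triv κ w) : (m : ℤ) ∣ ord w u := by
  by_cases h0 : u = 0
  · rw [h0, ord_zero]
    exact dvd_zero _
  by_cases h1 : w u = 1
  · rw [(ord_eq_zero_v w h0).2 h1]
    exact dvd_zero _
  obtain ⟨v, e, hv, he, hi⟩ := exists_nrm h0 h1
  exact hi.ord u ▸ (h v ⟨hv, fun a ha => ((hi.over he).eq_one _).1 (hw a ha)⟩).mul_left _

theorem tyw_up {κ' : K' →+* T} (γ : K →+* K') (i : F →+* T) (hc : ∀ a, κ' (γ a) = i (κ a))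
    (h : TyW m κ u) : TyW m κ' (i u) := fun w hw =>
  tyw_dvd h (w := w.comap i) fun a ha => (congrArg w (hc a).symm).trans
    (hw.2 _ ((_root_.map_ne_zero γ).2 ha))

theorem tyw_mul (h : TyW m κ u) (h' : TyW m κ u') : TyW m κ (u * u') := fun v hv => by
  by_cases h0 : u * u' = 0
  · rw [h0, ord_zero]
    exact dvd_zero _
  · rw [ord_mul_v v (left_ne_zero_of_mul h0) (right_ne_zero_of_mul h0)]
    exact dvd_add (h v hv) (h' v hv)

theorem tyw_inv (h : TyW m κ u) : TyW m κ u⁻¹ := fun v hv =>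
  ord_inv_v v u ▸ (h v hv).neg_right

theorem tyw_pow (h : TyW m κ u) (n : ℕ) : TyW m κ (u ^ n) := fun v hv =>
  ord_pow_v v u n ▸ (h v hv).mul_left _

theorem tyw_pw (m : ℕ) (κ : K →+* F) (y : F) : TyW m κ (y ^ m) := fun v _ =>
  ord_pow_v v y m ▸ dvd_mul_right _ _

theorem tyw_mono {m' : ℕ} (h : TyW m κ u) (hd : m' ∣ m) : TyW m' κ u := fun v hv =>
  (Int.natCast_dvd_natCast.2 hd).trans (h v hv)

theorem tyw_root {l : ℕ} (hl : l ≠ 0) (h : TyW (l * m) κ (u ^ l)) : TyW m κ u := fun v hv => by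
  have := h v hv
  rwa [ord_pow_v, Nat.cast_mul, mul_dvd_mul_iff_left (Nat.cast_ne_zero.2 hl)] at this

theorem tyw_cop {q : ℕ} (hq : q.Coprime m) (h : TyW m κ (u ^ q)) : TyW m κ u := fun v hv =>
  (Nat.isCoprime_iff_coprime.2 hq.symm).dvd_of_dvd_mul_left (ord_pow_v v u q ▸ h v hv)

end ty

theorem triv_alg {c : K' →+* T} {γ : K →+* K'} (hγ : ∀ y, γ.IsIntegralElem y) {w : Vl T}
    (h : Triv (c.comp γ) w) : Triv c w := fun x hx => by
  obtain ⟨p, hp, e⟩ := hγ x
  exact kz_alg h ((_root_.map_ne_zero c).2 hx) hp.ne_zero (by rw [← hom_eval₂, e, map_zero])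

theorem nt_comap {i : F →+* T} (hi : ∀ y, i.IsIntegralElem y) {w : Vl T} (h : NT w) :
    NT (w.comap i) := by
  by_contra hn
  have h1 : ∀ x, x ≠ 0 → 1 ≤ w (i x) := fun x hx => not_lt.1 fun e => hn ⟨x, hx, e⟩
  obtain ⟨y, h0, hy⟩ := h
  obtain ⟨p, hp, e⟩ := hi y
  refine hy.ne (kz_alg (fun x hx => le_antisymm ?_ (h1 x hx)) h0 hp.ne_zero e)
  have := h1 _ (inv_ne_zero hx)
  rwa [map_inv₀, map_inv₀, one_le_inv₀ (zero_lt_one.trans_le (h1 x hx))] at this

theorem nt_of_nrm {w : Vl T} (h : Nrm w) : NT w := by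
  obtain ⟨π, hπ⟩ := h
  exact ⟨π, w.ne_zero_iff.1 (hπ ▸ WithZero.exp_ne_zero), (lt_one_iff_le_exp _).2 hπ.le⟩

variable [Algebra F T]

/-- `g x - x` is algebraic over `K`, so it is zero or has value one -/
theorem cst_fix (κ : K →+* F) {w : Vl T} (hw : Triv ((algebraMap F T).comp κ) w) {g : T ≃ₐ[F] T}
    (hg : g ∈ Ine F w) {x : T} (hx : ((algebraMap F T).comp κ).IsIntegralElem x) : g x = x := by
  by_contra h
  have h1 : ((algebraMap F T).comp κ).IsIntegralElem (g x) := by
    obtain ⟨p, hp, e⟩ := hx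
    have := congrArg (g : T →+* T) e
    rw [hom_eval₂, map_zero, show (g : T →+* T).comp _ = (algebraMap F T).comp κ from
      RingHom.ext fun a => g.commutes _] at this
    exact ⟨p, hp, this⟩
  obtain ⟨p, hp, e⟩ := h1.sub _ hx
  refine (hg.2 x (kval_int (fun a => ?_) hx)).ne (kz_alg hw (sub_ne_zero.2 h) hp.ne_zero e)
  by_cases ha : a = 0
  · simp [ha]
  · exact (hw a ha).le

theorem pcst_split {R : Type} [CommRing R] [IsDomain R] [CDVR R]
    [IsAlgClosed (IsLocalRing.ResidueField R)] (n : ℕ) {f : R[X]} (hm : f.Monic)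
    (hn : f.natDegree = n) (hs : (f.map (IsLocalRing.residue R)).Separable) : f.Splits := by
  induction n generalizing f with
  | zero => exact Splits.of_natDegree_eq_zero hn
  | succ n ih =>
    obtain ⟨t, ht⟩ := IsAlgClosed.exists_root (f.map (IsLocalRing.residue R)) (by
      rw [hm.degree_map, degree_eq_natDegree hm.ne_zero, hn]
      exact_mod_cast n.succ_ne_zero)
    obtain ⟨t, rfl⟩ := IsLocalRing.residue_surjective t
    have h1 := hs.eval₂_derivative_ne_zero (RingHom.id _) ht
    rw [IsRoot, eval_map, eval₂_at_apply] at ht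
    rw [eval₂_id, derivative_map, eval_map, eval₂_at_apply] at h1
    obtain ⟨t', h2, -⟩ := exists_root_lift (hm.leadingCoeff ▸ isUnit_one) ht h1
    obtain ⟨g, rfl⟩ := dvd_iff_isRoot.2 h2
    have h3 := (monic_X_sub_C t').of_mul_monic_left hm
    rw [(monic_X_sub_C t').natDegree_mul h3, natDegree_X_sub_C] at hn
    rw [Polynomial.map_mul] at hs
    exact (Splits.X_sub_C t').mul (ih h3 (by omega) hs.of_mul_right)

variable [Algebra K K'] (κ : K →+* F) (c : K' →+* T)
  (hc : ∀ a, c (algebraMap K K' a) = algebraMap F T (κ a))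
  (hg : IntermediateField.adjoin F (Set.range c) = ⊤)

include hc hg

omit hg in
theorem pcst_root (x : K') : aeval (c x) ((minpoly K x).map κ) = 0 := by
  rw [aeval_def, eval₂_map, show (algebraMap F T).comp κ = c.comp (algebraMap K K') from
    RingHom.ext fun a => (hc a).symm, ← hom_eval₂, ← aeval_def, minpoly.aeval, map_zero]

theorem pcst_prim [Algebra.IsSeparable K K'] (y : T) : ∃ x, y ∈ F⟮c x⟯ := by
  obtain ⟨s, hs, hy⟩ := IntermediateField.exists_finset_of_mem_adjoin
    (hg ▸ IntermediateField.mem_top : y ∈ IntermediateField.adjoin F (Set.range c))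
  choose a ha using fun t : s => hs t.2
  have := IntermediateField.finiteDimensional_adjoin (S := Set.range a) fun z _ =>
    Algebra.IsSeparable.isIntegral K z
  obtain ⟨x, hx⟩ := Field.exists_primitive_element K (IntermediateField.adjoin K (Set.range a))
  have h1 := congrArg IntermediateField.lift hx
  rw [IntermediateField.lift_adjoin_simple, IntermediateField.lift_top] at h1
  have h2 : K⟮(x : K')⟯.toSubfield ≤ F⟮c x⟯.toSubfield.comap c := Subfield.closure_le.2 (by
    rintro _ (⟨b, rfl⟩ | rfl)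
    · exact Subfield.mem_comap.2 (hc b ▸ IntermediateField.algebraMap_mem _ _)
    · exact IntermediateField.mem_adjoin_simple_self F _)
  refine ⟨x, IntermediateField.adjoin_le_iff.2 (fun t ht => ?_) hy⟩
  rw [← show c (a ⟨t, ht⟩) = t from ha _]
  exact h2 (h1.ge (IntermediateField.subset_adjoin K _ ⟨⟨t, ht⟩, rfl⟩))

/-- An intermediate field is generated by its constants. -/
theorem cst_mem [IsGalois K K'] (S : IntermediateField F T) {y : T} (hy : y ∈ S) :
    y ∈ IntermediateField.adjoin F (Set.range c ∩ S) := by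
  obtain ⟨x, hx⟩ := pcst_prim κ c hc hg y
  have hi : IsIntegral K x := Algebra.IsSeparable.isIntegral K x
  have h1 : IsIntegral F (c x) := ⟨_, (minpoly.monic hi).map κ, pcst_root κ c hc x⟩
  have h2 : IsIntegral S (c x) := h1.tower_top
  have h3 : (minpoly S (c x)).map (algebraMap S T) ∣
      ((minpoly K x).map (algebraMap K K')).map c := by
    have := Polynomial.map_dvd (algebraMap S T) (minpoly.dvd S (c x)
      (p := ((minpoly K x).map κ).map (algebraMap F S)) (by
        rw [aeval_map_algebraMap, pcst_root κ c hc]))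
    rwa [map_map, map_map, show ((algebraMap S T).comp (algebraMap F S)).comp κ =
      c.comp (algebraMap K K') from RingHom.ext fun a => (hc a).symm, ← map_map] at this
  have h4 := Normal.splits (F := K) (K := K') inferInstance x
  have h5 := ((minpoly.monic hi).map (algebraMap K K')).ne_zero
  have hm := (minpoly.monic h2).map (algebraMap S T)
  have h6 := (lifts_iff_coeff_lifts _).1 (((h4.map c).of_dvd (Polynomial.map_ne_zero h5)
    h3).mem_lift_of_roots_mem_range hm c fun a ha =>
      h4.mem_range_of_isRoot h5 ((isRoot_of_mem_roots ha).dvd h3))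
  have hle : IntermediateField.adjoin F (Set.range c ∩ S) ≤ S :=
    IntermediateField.adjoin_le_iff.2 Set.inter_subset_right
  obtain ⟨g, e1, e2, e3⟩ := lifts_and_degree_eq_and_monic ((lifts_iff_coeff_lifts
    (f := algebraMap (IntermediateField.adjoin F (Set.range c ∩ S)) T)
    ((minpoly S (c x)).map (algebraMap S T))).2 fun n =>
      ⟨⟨_, IntermediateField.subset_adjoin F _ ⟨h6 n, by
        rw [coeff_map]; exact Subtype.property _⟩⟩, rfl⟩) hm
  rw [← IntermediateField.mem_toSubalgebra,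
    IntermediateField.adjoin_simple_toSubalgebra_of_isAlgebraic h1.isAlgebraic,
    Algebra.adjoin_singleton_eq_range_aeval] at hx
  obtain ⟨p, hp⟩ := hx
  have h7 : aeval (c x) g = 0 := by
    rw [← eval_map_algebraMap, e1, eval_map_algebraMap, minpoly.aeval]
  set q := p.map (algebraMap F (IntermediateField.adjoin F (Set.range c ∩ S))) %ₘ g with hq
  have h8 : aeval (c x) q = y := by
    rw [hq, aeval_modByMonic_eq_self_of_root h7, aeval_map_algebraMap]
    exact hp
  have h9 : q.map (IntermediateField.inclusion hle : _ →+* S) - C ⟨y, hy⟩ = 0 := by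
    refine eq_zero_of_dvd_of_degree_lt (minpoly.dvd S (c x) ?_) ((degree_sub_le _ _).trans_lt
      (max_lt (degree_map_le.trans_lt ?_) (degree_C_le.trans_lt (minpoly.degree_pos h2))))
    · rw [map_sub, aeval_C, aeval_def, eval₂_map, sub_eq_zero]
      exact h8
    · rw [← degree_map _ (algebraMap S T), ← e2]
      exact degree_modByMonic_lt _ e3
  have h10 := congrArg (fun r : S[X] => ((r.coeff 0 : S) : T)) (sub_eq_zero.1 h9)
  simp only [coeff_map, coeff_C_zero] at h10
  exact h10 ▸ (q.coeff 0).2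

/-- places have index one in a separable extension of the constants -/
theorem plc_sep [Algebra.IsSeparable K K'] {v : Vl F} (hv : Plc κ v) :
    ∃ w : Vl T, Plc c w ∧ ∀ x, w (algebraMap F T x) = v x := by
  obtain ⟨R, _, _, _, w, ψ, _, hw, hi⟩ := zorn hv.1
  obtain ⟨e, he⟩ := hw.exists_equiv
  have h1 := idx_one_iff.1 hi
  let η : K →+* R := (e.symm : _ →+* R).comp ((ψ.comp κ).codRestrict w.integer fun a => by
    change w (ψ (κ a)) ≤ 1
    by_cases ha : a = 0
    · simp [ha]
    · exact ((h1 _).trans (hv.2 a ha)).le)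
  have hη : (algebraMap R (Fr R)).comp η = ψ.comp κ := RingHom.ext fun a => by
    rw [RingHom.comp_apply, ← he]
    exact congrArg Subtype.val (e.apply_symm_apply _)
  let := ψ.toAlgebra
  obtain ⟨j⟩ := IntermediateField.nonempty_algHom_of_adjoin_splits (K := Fr R) (by
    rintro _ ⟨x, rfl⟩
    have hm := minpoly.monic (Algebra.IsSeparable.isIntegral K x)
    have h2 := (pcst_split _ (hm.map η) rfl (by
      rw [map_map]
      exact Separable.map (Algebra.IsSeparable.isSeparable K x))).map (algebraMap R (Fr R))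
    rw [map_map, hη, ← map_map] at h2
    exact ⟨⟨_, hm.map κ, pcst_root κ c hc x⟩, h2.of_dvd ((hm.map κ).map ψ).ne_zero
      (Polynomial.map_dvd ψ (minpoly.dvd F _ (pcst_root κ c hc x)))⟩) hg
  have h3 : ∀ x, w.comap (j : T →+* Fr R) (algebraMap F T x) = v x := fun x =>
    (congrArg w (j.commutes x)).trans (h1 x)
  have h4 : ∀ y : K', IsIntegral K y := Algebra.IsSeparable.isIntegral K
  refine ⟨_, ⟨hv.1.elim fun π hπ => ⟨_, (h3 π).trans hπ⟩, triv_alg h4 fun a ha => ?_⟩, h3⟩
  rw [RingHom.comp_apply, hc, h3, hv.2 a ha]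

theorem tyw_sep [Algebra.IsSeparable K K'] {u : F} (h : TyW m c (algebraMap F T u)) :
    TyW m κ u := fun v hv => by
  obtain ⟨w, hw, e⟩ := plc_sep κ c hc hg hv
  have := h w hw
  rwa [ord, e] at this

end Pool.Agent.ZCy.F.Kp
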