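import Pool.Agent.Lib.MP_751085_ag.ZF.K.Gp
import Pool.Agent.Lib.MP_751085_ag.ZF.K.Cst

/-! The action on Kummer classes over a large field of constants. -/

namespace Pool.Agent.ZCy.F.Kp

open Pool.Agent.ZFy Pool.Agent.ZFy.GM
open scoped Classical WithZero IntermediateField
open Polynomial groupCohomology

set_option linter.unusedSectionVars false

theorem sp_aut {K KK : Type} [Field K] [Field KK] (γ : K →+* KK) (s : KK ≃+* KK)
    (hs : ∀ a, s (γ a) = γ a) : ∃ (e : Kb K →+* Kb KK) (s' : Kb KK →+* Kb KK) (σ : Kb K ≃ₐ[K] Kb K),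
      (∀ a, e (algebraMap K (Kb K) a) = algebraMap KK (Kb KK) (γ a)) ∧
      (∀ a, s' (algebraMap KK (Kb KK) a) = algebraMap KK (Kb KK) (s a)) ∧
      ∀ a, s' (e a) = e (σ a) := by
  obtain ⟨e, he⟩ := exists_emb (E := Kb K) ((algebraMap KK (Kb KK)).comp γ)
  obtain ⟨s', hs'⟩ := exists_emb (E := Kb KK) ((algebraMap KK (Kb KK)).comp (s : KK →+* KK))
  obtain ⟨σ, hσ⟩ := exists_twist (K := K) e (s'.comp e) fun a => by
    rw [RingHom.comp_apply, he, RingHom.comp_apply, hs', RingHom.comp_apply, RingHom.coe_coe, hs]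
  exact ⟨e, s', σ, he, hs', hσ⟩

/-- a semilinear endomorphism of a function field -/
theorem sp_semi {M E : Type} [Field M] [Field E] {ψ : M[X] →+* E} {θ : E} {χ : M[X][X]}
    (h : FFd ψ θ χ) (hm : χ.Monic) (s : M →+* M) (hs : χ.map (mapRingHom s) = χ) :
    ∃ g : E →+* E, (∀ p, g (ψ p) = ψ (p.map s)) ∧ g θ = θ :=
  ffd_map h hm s (hs.symm ▸ h)

theorem sp_gen (hR : RGD) {K KK F : Type} [Field K] [Field KK] [Field F] {χ : K[X][X]} (hg : GP χ)
    (γ : K →+* KK) {ψ : KK[X] →+* F} {θ : F} (h : FFd ψ θ (χ.map (mapRingHom γ))) {l : ℕ}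
    (hl : l.Prime) (hl0 : (l : K) ≠ 0) (hW : WF l χ) (s : KK ≃+* KK) (hs : ∀ a, s (γ a) = γ a)
    {g : F →+* F} (h1 : ∀ p, g (ψ p) = ψ (p.map (s : KK →+* KK))) (h2 : g θ = θ) {y : F}
    (hy : TyW l (ψ.comp C) y) : ∃ (F' : Type) (_ : Field F') (ψ' : (Kb KK)[X] →+* F')
      (i : F →+* F') (t : F'),
      FFd ψ' (i θ) ((χ.map (mapRingHom γ)).map (mapRingHom (algebraMap KK (Kb KK)))) ∧
      (∀ p, i (ψ p) = ψ' (p.map (algebraMap KK (Kb KK)))) ∧ i (g y) = i y * t ^ l := by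
  obtain ⟨e, s', σ, he, hs', hσ⟩ := sp_aut γ s hs
  have hg1 := hg.map γ
  have hg0 := hg.map (algebraMap K (Kb K))
  obtain ⟨F', _, ψ', i, hf', hi⟩ := ffd_bc h hg1.monic (algebraMap KK (Kb KK)) (hg1.irr' _)
  obtain ⟨F₀, _, ψ₀, θ₀, hf₀⟩ := ffd_ex hg0.monic hg.irr
  have e1 : (χ.map (mapRingHom (algebraMap K (Kb K)))).map (mapRingHom e) =
      (χ.map (mapRingHom γ)).map (mapRingHom (algebraMap KK (Kb KK))) := by
    rw [pgp_mm, pgp_mm, RingHom.ext (f := e.comp _) (g := (algebraMap KK (Kb KK)).comp γ) he]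
  obtain ⟨j, hj, hjθ⟩ := ffd_map hf₀ hg0.monic e (e1.symm ▸ hf')
  obtain ⟨u₀, z, hu₀, hz⟩ := hR (Kb K) (Kb KK) F₀ F' e ψ₀ ψ' j θ₀ _ l hl
    (by rwa [← map_natCast (algebraMap K (Kb K)), _root_.map_ne_zero]) hg0.monic hf₀
    (by rw [e1, hjθ]; exact hf') hj (hg.splits _) (hg0.sep (ffd_inj hf₀ hg0.monic)) (i y)
    (tyw_up (algebraMap KK (Kb KK)) i (fun a => by
      rw [RingHom.comp_apply, RingHom.comp_apply, hi, map_C]) hy)
  obtain ⟨g', hg', hgθ⟩ := sp_semi hf' (hg1.monic.map _) s' (by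
    rw [pgp_mm, pgp_mm, pgp_mm]
    exact congrArg (fun f => χ.map (mapRingHom f)) (RingHom.ext fun a => by
      simp only [RingHom.comp_apply, hs', hs]))
  obtain ⟨g₀, hg₀, hθ₀⟩ := sp_semi hf₀ hg0.monic (σ : Kb K →+* Kb K) (by
    rw [pgp_mm]
    exact congrArg (fun f => χ.map (mapRingHom f)) (RingHom.ext fun a => σ.commutes a))
  have q1 : g'.comp i = i.comp g := ffd_ext h (fun p => by
    simp only [RingHom.comp_apply, hi, hg', h1, map_map]
    exact congrArg (fun f => ψ' (p.map f)) (RingHom.ext hs')) (by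
    simp only [RingHom.comp_apply, hgθ, h2])
  have q2 : g'.comp j = j.comp g₀ := ffd_ext hf₀ (fun p => by
    simp only [RingHom.comp_apply, hj, hg', hg₀, map_map]
    exact congrArg (fun f => ψ' (p.map f)) (RingHom.ext hσ)) (by
    simp only [RingHom.comp_apply, hgθ, hjθ, hθ₀])
  obtain ⟨z₀, hz₀⟩ := hW (Kb K) F₀ ψ₀ θ₀ σ g₀ hf₀ hg₀ hθ₀ u₀ hu₀
  have q3 : i (g y) = j u₀ * j z₀ ^ l * g' z ^ l := by
    rw [← RingHom.comp_apply, ← q1, RingHom.comp_apply, hz, map_mul, map_pow,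
      ← RingHom.comp_apply, q2, RingHom.comp_apply, hz₀, map_mul, map_pow]
  refine ⟨F', inferInstance, ψ', i, j z₀ * g' z / z, hf', hi, ?_⟩
  rw [q3, hz]
  rcases eq_or_ne z 0 with rfl | h0
  · rw [map_zero, zero_pow hl.ne_zero, mul_zero, mul_zero, zero_mul]
  · rw [div_pow, mul_pow]
    field_simp

end Pool.Agent.ZCy.F.Kp
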