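import Pool.Agent.Lib.MP_751085_ag.ZF.K.SpB
import Pool.Agent.Lib.MP_751085_ag.ZF.K.SpC
import Pool.Agent.Lib.MP_751085_ag.ZC.V.Lau
import Pool.Agent.Lib.MP_751085_ag.ZC.K.Lau

/-! Specialisation of the action on Kummer classes. -/

namespace Pool.Agent.ZCy.F.Kp

open Pool.Agent.ZFy Pool.Agent.ZFy.GM
open scoped Classical WithZero IntermediateField
open Polynomial groupCohomology

set_option linter.unusedSectionVars false

theorem sp_lau {κ T : Type} [Field κ] [Field T] (f : κ →+* T) (a : Ps κ) :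
    lm f (lau (RingHom.id κ) a) = lau (RingHom.id T) (PowerSeries.map f a) := by
  ext n
  simp [lau, PowerSeries.coeff_coe, apply_ite f]

/-- the action on the coefficients -/
theorem sp_lm {κ T : Type} [Field κ] [Field T] [Algebra κ T] (σ : T ≃ₐ[κ] T) :
    ∃ s : Ls T ≃+* Ls T, (∀ x, s x = lm (σ : T →+* T) x) ∧
      (∀ x : Ls κ, s (lm (algebraMap κ T) x) = lm (algebraMap κ T) x) ∧
      ∀ a : Ps T, s (lau (RingHom.id T) a) =
        lau (RingHom.id T) (PowerSeries.map (σ : T →+* T) a) :=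
  ⟨RingEquiv.ofRingHom (lm (σ : T →+* T)) (lm (σ.symm : T →+* T))
    (RingHom.ext fun _ => HahnSeries.ext (funext fun _ => σ.apply_symm_apply _))
    (RingHom.ext fun _ => HahnSeries.ext (funext fun _ => σ.symm_apply_apply _)), fun _ => rfl,
    fun _ => HahnSeries.ext (funext fun _ => σ.commutes _), sp_lau _⟩

theorem sp_gs {T F Fs : Type} [Field T] [Field F] [Field Fs] {χ : (Ps T)[X][X]} (hm : χ.Monic)
    {ψ : (Ls T)[X] →+* F} {θ : F} {ψ₀ : T[X] →+* Fs} {θ₀ : Fs}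
    (h : FFd ψ θ (χ.map (mapRingHom (lau (RingHom.id T)))))
    (h₀ : FFd ψ₀ θ₀ (χ.map (mapRingHom (PowerSeries.constantCoeff : Ps T →+* T)))) :
    GS (lau (RingHom.id T)) PowerSeries.X PowerSeries.constantCoeff χ ψ θ ψ₀ θ₀ :=
  ⟨(isVR_lval T).isFr, PowerSeries.X_prime, fun _ => PowerSeries.X_dvd_iff.symm,
    fun a => ⟨PowerSeries.C a, PowerSeries.constantCoeff_C a⟩, hm, h, h₀⟩

/-- The main step: lift `u` to `y` and reduce the unit `g y / y`. -/
theorem sp_main {R KK T F Fs : Type} [CommRing R] [IsDomain R] [UniqueFactorizationMonoid R]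
    [Field KK] [Field T] [IsAlgClosed T] [Field F] [Field Fs] {α : R →+* KK} {π : R} {r : R →+* T}
    {χ : R[X][X]} {ψ : KK[X] →+* F} {θ : F} {ψ₀ : T[X] →+* Fs} {θ₀ : Fs}
    (h : GS α π r χ ψ θ ψ₀ θ₀) (hg : GP (χ.map (mapRingHom α))) {l : ℕ} (hl : l ≠ 0)
    (hG : GMI l α ψ) (f : R →+* R) {g : F →+* F} {g₀ : Fs →+* Fs}
    (h1 : ∀ G, g (evl α ψ θ G) = evl α ψ θ (G.map (mapRingHom f)))
    (h2 : ∀ G, g₀ (evl r ψ₀ θ₀ G) = evl r ψ₀ θ₀ (G.map (mapRingHom f)))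
    (hp : ∀ y, TyW l (ψ.comp C) y → ∃ (F' : Type) (_ : Field F') (ψ' : (Kb KK)[X] →+* F')
      (i : F →+* F') (t : F'),
      FFd ψ' (i θ) ((χ.map (mapRingHom α)).map (mapRingHom (algebraMap KK (Kb KK)))) ∧
      (∀ p, i (ψ p) = ψ' (p.map (algebraMap KK (Kb KK)))) ∧ i (g y) = i y * t ^ l)
    {u : Fs} (hu : TyW l (ψ₀.comp C) u) : ∃ z, g₀ u = u * z ^ l := by
  by_cases h0 : u = 0
  · exact ⟨0, by rw [h0, map_zero, zero_mul]⟩
  obtain ⟨w, hw⟩ := h.ex
  obtain ⟨ρ, hρ⟩ := h.red hw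
  obtain ⟨y, z, hz, e, hy⟩ := hG.lift π w T Fs r (ψ₀.comp C) ρ h.prime.irreducible hw hρ.red
    hρ.onto h.onto (fun a y hy => (hρ.ev (C (C a)) y (by simp [hy, evl])).trans (by simp [evl]))
    u h0 hu
  obtain ⟨y', e1, e2⟩ := h.map h f h1 h2 hρ hρ y
  obtain ⟨F', _, ψ', i, t, hf, hc, e3⟩ := hp y hy
  have h4 := (hρ.red.ne_zero y).1 (e ▸ mul_ne_zero h0 (pow_ne_zero _ hz))
  have h5 : (y : F) ≠ 0 := w.ne_zero_iff.1 (h4 ▸ one_ne_zero)
  let x : w.integer := ⟨y' / y, show w _ ≤ 1 by rw [map_div₀, h4, div_one]; exact y'.2⟩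
  obtain ⟨z', e4⟩ := sp_pow h hg hρ hf hc (x := x) (t := t) hl (by
    rw [map_div₀, e1, e3, mul_div_cancel_left₀ _ ((_root_.map_ne_zero i).2 h5)])
  have e5 := congrArg ρ (show x * y = y' from Subtype.ext (div_mul_cancel₀ _ h5))
  rw [map_mul, e2, e4, e, map_mul, map_pow] at e5
  refine ⟨z' * z / g₀ z, ?_⟩
  rw [div_pow, ← mul_div_assoc, eq_div_iff (pow_ne_zero _ ((_root_.map_ne_zero g₀).2 hz)), ← e5]
  ring

/-- `sp_main` over the power series with coefficients in the algebraic closure -/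
theorem spec (hR : RGD) {B κ K : Type} [CommRing B] [Field κ] [Field K] {χ : B[X][X]} {Φ : B}
    (hm : χ.Monic) (hG : GoodC χ fun _ _ η => IsUnit (η Φ)) (η : B →+* Ps κ) (hη : IsUnit (η Φ))
    (β : B →+* K) (γ : K →+* Ls κ) (hγ : ∀ b, γ (β b) = lau (RingHom.id κ) (η b))
    (h0 : GP (χ.map (mapRingHom β)))
    (_h1 : GP (χ.map (mapRingHom ((PowerSeries.constantCoeff : Ps κ →+* κ).comp η)))) {l : ℕ}
    (hl : l.Prime) (hl0 : (l : κ) ≠ 0) (hW : WF l (χ.map (mapRingHom β))) :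
    WF l (χ.map (mapRingHom ((PowerSeries.constantCoeff : Ps κ →+* κ).comp η))) := by
  intro T Fs _ _ _ _ ψ₀ θ₀ σ g₀ hf₀ a1 a2 u hu
  have := IsAlgClosure.isAlgClosed κ (K := T)
  have := isAlgClosed_res_ps T
  let η' := (PowerSeries.map (algebraMap κ T)).comp η
  let γ' := (lm (algebraMap κ T)).comp γ
  have E0 : χ.map (mapRingHom ((lau (RingHom.id T)).comp η')) =
      (χ.map (mapRingHom β)).map (mapRingHom γ') := by
    rw [Polynomial.map_map, mapRingHom_comp]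
    exact congrArg (fun f => χ.map (mapRingHom f)) (RingHom.ext fun b =>
      (sp_lau _ _).symm.trans (congrArg _ (hγ b).symm))
  have E1 : (χ.map (mapRingHom η')).map (mapRingHom (lau (RingHom.id T))) =
      (χ.map (mapRingHom β)).map (mapRingHom γ') := by
    rw [← E0, Polynomial.map_map, mapRingHom_comp]
  obtain ⟨F, _, ψ, θ, hf⟩ := ffd_ex (h0.map γ').monic (h0.irr' γ')
  obtain ⟨s, -, b2, b3⟩ := sp_lm σ
  obtain ⟨g, c1, c2⟩ := sp_semi hf (h0.map γ').monic (s : Ls T →+* Ls T) (by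
    rw [pgp_mm, show (s : Ls T →+* Ls T).comp γ' = γ' from RingHom.ext fun a => b2 _])
  refine sp_main (χ := χ.map (mapRingHom η')) (sp_gs (hm.map _) (E1 ▸ hf) ?_) (E1 ▸ h0.map γ')
    hl.ne_zero (hG _ _ F η' _ ψ θ l (isVR_lval T).isFr
      (hη.map (PowerSeries.map (algebraMap κ T))) (E0 ▸ hf) hl ?_) (PowerSeries.map (σ : T →+* T))
    (evl_map _ b3 c1 c2) (evl_map _ (by exact fun _ => rfl) a1 a2)
    (fun y hy => E1 ▸ sp_gen hR h0 γ' hf hl (fun e => hl0 ?_) hW s (fun _ => b2 _) c1 c2 hy) hu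
  · rw [Polynomial.map_map, mapRingHom_comp] at hf₀ ⊢
    exact hf₀
  · simpa using hl0.isUnit.map (PowerSeries.C.comp (algebraMap κ T))
  · refine (hc : κ →+* Ls κ).injective ?_
    rw [map_natCast, map_zero, ← map_natCast γ, e, map_zero]

end Pool.Agent.ZCy.F.Kp
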