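import Pool.Agent.Lib.MP_751085_ag.ZF.K.Wrap
import Pool.Agent.Lib.MP_751085_ag.ZF.K.Spec
import Pool.Agent.Lib.MP_751085_ag.ZF.K.K9a
import Pool.Agent.Lib.MP_751085_ag.ZF.K.K9b

/-! Theorem K on a hyperplane. -/

namespace Pool.Agent.ZCy.F.Kp

open Pool.Agent.ZFy Pool.Agent.ZFy.GM
open scoped Classical WithZero IntermediateField
open Polynomial groupCohomology

set_option linter.unusedSectionVars false

theorem pk9_fac {A K T : Type} [CommRing A] [Field K] [Field T] (e : K →+* T) (ρ : A →+* T)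
    (h : ∀ x, ρ x ∈ e.range) : ∃ ρ₀ : A →+* K, ∀ x, e (ρ₀ x) = ρ x :=
  let i := RingEquiv.ofBijective e.rangeRestrict
    ⟨e.rangeRestrict.injective, e.rangeRestrict_surjective⟩
  ⟨(i.symm : e.range →+* K).comp (ρ.codRestrict _ h), fun x =>
    congrArg Subtype.val (i.apply_symm_apply ⟨_, h x⟩)⟩

theorem kx_wf (hR : RGD) {k σ T TH : Type} [Field k] {c : PChart k (Option σ)}
    {Φ : MP (Option σ) k} {c'' : PChart k σ} [Field T] [Field TH]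
    [Algebra (RF (Option (Option σ)) k) T] [Algebra (RF (Option σ) k) TH]
    [FiniteDimensional (RF (Option σ) k) TH] [IsGalois (RF (Option σ) k) TH] {w : Vl T}
    {ρ : w.integer →+* TH} {l : ℕ} (hi : c.GI) (hG : GoodM c Φ) (hh : c.IsHyp c'') (hi'' : c''.GI)
    (h0 : hyp0 Φ ≠ 0) (hl : l.Prime) (hl0 : (l : k) ≠ 0) (hZ : KZ l c Φ T)
    (hρ : HRes (k := k) (σ := σ) w ρ (RingHom.id TH)) :
    ∃ (K₃ : Type) (_ : Field K₃) (_ : Algebra (RF σ k) K₃) (_ : FiniteDimensional (RF σ k) K₃)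
      (_ : IsGalois (RF σ k) K₃) (e₃ : K₃ →+* TH),
      (∀ p, e₃ (toF (MP σ k) (RF σ k) K₃ p) = toE (MP (Option σ) k) TH (up p)) ∧
      WF l ((cχ c'').map (mapRingHom (toF (MP σ k) (RF σ k) K₃))) := by
  obtain ⟨K, K₀, _, _, _, _, _, α, e, hα, hu, he, hW⟩ := hZ
  obtain ⟨ψ, hψ, ht⟩ := kx_alg k σ
  obtain ⟨K₃, _, _, _, _, e₃, h₃, hc⟩ := kx_cl (T := TH) hψ
  have h4 : ∀ p, e₃ (toF (MP σ k) (RF σ k) K₃ p) = toE (MP (Option σ) k) TH (up p) := fun p =>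
    (h₃ _).trans (congrArg (algebraMap (RF (Option σ) k) TH) (kx_up ht p))
  refine ⟨K₃, _, _, ‹_›, ‹_›, e₃, h4, ?_⟩
  have ho := Over.comap e w
  have hv : Cen (tE K₀ α) (w.comap e) (MvPolynomial.X none) :=
    ⟨fun p => by rw [Valuation.comap_apply, he]; exact hρ.cen.1 _,
      fun p => by rw [Valuation.comap_apply, he, hρ.cen.2, kx_upX]⟩
  have hr := hρ.red.comp_int ho
  have hb : ∀ (p : MP (Option σ) k) (y : (w.comap e).integer), (y : K₀) = tE K₀ α p →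
      ρ (ho.int y) = e₃ (toF (MP σ k) (RF σ k) K₃ (hyp0 p)) := fun p y hy => by
    rw [h4, ← hyp_up]
    exact hρ.base _ _ ((congrArg e hy).trans (he p))
  obtain ⟨ρ₀, h5⟩ := pk9_fac e₃ (ρ.comp ho.int) fun x => hc _ (kxw_res hα kx_hyp0.1 hv hr
    ((tE TH ψ).comp C) (fun p y hy => ⟨_, ((hb p y hy).trans (h₃ _)).symm⟩) x)
  have hβ : Function.Injective (toF (MP σ k) (RF σ k) K₃) :=
    (algebraMap (RF σ k) K₃).injective.comp (IsFractionRing.injective _ _)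
  obtain ⟨η, γ, h6, h7⟩ := kx_lift hα hv (hu _ _ kx_hyp0.1 (fun h => h0 ((kx_hyp0.2 _).2 h)) hv)
    (ρ := ρ₀) (fun x => by rw [← map_eq_zero_iff e₃ e₃.injective, h5]; exact hr x) hβ
    fun p y hy => e₃.injective ((h5 y).trans (hb p y hy))
  have h8 : (cχ c'').map (mapRingHom (toF (MP σ k) (RF σ k) K₃)) = (cχ c).map (mapRingHom
      ((PowerSeries.constantCoeff : Ps K₃ →+* K₃).comp η)) := by
    rw [kx_hyp hh, Polynomial.map_map, mapRingHom_comp]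
    exact congrArg (fun f => (cχ c).map (mapRingHom f)) (RingHom.ext fun p => (h6 p).symm)
  refine h8 ▸ spec hR (kx_mon c) hG η (PowerSeries.isUnit_iff_constantCoeff.2 ?_) _ γ h7
    (kx_gp c hi ((algebraMap K K₀).injective.comp hα.1)) (h8 ▸ kx_gp c'' hi'' hβ) hl ?_ hW
  · exact h6 Φ ▸ ((map_ne_zero_iff _ hβ).2 h0).isUnit
  · exact map_natCast ((toF (MP σ k) (RF σ k) K₃).comp MvPolynomial.C) l ▸
      (_root_.map_ne_zero _).2 hl0

theorem thmK9_of (hD : DIVp) (hR : RGD) : ThmK9 := by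
  rintro k _ σ _ c Φ c'' T TH _ _ _ _ _ _ w ρ F _ _ θ l hi hG hh hi'' hG'' h0 hF hl hl0 hs hZ hρ
    hρ' hu a ⟨n, hn⟩ H ⟨M, _, _, _, z, j, b, hz, hz', hj, hb⟩
  have := (kx_gen hz' c''.sep hz).2
  obtain ⟨k₂, _, _, _, _, e, ζ, hζ, he⟩ := kx_k2 (k := k) b (n := l ^ (c''.δ.factorization l + n))
    (by rw [Nat.cast_pow]; exact pow_ne_zero _ hl0)
  obtain ⟨K₃, _, _, _, _, e₃, h₃, hW⟩ := kx_wf hR hi hG hh hi'' h0 hl hl0 hZ hρ
  obtain ⟨R, i, h1, h2, -, h3⟩ := kx_main (K₃ := K₃) hD c'' hi'' hF hG'' hl hl0 H hj hb e hn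
    (q := 1) ((one_nsmul _).trans he) l.coprime_one_left hζ (0 : k) hu
  refine ⟨R, h1, h2, w, (i : TH →+* R.E).comp ρ, ⟨hρ.cen, hρ.red.comp _, fun p y hy =>
    (congrArg i (hρ.base p y hy)).trans (i.commutes _)⟩, ?_⟩
  rw [RingHom.coe_comp, hρ'.range_comp]
  refine h3 e₃ h₃ ?_ hW
  rw [hh.χ, Polynomial.map_map]
  exact kx_rspl hρ.cen.1 ρ hρ.base c.monic hs

end Pool.Agent.ZCy.F.Kp
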