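import Pool.Agent.Lib.MP_751085_ag.ZF.K.NeedA
import Pool.Agent.Lib.MP_751085_ag.ZF.Z.GDefs
import Pool.Agent.Lib.MP_751085_ag.ZC.K.Fin

/-! The Galois closure over the rational function field. -/

namespace Pool.Agent.ZCy.F.Kp

open Pool.Agent.ZFy Pool.Agent.ZFy.GM
open scoped Classical WithZero IntermediateField
open Polynomial groupCohomology

set_option linter.unusedSectionVars false

/-- The Galois closure over `L` of the compositum of `E` and `T`. -/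
structure Clo (L F E T : Type) [Field L] [Field F] [Field E] [Field T] [Algebra L F] [Algebra F E]
    [Algebra L T] : Type 1 where
  N : Type
  [fld : Field N]
  [algL : Algebra L N]
  [algF : Algebra F N]
  [tow : IsScalarTower L F N]
  [fin : FiniteDimensional L N]
  [gal : IsGalois L N]
  i : E →ₐ[F] N
  i₀ : T →ₐ[L] N
  gen : ∀ g : N ≃ₐ[L] N, (∀ x, g (i₀ x) = i₀ x) →
    (∀ (h : N ≃ₐ[L] N) (x : E), g (h (i x)) = h (i x)) → g = 1

attribute [instance] Clo.fld Clo.algL Clo.algF Clo.tow Clo.fin Clo.gal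

variable {L F E T A : Type} [Field L] [Field F] [Field E] [Field T] [Algebra L F] [Algebra F E]
  [Algebra L T] [FiniteDimensional F E] [IsGalois F E] [FiniteDimensional L T] [IsGalois L T]
  [CommRing A]

theorem pclo_ind {N : Type} [Field N] {S : Set F} (hS : IntermediateField.adjoin L S = ⊤)
    (a b : F →+* N) (h1 : ∀ k, a (algebraMap L F k) = b (algebraMap L F k))
    (h2 : ∀ x ∈ S, a x = b x) (x : F) : a x = b x := by
  have hx : x ∈ IntermediateField.adjoin L S := hS ▸ IntermediateField.mem_top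
  induction hx using IntermediateField.adjoin_induction with
  | mem x hx => exact h2 x hx
  | algebraMap k => exact h1 k
  | add x y _ _ hx hy => rw [map_add, map_add, hx, hy]
  | inv x _ hx => rw [map_inv₀, map_inv₀, hx]
  | mul x y _ _ hx hy => rw [map_mul, map_mul, hx, hy]

variable (L F E T) in
theorem clo_ex [FiniteDimensional L F] [Algebra.IsSeparable L F] : Nonempty (Clo L F E T) := by
  let : Algebra L E := ((algebraMap F E).comp (algebraMap L F)).toAlgebra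
  have : IsScalarTower L F E := .of_algebraMap_eq fun _ => rfl
  obtain ⟨E', _, _, _, _, j, -, hj, -, -, hg⟩ := exists_bc T (algebraMap L E)
  let : Algebra L E' := ((algebraMap E E').comp (algebraMap L E)).toAlgebra
  have : IsScalarTower L E E' := .of_algebraMap_eq fun _ => rfl
  have : FiniteDimensional L E := .trans L F E
  have : FiniteDimensional L E' := .trans L E E'
  have : Algebra.IsSeparable L E := .trans L F E
  have : Algebra.IsSeparable L E' := .trans L E E'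
  obtain ⟨N, _, _, _, _, _, _, hN⟩ := exists_gc L E'
  let : Algebra F N := ((algebraMap E' N).comp ((algebraMap E E').comp (algebraMap F E))).toAlgebra
  have : IsScalarTower L F N := .of_algebraMap_eq fun a => IsScalarTower.algebraMap_apply L E' N a
  let i₀ : T →ₐ[L] N := ⟨(algebraMap E' N).comp j, fun a =>
    (congrArg (algebraMap E' N) (hj a)).trans (IsScalarTower.algebraMap_apply L E' N a).symm⟩
  obtain ⟨r, hr⟩ := kfin_res i₀
  refine ⟨{ N := N, i := ⟨(algebraMap E' N).comp (algebraMap E E'), fun _ => rfl⟩, i₀ := i₀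
            gen := fun g h1 h2 => hN g fun h => pclo_ind hg
              (((g : N →+* N).comp (h : N →+* N)).comp (algebraMap E' N))
              ((h : N →+* N).comp (algebraMap E' N)) (h2 h) ?_ }⟩
  rintro _ ⟨x, rfl⟩
  show g (h (i₀ x)) = h (i₀ x)
  rw [← hr, h1]

variable (R : Clo L F E T)

/-- `g` fixes the conjugates of `F` -/
def Clo.Fx (g : R.N ≃ₐ[L] R.N) : Prop :=
  ∀ (h : R.N ≃ₐ[L] R.N) (x : F), g (h (algebraMap F R.N x)) = h (algebraMap F R.N x)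

theorem Clo.fx_of {θ : F} (hθ : L⟮θ⟯ = ⊤) {g : R.N ≃ₐ[L] R.N}
    (hg : ∀ h : R.N ≃ₐ[L] R.N, g (h (algebraMap F R.N θ)) = h (algebraMap F R.N θ)) :
    R.Fx g := fun h => pclo_ind hθ
  (((g : R.N →+* R.N).comp (h : R.N →+* R.N)).comp (algebraMap F R.N))
  ((h : R.N →+* R.N).comp (algebraMap F R.N))
  (fun k => by simp [← IsScalarTower.algebraMap_apply]) fun x hx => hx ▸ hg h

theorem pclo_root {θ : F} {φ : A →+* L} {χ : A[X]} (h0 : χ.eval₂ (tE F φ) θ = 0)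
    (h : R.N ≃ₐ[L] R.N) : χ.eval₂ (tE R.N φ) (h (algebraMap F R.N θ)) = 0 := by
  have := hom_eval₂ χ (tE F φ) ((h : R.N →+* R.N).comp (algebraMap F R.N)) θ
  rw [h0, map_zero, show ((h : R.N →+* R.N).comp (algebraMap F R.N)).comp (tE F φ) = tE R.N φ from
    RingHom.ext fun a => by simp [← IsScalarTower.algebraMap_apply]] at this
  exact this.symm

theorem Clo.fx_ine {θ : F} (hθ : L⟮θ⟯ = ⊤) {φ : A →+* L} {χ a b : A[X]} {D P : A} (hm : χ.Monic)
    (hb : C D = a * χ + b * derivative χ) (h0 : χ.eval₂ (tE F φ) θ = 0) (hP : Prime P)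
    (hD : ¬P ∣ D) {W : Vl R.N} (hW : Cen (tE R.N φ) W P) {g : R.N ≃ₐ[L] R.N} (hg : g ∈ Ine L W) :
    R.Fx g := R.fx_of hθ fun h =>
  hW.root_fix hm (n := 1) (by rwa [pow_one]) hP hD hg (pclo_root R h0 h)

theorem Clo.fx_spl {θ : F} (hθ : L⟮θ⟯ = ⊤) {φ : A →+* L} {χ : A[X]} (hm : χ.Monic)
    (h0 : χ.eval₂ (tE F φ) θ = 0) (hs : (χ.map (tE T φ)).Splits) {g : R.N ≃ₐ[L] R.N}
    (hg : ∀ x, g (R.i₀ x) = R.i₀ x) : R.Fx g := R.fx_of hθ fun h => by
  have e : (R.i₀ : T →+* R.N).comp (tE T φ) = tE R.N φ := RingHom.ext fun a => R.i₀.commutes _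
  obtain ⟨y, hy⟩ := hs.mem_range_of_isRoot (i := (R.i₀ : T →+* R.N)) (hm.map _).ne_zero
    (x := h (algebraMap F R.N θ)) (by rw [map_map, e, IsRoot, eval_map, pclo_root R h0])
  rw [← hy]
  exact hg y

theorem Clo.conj {g : R.N ≃ₐ[L] R.N} (hg : R.Fx g) (h : R.N ≃ₐ[L] R.N) :
    ∃ g' : R.N ≃ₐ[F] R.N, ∀ (n : ℕ) (x : R.N), (g ^ n) (h x) = h ((g' ^ n) x) := by
  let g' : R.N ≃ₐ[F] R.N :=
    { (h⁻¹ * g * h).toRingEquiv with
      commutes' := fun a => by
        show h.symm (g (h _)) = _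
        rw [hg, h.symm_apply_apply] }
  have e : ∀ x, h (g' x) = g (h x) := fun x => h.apply_symm_apply _
  refine ⟨g', fun n x => ?_⟩
  induction n with
  | zero => rfl
  | succ n ih => rw [pow_succ', pow_succ', AlgEquiv.mul_apply, AlgEquiv.mul_apply, ih, e]

theorem Clo.nrm (h : R.N ≃ₐ[L] R.N) (x : T) : ∃ y, h (R.i₀ x) = R.i₀ y := by
  obtain ⟨r, hr⟩ := kfin_res R.i₀
  exact ⟨_, (hr h x).symm⟩

theorem pclo_res {N : Type} [Field N] [Algebra L N] (j : T →ₐ[L] N) {φ : A →+* L} {P : A} {W : Vl N}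
    (hW : Cen (tE N φ) W P) {g : N ≃ₐ[L] N} (hg : g ∈ Ine L W)
    (H : ∀ (w : Vl T) (u : T ≃ₐ[L] T), Cen (tE T φ) w P → u ∈ Ine L w →
      (∀ p : ℕ, w p = W p) → (∀ n : ℕ, g ^ n = 1 → u ^ n = 1) → u = 1) (x : T) :
    g (j x) = j x := by
  obtain ⟨r, hr⟩ := kfin_res j
  have ho := Over.comap (j : T →+* N) W
  have e : (j : T →+* N).comp (tE T φ) = tE N φ := RingHom.ext fun a => j.commutes _
  rw [← hr, H _ (r g) ((cen_of_over ho).1 (e ▸ hW)) (Rs.ine (j := (j : T →+* N)) hr ho hg)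
    (fun p => by rw [Valuation.comap_apply, map_natCast])
    fun n e => by rw [← map_pow, e, map_one], AlgEquiv.one_apply]

theorem pclo_one {φ : A →+* L} {P : A} {W : Vl R.N} (hW : Cen (tE R.N φ) W P) {g : R.N ≃ₐ[L] R.N}
    (hg : g ∈ Ine L W) (hF : R.Fx g)
    (hT : ∀ (w : Vl T) (u : T ≃ₐ[L] T), Cen (tE T φ) w P → u ∈ Ine L w →
      (∀ p : ℕ, w p = W p) → (∀ n : ℕ, g ^ n = 1 → u ^ n = 1) → u = 1)
    (hE : ∀ (w : Vl E) (u : E ≃ₐ[F] E), Cen (tE E (tE F φ)) w P → u ∈ Ine F w →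
      (∀ p : ℕ, w p = W p) → (∀ n : ℕ, g ^ n = 1 → u ^ n = 1) → u = 1) : g = 1 := by
  refine R.gen g (pclo_res R.i₀ hW hg hT) fun h x => ?_
  obtain ⟨g', e⟩ := R.conj hF h
  have e1 : ∀ x, g (h x) = h (g' x) := fun x => by simpa only [pow_one] using e 1 x
  have e2 : (h : R.N →+* R.N).comp (tE R.N (tE F φ)) = tE R.N φ :=
    RingHom.ext fun a => by simp [← IsScalarTower.algebraMap_apply]
  rw [e1, pclo_res R.i (W := W.comap (h : R.N →+* R.N)) (g := g')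
    ((cen_of_over (Over.comap _ W)).1 (e2 ▸ hW))
    ⟨fun y => (congrArg W (e1 y).symm).trans (hg.1 _), fun y hy => by
      have := hg.2 (h y) hy
      rwa [e1, ← map_sub] at this⟩
    fun w u h1 h2 h3 h4 => hE w u h1 h2
      (fun p => by rw [h3, Valuation.comap_apply, map_natCast]) fun n hn => h4 n
        (AlgEquiv.ext fun y => h.injective (by rw [← e, hn]; rfl))]

theorem Clo.unr {φ : A →+* L} {P : A} {W : Vl R.N} (hW : Cen (tE R.N φ) W P)
    (hF : ∀ g ∈ Ine L W, R.Fx g) (hT : ∀ w : Vl T, Cen (tE T φ) w P → Ine L w = ⊥)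
    (hE : ∀ w : Vl E, Cen (tE E (tE F φ)) w P → Ine F w = ⊥) : Ine L W = ⊥ :=
  eq_bot_iff.2 fun g hg => Subgroup.mem_bot.2 (pclo_one R hW hg (hF g hg)
    (fun w _ h1 h2 _ _ => Subgroup.mem_bot.1 (hT w h1 ▸ h2))
    fun w _ h1 h2 _ _ => Subgroup.mem_bot.1 (hE w h1 ▸ h2))

theorem Clo.tame {φ : A →+* L} {P : A} {W : Vl R.N} (hW : Cen (tE R.N φ) W P)
    (hF : ∀ g ∈ Ine L W, R.Fx g) (hT : ∀ w : Vl T, Cen (tE T φ) w P → Tame L w)
    (hE : ∀ w : Vl E, Cen (tE E (tE F φ)) w P → Tame F w) : Tame L W :=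
  kn_tame (AlgHom.id L R.N) (w := W) (fun _ => Iff.rfl) fun g hg p a hp hw h x => by
    rw [pclo_one R hW hg (hF g hg)
      (fun w _ h1 h2 h3 h4 => kn_ptriv (hT w h1) h2 hp ((h3 p).trans_lt hw) (h4 _ h))
      fun w _ h1 h2 h3 h4 => kn_ptriv (hE w h1) h2 hp ((h3 p).trans_lt hw) (h4 _ h),
      AlgEquiv.one_apply]

theorem Clo.lxt {l : ℕ} {S : Set R.N} (hS : ∀ x, R.i₀ x ∈ S)
    (H : ∀ g : R.N ≃ₐ[L] R.N, (∀ x ∈ S, g x = x) → ∀ h : R.N ≃ₐ[L] R.N, ∃ m : ℕ, ∀ x,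
      (g ^ l ^ m) (h (R.i x)) = h (R.i x)) : LXt l L S := fun g => by
  choose m hm using H g.1 g.2
  obtain ⟨k, hk⟩ := (Set.finite_range m).bddAbove
  refine ⟨k, Subtype.ext (R.gen _ (fun x => (g ^ l ^ k).2 _ (hS x)) fun h x => ?_)⟩
  obtain ⟨d, rfl⟩ := Nat.exists_eq_add_of_le (hk ⟨h, rfl⟩)
  rw [Subgroup.coe_pow, pow_add, pow_mul]
  have : g.1 ^ l ^ m h ∈ fixS L {h (R.i x)} := fun y hy => hy ▸ hm h x
  exact pow_mem this _ _ rfl

theorem Clo.coc {c : (E ≃ₐ[F] E) × (E ≃ₐ[F] E) → Eˣ} (hc : IsMulCocycle₂ c) {M : ℕ}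
    (hM : ∀ p, c p ^ M = 1) : ∃ c' : (R.N ≃ₐ[F] R.N) × (R.N ≃ₐ[F] R.N) → R.Nˣ,
      IsMulCocycle₂ c' ∧ (∀ p, c' p ^ M = 1) ∧ cls F c' = cls F c := by
  have : IsGalois F R.N := IsGalois.tower_top_of_isGalois L F R.N
  have : FiniteDimensional F R.N := Module.Finite.of_restrictScalars_finite L F R.N
  obtain ⟨r, hr⟩ := kfin_res R.i
  refine ⟨pull (R.i : E →+* R.N) r c, pull_coc hr hc, fun p => ?_,
    (ka_pull (RingHom.id F) R.i.commutes hr hc).symm.trans (ka_id _)⟩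
  rw [pull, ← map_pow, hM, map_one]

theorem ine_self (w : Vl L) : Ine L w = ⊥ ∧ Tame L w := by
  have h : Ine L w = ⊥ := eq_bot_iff.2 fun g _ => Subgroup.mem_bot.2 (AlgEquiv.ext g.commutes)
  exact ⟨h, by rw [Tame, h, Subgroup.card_bot, Nat.cast_one, map_one]⟩

end Pool.Agent.ZCy.F.Kp
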