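import Pool.Agent.Lib.MP_751085_ag.ZF.K.KDf2
import Pool.Agent.Lib.MP_751085_ag.ZF.RDefs

/-! The conclusion of Theorem K. -/

namespace Pool.Agent.ZCy.F.Kp

open Pool.Agent.ZFy Pool.Agent.ZFy.GM
open scoped Classical WithZero IntermediateField
open Polynomial groupCohomology

set_option linter.unusedSectionVars false

/-- A cocycle in roots of unity that represents `a`. -/
structure KOut (F : Type) [Field F] (a : BR F) (M : ℕ) : Type 1 where
  E : Type
  [fld : Field E]
  [alg : Algebra F E]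
  [fin : FiniteDimensional F E]
  [gal : IsGalois F E]
  c : (E ≃ₐ[F] E) × (E ≃ₐ[F] E) → Eˣ
  coc : IsMulCocycle₂ c
  pw : ∀ p, c p ^ M = 1
  cls_eq : cls F c = a

attribute [instance] KOut.fld KOut.alg KOut.fin KOut.gal

variable {A B K : Type} (K₂ K₃ : Type) {F : Type} [CommRing A] [CommRing B] [Field K] [Field K₂]
  [Field K₃] [Field F] [Algebra A K] [Algebra B K] [Algebra K K₂] [Algebra K K₃] [Algebra K₂ (Ks K)]
  [Algebra K[X] F] [Algebra F (Os K)]

/-- The ramification of the field `E` that carries the cocycle. -/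
structure KRam (c : Cur K F) (l : ℕ) (Φ : A) (P₀ : B) (E : Type) [Field E] [Algebra F E] :
    Prop where
  cst : ∃ j₂ : K₂ →+* E, ∀ a, j₂ (algebraMap K K₂ a) = kap K F E a
  hor : ∀ w : Vl E, Triv (kap K F E) w → Ine F w = ⊥
  ver : ∀ (P : A) (w : Vl E), Prime P → ¬P ∣ Φ → Cen (pB A K F E) w (C P) → Ine F w = ⊥
  tame : c.Tm K₂ l P₀ → ∀ w : Vl E, Cen (pB B K F E) w (C P₀) → Tame F w
  lad : WF l (c.χ.map (mapRingHom (algebraMap K K₃))) → LAd l K K₂ K₃ F E

end Pool.Agent.ZCy.F.Kp
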