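import Pool.Agent.Lib.MP_751085_ag.ZF.A2b
import Pool.Agent.Lib.MP_751085_ag.ZF.K.KDf3

/-! Facts on Brauer groups. -/

namespace Pool.Agent.ZCy.F.Kp

open Pool.Agent.ZFy Pool.Agent.ZFy.GM
open scoped Classical WithZero IntermediateField
open Polynomial groupCohomology

set_option linter.unusedSectionVars false

variable {K K' K'' E E' G G' : Type} [Field K] [Field K'] [Field K''] [Field E] [Field E']
  [Algebra K E] [Algebra K' E'] [Group G] [Group G'] [Finite G] [Finite G'] [MulSemiringAction G E]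
  [MulSemiringAction G' E'] [IsGaloisGroup G K E] [IsGaloisGroup G' K' E']

theorem ka_id (a : BR K) : rs (RingHom.id K) a = a := res_id a

theorem ka_comp (γ : K →+* K') (γ' : K' →+* K'') (a : BR K) :
    rs γ' (rs γ a) = rs (γ'.comp γ) a := res_res γ γ' a

theorem ka_pull (γ : K →+* K') {j : E →+* E'}
    (hj : ∀ a, j (algebraMap K E a) = algebraMap K' E' (γ a)) {r : G' → G}
    (hr : ∀ g x, j (r g • x) = g • j x) {c : G × G → Eˣ} (hc : IsMulCocycle₂ c) :
    rs γ (cls K c) = cls K' (pull j r c) := rs_cls γ hj hr hc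

theorem ka_mul {c c' : G × G → Eˣ} (hc : IsMulCocycle₂ c) (hc' : IsMulCocycle₂ c') :
    cls K (c * c') = cls K c + cls K c' := cls_mul hc hc'

theorem ka_zero {c : G × G → Eˣ} (hc : IsMulCocycle₂ c) : cls K c = 0 ↔ ∃ e, c = dd e :=
  cls_eq_zero hc

theorem ka_split {T : Type} [Field T] [Algebra K T] [IsGalois K T] {a : BR K}
    (h : rs (algebraMap K T) a = 0) : ∃ (S : IntermediateField K T) (_ : FiniteDimensional K S)
      (_ : IsGalois K S) (c : (S ≃ₐ[K] S) × (S ≃ₐ[K] S) → Sˣ), IsMulCocycle₂ c ∧ cls K c = a :=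
  exists_cls_split h

theorem ka_dies (a : BR K) : ∃ (S : IntermediateField K (SC K))
    (_ : FiniteDimensional K S) (_ : IsGalois K S), rs (algebraMap K S) a = 0 := exists_dies a

theorem ka_card [FiniteDimensional K E] [Algebra.IsSeparable K E] {a : BR K}
    (h : rs (algebraMap K E) a = 0) : Module.finrank K E • a = 0 := finrank_smul_of_rs h

end Pool.Agent.ZCy.F.Kp
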