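import Pool.Agent.Lib.MP_751085_ag.ZF.K.KDf2
import Pool.Agent.Lib.MP_751085_ag.ZF.G.Et0
import Pool.Agent.Lib.MP_751085_ag.ZC.K.LauB

/-! Function fields of plane curves. -/

namespace Pool.Agent.ZCy.F.Kp

open Pool.Agent.ZFy Pool.Agent.ZFy.GM
open scoped Classical WithZero IntermediateField
open Polynomial groupCohomology

set_option linter.unusedSectionVars false

variable {K K' E E' : Type} [Field K] [Field K'] [Field E] [Field E'] {ψ : K[X] →+* E} {θ : E}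
  {χ : K[X][X]} {ψ' : K'[X] →+* E'} {θ' : E'} {χ' : K'[X][X]}

theorem ffd_root (h : FFd ψ θ χ) : χ.eval₂ ψ θ = 0 := (h.ker χ).2 dvd_rfl

theorem pffd_prime (h : FFd ψ θ χ) (hm : χ.Monic) : Prime χ := by
  refine ⟨hm.ne_zero, fun hu => ?_, fun G H hG => ?_⟩
  · simpa using (h.ker 1).2 hu.dvd
  · rwa [← h.ker, eval₂_mul, mul_eq_zero, h.ker, h.ker] at hG

/-- `χ` does not divide `1`, so it has positive degree and divides no nonzero constant -/
theorem ffd_inj (h : FFd ψ θ χ) (hm : χ.Monic) : Function.Injective ψ := by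
  refine (injective_iff_map_eq_zero _).2 fun p hp => by_contra fun h0 => ?_
  have h1 := natDegree_le_of_dvd ((h.ker (C p)).1 (by rw [eval₂_C, hp])) (C_ne_zero.2 h0)
  rw [natDegree_C] at h1
  exact (hm.natDegree_pos_of_not_isUnit (pffd_prime h hm).not_isUnit).not_ge h1

/-- `(χ)` is the kernel of a map to a field -/
theorem ffd_irr (h : FFd ψ θ χ) (hm : χ.Monic) : Irreducible χ := (pffd_prime h hm).irreducible

theorem ffd_clo (h : FFd ψ θ χ) : Subfield.closure (Set.range ψ ∪ {θ}) = ⊤ := by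
  have h2 : θ ∈ Subfield.closure (Set.range ψ ∪ {θ}) := Subfield.subset_closure (Or.inr rfl)
  have h1 : ∀ a : K[X][X], a.eval₂ ψ θ ∈ Subfield.closure (Set.range ψ ∪ {θ}) := fun a => by
    rw [eval₂_eq_sum_range]
    exact sum_mem fun i _ => mul_mem (Subfield.subset_closure (Or.inl ⟨_, rfl⟩)) (pow_mem h2 _)
  refine eq_top_iff.2 fun x _ => ?_
  obtain ⟨a, b, -, rfl⟩ := h.frac x
  exact div_mem (h1 a) (h1 b)

/-- `kl_ker`; the fractions form a subfield -/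
theorem ffd_of (hψ : Function.Injective ψ) (hm : χ.Monic) (hi : Irreducible χ)
    (h0 : χ.eval₂ ψ θ = 0) (hg : Subfield.closure (Set.range ψ ∪ {θ}) = ⊤) : FFd ψ θ χ := by
  refine ⟨kl_ker hψ hm hi h0, fun f => ?_⟩
  have h1 : Subring.closure (Set.range ψ ∪ {θ}) ≤ (eval₂RingHom ψ θ).range := by
    refine Subring.closure_le.2 ?_
    rintro _ (⟨p, rfl⟩ | rfl)
    · exact ⟨C p, eval₂_C _ _⟩
    · exact ⟨X, eval₂_X _ _⟩
  obtain ⟨y, hy, z, hz, rfl⟩ := Subfield.mem_closure_iff.1 (hg ▸ Subfield.mem_top f)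
  obtain ⟨a, rfl⟩ := h1 hy
  obtain ⟨b, rfl⟩ := h1 hz
  by_cases hb : b.eval₂ ψ θ = 0
  · exact ⟨0, 1, by simp, by simp [hb]⟩
  · exact ⟨a, b, hb, rfl⟩

/-- `etl_of_irr` -/
theorem ffd_etl (h : FFd ψ θ χ) (hm : χ.Monic) {ρ : K[X]} {α β : K[X][X]} (h0 : ρ ≠ 0)
    (hb : C ρ = α * χ + β * derivative χ) : Etl ψ θ χ ρ :=
  etl_of_irr (ffd_inj h hm) hm (ffd_irr h hm) (ffd_root h) hb h0 (ffd_clo h)

theorem etl_ffd {D : K[X]} (h : Etl ψ θ χ D) : FFd ψ θ χ := by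
  refine ⟨h.ker, fun x => ?_⟩
  obtain ⟨G, d, h1, e⟩ := h.gen x
  have h2 := (map_ne_zero_iff ψ h.inj).2 h1
  exact ⟨G, C d, by rwa [eval₂_C], by rw [eval₂_C, eq_div_of_mul_eq h2 e]⟩

/-- the fraction field of the domain `AdjoinRoot χ` -/
theorem ffd_ex (_hm : χ.Monic) (hi : Irreducible χ) :
    ∃ (E : Type) (_ : Field E) (ψ : K[X] →+* E) (θ : E), FFd ψ θ χ := by
  have := AdjoinRoot.isDomain_of_prime hi.prime
  let a := algebraMap (AdjoinRoot χ) (FractionRing (AdjoinRoot χ))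
  have ha : Function.Injective a := IsFractionRing.injective _ _
  have e : ∀ G : K[X][X], G.eval₂ (a.comp (AdjoinRoot.of χ)) (a (AdjoinRoot.root χ)) =
      a (AdjoinRoot.mk χ G) := fun G => by
    rw [← hom_eval₂, ← AdjoinRoot.aeval_eq, aeval_def, AdjoinRoot.algebraMap_eq]
  refine ⟨FractionRing (AdjoinRoot χ), inferInstance, a.comp (AdjoinRoot.of χ),
    a (AdjoinRoot.root χ), fun G => ?_, fun f => ?_⟩
  · rw [e, map_eq_zero_iff a ha, AdjoinRoot.mk_eq_zero]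
  · obtain ⟨x, y, hy, rfl⟩ := IsFractionRing.div_surjective (A := AdjoinRoot χ) f
    obtain ⟨G, rfl⟩ := AdjoinRoot.mk_surjective x
    obtain ⟨H, rfl⟩ := AdjoinRoot.mk_surjective y
    exact ⟨G, H, by rw [e]; exact (map_ne_zero_iff a ha).2 (nonZeroDivisors.ne_zero hy),
      by rw [e, e]⟩

theorem pffd_lift {A F : Type} [CommRing A] [Field F] (f : A →+* E) (g : A →+* F)
    (hk : ∀ a, f a = 0 ↔ g a = 0) (hs : ∀ x, ∃ a b, x = f a / f b) :
    ∃ φ : E →+* F, ∀ a, φ (f a) = g a := by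
  let _ := (RingHom.kerLift f).toAlgebra
  have : FaithfulSMul (A ⧸ RingHom.ker f) E :=
    (faithfulSMul_iff_algebraMap_injective _ _).2 (RingHom.kerLift_injective f)
  have : IsFractionRing (A ⧸ RingHom.ker f) E := IsFractionRing.of_field _ _ fun x => by
    obtain ⟨a, b, h⟩ := hs x
    exact ⟨Ideal.Quotient.mk _ a, Ideal.Quotient.mk _ b, h⟩
  have hi : Function.Injective (Ideal.Quotient.lift (RingHom.ker f) g fun a h => (hk a).1 h) :=
    (injective_iff_map_eq_zero _).2 fun x hx => by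
      obtain ⟨a, rfl⟩ := Ideal.Quotient.mk_surjective x
      exact Ideal.Quotient.eq_zero_iff_mem.2 ((hk a).2 hx)
  exact ⟨IsFractionRing.lift hi, fun a => IsFractionRing.lift_algebraMap hi (Ideal.Quotient.mk _ a)⟩

/-- both evaluation maps have the kernel `(χ)` (`kl_ker`); compare `kdiv_lift` in `ZC/K/Div` -/
theorem ffd_hom (h : FFd ψ θ χ) (hm : χ.Monic) {b : K[X] →+* E'} (hb : Function.Injective b)
    {z : E'} (hz : χ.eval₂ b z = 0) : ∃ j : E →+* E', (∀ p, j (ψ p) = b p) ∧ j θ = z := by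
  obtain ⟨φ, hφ⟩ := pffd_lift (eval₂RingHom ψ θ) (eval₂RingHom b z)
    (fun a => (h.ker a).trans (kl_ker hb hm (ffd_irr h hm) hz a).symm) fun x => by
      obtain ⟨a, b, -, e⟩ := h.frac x
      exact ⟨a, b, e⟩
  exact ⟨φ, fun p => by simpa using hφ (C p), by simpa using hφ X⟩

theorem ffd_ext (h : FFd ψ θ χ) {j j' : E →+* E'} (h1 : ∀ p, j (ψ p) = j' (ψ p))
    (h2 : j θ = j' θ) : j = j' := by
  refine RingHom.eq_of_eqOn_of_field_closure_eq_top (ffd_clo h) ?_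
  rintro _ (⟨p, rfl⟩ | rfl)
  · exact h1 p
  · exact h2

theorem ffd_map (h : FFd ψ θ χ) (hm : χ.Monic) (γ : K →+* K')
    (h' : FFd ψ' θ' (χ.map (mapRingHom γ))) :
    ∃ i : E →+* E', (∀ p, i (ψ p) = ψ' (p.map γ)) ∧ i θ = θ' :=
  ffd_hom h hm (b := ψ'.comp (mapRingHom γ))
    ((ffd_inj h' (hm.map _)).comp (map_injective γ γ.injective))
    (by rw [← eval₂_map]; exact ffd_root h')

theorem ffd_bc (h : FFd ψ θ χ) (hm : χ.Monic) (γ : K →+* K')
    (hi : Irreducible (χ.map (mapRingHom γ))) : ∃ (E' : Type) (_ : Field E') (ψ' : K'[X] →+* E')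
      (i : E →+* E'), FFd ψ' (i θ) (χ.map (mapRingHom γ)) ∧ ∀ p, i (ψ p) = ψ' (p.map γ) := by
  obtain ⟨E', _, ψ', θ', h'⟩ := ffd_ex (hm.map _) hi
  obtain ⟨i, h1, rfl⟩ := ffd_map h hm γ h'
  exact ⟨E', inferInstance, ψ', i, h', h1⟩

/-- `θ` is integral and generates -/
theorem ffd_fin {L : Type} [Field L] [Algebra L E] {α : K[X] →+* L} (hα : IsFr α)
    (h : FFd (tE E α) θ χ) (hm : χ.Monic) : FiniteDimensional L E ∧ L⟮θ⟯ = ⊤ := by
  have h3 := (get0_clo hα).1 (ffd_clo h)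
  have h2 : IsIntegral L θ := ⟨χ.map α, hm.map α, by rw [eval₂_map]; exact ffd_root h⟩
  have h4 := IntermediateField.adjoin.finiteDimensional h2
  rw [h3] at h4
  exact ⟨IntermediateField.topEquiv.toLinearEquiv.finiteDimensional, h3⟩

/-- `exists_frac`, `ffd_fin`, clear denominators -/
theorem ffd_alg (h : FFd ψ θ χ) (hm : χ.Monic) (x : E) :
    ∃ G : K[X][X], G ≠ 0 ∧ G.eval₂ ψ x = 0 := by
  obtain ⟨_, rfl⟩ := exists_frac (ffd_inj h hm)
  have hα := isFr_alg K[X] (Fr K[X])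
  have := (ffd_fin hα h hm).1
  obtain ⟨G, hG, h0⟩ := Algebra.IsAlgebraic.isAlgebraic (R := Fr K[X]) x
  obtain ⟨s, G', hs, e⟩ := get0_den (get0_fr hα) G
  refine ⟨G', fun h1 => ?_, by rw [← eval₂_map, e, eval₂_mul, ← aeval_def x G, h0, mul_zero]⟩
  rw [h1, Polynomial.map_zero] at e
  exact mul_ne_zero (C_ne_zero.2 ((map_ne_zero_iff _ hα.1).2 hs)) hG e.symm

/-- reduced representatives: `kl_bez` for the denominator, division by the monic `χ` -/
theorem ffd_rep (h : FFd ψ θ χ) (hm : χ.Monic) (x : E) : ∃ (G : K[X][X]) (d : K[X]),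
    d ≠ 0 ∧ G.degree < χ.degree ∧ x * ψ d = G.eval₂ ψ θ := by
  obtain ⟨a, b, hb, rfl⟩ := h.frac x
  obtain ⟨u, α, β, hu, e⟩ := kl_bez hm (ffd_irr h hm) fun h0 => hb ((h.ker b).2 h0)
  refine ⟨(a * β) %ₘ χ, u, hu, degree_modByMonic_lt _ hm, ?_⟩
  have e1 := congrArg (eval₂ ψ θ) e
  rw [eval₂_C, eval₂_add, eval₂_mul, eval₂_mul, ffd_root h, mul_zero, zero_add] at e1
  rw [eval₂_modByMonic_eq_self_of_root (ffd_root h), e1, eval₂_mul, mul_comm (eval₂ ψ θ β),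
    ← mul_assoc, div_mul_cancel₀ _ hb]

end Pool.Agent.ZCy.F.Kp
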