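import Pool.Agent.Lib.MP_751085_ag.ZF.K.Iface
import Pool.Agent.Lib.MP_751085_ag.ZF.K.Cst
import Pool.Agent.Lib.MP_751085_ag.ZF.K.Ffd
import Pool.Agent.Lib.MP_751085_ag.ZC.K.KDef3
import Pool.Agent.Lib.MP_751085_ag.ZC.Z.Cen
import Pool.Agent.Lib.MP_751085_ag.ZC.V.Ctr

/-! Horizontal and vertical primes of a chart. -/

namespace Pool.Agent.ZCy.F.Kp

open Pool.Agent.ZFy Pool.Agent.ZFy.GM
open scoped Classical WithZero IntermediateField
open Polynomial groupCohomology

set_option linter.unusedSectionVars false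

theorem kx_dvd {R σ : Type} [CommRing R] {p q : MP (Option σ) R} : tp p ∣ tp q ↔ p ∣ q :=
  map_dvd_iff (MvPolynomial.optionEquivLeft R σ)

theorem kx_prime {R σ : Type} [CommRing R] {p : MP (Option σ) R} : Prime (tp p) ↔ Prime p :=
  MulEquiv.prime_iff (MvPolynomial.optionEquivLeft R σ)

theorem kx_nd {R σ : Type} [CommRing R] (c : PChart R σ) {P : MP σ R} (hP : Prime P) :
    Prime (up P) ∧ ¬up P ∣ c.D := by
  have h1 : Prime (up P) := by
    rw [← kx_prime, tp_up]
    exact prime_C_iff.2 hP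
  obtain ⟨r, hr⟩ := c.dvd
  refine ⟨h1, fun e => ?_⟩
  have := h1.dvd_of_dvd_pow (e.trans hr)
  rw [← kx_dvd, tp_up, C_dvd_iff_dvd_coeff] at this
  exact hP.not_dvd_one (c.tm.1.coeff_natDegree ▸ this _)

variable {k σ E : Type} [Field k] [Field E] {φ : MP (Option σ) k →+* E} {ψ : (RF σ k)[X] →+* E}

theorem pwre_den (p : (RF σ k)[X]) : ∃ b q, b ≠ 0 ∧
    tq k σ q = C (algebraMap (MP σ k) (RF σ k) b) * p := by
  obtain ⟨b, hb, h⟩ := IsLocalization.integerNormalization_spec (nonZeroDivisors (MP σ k)) p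
  obtain ⟨q, hq⟩ := (MvPolynomial.optionEquivLeft k σ).surjective
    (IsLocalization.integerNormalization (nonZeroDivisors (MP σ k)) p)
  exact ⟨b, q, nonZeroDivisors.ne_zero hb, by rw [tq_apply, tp, hq, h, C_mul', algebraMap_smul]⟩

theorem pwre_inj (ht : ∀ p, ψ (tq k σ p) = φ p) (hφ : Function.Injective φ) :
    Function.Injective ψ := (injective_iff_map_eq_zero ψ).2 fun p hp => by
  obtain ⟨b, q, hb, h⟩ := pwre_den p
  have h0 := ht q
  rw [h, map_mul, hp, mul_zero, eq_comm, map_eq_zero_iff φ hφ] at h0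
  rw [h0, map_zero, zero_eq_mul, C_eq_zero, IsFractionRing.to_map_eq_zero_iff] at h
  exact h.resolve_left hb

theorem kx_alg (k σ : Type) [Field k] : ∃ ψ : (RF σ k)[X] →+* RF (Option σ) k, IsFr ψ ∧
    ∀ p, ψ (tq k σ p) = algebraMap (MP (Option σ) k) _ p := by
  let f : RF σ k →+* RF (Option σ) k := IsFractionRing.lift
    (g := (algebraMap (MP (Option σ) k) _).comp (MvPolynomial.rename some).toRingHom)
    ((IsFractionRing.injective _ _).comp (MvPolynomial.rename_injective _ (Option.some_injective σ)))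
  let ψ := eval₂RingHom f (algebraMap (MP (Option σ) k) _ (MvPolynomial.X none))
  have e : ψ.comp (tq k σ) = algebraMap (MP (Option σ) k) _ :=
    MvPolynomial.ringHom_ext (fun a => by simp [ψ, f, tq_apply]) fun i => by
      cases i <;> simp [ψ, f, tq_apply]
  have e' : ∀ p, ψ (tq k σ p) = algebraMap (MP (Option σ) k) _ p := RingHom.congr_fun e
  have hi := pwre_inj e' (IsFractionRing.injective _ _)
  refine ⟨ψ, ⟨hi, fun z => ?_⟩, e'⟩
  obtain ⟨x, y, hy, rfl⟩ := IsFractionRing.div_surjective (MP (Option σ) k) z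
  have h0 := e' y ▸ IsFractionRing.to_map_ne_zero_of_mem_nonZeroDivisors (K := RF (Option σ) k) hy
  exact ⟨tq k σ x, tq k σ y, (map_ne_zero_iff ψ hi).1 h0, by
    rw [← e', ← e', div_mul_cancel₀ _ h0]⟩

section

variable (ht : ∀ p, ψ (tq k σ p) = φ p)

include ht

theorem kx_up (p : MP σ k) : ψ (C (algebraMap (MP σ k) (RF σ k) p)) = φ (up p) := by
  rw [← ht, tq_apply, tp_up, map_C]

theorem kx_X : ψ X = φ (MvPolynomial.X none) := by
  rw [← ht, tq_apply, tp, MvPolynomial.optionEquivLeft_X_none, map_X]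

theorem kx_inj (hφ : Function.Injective φ) : Function.Injective ψ := by
  exact pwre_inj ht hφ

theorem kx_ev (c : PChart k σ) (θ : E) :
    ((cχ c).map (mapRingHom (algebraMap (MP σ k) (RF σ k)))).eval₂ ψ θ = c.χ.eval₂ φ θ := by
  rw [cχ, Polynomial.map_map, eval₂_map]
  exact congrArg (eval₂ · θ c.χ) (RingHom.ext ht)

theorem kx_pB {O : Type} [CommRing O] (f : O →+* k) {β : MP σ O →+* RF σ k}
    (hB : ∀ p, β p = algebraMap (MP σ k) _ (MvPolynomial.map f p)) (p : MP (Option σ) O) :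
    ψ.comp (mapRingHom β) (tp p) = φ (MvPolynomial.map f p) := by
  rw [← ht, tq_apply, tp_map, Polynomial.map_map]
  exact congrArg (fun g => ψ ((tp p).map g)) (RingHom.ext hB)

theorem pwre_cen {O : Type} [CommRing O] (f : O →+* k) {β : MP σ O →+* RF σ k}
    (hB : ∀ p, β p = algebraMap (MP σ k) _ (MvPolynomial.map f p)) (P : MP (Option σ) O)
    (w : Vl E) :
    Cen (ψ.comp (mapRingHom β)) w (tp P) ↔ Cen (φ.comp (MvPolynomial.map f)) w P := by
  have hs := (MvPolynomial.optionEquivLeft O σ).surjective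
  unfold Cen
  rw [hs.forall, hs.forall]
  simp only [kx_pB ht f hB, map_dvd_iff, RingHom.comp_apply φ]

theorem pwre_cen' (P : MP (Option σ) k) (w : Vl E) :
    Cen (ψ.comp (mapRingHom (algebraMap (MP σ k) (RF σ k)))) w (tp P) ↔ Cen φ w P := by
  rw [pwre_cen ht (RingHom.id k) fun p => by rw [MvPolynomial.map_id]]
  simp only [Cen, RingHom.comp_apply, MvPolynomial.map_id]

theorem kxw_cen {O : Type} [CommRing O] (f : O →+* k) {β : MP σ O →+* RF σ k}
    (hB : ∀ p, β p = algebraMap (MP σ k) _ (MvPolynomial.map f p)) (P : MP σ O) (w : Vl E) :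
    Cen (ψ.comp (mapRingHom β)) w (C P) ↔ Cen (φ.comp (MvPolynomial.map f)) w (up P) := by
  rw [← pwre_cen ht f hB, tp_up]

theorem kx_triv {w : Vl E} : Triv (ψ.comp C) w ↔ ∀ b : MP σ k, b ≠ 0 → w (φ (up b)) = 1 := by
  refine ⟨fun h b hb => kx_up ht b ▸ h _ (IsFractionRing.to_map_eq_zero_iff.not.2 hb),
    fun h a ha => ?_⟩
  obtain ⟨x, y, hy, rfl⟩ := IsFractionRing.div_surjective (A := MP σ k) a
  have hx : x ≠ 0 := by
    rintro rfl
    simp at ha
  rw [map_div₀, map_div₀, RingHom.comp_apply, RingHom.comp_apply, kx_up ht, kx_up ht, h x hx,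
    h y (nonZeroDivisors.ne_zero hy), div_one]

/-- a prime is horizontal or vertical -/
theorem kx_dich (c : PChart k σ) {Φ : MP σ k} {P : MP (Option σ) k} {w : Vl E} (hP : Prime P)
    (hd : ¬P ∣ c.brs Φ) (hc : Cen φ w P) : Triv (ψ.comp C) w ∨ ∃ P₀ : MP σ k, Prime P₀ ∧ ¬P₀ ∣ Φ ∧
      Cen (ψ.comp (mapRingHom (algebraMap (MP σ k) (RF σ k)))) w (C P₀) := by
  rw [kx_triv ht, or_iff_not_imp_left]
  intro h
  push Not at h
  obtain ⟨b, hb, h⟩ := h
  have h3 := kx_dvd.2 ((hc.2 _).1 ((hc.1 _).lt_of_ne h))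
  rw [tp_up] at h3
  have h4 := eq_C_of_natDegree_le_zero
    ((natDegree_le_of_dvd h3 (C_ne_zero.2 hb)).trans_eq (natDegree_C b))
  refine ⟨_, prime_C_iff.1 (h4 ▸ kx_prime.2 hP), fun e => hd ?_, h4 ▸ (pwre_cen' ht P w).2 hc⟩
  refine Dvd.dvd.mul_left (kx_dvd.1 ?_) _
  rw [tp_up, h4]
  exact map_dvd C e

/-- a horizontal place lies at infinity or is centred at a prime -/
theorem kx_hor (hφ : Function.Injective φ)
    (ha : ∀ x : E, ∃ G : (RF σ k)[X][X], G ≠ 0 ∧ G.eval₂ ψ x = 0) {w : Vl E}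
    (h : Triv (ψ.comp C) w) (hn : NT w) :
    1 < w (φ (MvPolynomial.X none)) ∨ ∃ P, Prime P ∧ Cen φ w P := by
  refine (lt_or_ge 1 _).imp_right fun hX => ?_
  have hi := kx_inj ht hφ
  have h1 : ∀ p, w (ψ p) ≤ 1 := fun p => by
    induction p using Polynomial.induction_on' with
    | add p q hp hq => rw [map_add]; exact w.map_add_le hp hq
    | monomial n a =>
      rw [← C_mul_X_pow_eq_monomial, map_mul, map_pow, map_mul, map_pow, kx_X ht]
      refine mul_le_one' ?_ (pow_le_one' hX n)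
      rcases eq_or_ne a 0 with rfl | ha
      · simp
      · exact (h a ha).le
  rcases cen_poly h1 h with h2 | ⟨Q, hQ, hc⟩
  · obtain ⟨x, h0, hx⟩ := hn
    obtain ⟨G, hG, e⟩ := ha x
    refine absurd (kz_alg (φ := IsFractionRing.lift (K := Fr (RF σ k)[X]) hi) (fun a ha => ?_) h0
      ((Polynomial.map_ne_zero_iff (IsFractionRing.injective (RF σ k)[X] _)).2 hG) ?_) hx.ne
    · obtain ⟨a, b, hb, rfl⟩ := IsFractionRing.div_surjective (A := (RF σ k)[X]) a
      rw [map_div₀, map_div₀, IsFractionRing.lift_algebraMap, IsFractionRing.lift_algebraMap,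
        h2 a (by rintro rfl; simp at ha), h2 b (nonZeroDivisors.ne_zero hb), div_one]
    · rw [eval₂_map, ← e]
      exact congrArg (eval₂ · x G) (RingHom.ext (IsFractionRing.lift_algebraMap hi))
  · refine cen_loc hφ hi hQ hc (fun p => ht p ▸ h1 _) (fun p => ?_) fun p =>
      ⟨tq k σ p, 1, by simp, by rw [map_one, mul_one, ht]⟩
    obtain ⟨b, q, hb, e⟩ := pwre_den p
    exact ⟨q, up b, (kx_triv ht).1 h b hb, by rw [← kx_up ht, ← ht, e, ← map_mul, mul_comm]⟩

end

variable [Algebra (RF (Option σ) k) E] (ht : ∀ p, ψ (tq k σ p) = toE (MP (Option σ) k) E p)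
  {a : BR E} (H : H1 k σ E a)

include ht H

theorem kx_h1 (ha : ∀ x : E, ∃ G : (RF σ k)[X][X], G ≠ 0 ∧ G.eval₂ ψ x = 0) (v : Vl E)
    (h : Triv (ψ.comp C) v) (hn : NT v) : Unram v a := by
  rcases kx_hor ht ((algebraMap (RF (Option σ) k) E).injective.comp
    (IsFractionRing.injective (MP (Option σ) k) _)) ha h hn with h1 | ⟨P, hP, hc⟩
  exacts [H.2 v ((kx_triv ht).1 h) h1, H.1 P v hP hc]

theorem kx_h1' {P : MP σ k} {v : Vl E} (hP : Prime P)
    (hv : Cen (ψ.comp (mapRingHom (algebraMap (MP σ k) (RF σ k)))) v (C P)) : Unram v a := by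
  refine H.1 (up P) v ?_ ((pwre_cen' ht _ v).1 (by rwa [tp_up]))
  rw [← kx_prime, tp_up]
  exact prime_C_iff.2 hP

end Pool.Agent.ZCy.F.Kp
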