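import Pool.Agent.Lib.MP_751085_ag.ZF.K.WrG
import Pool.Agent.Lib.MP_751085_ag.ZF.K.WrE
import Pool.Agent.Lib.MP_751085_ag.ZF.K.NeedA

/-! The curve given by a chart. -/

namespace Pool.Agent.ZCy.F.Kp

open Pool.Agent.ZFy Pool.Agent.ZFy.GM
open scoped Classical WithZero IntermediateField
open Polynomial groupCohomology

set_option linter.unusedSectionVars false

variable {k σ F : Type} [Field k] [Field F] (c : PChart k σ)

theorem pwrd_sq {F M A B N : Type} [Field F] [Field M] [Field A] [Field B] [Field N] {j : F →+* A}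
    {c : M →+* A} (g : A →+* B) (e : M →+* N) (c' : N →+* B) (h : ∀ x, g (c x) = c' (e x))
    {a : BR F} {b : BR M} (hb : rs j a = rs c b) : rs (g.comp j) a = rs c' (rs e b) := by
  rw [← ka_comp, hb, ka_comp, ka_comp, show g.comp c = c'.comp e from RingHom.ext h]

theorem kx_ffd [Algebra (RF (Option σ) k) F] {ψ : (RF σ k)[X] →+* F}
    (ht : ∀ p, ψ (tq k σ p) = toE (MP (Option σ) k) F p) (hi : c.GI) {θ : F} (hF : c.FF F θ) :
    FFd ψ θ ((cχ c).map (mapRingHom (algebraMap (MP σ k) (RF σ k)))) := by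
  have h1 := (kx_gp c hi (IsFractionRing.injective (MP σ k) (RF σ k))).irr' (RingHom.id _)
  rw [mapRingHom_id, Polynomial.map_id] at h1
  refine ffd_of (kx_inj ht ((algebraMap (RF (Option σ) k) F).injective.comp
    (IsFractionRing.injective (MP (Option σ) k) (RF (Option σ) k))))
    ((kx_mon c).map _) h1 ((kx_ev ht c θ).trans hF.1) (eq_top_iff.2
      (((get0_clo (isFr_alg (MP (Option σ) k) (RF (Option σ) k))).2 hF.2).ge.trans
        (Subfield.closure_mono (Set.union_subset_union_left _ ?_))))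
  rintro _ ⟨p, rfl⟩
  exact ⟨_, ht p⟩

variable {k₂ : Type} [Field k₂] [Algebra k k₂] [FiniteDimensional k k₂] [IsGalois k k₂]
  [Algebra (RF σ k) (RF σ k₂)]
  (h : ∀ p, algebraMap (RF σ k) (RF σ k₂) (algebraMap (MP σ k) _ p) =
    algebraMap (MP σ k₂) _ (MvPolynomial.map (algebraMap k k₂) p))

include h in
theorem kx_j [Algebra (RF (Option σ) k) F] {ψ : (RF σ k)[X] →+* F}
    (ht : ∀ p, ψ (tq k σ p) = toE (MP (Option σ) k) F p) {M : Type} [Field M] [Algebra k M] {θ : F}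
    {z : M} {j : F →+* Ls (RF σ M)} (hj : PChart.InfEmb (K := k) θ z j) (e : M →ₐ[k] k₂) {a : BR F}
    {b : BR M} (hb : rs j a = rs ((PChart.cst σ M).comp MvPolynomial.C) b) :
    ∃ j₁ : F →+* Ls (RF σ k₂),
      (∀ p, j₁ (ψ p) = tL (RF σ k₂) (p.map (algebraMap (RF σ k) (RF σ k₂)))) ∧
      rs j₁ a = rs (hc.comp (algebraMap k₂ (RF σ k₂))) (rs (e : M →+* k₂) b) := by
  obtain ⟨g, hg⟩ := exists_rfMap σ (e : M →+* k₂)
  have e1 : ((lm g).comp j).comp ψ =
      (tL (RF σ k₂)).comp (mapRingHom (algebraMap (RF σ k) (RF σ k₂))) := by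
    refine Polynomial.ringHom_ext' (IsLocalization.ringHom_ext (nonZeroDivisors (MP σ k))
      (RingHom.ext fun p => ?_)) ?_
    · change lm g (j (ψ (C (algebraMap (MP σ k) (RF σ k) p)))) =
        tL _ ((C (algebraMap (MP σ k) (RF σ k) p)).map (algebraMap (RF σ k) (RF σ k₂)))
      rw [map_C, kl_tM_C, h, kx_up ht, hj.cst]
      refine (kl_lm_hc g _).trans ?_
      rw [hg, MvPolynomial.map_map]
      exact congrArg (fun f => hc (algebraMap (MP σ k₂) (RF σ k₂) (MvPolynomial.map f p)))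
        e.comp_algebraMap
    · change lm g (j (ψ X)) = tL _ (X.map (algebraMap (RF σ k) (RF σ k₂)))
      rw [map_X, kx_X ht, hj.tau, kl_lm_single]
      simp [tM]
  refine ⟨(lm g).comp j, fun p => DFunLike.congr_fun e1 p,
    pwrd_sq (lm g) (e : M →+* k₂) (hc.comp (algebraMap k₂ (RF σ k₂))) (fun x => ?_) hb⟩
  refine (kl_lm_hc g (algebraMap (MP σ M) (RF σ M) (MvPolynomial.C x))).trans ?_
  rw [hg, MvPolynomial.map_C]
  rfl

variable [Algebra (RF σ k)[X] F] [Algebra F (Os (RF σ k))]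

theorem kx_red {O : Type} [CommRing O] {f : O →+* k} [Algebra (MP σ O) (RF σ k)]
    (hB : ∀ p, algebraMap (MP σ O) (RF σ k) p = algebraMap (MP σ k) _ (MvPolynomial.map f p))
    {c₀ : PChart O σ} (hm : c₀.IsMap f c) {Φ : MP σ O} (hG : GoodM c₀ Φ) {c' : Cur (RF σ k) F}
    (hc : c'.χ = (cχ c).map (mapRingHom (algebraMap (MP σ k) (RF σ k)))) {l : ℕ} {P : MP σ O}
    (hP : Prime P) (hl : ¬P ∣ (l : MP σ O)) (hd : ¬P ∣ Φ) : c'.Red l P := by
  refine ⟨hP, hl, cχ c₀, Φ, kx_mon c₀, ?_, hd, hG⟩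
  rw [hc, kx_map hm, Polynomial.map_map, mapRingHom_comp]
  exact congrArg (fun g => (cχ c₀).map (mapRingHom g)) (RingHom.ext hB)

include h in
theorem kx_bas [Algebra (RF σ k₂) (Ks (RF σ k))] [IsScalarTower (RF σ k) (RF σ k₂) (Ks (RF σ k))]
    (hi : c.GI) {Φ : MP σ k} (hG : GoodM c Φ) {θ : F} (hf : FFd (algebraMap (RF σ k)[X] F) θ
      ((cχ c).map (mapRingHom (algebraMap (MP σ k) (RF σ k))))) {l e : ℕ} (hl : l.Prime)
    (hl0 : (l : k) ≠ 0) {ζ : k₂} (hζ : IsPrimitiveRoot ζ (l ^ e)) {j : F →+* Ls (RF σ k₂)}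
    (hj : ∀ p, j (algebraMap (RF σ k)[X] F p) =
      tL (RF σ k₂) (p.map (algebraMap (RF σ k) (RF σ k₂))))
    (hO : ∀ x, algebraMap F (Os (RF σ k)) x = lm (algebraMap (RF σ k₂) (Ks (RF σ k))) (j x)) :
    ∃ c' : Cur (RF σ k) F, c'.χ = (cχ c).map (mapRingHom (algebraMap (MP σ k) (RF σ k))) ∧
      c'.Bas (RF σ k₂) l (l ^ e) Φ := by
  refine ⟨⟨_, θ, kx_gp c hi (IsFractionRing.injective _ _), hf, fun p => (hO _).trans ?_⟩, rfl,
    ⟨hl, ?_, ⟨e, rfl⟩, ⟨_, hζ.map_of_injective (algebraMap k₂ (RF σ k₂)).injective⟩, j, hO⟩,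
    fun P hP hd => ⟨hP, fun h1 => hP.not_isUnit (isUnit_of_dvd_unit h1 ?_), cχ c, Φ, kx_mon c, rfl,
      hd, hG⟩, kx_unr h⟩
  · rw [hj, kl_lm_tM, Polynomial.map_map, ← IsScalarTower.algebraMap_eq]
  · rw [← map_natCast (algebraMap k (RF σ k))]
    exact (_root_.map_ne_zero _).2 hl0
  · rw [← map_natCast (MvPolynomial.C : k →+* MP σ k)]
    exact hl0.isUnit.map _

end Pool.Agent.ZCy.F.Kp
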