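import Pool.Agent.Lib.MP_751085_ag.ZF.K.Core
import Pool.Agent.Lib.MP_751085_ag.ZF.K.WrA
import Pool.Agent.Lib.MP_751085_ag.ZF.K.WrD
import Pool.Agent.Lib.MP_751085_ag.ZF.K.Clo

/-! Theorem K for a chart. -/

namespace Pool.Agent.ZCy.F.Kp

open Pool.Agent.ZFy Pool.Agent.ZFy.GM
open scoped Classical WithZero IntermediateField
open Polynomial groupCohomology

set_option linter.unusedSectionVars false

theorem kx_main (hD : DIVp) {O k σ F M k₂ T K₃ : Type} [CommRing O] [IsDomain O]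
    [UniqueFactorizationMonoid O] [Field k] [Algebra O k] [IsFractionRing O k] (c : PChart k σ)
    {Φ : MP σ k} [Field F] [Algebra (RF (Option σ) k) F] {θ : F} (hi : c.GI) (hF : c.FF F θ)
    (hG : GoodM c Φ) {l : ℕ} (hl : l.Prime) (hl0 : (l : k) ≠ 0) {a : BR F} (H : H1 k σ F a)
    [Field M] [Algebra k M] {z : M} {j : F →+* Ls (RF σ M)} {b : BR M}
    (hj : PChart.InfEmb (K := k) θ z j)
    (hb : rs j a = rs ((PChart.cst σ M).comp MvPolynomial.C) b) [Field k₂] [Algebra k k₂]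
    [FiniteDimensional k k₂] [IsGalois k k₂] (e : M →ₐ[k] k₂) {n q : ℕ} (hN : l ^ n • a = 0)
    (hq : q • rs (e : M →+* k₂) b = 0) (hc : q.Coprime l) {ζ : k₂}
    (hζ : IsPrimitiveRoot ζ (l ^ (c.δ.factorization l + n))) (π : O) [Field T]
    [Algebra (RF (Option σ) k) T] [FiniteDimensional (RF (Option σ) k) T]
    [IsGalois (RF (Option σ) k) T]
    (hT : UnrOff (RF (Option σ) k) (toE (MP (Option σ) k) T) (c.brs Φ)) [Field K₃]
    [Algebra (RF σ k) K₃] [FiniteDimensional (RF σ k) K₃] [IsGalois (RF σ k) K₃] :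
    ∃ (R : MuC (c.brs Φ) F) (i₀ : T →ₐ[RF (Option σ) k] R.E), cls F R.c = a ∧ (∃ r, R.m = l ^ r) ∧
      (∀ (c₀ : PChart O σ) (Φ₀ : MP σ O), c₀.IsMap (algebraMap O k) c → GoodM c₀ Φ₀ → Prime π →
        ¬MvPolynomial.C π ∣ Φ₀ → ¬π ∣ (l : O) → (∀ w : Vl k₂, Cen (toF O k k₂) w π → Tame k w) →
        (∀ w : Vl T, Tame (RF (Option σ) k) w) → ∀ w : Vl R.E,
        Cen ((toE (MP (Option σ) k) R.E).comp (MvPolynomial.map (algebraMap O k))) w
          (MvPolynomial.C π) → Tame (RF (Option σ) k) w) ∧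
      ∀ e₃ : K₃ →+* T, (∀ p, e₃ (toF (MP σ k) (RF σ k) K₃ p) = toE (MP (Option σ) k) T (up p)) →
        (c.χ.map (toE (MP (Option σ) k) T)).Splits →
        WF l ((cχ c).map (mapRingHom (toF (MP σ k) (RF σ k) K₃))) →
        LXt l (RF (Option σ) k) (Set.range i₀ ∪
          {z | ((toE (MP (Option σ) k) R.E).comp MvPolynomial.C).IsIntegralElem z}) := by
  obtain ⟨ψ₀, -, ht₀⟩ := kx_alg k σ
  let _ : Algebra (RF σ k)[X] F := ((algebraMap (RF (Option σ) k) F).comp ψ₀).toAlgebra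
  have ht : ∀ p, algebraMap (RF σ k)[X] F (tq k σ p) = toE (MP (Option σ) k) F p :=
    fun p => congrArg (algebraMap (RF (Option σ) k) F) (ht₀ p)
  obtain ⟨g₀, h⟩ := exists_rfMap σ (algebraMap k k₂)
  let _ := g₀.toAlgebra
  obtain ⟨_, _⟩ := kx_gal (σ := σ) (k := k) (k₂ := k₂) h
  let _ : Algebra (RF σ k₂) (Ks (RF σ k)) :=
    (IsSepClosed.lift : RF σ k₂ →ₐ[RF σ k] Ks (RF σ k)).toRingHom.toAlgebra
  have : IsScalarTower (RF σ k) (RF σ k₂) (Ks (RF σ k)) := .of_algebraMap_eq fun x =>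
    ((IsSepClosed.lift : RF σ k₂ →ₐ[RF σ k] Ks (RF σ k)).commutes x).symm
  obtain ⟨j₁, hj₁, hr⟩ := kx_j h ht hj e hb
  let _ : Algebra F (Os (RF σ k)) := ((lm (algebraMap (RF σ k₂) (Ks (RF σ k)))).comp j₁).toAlgebra
  have hf := kx_ffd c ht hi hF
  obtain ⟨c', hχ, hbas⟩ := kx_bas c h hi hG hf hl hl0 hζ hj₁ fun _ => rfl
  let _ := (MvPolynomial.map (algebraMap k k₂) : MP σ k →+* MP σ k₂).toAlgebra
  have : Algebra.IsIntegral (MP σ k) (MP σ k₂) := ⟨kx_int⟩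
  have : IsScalarTower (MP σ k) (RF σ k) (RF σ k₂) := .of_algebraMap_eq fun p => (h p).symm
  let _ := ((algebraMap (MP σ k) (RF σ k)).comp
    (MvPolynomial.map (algebraMap O k) : MP σ O →+* MP σ k)).toAlgebra
  have hB : ∀ p, algebraMap (MP σ O) (RF σ k) p =
    algebraMap (MP σ k) _ (MvPolynomial.map (algebraMap O k) p) := fun _ => rfl
  have := kx_frac hB
  have hz : rs j₁ a = 0 := by
    have h1 : l ^ n • rs j₁ a = 0 := by rw [← map_nsmul, hN, map_zero]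
    have h2 : q • rs j₁ a = 0 := by rw [hr, ← map_nsmul, hq, map_zero]
    exact AddMonoid.addOrderOf_eq_one_iff.1 (Nat.eq_one_of_dvd_coprimes (hc.pow_right n)
      (addOrderOf_dvd_of_nsmul_eq_zero h2) (addOrderOf_dvd_of_nsmul_eq_zero h1))
  obtain ⟨R, hR⟩ := coreK (c := c') hD (MP σ k₂) hbas
    (map_natCast (MvPolynomial.C : k →+* MP σ k) l ▸ hl0.isUnit.map _) j₁ (fun _ => rfl) hz
    (N := l ^ n) (d := c.δ / l ^ c.δ.factorization l)
    (by rw [hχ, kx_deg, pow_add, mul_right_comm, Nat.ordProj_mul_ordCompl_eq_self])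
    ((Nat.coprime_ordCompl hl c.pos.ne').symm.pow_right n) (pow_dvd_pow l le_add_self) hN
    (kx_h1 ht H (ffd_alg hf ((kx_mon c).map _))) (fun _ _ hP _ hv => kx_h1' ht H hP hv)
    (MvPolynomial.C π : MP σ O) K₃
  obtain ⟨_, _⟩ := kx_gen hF.2 (kx_sep c (IsFractionRing.injective _ (RF (Option σ) k))).2
    (by rw [aeval_def, eval₂_map]; exact hF.1)
  obtain ⟨Q⟩ := clo_ex (RF (Option σ) k) F R.E T
  obtain ⟨x, hx1, hx2, hx3⟩ := Q.coc R.coc R.pw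
  have hE : ∀ p, toF (RF σ k)[X] F R.E (tq k σ p) =
      tE R.E (toE (MP (Option σ) k) F) p := fun p => congrArg (algebraMap F R.E) (ht p)
  have hk : ∀ p, kap (RF σ k) F Q.N (algebraMap (MP σ k) _ p) =
      toE (MP (Option σ) k) Q.N (up p) := fun p =>
    (congrArg (algebraMap F Q.N) (kx_up ht p)).trans (IsScalarTower.algebraMap_apply _ F _ _).symm
  refine ⟨.mk Q.N _ x (by rw [Nat.cast_pow]; exact pow_ne_zero _ hl0) (fun P W hP hd hW => ?_) hx1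
    hx2, Q.i₀, hx3.trans R.cls_eq, ⟨_, rfl⟩, fun c₀ Φ₀ hm hG₀ hπ hd hn h₂ hT' W hW => ?_,
    fun e₃ h₃ hs hW => ?_⟩
  · obtain ⟨α, β, hb⟩ := c.bez
    obtain ⟨r, hr⟩ := c.dvd
    exact Q.unr hW (fun _ => Q.fx_ine hF.2 c.monic hb hF.1 hP
      (fun e => hd ((hP.dvd_of_dvd_pow (e.trans hr)).mul_right _)) hW) (fun w => hT P w hP hd)
      fun w hw => (kx_dich hE c hP hd hw).elim (hR.hor w) fun ⟨P₀, h1, h2, h3⟩ =>
        hR.ver P₀ w h1 h2 h3
  · obtain ⟨α, β, hb⟩ := c₀.bez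
    have h1 := (MvPolynomial.prime_C_iff σ).2 hπ
    have h2 := kx_nd c₀ h1
    have h3 : up (MvPolynomial.C π : MP σ O) = MvPolynomial.C π := MvPolynomial.rename_C _ _
    have h4 := hF.1
    rw [hm.χ, coe_mapRingHom, eval₂_map] at h4
    rw [h3] at h2
    replace hW : Cen (tE Q.N ((algebraMap (MP (Option σ) k) (RF (Option σ) k)).comp
      (MvPolynomial.map (algebraMap O k)))) W (MvPolynomial.C π) := hW
    refine Q.tame hW (fun _ => Q.fx_ine hF.2 c₀.monic hb h4 h2.1 h2.2 hW)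
      (fun w _ => hT' w) fun w hw => hR.tame ⟨kx_red c hB hm hG₀ hχ h1 (fun e => hn ?_) hd,
        kx_tm h hB h₂⟩ w ((kxw_cen hE _ hB _ w).2 (h3.symm ▸ hw))
    simpa using map_dvd MvPolynomial.constantCoeff e
  obtain ⟨j₂, hj₂⟩ := hR.cst
  have h2 : ∀ a, Q.i (j₂ (algebraMap (RF σ k) _ a)) = kap (RF σ k) F Q.N a := fun a => by
    rw [hj₂]; exact Q.i.commutes _
  refine Q.lxt (fun x => Or.inl ⟨x, rfl⟩) fun g hg s => ?_
  have hg₀ : ∀ x, g (Q.i₀ x) = Q.i₀ x := fun x => hg _ (Or.inl ⟨x, rfl⟩)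
  obtain ⟨g', hg'⟩ := Q.conj (Q.fx_spl hF.2 c.monic hF.1 hs hg₀) s
  have key : ∀ x, g (s x) = s x → g' x = x := fun x e =>
    s.injective ((by simpa only [pow_one] using hg' 1 x : g (s x) = s (g' x)).symm.trans e)
  have h4 : ∀ y, ((toE (MP (Option σ) k) Q.N).comp MvPolynomial.C).IsIntegralElem
      (s (Q.i (j₂ (algebraMap k₂ (RF σ k₂) y)))) := fun y => by
    have := RingHom.IsIntegralElem.map (Algebra.IsIntegral.isIntegral (R := k) y)
      (((s : Q.N →+* Q.N).comp ((Q.i : R.E →+* Q.N).comp j₂)).comp (algebraMap k₂ (RF σ k₂)))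
    rwa [show RingHom.comp _ (algebraMap k k₂) = (toE (MP (Option σ) k) Q.N).comp MvPolynomial.C
      from RingHom.ext fun a => ?_] at this
    change s (Q.i (j₂ (algebraMap k₂ _ (algebraMap k k₂ a)))) = _
    rw [kx_sq h, h2, kx_C, hk, up, MvPolynomial.rename_C]
    exact s.commutes _
  have := Algebra.IsAlgebraic.tower_top (K := RF (Option σ) k) (A := Q.N) F
  obtain ⟨m, hm⟩ := hR.lad (by rwa [hχ, Polynomial.map_map, mapRingHom_comp]) Q.N Q.i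
    ((Q.i : R.E →+* Q.N).comp j₂) ((Q.i₀ : T →+* Q.N).comp e₃) g' h2
    (RingHom.congr_fun ((isFr_alg (MP σ k) (RF σ k)).hom_ext
      (φ := ((Q.i₀ : T →+* Q.N).comp e₃).comp (algebraMap _ K₃)) fun p =>
        ((congrArg Q.i₀ (h₃ p)).trans (Q.i₀.commutes _)).trans (hk p).symm))
    (RingHom.congr_fun (kx_ext h (f := (g' : Q.N →+* Q.N).comp ((Q.i : R.E →+* Q.N).comp j₂))
      (fun a => ((congrArg g' (h2 a)).trans (g'.commutes _)).trans (h2 a).symm) fun y =>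
        key _ (hg _ (Or.inr (h4 y))))) fun a => key _ (by
      obtain ⟨y, hy⟩ := Q.nrm s (e₃ a)
      exact hy ▸ hg₀ y)
  exact ⟨m, fun x => by rw [hg', hm]⟩

theorem pwrap_triv (L : Type) [Field L] : ∃ (T : Type) (_ : Field T) (_ : Algebra L T)
    (_ : FiniteDimensional L T) (_ : IsGalois L T), ∀ w : Vl T, Ine L w = ⊥ ∧ Tame L w :=
  ⟨L, _, _, inferInstance, inferInstance, ine_self⟩

theorem thmKp_of (hD : DIVp) : ThmKp := by
  rintro k _ σ _ c Φ F _ _ θ l hi hF hG hl hl0 a ⟨n, hn⟩ H ⟨M, _, _, _, z, j, b, hz, hz', hj, hb⟩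
  have := (kx_gen hz' c.sep hz).2
  obtain ⟨k₂, _, _, _, _, e, ζ, hζ, he⟩ := kx_k2 (k := k) b (n := l ^ (c.δ.factorization l + n))
    (by rw [Nat.cast_pow]; exact pow_ne_zero _ hl0)
  obtain ⟨T, _, _, _, _, hT⟩ := pwrap_triv (RF (Option σ) k)
  obtain ⟨K₃, _, _, _, _, -⟩ := pwrap_triv (RF σ k)
  obtain ⟨R, -, h1, h2, -⟩ := kx_main (K₃ := K₃) hD c hi hF hG hl hl0 H hj hb e hn (q := 1)
    ((one_nsmul _).trans he) l.coprime_one_left hζ (0 : k) fun _ w _ _ _ => (hT w).1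
  exact ⟨R, h1, h2⟩

theorem thmKTp_of (hD : DIVp) : ThmKTp := by
  rintro O k _ _ _ _ _ _ σ _ c₀ Φ₀ c π F _ _ θ l hm hπ hd hi hF hG hl hu a ⟨n, hn⟩ H
    ⟨M, _, _, _, z, j, b, hz, hz', hj, hb⟩
  obtain ⟨k₂, _, _, _, _, e, ζ, q, hζ, he, hq, ht⟩ := kx_tame hπ hz' (kx_tmon c₀) c₀.sep
    (hm.top ▸ hz) b (n := l ^ (c.δ.factorization l + n)) (by rw [Nat.cast_pow]; exact hu.pow _)
  obtain ⟨T, _, _, _, _, hT⟩ := pwrap_triv (RF (Option σ) k)
  obtain ⟨K₃, _, _, _, _, -⟩ := pwrap_triv (RF σ k)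
  obtain ⟨R, -, h1, h2, h3, -⟩ := kx_main (K₃ := K₃) hD c hi hF (kx_good hm hG) hl
    (map_natCast (algebraMap O k) l ▸ (hu.map _).ne_zero) H hj hb e hn he (hq l hu) hζ π
    fun _ w _ _ _ => (hT w).1
  exact ⟨R, h1, h2, h3 c₀ Φ₀ hm hG hπ.prime hd (fun h => hπ.not_isUnit (isUnit_of_dvd_unit h hu)) ht
    fun w => (hT w).2⟩

end Pool.Agent.ZCy.F.Kp
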