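import Pool.Agent.Lib.MP_751085_ag.ZF.K.KDefs
import Pool.Agent.Lib.MP_751085_ag.ZF.L.Defs
import Pool.Agent.Lib.MP_751085_ag.ZF.RDefs

/-! The statements of block K in any characteristic. -/

namespace Pool.Agent.ZCy.F

open Pool.Agent.ZFy
open scoped Classical Polynomial

/-- the class is unramified at all primes and at the places at infinity of the generic fibre -/
def H1 (K σ F : Type) [Field K] [Field F] [Algebra (RF (Option σ) K) F] (a : BR F) : Prop :=
  (∀ (P : MP (Option σ) K) (v : Vl F), Prime P → Cen (toE (MP (Option σ) K) F) v P → Unram v a) ∧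
    ∀ v : Vl F, (∀ p : MP σ K, p ≠ 0 → v (toE (MP (Option σ) K) F (up p)) = 1) →
      1 < v (toE (MP (Option σ) K) F (MvPolynomial.X none)) → Unram v a

/-- the hypothesis at one point at infinity -/
def H2 {K σ : Type} [Field K] (c : PChart K σ) (F : Type) [Field F] [Algebra (RF (Option σ) K) F]
    (θ : F) (a : BR F) : Prop :=
  ∃ (M : Type) (_ : Field M) (_ : Algebra K M) (_ : FiniteDimensional K M) (z : M)
    (j : F →+* LaurentSeries (RF σ M)) (b : BR M), Polynomial.aeval z c.top = 0 ∧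
    IntermediateField.adjoin K {z} = ⊤ ∧
    PChart.InfEmb (K := K) θ z j ∧ rs j a = rs ((PChart.cst σ M).comp MvPolynomial.C) b

/-- Theorem K for a prime `l` different from the characteristic -/
def ThmKp : Prop := ∀ (K : Type) [Field K] (σ : Type) [Fintype σ] (c : PChart K σ) (Φ : MP σ K)
  (F : Type) [Field F] [Algebra (RF (Option σ) K) F] (θ : F) (l : ℕ), c.GI → c.FF F θ →
  GoodM c Φ → l.Prime → (l : K) ≠ 0 → ∀ a : BR F, Prim l a → H1 K σ F a → H2 c F θ a →
    ∃ R : MuC (c.brs Φ) F, cls F R.c = a ∧ ∃ r, R.m = l ^ r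

/-- the same over a complete discretely valued field, with tameness at the Gauss valuation -/
def ThmKTp : Prop := ∀ (O K : Type) [CommRing O] [IsDomain O] [CDVR O] [Field K] [Algebra O K]
  [IsFractionRing O K] (σ : Type) [Fintype σ] (c₀ : PChart O σ) (Φ₀ : MP σ O) (c : PChart K σ)
  (π : O) (F : Type) [Field F] [Algebra (RF (Option σ) K) F] (θ : F) (l : ℕ),
  c₀.IsMap (algebraMap O K) c → Irreducible π → ¬MvPolynomial.C π ∣ Φ₀ → c.GI → c.FF F θ →
  GoodM c₀ Φ₀ → l.Prime → IsUnit (l : O) → ∀ a : BR F, Prim l a → H1 K σ F a → H2 c F θ a →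
    ∃ R : MuC (c.brs (MvPolynomial.map (algebraMap O K) Φ₀)) F, cls F R.c = a ∧
      (∃ r, R.m = l ^ r) ∧ ∀ w : Vl R.E,
        Cen ((toE (MP (Option σ) K) R.E).comp (MvPolynomial.map (algebraMap O K))) w
          (MvPolynomial.C π) → Tame (RF (Option σ) K) w

/-- `T` contains a Galois extension of the field of parameters that is unramified off `Φ` and
over which the unramified Kummer classes of the generic fibre are fixed -/
def KZ (l : ℕ) {k σ : Type} [Field k] (c : PChart k σ) (Φ : MP σ k) (T : Type) [Field T]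
    [Algebra (RF (Option σ) k) T] : Prop :=
  ∃ (K K₀ : Type) (_ : Field K) (_ : Field K₀) (_ : Algebra K K₀) (_ : FiniteDimensional K K₀)
    (_ : IsGalois K K₀) (α : MP σ k →+* K) (e : K₀ →+* T), IsFr α ∧ UnrOff K (tE K₀ α) Φ ∧
    (∀ p, e (tE K₀ α p) = toE (MP (Option σ) k) T (up p)) ∧
    WF l ((cχ c).map (Polynomial.mapRingHom (tE K₀ α)))

/-- the field `E⁰` -/
def K0EX : Prop := ∀ (k : Type) [Field k] (σ : Type) [Fintype σ] (c : PChart k σ) (Φ : MP σ k),
  c.GI → GoodM c Φ → Φ ≠ 0 → ∀ Λ : Finset ℕ, (∀ l ∈ Λ, l.Prime ∧ (l : k) ≠ 0) →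
  ∃ (T : Type) (_ : Field T) (_ : Algebra (RF (Option σ) k) T)
    (_ : FiniteDimensional (RF (Option σ) k) T) (_ : IsGalois (RF (Option σ) k) T),
    UnrOff (RF (Option σ) k) (toE (MP (Option σ) k) T) (c.brs Φ) ∧
    (c.χ.map (toE (MP (Option σ) k) T)).Splits ∧ ∀ l ∈ Λ, KZ l c Φ T

/-- Theorem K on a hyperplane, relative to the residue field `TH` of `T` -/
def ThmK9 : Prop := ∀ (k : Type) [Field k] (σ : Type) [Fintype σ] (c : PChart k (Option σ))
  (Φ : MP (Option σ) k) (c'' : PChart k σ) (T TH : Type) [Field T] [Field TH]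
  [Algebra (RF (Option (Option σ)) k) T] [Algebra (RF (Option σ) k) TH]
  [FiniteDimensional (RF (Option σ) k) TH] [IsGalois (RF (Option σ) k) TH] (w : Vl T)
  (ρ : w.integer →+* TH) (F : Type) [Field F] [Algebra (RF (Option σ) k) F] (θ : F) (l : ℕ),
  c.GI → GoodM c Φ → c.IsHyp c'' → c''.GI → GoodM c'' (hyp0 Φ) → hyp0 Φ ≠ 0 → c''.FF F θ →
  l.Prime → (l : k) ≠ 0 → (c.χ.map (toE (MP (Option (Option σ)) k) T)).Splits → KZ l c Φ T →
  HRes (k := k) (σ := σ) w ρ (RingHom.id TH) → Function.Surjective ρ →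
  UnrOff (RF (Option σ) k) (toE (MP (Option σ) k) TH) (c''.brs (hyp0 Φ)) →
  ∀ a : BR F, Prim l a → H1 k σ F a → H2 c'' F θ a →
    ∃ R : MuC (c''.brs (hyp0 Φ)) F, cls F R.c = a ∧ (∃ r, R.m = l ^ r) ∧ LOver k σ l T R.E

end Pool.Agent.ZCy.F
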