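import Pool.Agent.Lib.MP_751085_ag.ZF.K.KDf2
import Pool.Agent.Lib.MP_751085_ag.ZF.G.Pld
import Pool.Agent.Lib.MP_751085_ag.ZF.G.Et0

/-! A prolongation of two valuations. -/

namespace Pool.Agent.ZCy.F.Kp

open Pool.Agent.ZFy Pool.Agent.ZFy.GM
open scoped Classical WithZero IntermediateField
open Polynomial groupCohomology

set_option linter.unusedSectionVars false

theorem pamv_ev {L₀ L₁ E N : Type} [Field L₀] [Field L₁] [Field E] [Field N] [Algebra L₀ E]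
    [Algebra L₁ N] {β : L₀ →+* L₁} {i : E →+* N} (hi : Sq β i) (θ : E) (G : L₀[X]) :
    (G.map β).eval₂ (algebraMap L₁ N) (i θ) = i (aeval θ G) := by
  rw [eval₂_map, aeval_def, hom_eval₂,
    show i.comp (algebraMap L₀ E) = (algebraMap L₁ N).comp β from RingHom.ext hi]

theorem amv {L₀ L₁ E N : Type} [Field L₀] [Field L₁] [Field E] [Field N] [Algebra L₀ E]
    [FiniteDimensional L₀ E] [Algebra.IsSeparable L₀ E] [Algebra L₁ N] [FiniteDimensional L₁ N]
    (β : L₀ →+* L₁) {i : E →+* N} (hi : Sq β i) {θ : E} (hθ : L₀⟮θ⟯ = ⊤)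
    (hirr : Irreducible ((minpoly L₀ θ).map β)) {v₁ : Vl L₁} {P : Vl E}
    (h : ∀ x, P (algebraMap L₀ E x) ≤ 1 ↔ v₁ (β x) ≤ 1) :
    ∃ W : Vl N, Over (algebraMap L₁ N) v₁ W ∧ Over i P W := by
  obtain ⟨L, _, _, _, j, w, hj, h1, h2⟩ := pld β (v := P.comap (algebraMap L₀ E))
    (fun x => (h x).symm) (P := P) fun _ => Iff.rfl
  have := Fact.mk hirr
  let φ := AdjoinRoot.lift (algebraMap L₁ N) (i θ)
    ((pamv_ev hi θ _).trans (by rw [minpoly.aeval, map_zero]))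
  let ψ := AdjoinRoot.lift (algebraMap L₁ L) (j θ)
    ((pamv_ev hj θ _).trans (by rw [minpoly.aeval, map_zero]))
  let _ := φ.toAlgebra
  have : IsScalarTower L₁ (AdjoinRoot ((minpoly L₀ θ).map β)) N :=
    IsScalarTower.of_algebraMap_eq fun a => (AdjoinRoot.lift_of _).symm
  have := Module.Finite.of_restrictScalars_finite L₁ (AdjoinRoot ((minpoly L₀ θ).map β)) N
  obtain ⟨W, hW⟩ := exists_over (E := N) (w.comap ψ)
  have key : ∀ G : L₁[X], W (G.eval₂ (algebraMap L₁ N) (i θ)) ≤ 1 ↔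
      w (G.eval₂ (algebraMap L₁ L) (j θ)) ≤ 1 := fun G => hW (AdjoinRoot.mk _ G)
  refine ⟨W, fun x => ?_, fun x => ?_⟩
  · rw [← h1 x]
    simpa only [eval₂_C] using key (C x)
  · have h3 : x ∈ L₀⟮θ⟯.toSubalgebra := hθ ▸ trivial
    rw [IntermediateField.adjoin_simple_toSubalgebra_of_isAlgebraic (.of_finite L₀ θ),
      Algebra.adjoin_singleton_eq_range_aeval] at h3
    obtain ⟨G, rfl⟩ := h3
    have h4 := key (G.map β)
    rw [pamv_ev hi, pamv_ev hj] at h4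
    exact h4.trans (h2 _)

theorem amv_etl {K K' E L₁ N : Type} [Field K] [Field K'] [Field E] [Field L₁] [Field N]
    [Algebra L₁ N] [FiniteDimensional L₁ N] (γ : K →+* K') {a : K[X] →+* E} {θ : E} {χ : K[X][X]}
    {D : K[X]} (h : Etl a θ χ D) (hi : Irreducible (χ.map (mapRingHom γ))) {α₁ : K'[X] →+* L₁}
    (hα : IsFr α₁) {i : E →+* N} (hc : ∀ p, i (a p) = tE N α₁ (p.map γ)) {v₁ : Vl L₁} {P : Vl E}
    (e : ∀ p q : K[X], P (a p) ≤ P (a q) ↔ v₁ (α₁ (p.map γ)) ≤ v₁ (α₁ (q.map γ))) :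
    ∃ W : Vl N, Over (algebraMap L₁ N) v₁ W ∧ Over i P W := by
  obtain ⟨_, rfl⟩ := exists_frac h.inj
  have hf := isFr_alg K[X] (Fr K[X])
  obtain ⟨_, _, -, h1, h2⟩ := h.alg hf
  obtain ⟨β, hβ⟩ := hf.exists_lift (β := α₁.comp (mapRingHom γ))
    (hα.1.comp (map_injective γ γ.injective))
  refine amv β (i := i) (RingHom.congr_fun (hf.hom_ext (φ := i.comp (algebraMap _ E))
    (φ' := (algebraMap L₁ N).comp β) fun p => (hc p).trans (congrArg _ (hβ p).symm))) h1 ?_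
    fun x => ?_
  · let _ := α₁.toAlgebra
    have := hα.frac
    rw [h2, Polynomial.map_map, show β.comp (algebraMap _ _) = _ from RingHom.ext hβ,
      ← Polynomial.map_map]
    exact ((h.monic.map _).irreducible_iff_irreducible_map_fraction_map (K := L₁)).1 hi
  · obtain ⟨p, q, hq, e1⟩ := hf.2 x
    have h3 := hf.vfrc_ne hq
    rw [eq_div_of_mul_eq h3 e1, map_div₀, map_div₀, map_div₀, map_div₀,
      div_le_one₀ (zero_lt_iff.2 (P.ne_zero_iff.2 ((_root_.map_ne_zero _).2 h3))),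
      div_le_one₀ (zero_lt_iff.2 (v₁.ne_zero_iff.2 ((_root_.map_ne_zero _).2 h3))), hβ, hβ]
    exact e p q

end Pool.Agent.ZCy.F.Kp
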