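import Pool.Agent.Lib.MP_751085_ag.ZF.K.Fb
import Pool.Agent.Lib.MP_751085_ag.ZC.Z.Cen2

/-! The action on coefficients. -/

namespace Pool.Agent.ZCy.F.Kp

open Pool.Agent.ZFy Pool.Agent.ZFy.GM
open scoped Classical WithZero IntermediateField
open Polynomial groupCohomology

set_option linter.unusedSectionVars false

variable {K F : Type} [Field K] [Field F] [Algebra K[X] F] [Algebra F (Os K)] (c : Cur K F) {l M : ℕ}
variable {K₂ : Type} [Field K₂] [Algebra K K₂] [Algebra K₂ (Ks K)] [IsScalarTower K K₂ (Ks K)]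

/-- automorphisms of the coefficients over `K₂` fix `F` -/
theorem kf_lm (hs : Sct (K := K) K₂ F l M) (σ : Ks K ≃ₐ[K₂] Ks K) (x : F) :
    lm (σ : Ks K →+* Ks K) (algebraMap F (Os K) x) = algebraMap F (Os K) x := by
  obtain ⟨j, hj⟩ := hs.sec
  rw [hj]
  ext n
  exact congrArg Subtype.val (σ.commutes _)

/-- the action on the coefficients as a homomorphism over `F` -/
noncomputable def penl_hom (hs : Sct (K := K) K₂ F l M) (σ : Ks K ≃ₐ[K₂] Ks K) : Os K →ₐ[F] Os K :=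
  { lm (σ : Ks K →+* Ks K) with commutes' := kf_lm hs σ }

theorem kp_rho (hs : Sct (K := K) K₂ F l M) (E : IntermediateField F (Os K)) [Normal F E]
    (σ : Ks K ≃ₐ[K₂] Ks K) : ∃ g : E ≃ₐ[F] E, Cw (σ : Ks K →+* Ks K) g :=
  ⟨(penl_hom hs σ).restrictNormal' E, (penl_hom hs σ).restrictNormal_commutes E⟩

theorem ke_cf (hs : Sct (K := K) K₂ F l M) (E : IntermediateField F (Os K))
    [FiniteDimensional F E] : ∃ S : Finset (Ks K), ∀ y ∈ E, ∀ n,
      y.coeff n ∈ IntermediateField.adjoin K₂ (S : Set (Ks K)) := by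
  have h : ∀ ψ : E →ₐ[F] Os K, ∃ (x : E) (n : ℤ), (ψ x).coeff n = (x : Os K).coeff n →
      ∀ (y : E) (m : ℤ), (ψ y).coeff m = (y : Os K).coeff m := by
    intro ψ
    by_cases h : ∀ (y : E) (m : ℤ), (ψ y).coeff m = (y : Os K).coeff m
    · exact ⟨0, 0, fun _ => h⟩
    · obtain ⟨x, hx⟩ := not_forall.1 h
      obtain ⟨n, hn⟩ := not_forall.1 hx
      exact ⟨x, n, fun e => absurd e hn⟩
  choose x n h using h
  have := IsGalois.tower_top_of_isGalois K K₂ (Ks K)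
  refine ⟨Finset.univ.image fun ψ => (x ψ : Os K).coeff (n ψ), fun y hy m => ?_⟩
  rw [← InfiniteGalois.fixedField_fixingSubgroup (IntermediateField.adjoin K₂ _),
    IntermediateField.mem_fixedField_iff]
  intro σ hσ
  refine h ((penl_hom hs σ).comp E.val) ?_ ⟨y, hy⟩ m
  exact (IntermediateField.mem_fixingSubgroup_iff _ _).1 hσ _ (IntermediateField.subset_adjoin _ _
    (Finset.mem_coe.2 (Finset.mem_image_of_mem _ (Finset.mem_univ _))))

theorem Sct.neM (hs : Sct (K := K) K₂ F l M) : (M : K) ≠ 0 := by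
  obtain ⟨e, rfl⟩ := hs.pw
  rw [Nat.cast_pow]
  exact pow_ne_zero _ hs.ne

variable {E : IntermediateField F (Os K)} {K₁ : IntermediateField K₂ (Ks K)}
  (hf : Frm (K₁ : Set (Ks K)) E)

theorem ke_J (a : K₁) : (hf.J a : Os K) = hc (a : Ks K) := rfl

theorem ke_phi_C (a : K₁) : hf.φ (C a) = hf.J a := eval₂_C _ _

theorem ke_cw {σ : Ks K →+* Ks K} {g : E → E} (hg : Cw σ g) (a : K₁) :
    (g (hf.J a) : Os K) = hc (σ a) := (hg _).trans (kl_lm_hc σ _)

theorem ke_fixC (g : E → E) : FixC g ↔ ∀ a, g (hf.J a) = hf.J a := by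
  refine ⟨fun h a => h _ ⟨a, rfl⟩, fun h x ⟨a, ha⟩ => ?_⟩
  have hm : a ∈ K₁ := by
    have := hf.cf x x.2 0
    rwa [← ha, HahnSeries.C_apply, HahnSeries.coeff_single_same] at this
  rw [show x = hf.J ⟨a, hm⟩ from Subtype.ext ha.symm, h]

theorem ke_sec_fix {g : E ≃ₐ[F] E} (hg : g ∈ secG K₂ E) (a : K₂) :
    g (hf.J (algebraMap K₂ K₁ a)) = hf.J (algebraMap K₂ K₁ a) := by
  obtain ⟨σ, h⟩ := hg
  exact Subtype.ext ((ke_cw hf h _).trans (congrArg hc (σ.commutes a)))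

include hf in
/-- the coefficients lie in `K₁` -/
theorem ke_sec_one {g : E ≃ₐ[F] E} (hg : g ∈ secG K₂ E) (h : FixC (⇑g)) : g = 1 := by
  obtain ⟨σ, hσ⟩ := hg
  refine AlgEquiv.ext fun x => Subtype.ext ((hσ x).trans (HahnSeries.ext (funext fun n => ?_)))
  exact (hc : Ks K →+* Os K).injective ((ke_cw hf hσ ⟨_, hf.cf x x.2 n⟩).symm.trans
    (congrArg Subtype.val ((ke_fixC hf _).1 h ⟨_, hf.cf x x.2 n⟩)))

include hf in
/-- the roots of unity come from `K₂` -/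
theorem ke_mu (hs : Sct (K := K) K₂ F l M) {x : E} (hx : x ^ M = 1) :
    ∃ a : K₂, x = hf.J (algebraMap K₂ K₁ a) := by
  obtain ⟨ζ, hζ⟩ := hs.root
  have : NeZero M := ⟨fun h => hs.neM (by rw [h, Nat.cast_zero])⟩
  obtain ⟨i, -, e⟩ := (hζ.map_of_injective
    (hf.J.comp (algebraMap K₂ K₁)).injective).eq_pow_of_pow_eq_one hx
  exact ⟨ζ ^ i, e.symm.trans (map_pow (hf.J.comp (algebraMap K₂ K₁)) ζ i).symm⟩

include c

theorem ke_JK (a : K) : hf.J (algebraMap K K₁ a) = kap K F E a := Subtype.ext (kf_C c a).symm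

theorem ke_phi (p : K[X]) : hf.φ (p.map (algebraMap K K₁)) = toF K[X] F E p := by
  refine RingHom.congr_fun (f := hf.φ.comp (mapRingHom (algebraMap K K₁)))
    (Polynomial.ringHom_ext (fun a => ?_) ?_) p
  · rw [RingHom.comp_apply, coe_mapRingHom, map_C, ke_phi_C, ke_JK c]
    rfl
  · rw [RingHom.comp_apply, coe_mapRingHom, map_X]
    exact eval₂_X _ _

theorem ke_iota : ∃ ι : E →+* Ls K₁, (∀ x, lm (K₁.val : K₁ →+* Ks K) (ι x) = (x : Os K)) ∧
    ∀ p, ι (hf.φ p) = tL K₁ p := by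
  have hi := (K₁.val : K₁ →+* Ks K).injective
  obtain ⟨ι, h⟩ := exists_fac (lm (K₁.val : K₁ →+* Ks K)) (algebraMap E (Os K)) fun x =>
    (mem_lm_range hi _).2 fun n => ⟨⟨_, hf.cf x x.2 n⟩, rfl⟩
  refine ⟨ι, h, fun p => lm_injective hi (((h _).trans ?_).trans (kl_lm_tM _ p).symm)⟩
  refine RingHom.congr_fun (f := (algebraMap E (Os K)).comp hf.φ)
    (g := (tL (Ks K)).comp (mapRingHom (K₁.val : K₁ →+* Ks K)))
    (Polynomial.ringHom_ext (fun a => ?_) ?_) p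
  · rw [RingHom.comp_apply, RingHom.comp_apply, coe_mapRingHom, map_C, ke_phi_C, kl_tM_C]
    rfl
  · rw [RingHom.comp_apply, RingHom.comp_apply, coe_mapRingHom, map_X, ← map_X (algebraMap K K₁),
      ke_phi c, ← map_X (algebraMap K (Ks K))]
    exact c.inf X

theorem ke_res [FiniteDimensional K K₁] [IsGalois K K₁] (g : E ≃ₐ[F] E) :
    ∃ g₁ : K₁ ≃ₐ[K] K₁, ∀ a, hf.J (g₁ a) = g (hf.J a) :=
  exists_restrict hf.J (g : E →+* E) fun a => by
    rw [ke_JK c]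
    exact g.commutes _

omit c in
/-- every automorphism of `K₁` over `K₂` comes from `secG` -/
theorem ke_lift (hs : Sct (K := K) K₂ F l M) [Normal F E] (g₁ : K₁ ≃ₐ[K₂] K₁) :
    ∃ g ∈ secG K₂ E, ∀ a, g (hf.J a) = hf.J (g₁ a) := by
  have := IsGalois.tower_top_of_isGalois K K₂ (Ks K)
  obtain ⟨g, hg⟩ := kp_rho hs E (g₁.liftNormal (Ks K))
  exact ⟨g, ⟨_, hg⟩, fun a => Subtype.ext ((ke_cw hf hg a).trans
    (congrArg hc (g₁.liftNormal_commutes (Ks K) a)))⟩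

theorem ke_dec (hs : Sct (K := K) K₂ F l M) [Normal F E] [FiniteDimensional K K₁] [IsGalois K K₁]
    (g : E ≃ₐ[F] E) (h2 : ∀ a : K₂, g (hf.J (algebraMap K₂ K₁ a)) = hf.J (algebraMap K₂ K₁ a)) :
    ∃ g₁ ∈ secG K₂ E, FixC (⇑(g₁⁻¹ * g)) := by
  obtain ⟨g₀, h⟩ := ke_res c hf g
  obtain ⟨g₁, h1, h3⟩ := ke_lift hf hs
    { g₀ with commutes' := fun a => hf.J.injective ((h _).trans (h2 a)) }
  refine ⟨g₁, h1, (ke_fixC hf _).2 fun a => ?_⟩
  have e : g (hf.J a) = g₁ (hf.J a) := (h a).symm.trans (h3 a).symm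
  rw [AlgEquiv.mul_apply, e, ← AlgEquiv.mul_apply, inv_mul_cancel, AlgEquiv.one_apply]

end Pool.Agent.ZCy.F.Kp
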