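import Pool.Agent.Lib.MP_751085_ag.ZF.K.Fld
import Pool.Agent.Lib.MP_751085_ag.ZF.K.Enl
import Pool.Agent.Lib.MP_751085_ag.ZF.K.NeedA

/-! Extension of the constants. -/

namespace Pool.Agent.ZCy.F.Kp

open Pool.Agent.ZFy Pool.Agent.ZFy.GM
open scoped Classical WithZero IntermediateField
open Polynomial groupCohomology

set_option linter.unusedSectionVars false

/-- the series with coefficients in a subfield -/
theorem penlb_range {K Ω : Type} [Field K] [Field Ω] [Algebra K Ω] (K₁ : IntermediateField K Ω)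
    (y : Ls Ω) : y ∈ (lm (algebraMap K₁ Ω)).fieldRange ↔ ∀ n, y.coeff n ∈ K₁ := by
  refine ⟨?_, fun h => ⟨⟨fun n => ⟨y.coeff n, h n⟩, y.isPWO_support.mono fun n hn e => ?_⟩, rfl⟩⟩
  · rintro ⟨z, rfl⟩ n
    exact (z.coeff n).2
  · exact hn (Subtype.ext e)

/-- the compositum with a finite Galois extension -/
theorem penlb_gal {K K₁ F Ω : Type} [Field K] [Field K₁] [Field F] [Field Ω] [Algebra K K₁]
    [FiniteDimensional K K₁] [IsGalois K K₁] [Algebra F Ω] (ι : K →+* F) (ψ : K₁ →+* Ω)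
    (h : ψ.comp (algebraMap K K₁) = (algebraMap F Ω).comp ι) :
    FiniteDimensional F (IntermediateField.adjoin F (Set.range ψ)) ∧
      IsGalois F (IntermediateField.adjoin F (Set.range ψ)) := by
  obtain ⟨p, hs, hp⟩ := IsGalois.is_separable_splitting_field K K₁
  have e : (p.map ι).map (algebraMap F Ω) = (p.map (algebraMap K K₁)).map ψ := by
    rw [Polynomial.map_map, Polynomial.map_map, h]
  have h0 : p.map ι ≠ 0 := Polynomial.map_ne_zero hs.ne_zero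
  have h2 : IntermediateField.adjoin F (Set.range ψ) =
      IntermediateField.adjoin F ((p.map ι).rootSet Ω) := by
    refine le_antisymm (IntermediateField.adjoin_le_iff.2 ?_)
      (IntermediateField.adjoin.mono _ _ _ fun z hz => ?_)
    · rintro _ ⟨a, rfl⟩
      have ha : a ∈ Algebra.adjoin K (p.rootSet K₁) := hp.adjoin_rootSet' ▸ Algebra.mem_top
      induction ha using Algebra.adjoin_induction with
      | mem x hx =>
        refine IntermediateField.subset_adjoin _ _ (mem_rootSet.2 ⟨h0, ?_⟩)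
        rw [← eval_map_algebraMap, e, eval_map, eval₂_hom, eval_map_algebraMap,
          (mem_rootSet.1 hx).2, map_zero]
      | algebraMap r => exact (RingHom.congr_fun h r).symm ▸ IntermediateField.algebraMap_mem _ (ι r)
      | add x y _ _ hx hy => exact map_add ψ x y ▸ add_mem hx hy
      | mul x y _ _ hx hy => exact map_mul ψ x y ▸ mul_mem hx hy
    · refine hp.splits'.mem_range_of_isRoot (Polynomial.map_ne_zero hs.ne_zero) ?_
      rw [← e, IsRoot, eval_map_algebraMap]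
      exact (mem_rootSet.1 hz).2
  have := IntermediateField.adjoin_rootSet_isSplittingField (e ▸ hp.splits'.map ψ)
  rw [h2]
  exact ⟨IsSplittingField.finiteDimensional _ (p.map ι),
    .of_separable_splitting_field (hs.map (f := ι))⟩

variable {K F : Type} [Field K] [Field F] [Algebra K[X] F] [Algebra F (Os K)] (c : Cur K F) {M : ℕ}
variable {K₂ : Type} [Field K₂] [Algebra K K₂] [Algebra K₂ (Ks K)] [IsScalarTower K K₂ (Ks K)]

/-- restriction to a subextension and inflation -/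
theorem ke_inf {E₀ E : IntermediateField F (Os K)} (h₀ : Nice M E₀) (h : Nice M E) (hle : E₀ ≤ E)
    {cc : (E₀ ≃ₐ[F] E₀) × (E₀ ≃ₐ[F] E₀) → E₀ˣ} (hcc : IsMulCocycle₂ cc) :
    ∃ (r : (E ≃ₐ[F] E) → E₀ ≃ₐ[F] E₀) (cc' : (E ≃ₐ[F] E) × (E ≃ₐ[F] E) → Eˣ),
      (∀ (σ : Ks K →+* Ks K) (g : E ≃ₐ[F] E), Cw σ (⇑g) → Cw σ (⇑(r g))) ∧ IsMulCocycle₂ cc' ∧
      (∀ g g', ((cc' (g, g') : E) : Os K) = ((cc (r g, r g') : E₀) : Os K)) ∧
      cls F cc' = cls F cc := by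
  have := h₀.fin
  have := h₀.gal
  have := h.fin
  have := h.gal
  obtain ⟨r, hr⟩ := exists_lk_of (K := F) (Ω := E₀) (K' := F) (Ω' := E) (γ := RingHom.id F)
    (j := (IntermediateField.inclusion hle : E₀ →+* E)) fun _ => rfl
  refine ⟨r, pull _ r cc, fun σ g hg x => ?_, pull_coc hr.comm hcc, fun _ _ => rfl,
    (ka_pull _ hr.base hr.comm hcc).symm.trans (ka_id _)⟩
  exact (congrArg Subtype.val (hr.comm g x)).trans (hg _)

theorem kp_desc {E : IntermediateField F (Os K)} {S : Finset (Ks K)} (hS : ∀ x ∈ S, hc x ∈ E)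
    (h₂ : ∀ a : K₂, hc (algebraMap K₂ (Ks K) a) ∈ E) {cc : (E ≃ₐ[F] E) × (E ≃ₐ[F] E) → Eˣ}
    {e : (Ks K ≃ₐ[K₂] Ks K) → K₂ˣ} (h1 : ∀ σ, e σ ^ M = 1)
    (h2 : ∀ σ σ', (∀ x ∈ S, σ x = σ' x) → e σ = e σ')
    (h3 : ∀ (σ σ' : Ks K ≃ₐ[K₂] Ks K) (g g' : E ≃ₐ[F] E), Cw (σ : Ks K →+* Ks K) (⇑g) →
      Cw (σ' : Ks K →+* Ks K) (⇑g') → ((cc (g, g') : E) : Os K) =
        hc (algebraMap K₂ (Ks K) ((e σ' / e (σ * σ') * e σ : K₂ˣ) : K₂))) :
    ∃ e' : (E ≃ₐ[F] E) → Eˣ, (∀ r, e' r ^ M = 1) ∧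
      ∀ r ∈ secG K₂ E, ∀ r' ∈ secG K₂ E, cc (r, r') = dd e' (r, r') := by
  obtain ⟨u, hu⟩ : ∃ u : K₂ →+* E, ∀ a, (u a : Os K) = hc (algebraMap K₂ (Ks K) a) :=
    ⟨((hc : Ks K →+* Os K).comp (algebraMap K₂ (Ks K))).codRestrict E h₂, fun _ => rfl⟩
  obtain ⟨e', h0, he⟩ : ∃ e' : (E ≃ₐ[F] E) → Eˣ, (∀ r, e' r ^ M = 1) ∧
      ∀ (σ : Ks K ≃ₐ[K₂] Ks K) (g : E ≃ₐ[F] E),
      Cw (σ : Ks K →+* Ks K) (⇑g) → e' g = Units.map (u : K₂ →* E) (e σ) := by
    refine ⟨fun g => if h : ∃ σ : Ks K ≃ₐ[K₂] Ks K, Cw (σ : Ks K →+* Ks K) (⇑g) then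
      Units.map (u : K₂ →* E) (e h.choose) else 1, fun g => ?_, fun σ g hg => ?_⟩
    · beta_reduce
      split_ifs
      · rw [← map_pow, h1, map_one]
      · exact one_pow _
    have h : ∃ σ : Ks K ≃ₐ[K₂] Ks K, Cw (σ : Ks K →+* Ks K) (⇑g) := ⟨σ, hg⟩
    beta_reduce
    rw [dif_pos h, h2 h.choose σ fun x hx => ?_]
    have h4 := (h.choose_spec ⟨hc x, hS x hx⟩).symm.trans (hg ⟨hc x, hS x hx⟩)
    rw [kl_lm_hc, kl_lm_hc] at h4
    exact HahnSeries.C_injective h4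
  refine ⟨e', h0, ?_⟩
  rintro r ⟨σ, hr⟩ r' ⟨σ', hr'⟩
  have hm : Cw ((σ * σ' : Ks K ≃ₐ[K₂] Ks K) : Ks K →+* Ks K) (⇑(r * r')) := fun x =>
    (hr (r' x)).trans (congrArg (lm (σ : Ks K →+* Ks K)) (hr' x))
  have hf : r • Units.map (u : K₂ →* E) (e σ') = Units.map (u : K₂ →* E) (e σ') := by
    refine Units.ext (Subtype.ext ?_)
    change (r (u (e σ' : K₂)) : Os K) = u (e σ' : K₂)
    rw [hr, hu, kl_lm_hc]
    exact congrArg _ (σ.commutes _)
  rw [dd, he σ r hr, he σ' r' hr', he _ _ hm, hf, ← _root_.map_div, ← map_mul]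
  exact Units.ext (Subtype.ext ((h3 σ σ' r r' hr hr').trans (hu _).symm))

include c

theorem ke_cst (K₁ : IntermediateField K₂ (Ks K)) [FiniteDimensional K K₁] [IsGalois K K₁] :
    FiniteDimensional F (IntermediateField.adjoin F (hc '' (K₁ : Set (Ks K)) : Set (Os K))) ∧
      IsGalois F (IntermediateField.adjoin F (hc '' (K₁ : Set (Ks K)) : Set (Os K))) := by
  have := penlb_gal ((algebraMap K[X] F).comp C) ((hc : Ks K →+* Os K).comp (K₁.val : K₁ →+* Ks K))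
    (RingHom.ext fun a => (kf_C c a).symm)
  rwa [RingHom.coe_comp, Set.range_comp, show Set.range (K₁.val : K₁ →+* Ks K) = K₁ from
    Subtype.range_coe] at this

/-- adjoin the constants `K₁` -/
theorem ke_enl {E₀ : IntermediateField F (Os K)} (h : Nice M E₀) (K₁ : IntermediateField K₂ (Ks K))
    [FiniteDimensional K K₁] [IsGalois K K₁] (hcf : ∀ y ∈ E₀, ∀ n, y.coeff n ∈ K₁) :
    ∃ E : IntermediateField F (Os K), E₀ ≤ E ∧ Nice M E ∧ Frm (K₁ : Set (Ks K)) E := by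
  obtain ⟨_, _⟩ := ke_cst c K₁
  have := h.fin
  have := h.gal
  obtain ⟨Z, hZ, hg⟩ := h.gen
  let R := (lm (algebraMap K₁ (Ks K))).fieldRange.toIntermediateField fun x =>
    (penlb_range K₁ _).2 (hcf _ (E₀.algebraMap_mem x))
  refine ⟨E₀ ⊔ IntermediateField.adjoin F (hc '' (K₁ : Set (Ks K))), le_sup_left,
    ⟨inferInstance, ⟨⟩, Z ∪ hc '' (K₁ : Set (Ks K)), by rw [IntermediateField.adjoin_union, ← hZ],
      ?_⟩, fun y hy => (penlb_range K₁ y).1 ((sup_le ?_ ?_ : _ ≤ R) hy), fun a ha =>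
    (le_sup_right : _ ≤ E₀ ⊔ _) (IntermediateField.subset_adjoin _ _ ⟨a, ha, rfl⟩)⟩
  · rintro z (hz | ⟨a, -, rfl⟩)
    · exact hg z hz
    · exact ⟨cb K F (a ^ M), map_pow hc a M, kf_tyc M _⟩
  · exact fun x hx => (penlb_range K₁ x).2 (hcf x hx)
  · refine IntermediateField.adjoin_le_iff.2 ?_
    rintro _ ⟨a, ha, rfl⟩
    exact ⟨hc ⟨a, ha⟩, kl_lm_hc _ _⟩

end Pool.Agent.ZCy.F.Kp
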