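import Pool.Agent.Lib.MP_751085_ag.ZF.K.FbB

/-! The geometric Galois group of an admissible field. -/

namespace Pool.Agent.ZCy.F.Kp

open Pool.Agent.ZFy Pool.Agent.ZFy.GM
open scoped Classical WithZero IntermediateField
open Polynomial groupCohomology

set_option linter.unusedSectionVars false

variable {K F : Type} [Field K] [Field F] [Algebra K[X] F] [Algebra F (Os K)] (c : Cur K F) {M : ℕ}
  {E : IntermediateField F (Os K)}

/-- automorphisms that agree on the generators -/
theorem nic_ext (h : Nice M E) {g g' : E ≃ₐ[F] E} (e : ∀ (z : E) (u : Fb K F),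
    (u : Os K) = (z : Os K) ^ M → TyW M (cb K F) u → g z = g' z) : g = g' := by
  obtain ⟨Z, hZ, H⟩ := h.gen
  exact AlgEquiv.coe_toAlgHom_injective (IntermediateField.algHom_ext_of_eq_adjoin F hZ
    fun z hz => (H z hz).elim fun u hu => e _ u hu.1 hu.2)

theorem nic_mu (hM : (M : K) ≠ 0) {g : E → E} (hg : FixC g) {x : E} (hx : x ^ M = 1) :
    g x = x :=
  (kl_mu (y := (x : Os K)) (by rwa [← map_natCast (algebraMap K (Ks K)), _root_.map_ne_zero])
    (by exact_mod_cast congrArg Subtype.val hx)).elim fun a e => hg x ⟨a, e.symm⟩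

/-- `fixC E` is the fixing subgroup of the field generated by the constants of `E` -/
theorem nic_mem (h : Nice M E) {x : E} (hx : ∀ g ∈ fixC E, g x = x) : (x : Os K) ∈ Fb K F := by
  have := h.fin
  have := h.gal
  have h1 : x ∈ IntermediateField.adjoin F
      {y : E | (y : Os K) ∈ Set.range (hc : Ks K →+* Os K)} := by
    rw [← IsGalois.fixedField_fixingSubgroup (IntermediateField.adjoin F _),
      IntermediateField.mem_fixedField_iff]
    exact fun g hg => hx g fun y hy => (IntermediateField.mem_fixingSubgroup_iff _ _).1 hg y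
      (IntermediateField.subset_adjoin _ _ hy)
  exact (IntermediateField.adjoin_le_iff (T := (Fb K F).comap E.val)).2
    (fun y hy => IntermediateField.subset_adjoin _ _ hy) h1

include c

theorem pnic_ev (j : E →ₐ[F] Os K) (p : K[X]) (x : E) :
    j (p.eval₂ (kap K F E) x) = p.eval₂ (hc.comp (algebraMap K (Ks K))) (j x) :=
  (hom_eval₂ p _ (j : E →+* Os K) x).trans (congrArg (p.eval₂ · (j x))
    (RingHom.ext fun a => (j.commutes _).trans (kf_C c a)))

theorem pnic_root {x : E} {a : Ks K} (h : hc a = (x : Os K)) :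
    (minpoly K a).eval₂ (kap K F E) x = 0 := E.val.injective (by
  rw [map_zero]
  refine (pnic_ev c E.val _ x).trans ?_
  rw [show E.val x = hc a from h.symm, ← hom_eval₂, ← aeval_def, minpoly.aeval, map_zero])

/-- a conjugate of a constant is a constant -/
theorem nic_cst (g : E ≃ₐ[F] E) {x : E} (hx : (x : Os K) ∈ Set.range (hc : Ks K →+* Os K)) :
    (g x : Os K) ∈ Set.range (hc : Ks K →+* Os K) := by
  obtain ⟨a, ha⟩ := hx
  obtain ⟨b, hb, -⟩ := kl_const' (algebraMap K (Ks K)) (y := g x)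
    (minpoly.ne_zero (Algebra.IsIntegral.isIntegral a)) (Normal.splits inferInstance a)
    ((pnic_ev c (E.val.comp (g : E →ₐ[F] E)) _ x).symm.trans (by rw [pnic_root c ha, map_zero]))
  exact ⟨b, hb.symm⟩

theorem nic_normal : (fixC E).Normal :=
  ⟨fun n hn g x hx => by
    rw [AlgEquiv.mul_apply, AlgEquiv.mul_apply, hn _ (nic_cst c _ hx), ← AlgEquiv.mul_apply,
      mul_inv_cancel, AlgEquiv.one_apply]⟩

theorem nic_chr {g : E ≃ₐ[F] E} (hg : FixC (⇑g)) {z : E} {u : Fb K F}
    (e : (u : Os K) = (z : Os K) ^ M) : ∃ ζ : E, ζ ^ M = 1 ∧ g z = ζ * z := by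
  rcases eq_or_ne z 0 with rfl | h0
  · exact ⟨1, one_pow M, by simp⟩
  · refine ⟨g z / z, ?_, (div_mul_cancel₀ _ h0).symm⟩
    rw [div_pow, ← map_pow, kb_fix c hg (z ^ M) (by simpa [e] using u.2),
      div_self (pow_ne_zero _ h0)]

theorem nic_pow (hM : (M : K) ≠ 0) (h : Nice M E) {g : E ≃ₐ[F] E} (hg : FixC (⇑g)) :
    g ^ M = 1 :=
  nic_ext h fun z u e _ => by
    obtain ⟨ζ, h1, h2⟩ := nic_chr c hg e
    have h3 : ∀ n : ℕ, (g ^ n) z = ζ ^ n * z := fun n => by
      induction n with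
      | zero => simp
      | succ n ih => rw [pow_succ', AlgEquiv.mul_apply, ih, map_mul, map_pow, nic_mu hM hg h1, h2,
          pow_succ, mul_assoc]
    rw [h3, h1, one_mul, AlgEquiv.one_apply]

theorem nic_comm (hM : (M : K) ≠ 0) (h : Nice M E) {g g' : E ≃ₐ[F] E} (hg : FixC (⇑g))
    (hg' : FixC (⇑g')) : g * g' = g' * g :=
  nic_ext h fun z u e _ => by
    obtain ⟨ζ, h1, h2⟩ := nic_chr c hg e
    obtain ⟨ζ', h1', h2'⟩ := nic_chr c hg' e
    rw [AlgEquiv.mul_apply, AlgEquiv.mul_apply, h2, h2', map_mul, map_mul, h2, h2',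
      nic_mu hM hg h1', nic_mu hM hg' h1, mul_left_comm]

/-- an inertial element fixes the constants and the generators -/
theorem nic_unr (hM : (M : K) ≠ 0) (h : Nice M E) {w : Vl E} (hw : Triv (kap K F E) w) :
    Ine F w = ⊥ :=
  eq_bot_iff.2 fun g hg => nic_ext h (g' := 1) fun z u e hu => by
    have h1 : FixC (⇑g) := fun x ⟨a, ha⟩ => cst_fix ((algebraMap K[X] F).comp C) hw hg
      ⟨_, minpoly.monic (Algebra.IsIntegral.isIntegral a), pnic_root c ha⟩
    rcases eq_or_ne z 0 with rfl | h0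
    · simp
    obtain ⟨y, hy, h2⟩ := kb_val c hw (x := z ^ M) (by simpa using e.symm) hu (pow_ne_zero _ h0)
    rw [map_pow, pow_left_inj₀ zero_le zero_le (by rintro rfl; simp at hM)] at h2
    have h3 : w y ≠ 0 := h2 ▸ w.ne_zero_iff.2 h0
    have h4 := kz_kum (r := z / y) (map_natCast (kap K F E) M ▸ hw _ hM) hg
      (by rw [map_div₀, h2, div_self h3]) (by
        rw [div_pow, map_div₀, map_pow g y, kb_fix c h1 y hy,
          kb_fix c h1 (z ^ M) (by simpa [e] using u.2)])
    rwa [map_div₀, kb_fix c h1 y hy, div_left_inj' (w.ne_zero_iff.1 h3)] at h4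

end Pool.Agent.ZCy.F.Kp
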