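import Pool.Agent.Lib.MP_751085_ag.ZF.K.WfS
import Pool.Agent.Lib.MP_751085_ag.ZF.K.Nic
import Pool.Agent.Lib.MP_751085_ag.ZF.K.Enl

/-! Elements of order prime to `l`. -/

namespace Pool.Agent.ZCy.F.Kp

open Pool.Agent.ZFy Pool.Agent.ZFy.GM
open scoped Classical WithZero IntermediateField
open Polynomial groupCohomology

set_option linter.unusedSectionVars false

theorem lp_abs {G : Type} [CommGroup G] (γ : G →* G) {M q : ℕ} (hq : q.Coprime M) (e : ℕ) {u : G}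
    (h1 : γ^[q] u = u) (h2 : ∃ z, (fun x => γ x / x)^[e] u = z ^ M) : ∃ z, γ u = u * z ^ M := by
  induction e generalizing u with
  | zero =>
    obtain ⟨z, rfl⟩ : ∃ z, u = z ^ M := h2
    exact ⟨γ z / z, by rw [map_pow, div_pow, mul_div_cancel]⟩
  | succ e ih =>
    obtain ⟨d, hd⟩ : ∃ d, γ u = u * d := ⟨_, (mul_div_cancel u (γ u)).symm⟩
    have e1 : γ u / u = d := by rw [hd, mul_div_cancel_left]
    obtain ⟨z, hz⟩ := ih (u := d) (by
      rw [← e1, iterate_map_div, ← Function.iterate_succ_apply, Function.iterate_succ_apply', h1])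
      (e1 ▸ h2)
    have hn : ∀ n : ℕ, ∃ y, γ^[n] u = u * d ^ n * y ^ M := fun n => by
      induction n with
      | zero => exact ⟨1, by simp⟩
      | succ n ih =>
        obtain ⟨y, hy⟩ := ih
        refine ⟨z ^ n * γ y, ?_⟩
        rw [Function.iterate_succ_apply', hy, map_mul, map_mul, map_pow, map_pow, hz, hd, mul_pow,
          mul_pow, pow_succ, pow_right_comm]
        simp only [mul_comm, mul_assoc]
    obtain ⟨y, hy⟩ := hn q
    rw [h1, mul_assoc, left_eq_mul, mul_eq_one_iff_eq_inv, ← inv_pow] at hy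
    obtain ⟨t, ht⟩ : d ∈ (powMonoidHom M : G →* G).range := (QuotientGroup.eq_one_iff d).1 <|
      (pow_eq_one_iff_of_coprime hq).1
        ⟨(QuotientGroup.eq_one_iff (d ^ q)).2 ⟨_, hy.symm⟩,
          (QuotientGroup.eq_one_iff (d ^ M)).2 ⟨_, rfl⟩⟩
    exact ⟨t, by rw [hd, ← ht, powMonoidHom_apply]⟩

variable {K F : Type} [Field K] [Field F] [Algebra K[X] F] [Algebra F (Os K)] (c : Cur K F) {l M : ℕ}

include c

theorem lp_nil (hl : l ≠ 0) {γ : Fb K F ≃ₐ[F] Fb K F}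
    (h : ∀ u, TyW l (cb K F) u → ∃ z, γ u = u * z ^ l) (e : ℕ) {u : (Fb K F)ˣ}
    (hu : TyW (l ^ e) (cb K F) (u : Fb K F)) :
    ∃ z : (Fb K F)ˣ, (fun x : (Fb K F)ˣ => γ • x / x)^[e] u = z ^ l ^ e := by
  change ∃ z, (Units.map γ.toAlgHom.toRingHom.toMonoidHom / MonoidHom.id _ : _ →* _)^[e] u = _
  induction e generalizing u with
  | zero => exact ⟨u, (pow_one u).symm⟩
  | succ e ih =>
    obtain ⟨z, hz⟩ := h u (tyw_mono hu (dvd_pow_self l e.succ_ne_zero))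
    have h0 : z ≠ 0 := fun h0 => by
      rw [h0, zero_pow hl, mul_zero, map_eq_zero] at hz
      exact u.ne_zero hz
    have e2 : z ^ l = γ u * (u : Fb K F)⁻¹ := by rw [hz, mul_comm, inv_mul_cancel_left₀ u.ne_zero]
    obtain ⟨y, hy⟩ := ih (u := Units.mk0 z h0) (tyw_root hl (by
      rw [← pow_succ', Units.val_mk0, e2]
      exact tyw_mul (kf_tyw c γ hu) (tyw_inv hu)))
    refine ⟨y, ?_⟩
    rw [Function.iterate_succ_apply, pow_succ, pow_mul, ← hy, ← iterate_map_pow]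
    exact congrArg _ (div_eq_iff_eq_mul'.2 (Units.ext hz))

theorem lp_fix (hl : l ≠ 0) {γ : Fb K F ≃ₐ[F] Fb K F}
    (h : ∀ u, TyW l (cb K F) u → ∃ z, γ u = u * z ^ l) {e q : ℕ} (hq : q.Coprime l) {u : Fb K F}
    (hu : TyW (l ^ e) (cb K F) u) (h1 : (γ ^ q) u = u) : ∃ z, γ u = u * z ^ l ^ e := by
  rcases eq_or_ne u 0 with rfl | h0
  · exact ⟨1, by rw [map_zero, zero_mul]⟩
  obtain ⟨z, hz⟩ := lp_abs (Units.map γ.toAlgHom.toRingHom.toMonoidHom) (hq.pow_right e) e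
    (u := Units.mk0 u h0) (Units.ext ((Function.Semiconj.iterate_right (f := Units.val) (gb := γ)
      (fun _ => rfl) q _).trans ((congrFun (AlgEquiv.coe_pow γ q) u).symm.trans h1)))
    (lp_nil c hl h e hu)
  exact ⟨z, congrArg Units.val hz⟩

variable {E : IntermediateField F (Os K)}

theorem lp_comm (hM : (M : K) ≠ 0) (h : Nice M E) {g g₀ : E ≃ₐ[F] E} (h0 : FixC (⇑g₀))
    (hmu : ∀ x : E, x ^ M = 1 → g x = x) (hg : ∀ (z : E) (u : Fb K F), (u : Os K) = (z : Os K) ^ M →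
      TyW M (cb K F) u → ∃ t : Fb K F, (g z : Os K) ^ M = u * (t : Os K) ^ M) :
    g * g₀ = g₀ * g := by
  refine nic_ext h fun z u e hu => ?_
  obtain ⟨ζ, h1, h2⟩ := nic_chr c h0 e
  obtain ⟨t, ht⟩ := hg z u e hu
  rcases eq_or_ne z 0 with rfl | hz
  · rw [map_zero, map_zero]
  have hz' : (z : Os K) ≠ 0 := fun h => hz (Subtype.ext h)
  have e1 : ((g z / z : E) : Os K) ^ M = (t : Os K) ^ M := by
    rw [IntermediateField.coe_div, div_pow, ht, e, mul_div_cancel_left₀ _ (pow_ne_zero M hz')]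
  have hm : ((g z / z : E) : Os K) ∈ Fb K F := by
    rcases eq_or_ne (t : Os K) 0 with ht0 | ht0
    · rw [ht0, zero_pow fun h => hM (by rw [h, Nat.cast_zero])] at e1
      exact (pow_eq_zero_iff'.1 e1).1 ▸ zero_mem _
    obtain ⟨a, ha⟩ := kl_mu (T := Ks K) (M := M) (y := ((g z / z : E) : Os K) / t)
      (map_natCast (algebraMap K (Ks K)) M ▸ (_root_.map_ne_zero _).2 hM)
      (by rw [div_pow, e1, div_self (pow_ne_zero M ht0)])
    exact (div_eq_iff ht0).1 ha ▸ mul_mem (cb K F a).2 t.2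
  have e2 := kb_fix c h0 _ hm
  rw [AlgEquiv.mul_apply, AlgEquiv.mul_apply, h2, map_mul, hmu ζ h1, ← div_mul_cancel₀ (g z) hz,
    map_mul, e2, h2, mul_left_comm]

theorem lp_conv (h : Nice M E) {g : E ≃ₐ[F] E} (hmu : ∀ x : E, x ^ M = 1 → g x = x)
    (hg : ∀ g₀ : E ≃ₐ[F] E, FixC (⇑g₀) → g * g₀ = g₀ * g) {z : E} {u : Fb K F}
    (e : (u : Os K) = (z : Os K) ^ M) : ∃ t : Fb K F, (g z : Os K) ^ M = u * (t : Os K) ^ M := by
  rcases eq_or_ne z 0 with rfl | hz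
  · exact ⟨1, by rw [map_zero, e, OneMemClass.coe_one, one_pow, mul_one]⟩
  have hz' : (z : Os K) ≠ 0 := fun h => hz (Subtype.ext h)
  refine ⟨⟨_, nic_mem h (x := g z / z) fun g₀ h0 => ?_⟩, ?_⟩
  · obtain ⟨ζ, h1, h2⟩ := nic_chr c h0 e
    rw [map_div₀, ← AlgEquiv.mul_apply, ← hg g₀ h0, AlgEquiv.mul_apply, h2, map_mul, hmu ζ h1,
      mul_div_mul_left _ _ (left_ne_zero_of_mul (h2 ▸ (_root_.map_ne_zero g₀).2 hz))]
  · rw [e, ← mul_pow, IntermediateField.coe_div, mul_div_cancel₀ _ hz']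

variable {K₂ : Type} [Field K₂] [Algebra K K₂] [Algebra K₂ (Ks K)] [IsScalarTower K K₂ (Ks K)]
  {K₁ : IntermediateField K₂ (Ks K)} [FiniteDimensional K K₁] [IsGalois K K₁]
  {K₃ : Type} [Field K₃] [Algebra K K₃] [FiniteDimensional K K₃] [IsGalois K K₃]
  (e₃ : K₃ →ₐ[K] Ks K)

omit c in
theorem plpr_J (hf : Frm (K₁ : Set (Ks K)) E) {x : E} {a : Ks K} (h : (x : Os K) = hc a) :
    ∃ b : K₁, a = b ∧ x = hf.J b :=
  ⟨⟨a, by simpa [h] using hf.cf _ x.2 0⟩, rfl, Subtype.ext h⟩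

theorem lp_agree (hf : Frm (K₁ : Set (Ks K)) E) {g : E ≃ₐ[F] E} {σ : Ks K ≃ₐ[K] Ks K}
    {γ : Fb K F ≃ₐ[F] Fb K F} (hγ : ∀ a, γ (cb K F a) = cb K F (σ a))
    (hg : ∀ a, (g (hf.J a) : Os K) = hc (σ a)) (n : ℕ) (x : E) (y : Fb K F) (e : (x : Os K) = y) :
    ((g ^ n) x : Os K) = (γ ^ n) y := by
  induction n with
  | zero => exact e
  | succ n ih =>
    rw [pow_succ', pow_succ']
    refine kb_eq c (E.val.comp g.toAlgHom) ((Fb K F).val.comp γ.toAlgHom) (fun x a h => ?_) _ _ ih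
    obtain ⟨b, rfl, rfl⟩ := plpr_J hf h
    exact (hg b).trans (congrArg Subtype.val (hγ b)).symm

theorem kx_lpr (hs : Sct (K := K) K₂ F l M) (h : Nice M E) (hf : Frm (K₁ : Set (Ks K)) E)
    (h3 : ∀ a, e₃ a ∈ K₁) :
    Pl F l (S23 K₂ e₃ E) (WF l (c.χ.map (mapRingHom (algebraMap K K₃)))) ⊆ secG K₂ E := by
  rintro g ⟨hW, hS, q, hq, hg⟩
  have := h.gal
  obtain ⟨e, rfl⟩ := hs.pw
  have h2 : ∀ a : K₂, g (hf.J (algebraMap K₂ K₁ a)) = hf.J (algebraMap K₂ K₁ a) :=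
    fun a => hS _ (Or.inl ⟨a, rfl⟩)
  obtain ⟨g₁, h1, h0⟩ := ke_dec c hf hs g h2
  obtain ⟨g₀, rfl⟩ : ∃ g₀, g = g₁ * g₀ := ⟨g₁⁻¹ * g, (mul_inv_cancel_left _ _).symm⟩
  rw [inv_mul_cancel_left] at h0
  obtain ⟨σ, hσ⟩ := id h1
  have hJ : ∀ a, ((g₁ * g₀) (hf.J a) : Os K) = hc (σ.restrictScalars K a) := fun a => by
    rw [AlgEquiv.mul_apply, (ke_fixC hf _).1 h0]
    exact ke_cw hf hσ a
  obtain ⟨γ, hγ⟩ := kf_gam c (σ.restrictScalars K)
  have hw := wf_ws c hs.ne e₃ hW (σ := σ.restrictScalars K) (fun a => HahnSeries.C_injective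
    ((hJ ⟨_, h3 a⟩).symm.trans (congrArg Subtype.val (hS _ (Or.inr ⟨a, rfl⟩))))) γ hγ
  have hc : Commute (g₁ * g₀) g₀ := lp_comm c hs.neM h h0
    (fun x hx => by
      obtain ⟨a, rfl⟩ := ke_mu hf hs hx
      exact h2 a)
    fun z u e1 hu => by
      have e2 := fun n => lp_agree c hf hγ hJ n (z ^ l ^ e) u e1.symm
      obtain ⟨t, ht⟩ := lp_fix c hs.prime.ne_zero hw hq hu
        (Subtype.ext ((e2 q).symm.trans (by rw [hg]; exact e1.symm)))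
      have e3 := e2 1
      rw [pow_one, pow_one, ht, map_pow] at e3
      exact ⟨t, e3⟩
  have e1 : g₁ ^ q = (g₀ ^ q)⁻¹ := by
    rw [← mul_inv_cancel_right g₁ g₀, hc.inv_right.mul_pow, hg, one_mul, inv_pow]
  have e2 : g₀ ^ q = 1 := inv_eq_one.1 <| e1 ▸ ke_sec_one hf (pow_mem h1 q)
    (e1 ▸ (inv_mem (pow_mem (show g₀ ∈ fixC E from h0) q) : (g₀ ^ q)⁻¹ ∈ fixC E))
  rw [(pow_eq_one_iff_of_coprime (hq.pow_right e)).1 ⟨e2, nic_pow c hs.neM h h0⟩, mul_one]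
  exact h1

theorem plpr_st (hf : Frm (K₁ : Set (Ks K)) E) {L : Type} [Field L] [Algebra K L] [Normal K L]
    (e : L →ₐ[K] Ks K) (g : E ≃ₐ[F] E) {x : E} (h : ∃ a, (x : Os K) = hc (e a)) :
    ∃ a, (g x : Os K) = hc (e a) := by
  obtain ⟨a, h⟩ := h
  obtain ⟨b, hb, rfl⟩ := plpr_J hf h
  obtain ⟨g₁, h1⟩ := ke_res c hf g
  let := e.toRingHom.toAlgebra
  have : IsScalarTower K L (Ks K) := .of_algebraMap_eq fun x => (e.commutes x).symm
  have : IsScalarTower K K₁ (Ks K) := .of_algebraMap_eq fun _ => rfl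
  refine ⟨(g₁.liftNormal (Ks K)).restrictNormal L a, ?_⟩
  rw [← h1, ke_J]
  exact congrArg hc (((g₁.liftNormal (Ks K)).restrictNormal_commutes L a).trans
    ((congrArg _ hb).trans (g₁.liftNormal_commutes (Ks K) b))).symm

theorem kx_pl [FiniteDimensional K K₂] [IsGalois K K₂] (hf : Frm (K₁ : Set (Ks K)) E) (T : Prop)
    (g : E ≃ₐ[F] E) : ∀ x ∈ Pl F l (S23 K₂ e₃ E) T, g * x * g⁻¹ ∈ Pl F l (S23 K₂ e₃ E) T := by
  rintro x ⟨hT, hS, q, hq, hx⟩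
  refine ⟨hT, fun y hy => ?_, q, hq, by rw [conj_pow, hx, mul_one, mul_inv_cancel]⟩
  rw [AlgEquiv.mul_apply, AlgEquiv.mul_apply, hS (g⁻¹ y) (hy.imp
    (plpr_st c hf (IsScalarTower.toAlgHom K K₂ (Ks K)) _) (plpr_st c hf e₃ _))]
  exact g.apply_symm_apply y

end Pool.Agent.ZCy.F.Kp
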