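import Pool.Agent.Lib.MP_751085_ag.ZF.K.GRK
import Pool.Agent.Lib.MP_751085_ag.ZC.K.Fin

/-! The inertia groups at vertical primes act through the coefficients. -/

namespace Pool.Agent.ZCy.F.Kp

open Pool.Agent.ZFy Pool.Agent.ZFy.GM
open scoped Classical WithZero IntermediateField
open Polynomial groupCohomology

set_option linter.unusedSectionVars false

theorem kvt_res {K K' L E : Type} [Field K] [Field K'] [Field L] [Field E] [Algebra K K']
    [Algebra L E] [FiniteDimensional K K'] [IsGalois K K'] (J : K' →+* E)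
    (hJ : ∀ a, ∃ b, J (algebraMap K K' a) = algebraMap L E b) {w : Vl E} {g : E ≃ₐ[L] E}
    (hg : g ∈ Ine L w) : ∃ g₀ ∈ Ine K (w.comap J), (∀ a, J (g₀ a) = g (J a)) ∧
      ∀ m : ℕ, g ^ m = 1 → g₀ ^ m = 1 := by
  obtain ⟨g₀, h0⟩ := exists_restrict (K := K) J (g : E →+* E) fun a => by
    obtain ⟨b, e⟩ := hJ a
    rw [e]
    exact g.commutes b
  have h0 : ∀ a, J (g₀ a) = g (J a) := h0
  have h1 : ∀ (m : ℕ) a, J ((g₀ ^ m) a) = (g ^ m) (J a) := fun m => by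
    induction m with
    | zero => exact fun _ => rfl
    | succ m ih => exact fun a => by rw [pow_succ, pow_succ, AlgEquiv.mul_apply, ih, h0]; rfl
  refine ⟨g₀, ⟨fun x => ?_, fun x hx => ?_⟩, h0, fun m e => AlgEquiv.ext fun a => J.injective ?_⟩
  · change w (J _) = w (J _)
    rw [h0, hg.1]
  · change w (J _) < 1
    rw [map_sub, h0]
    exact hg.2 _ hx
  · rw [h1, e]
    rfl

theorem kvt_cen {B K' E : Type} [CommRing B] [Field K'] [Field E] {φ : B[X] →+* E} {ψ : B →+* K'}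
    {J : K' →+* E} (e : ∀ b, J (ψ b) = φ (C b)) {P : B} {w : Vl E} (hw : Cen φ w (C P)) :
    Cen ψ (w.comap J) P := by
  refine ⟨fun a => ?_, fun a => ?_⟩ <;> rw [Valuation.comap_apply, e]
  · exact hw.1 _
  · rw [hw.2]
    exact ⟨fun h => by simpa using (C_dvd_iff_dvd_coeff _ _).1 h 0, map_dvd C⟩

variable {K F : Type} [Field K] [Field F] [Algebra K[X] F] [Algebra F (Os K)] (c : Cur K F) {l M : ℕ}
variable {K₂ : Type} [Field K₂] [Algebra K K₂] [Algebra K₂ (Ks K)] [IsScalarTower K K₂ (Ks K)]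
  [FiniteDimensional K K₂] [IsGalois K K₂]
  (hs : Sct (K := K) K₂ F l M) {E : IntermediateField F (Os K)} (h : Nice M E)
  {K₁ : IntermediateField K₂ (Ks K)} [FiniteDimensional K K₁] [IsGalois K K₁]
  (hf : Frm (K₁ : Set (Ks K)) E)
  {B : Type} [CommRing B] [IsDomain B] [UniqueFactorizationMonoid B] [Algebra B K]
  [IsFractionRing B K] {P : B} {w : Vl E}

include c

theorem pvt_J (a : K) : hf.J (algebraMap K K₁ a) = toF K[X] F E (C a) :=
  Subtype.ext (kf_C c a).symm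

theorem pvt_J₂ (a : K) : hf.J (algebraMap K₂ K₁ (algebraMap K K₂ a)) = toF K[X] F E (C a) := by
  rw [← IsScalarTower.algebraMap_apply, pvt_J c hf]

theorem kx_res {g : E ≃ₐ[F] E} (hg : g ∈ Ine F w) :
    (∃ g₁ ∈ Ine K (w.comap hf.J), ∀ a, hf.J (g₁ a) = g (hf.J a)) ∧
    ∃ g₂ ∈ Ine K (w.comap (hf.J.comp (algebraMap K₂ K₁))),
      (∀ a, hf.J (algebraMap K₂ K₁ (g₂ a)) = g (hf.J (algebraMap K₂ K₁ a))) ∧
      ∀ m : ℕ, g ^ m = 1 → g₂ ^ m = 1 := by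
  obtain ⟨g₁, h1, h2, -⟩ := kvt_res (K := K) hf.J (fun a => ⟨_, pvt_J c hf a⟩) hg
  exact ⟨⟨g₁, h1, h2⟩, kvt_res (K := K) (hf.J.comp (algebraMap K₂ K₁))
    (fun a => ⟨_, pvt_J₂ c hf a⟩) hg⟩

theorem kx_cen (hw : Cen (pB B K F E) w (C P)) : Cen (toF B K K₁) (w.comap hf.J) P ∧
    Cen (toF B K K₂) (w.comap (hf.J.comp (algebraMap K₂ K₁))) P :=
  have e : ∀ b, toF K[X] F E (C (algebraMap B K b)) = pB B K F E (C b) := fun _ =>
    congrArg _ (map_C _).symm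
  ⟨kvt_cen (fun b => (pvt_J c hf (algebraMap B K b)).trans (e b)) hw,
    kvt_cen (fun b => (pvt_J₂ c hf (algebraMap B K b)).trans (e b)) hw⟩

include hs h hf

theorem kx_ine (hr : c.Red l P) (hu : UnrOff K (toF B K K₂) 1) (hw : Cen (pB B K F E) w (C P)) :
    Ine F w ≤ secG K₂ E := by
  intro g hg
  obtain ⟨g₂, h1, h2, -⟩ := (kx_res c hf hg).2
  rw [hu P _ hr.prime hr.prime.not_dvd_one (kx_cen c hf hw).2, Subgroup.mem_bot] at h1
  subst h1
  exact kk_cw c hs h hf hr hw hg fun a => (h2 a).symm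

theorem kx_wild (ht : c.Tm K₂ l P) (hw : Cen (pB B K F E) w (C P)) {g : E ≃ₐ[F] E}
    (hg : g ∈ Ine F w) {p a : ℕ} (hp : p.Prime) (h1 : w (p : E) < 1) (h2 : g ^ p ^ a = 1) :
    g ∈ secG K₂ E := by
  obtain ⟨g₂, h3, h4, h5⟩ := (kx_res c hf hg).2
  obtain rfl := kn_ptriv (ht.tame _ (kx_cen c hf hw).2) h3 hp
    (by rwa [Valuation.comap_apply, map_natCast]) (h5 _ h2)
  exact kk_cw c hs h hf ht.red hw hg fun a => (h4 a).symm

theorem kx_pw (P : B) :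
    (∀ g, ∀ x ∈ Pw F (pB B K F E) (C P) (c.Tm K₂ l P),
      g * x * g⁻¹ ∈ Pw F (pB B K F E) (C P) (c.Tm K₂ l P)) ∧
    Pw F (pB B K F E) (C P) (c.Tm K₂ l P) ⊆ secG K₂ E ∧
    ∀ x ∈ Pw F (pB B K F E) (C P) (c.Tm K₂ l P), ∃ q : ℕ, q.Coprime M ∧ x ^ q = 1 := by
  refine ⟨?_, ?_, ?_⟩
  · rintro g x ⟨hT, w, hw, hx, p, a, hp, h1, h2⟩
    exact ⟨hT, vsm g w, kz_cen ((algebraMap K[X] F).comp (mapRingHom (algebraMap B K))) hw g,
      kz_ine hx g, p, a, hp, by rwa [vsm_apply, map_natCast],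
      by rw [conj_pow, h2, mul_one, mul_inv_cancel]⟩
  · rintro x ⟨hT, w, hw, hx, p, a, hp, h1, h2⟩
    exact kx_wild c hs h hf hT hw hx hp h1 h2
  · rintro x ⟨hT, w, hw, -, p, a, hp, h1, h2⟩
    refine ⟨p ^ a, (hp.coprime_iff_not_dvd.2 fun ⟨n, e⟩ => ?_).pow_left a, h2⟩
    have h3 := (kk_nat c hs hT.red hw).2
    rw [e, Nat.cast_mul, map_mul] at h3
    have h4 := hw.1 n
    rw [map_natCast] at h4
    exact ((mul_le_of_le_one_right' h4).trans_lt h1).ne h3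

end Pool.Agent.ZCy.F.Kp
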