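import Pool.Agent.Lib.MP_751085_ag.ZF.K.K0a
import Pool.Agent.Lib.MP_751085_ag.ZF.K.Lpr
import Pool.Agent.Lib.MP_751085_ag.ZF.K.Vt
import Pool.Agent.Lib.MP_751085_ag.ZF.K.EnlB

/-! The field of definition of the unramified Kummer classes. -/

namespace Pool.Agent.ZCy.F.Kp

open Pool.Agent.ZFy Pool.Agent.ZFy.GM
open scoped Classical WithZero IntermediateField
open Polynomial groupCohomology

set_option linter.unusedSectionVars false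

variable {A A₂ K K₂ F : Type} [CommRing A] [IsDomain A] [UniqueFactorizationMonoid A]
  [CommRing A₂] [IsDomain A₂] [UniqueFactorizationMonoid A₂] [Field K] [Field K₂]
  [Algebra A K] [IsFractionRing A K] [Algebra A₂ K₂] [IsFractionRing A₂ K₂] [Algebra A A₂]
  [Algebra.IsIntegral A A₂] [Algebra K K₂] [Algebra A K₂] [IsScalarTower A K K₂]
  [IsScalarTower A A₂ K₂] [Algebra K₂ (Ks K)] [IsScalarTower K K₂ (Ks K)] [FiniteDimensional K K₂]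
  [IsGalois K K₂] [Field F] [Algebra K[X] F] [Algebra F (Os K)] {l M : ℕ} {c : Cur K F} {Φ : A}

theorem k0_fld (hF : FIN) (hb : c.Bas K₂ l l Φ) : ∃ (U : Finset (Fb K F))
    (E : IntermediateField F (Os K)) (K₁ : IntermediateField K₂ (Ks K)), Nice l E ∧
    FiniteDimensional K K₁ ∧ IsGalois K K₁ ∧ Frm (K₁ : Set (Ks K)) E ∧
    (∀ u ∈ U, ∃ z : E, (u : Os K) = (z : Os K) ^ l) ∧
    ∀ u, TyW l (cb K F) u → ∃ u' ∈ U, ∃ z, u = u' * z ^ l := by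
  obtain ⟨U, h1, h2⟩ := fin_sep hF (c.gp.map (algebraMap K (Ks K))) (kf_ff c) hb.sct.prime
    (map_natCast (algebraMap K (Ks K)) l ▸ (_root_.map_ne_zero _).2 hb.sct.ne)
  rw [kf_psb_comp] at h1 h2
  obtain ⟨E₀, h3, -, h4⟩ := ks_field c hb.sct.ne U U h1
  have := h3.fin
  obtain ⟨S, hS⟩ := ke_cf hb.sct E₀
  obtain ⟨K₁, _, _, h5⟩ := kl_K1 K₂ S
  obtain ⟨E, h6, h7, h8⟩ := ke_enl c h3 K₁ fun y hy n =>
    IntermediateField.adjoin_le_iff.2 h5 (hS y hy n)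
  refine ⟨U, E, K₁, h7, ‹_›, ‹_›, h8, fun u hu => ?_, h2⟩
  obtain ⟨r, h9, e⟩ := h4 u hu
  exact ⟨⟨r, h6 h9⟩, e.symm⟩

section

variable {U : Finset (Fb K F)} {E : IntermediateField F (Os K)} {K₁ : IntermediateField K₂ (Ks K)}
  [FiniteDimensional K K₁] [IsGalois K K₁] (hb : c.Bas K₂ l l Φ) (h : Nice l E)
  (hf : Frm (K₁ : Set (Ks K)) E) (hU : ∀ u ∈ U, ∃ z : E, (u : Os K) = (z : Os K) ^ l)
  (hU' : ∀ u, TyW l (cb K F) u → ∃ u' ∈ U, ∃ z, u = u' * z ^ l)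

include hb h hU hU'

theorem k0_ws {g : E ≃ₐ[F] E} {σ : Ks K ≃ₐ[K] Ks K} (hg : ∀ a, (g (hf.J a) : Os K) = hc (σ a))
    (h2 : ∀ a : K₂, g (hf.J (algebraMap K₂ K₁ a)) = hf.J (algebraMap K₂ K₁ a))
    (hm : ∀ g₀ : E ≃ₐ[F] E, FixC (⇑g₀) → g * g₀ = g₀ * g) : WS F l σ := by
  obtain ⟨γ, hγ⟩ := kf_gam c σ
  refine ws_of c hγ fun u hu => ?_
  obtain ⟨u', hu', z, rfl⟩ := hU' u hu
  obtain ⟨y, hy⟩ := hU u' hu'
  obtain ⟨t, ht⟩ := lp_conv c h (fun x hx => by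
    obtain ⟨a, rfl⟩ := ke_mu hf hb.sct hx
    exact h2 a) hm hy
  have h3 := lp_agree c hf hγ hg 1 (y ^ l) u' hy.symm
  rw [pow_one, pow_one, map_pow] at h3
  have h4 : γ u' = u' * t ^ l := Subtype.ext (h3.symm.trans ht)
  rcases eq_or_ne z 0 with rfl | hz
  · exact ⟨0, by simp [hb.sct.prime.ne_zero]⟩
  · exact ⟨t * γ z / z, by rw [map_mul, map_pow, h4, div_pow, mul_pow]; field_simp⟩

theorem k0_ine {P : A} (hP : Prime P) (hΦ : ¬P ∣ Φ) {w : Vl E} (hw : Cen (pB A K F E) w (C P))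
    {g₁ : K₁ ≃ₐ[K] K₁} (hg : g₁ ∈ Ine K (w.comap hf.J)) {σ : Ks K ≃ₐ[K] Ks K}
    (hσ : ∀ a : K₁, σ a = g₁ a) : WS F l σ := by
  obtain ⟨g₀, h1, h2, -⟩ := kvt_res (K := K) (algebraMap K₂ K₁)
    (fun a => ⟨a, (IsScalarTower.algebraMap_apply K K₂ K₁ a).symm⟩) hg
  obtain rfl : g₀ = 1 := (Subgroup.eq_bot_iff_forall _).1
    (hb.unr P _ hP hP.not_dvd_one (kx_cen c hf hw).2) _ h1
  have hr := hb.red P hP hΦ
  obtain ⟨g, h3, h4, h5⟩ := kk_lift c hb.sct h hf hr hw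
    (g₁ := { g₁ with commutes' := fun a => (h2 a).symm }) ⟨hg.1, hg.2⟩
  exact k0_ws hb h hf hU hU' (fun a => by rw [h5, ke_J, hσ]; rfl) (ke_sec_fix hf h4)
    fun _ => kk_comm c hb.sct h hf hr hw h3

end

theorem k0_core (hF : FIN) (hb : c.Bas K₂ l l Φ) : ∃ K₀ : IntermediateField K (Ks K),
    FiniteDimensional K K₀ ∧ IsGalois K K₀ ∧ UnrOff K (toF A K K₀) Φ ∧
      WF l (c.χ.map (mapRingHom (algebraMap K K₀))) := by
  obtain ⟨U, E, K₁, h, _, _, hf, hU, hU'⟩ := k0_fld hF hb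
  obtain ⟨H, hH, hH'⟩ := ws_grp c l
  obtain ⟨K₀, j, _, _, hj, h0⟩ := k0_abs (K₁.val.restrictScalars K) H hH fun σ hσ => (hH' σ).2
    (k0_ws hb h hf hU hU' (g := 1) (fun a => congrArg hc (hσ a).symm) (fun _ => rfl)
      fun _ _ => (Commute.one_left _).eq)
  refine ⟨K₀, ‹_›, ‹_›, fun P w' hP hΦ hw' => ?_,
    ws_wf c hb.sct.ne K₀ fun σ hσ => (hH' σ).1 ((h0 σ).2 hσ)⟩
  obtain ⟨w₁, ho⟩ := kfin_ex j w'
  refine kn_unr j ho fun g hg x => Subtype.ext ?_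
  obtain ⟨w, hw⟩ := kk_ex c h hP
  obtain ⟨t, ht⟩ := k0_conj hP ((kn_cen j (algebraMap A K) ho).2 hw') (kx_cen c hf hw).1 hg
  have : IsScalarTower K K₁ (Ks K) := .of_algebraMap_eq fun _ => rfl
  have e : ∀ (s : K₁ ≃ₐ[K] K₁) (a : K₁), s.liftNormal (Ks K) a = s a := fun s a =>
    s.liftNormal_commutes (Ks K) a
  have h1 := hH.conj_mem _ ((hH' _).2 (k0_ine hb h hf hU hU' hP hΦ hw ht
    (σ := t.liftNormal (Ks K) * g.liftNormal (Ks K) * (t.liftNormal (Ks K))⁻¹) fun a => by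
      obtain ⟨a, rfl⟩ := t.surjective a
      rw [← e, ← AlgEquiv.mul_apply, ← AlgEquiv.mul_apply, inv_mul_cancel_right,
        inv_mul_cancel_right, AlgEquiv.mul_apply, e, e, AlgEquiv.mul_apply]))
    (t.liftNormal (Ks K))⁻¹
  rw [inv_inv, mul_assoc, inv_mul_cancel_right, inv_mul_cancel_left] at h1
  have h2 : (j x : Ks K) = x := hj x
  rw [← e, h2]
  exact (h0 _).1 h1 x x.2

end Pool.Agent.ZCy.F.Kp
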