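import Pool.Agent.Lib.MP_751085_ag.ZF.K.WrA
import Pool.Agent.Lib.MP_751085_ag.ZF.K.WrD
import Pool.Agent.Lib.MP_751085_ag.ZF.K.Clo
import Pool.Agent.Lib.MP_751085_ag.ZF.K.K0

/-! The field of definition of the Kummer classes of a chart. -/

namespace Pool.Agent.ZCy.F.Kp

open Pool.Agent.ZFy Pool.Agent.ZFy.GM
open scoped Classical WithZero IntermediateField
open Polynomial groupCohomology

set_option linter.unusedSectionVars false

variable {k σ : Type} [Field k] (c : PChart k σ) {Φ : MP σ k}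

theorem kx_k0 (hF : FIN) (hi : c.GI) (hG : GoodM c Φ) {l : ℕ} (hl : l.Prime) (hl0 : (l : k) ≠ 0) :
    ∃ (K₀ : Type) (_ : Field K₀) (_ : Algebra (RF σ k) K₀) (_ : FiniteDimensional (RF σ k) K₀)
      (_ : IsGalois (RF σ k) K₀), UnrOff (RF σ k) (toF (MP σ k) (RF σ k) K₀) Φ ∧
      WF l ((cχ c).map (mapRingHom (toF (MP σ k) (RF σ k) K₀))) := by
  have := IsGalois.of_separable_splitting_field (E := c.top.SplittingField) (p := c.top) c.sep
  obtain ⟨k₂, _, _, _, _, e, ζ, hζ, -⟩ := kx_k2 (k := k) (0 : BR c.top.SplittingField) hl0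
  obtain ⟨g, h⟩ := exists_rfMap σ (algebraMap k k₂)
  let _ := g.toAlgebra
  obtain ⟨_, _⟩ := kx_gal (σ := σ) (k := k) (k₂ := k₂) h
  let _ : Algebra (RF σ k₂) (Ks (RF σ k)) :=
    (IsSepClosed.lift : RF σ k₂ →ₐ[RF σ k] Ks (RF σ k)).toRingHom.toAlgebra
  have : IsScalarTower (RF σ k) (RF σ k₂) (Ks (RF σ k)) := .of_algebraMap_eq fun x =>
    ((IsSepClosed.lift : RF σ k₂ →ₐ[RF σ k] Ks (RF σ k)).commutes x).symm
  have hg := kx_gp c hi (IsFractionRing.injective (MP σ k) (RF σ k))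
  obtain ⟨F, _, ψ, θ, hf⟩ := ffd_ex hg.monic (by simpa using hg.irr' (RingHom.id _))
  obtain ⟨j, hj⟩ := hg.emb hf g (by
    rw [← Polynomial.map_map, Polynomial.map_map _ (mapRingHom g), mapRingHom_comp]
    refine kx_spl c _ ?_
    have := (SplittingField.splits c.top).map ((algebraMap k₂ (RF σ k₂)).comp (e : _ →+* k₂))
    rw [Polynomial.map_map] at this
    refine Eq.mp (congrArg (fun f => (c.top.map f).Splits) (RingHom.ext fun a => ?_)) this
    exact (congrArg _ (e.commutes a)).trans (kx_sq h a))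
  let _ := ψ.toAlgebra
  let _ : Algebra F (Os (RF σ k)) :=
    ((lm (algebraMap (RF σ k₂) (Ks (RF σ k)))).comp j).toAlgebra
  obtain ⟨c', h1, h2⟩ := kx_bas c h hi hG hf hl hl0 (e := 1) (by rwa [pow_one]) hj fun _ => rfl
  let _ := (g.comp (algebraMap (MP σ k) (RF σ k))).toAlgebra
  have : IsScalarTower (MP σ k) (RF σ k) (RF σ k₂) := .of_algebraMap_eq fun _ => rfl
  rw [pow_one] at h2
  obtain ⟨K₀, k1, k2, k3, k4⟩ := k0_core hF h2
  rw [h1, Polynomial.map_map, mapRingHom_comp] at k4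
  exact ⟨K₀, _, _, k1, k2, k3, k4⟩

theorem kx_bc {K₀ : Type} [Field K₀] [Algebra (RF σ k) K₀] [FiniteDimensional (RF σ k) K₀]
    [IsGalois (RF σ k) K₀] (hu : UnrOff (RF σ k) (toF (MP σ k) (RF σ k) K₀) Φ) :
    ∃ (E : Type) (_ : Field E) (_ : Algebra (RF (Option σ) k) E)
      (_ : FiniteDimensional (RF (Option σ) k) E) (_ : IsGalois (RF (Option σ) k) E) (e : K₀ →+* E),
      UnrOff (RF (Option σ) k) (toE (MP (Option σ) k) E) (c.brs Φ) ∧
      ∀ p, e (toF (MP σ k) (RF σ k) K₀ p) = toE (MP (Option σ) k) E (up p) := by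
  obtain ⟨ψ, -, hψ⟩ := kx_alg k σ
  obtain ⟨E, _, _, _, _, j, r, h1, h2, h3, -⟩ := exists_bc K₀ (ψ.comp C)
  have ht : ∀ p, tE E ψ (tq k σ p) = toE (MP (Option σ) k) E p := fun p => congrArg _ (hψ p)
  refine ⟨E, _, _, ‹_›, ‹_›, j, fun P w hP hd hc => h2.ine_bot h3 (Over.comap j w) ?_,
    fun p => (h1 _).trans (kx_up ht p)⟩
  rcases kx_dich ht c hP hd hc with h | ⟨P₀, h4, h5, h6⟩
  · exact kz_triv fun x hx => (congrArg w (h1 x)).trans (h x hx)
  · have e : ∀ a, w.comap j (toF (MP σ k) (RF σ k) K₀ a) =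
        w ((tE E ψ).comp (mapRingHom (algebraMap (MP σ k) (RF σ k))) (C a)) := fun a =>
      congrArg w ((h1 _).trans (congrArg (tE E ψ) (map_C _).symm))
    refine hu P₀ _ h4 h5 ⟨fun a => e a ▸ h6.1 _, fun a => ?_⟩
    rw [e, h6.2]
    exact ⟨fun h => by simpa using map_dvd constantCoeff h, map_dvd C⟩

theorem kx_cmp {A L E T : Type} [CommRing A] [Field L] [Field E] [Field T] [Algebra L E]
    [Algebra L T] [FiniteDimensional L E] [IsGalois L E] [FiniteDimensional L T] [IsGalois L T]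
    {φ : A →+* L} {Θ : A} (hE : UnrOff L (tE E φ) Θ) (hT : UnrOff L (tE T φ) Θ) :
    ∃ (N : Type) (_ : Field N) (_ : Algebra L N) (_ : FiniteDimensional L N) (_ : IsGalois L N)
      (_ : E →ₐ[L] N) (_ : T →ₐ[L] N), UnrOff L (tE N φ) Θ := by
  obtain ⟨@⟨N, _, a₁, a₂, tow, fin, gal, i, i₀, gen⟩⟩ := clo_ex L L E T
  obtain rfl : a₁ = a₂ := Algebra.algebra_ext _ _ fun x =>
    @IsScalarTower.algebraMap_apply L L N _ _ _ _ a₂ a₁ tow x
  exact ⟨N, _, _, fin, gal, i, i₀, fun P W hP hd hW => Clo.unr ⟨N, i, i₀, gen⟩ hW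
    (fun g _ h x => by rw [h.commutes, g.commutes]) (fun w => hT P w hP hd) fun w => hE P w hP hd⟩

end Pool.Agent.ZCy.F.Kp
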