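import Pool.Agent.Lib.MP_751085_ag.ZF.K.NeedA
import Pool.Agent.Lib.MP_751085_ag.ZC.Z.Cen2

/-! Passage to the fixed field. -/

namespace Pool.Agent.ZCy.F.Kp

open Pool.Agent.ZFy Pool.Agent.ZFy.GM
open scoped Classical WithZero IntermediateField
open Polynomial groupCohomology

set_option linter.unusedSectionVars false

variable {F E : Type} [Field F] [Field E] [Algebra F E] [FiniteDimensional F E] [IsGalois F E]

/-- passage to the fixed field of the closure of `Z` -/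
theorem kn_fix (Z : Set (E ≃ₐ[F] E)) (hZ : ∀ g, ∀ z ∈ Z, g * z * g⁻¹ ∈ Z)
    {c : (E ≃ₐ[F] E) × (E ≃ₐ[F] E) → Eˣ} (hc : IsMulCocycle₂ c) {M : ℕ} (hM : ∀ p, c p ^ M = 1)
    (hi : Infl ⊤ (Subgroup.closure Z) c) :
    ∃ (E' : IntermediateField F E) (c' : (E' ≃ₐ[F] E') × (E' ≃ₐ[F] E') → E'ˣ), IsGalois F E' ∧
      (∀ x, x ∈ E' ↔ ∀ z ∈ Z, z x = x) ∧ IsMulCocycle₂ c' ∧ (∀ p, c' p ^ M = 1) ∧
      cls F c' = cls F c := by
  obtain ⟨E', hE'⟩ : ∃ E', E' = IntermediateField.fixedField (Subgroup.closure Z) := ⟨_, rfl⟩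
  have hN : ∀ x, x ∈ E' ↔ ∀ g ∈ Subgroup.closure Z, g x = x := fun x => by
    rw [hE', IntermediateField.mem_fixedField_iff]
  have hm : ∀ x, x ∈ E' ↔ ∀ z ∈ Z, z x = x := fun x => (hN x).trans
    ⟨fun h z hz => h z (Subgroup.subset_closure hz), fun h g hg =>
      (Subgroup.closure_le (MulAction.stabilizer (E ≃ₐ[F] E) x)).2 h hg⟩
  have hn : Normal F E' := by
    refine IntermediateField.normal_iff_forall_map_le'.2 fun g => ?_
    rintro _ ⟨x, hx, rfl⟩
    refine (hm _).2 fun z hz => ?_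
    have h1 := (hm x).1 hx _ (hZ g⁻¹ z hz)
    rw [inv_inv] at h1
    exact (AlgEquiv.symm_apply_eq g).1 h1
  have hG : IsGalois F E' := ⟨⟩
  obtain ⟨r, hr, hs⟩ : ∃ r : (E ≃ₐ[F] E) →* E' ≃ₐ[F] E',
      (∀ g x, algebraMap E' E (r g x) = g (algebraMap E' E x)) ∧ Function.Surjective r :=
    ⟨AlgEquiv.restrictNormalHom E', fun g x => g.restrictNormal_commutes E' x,
      AlgEquiv.restrictNormalHom_surjective E⟩
  have hk : ∀ g g', r g = r g' → g⁻¹ * g' ∈ Subgroup.closure Z := fun g g' e => by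
    rw [← IntermediateField.fixingSubgroup_fixedField (Subgroup.closure Z), ← hE',
      IntermediateField.mem_fixingSubgroup_iff]
    intro x hx
    refine (AlgEquiv.symm_apply_eq g).2 ?_
    exact (hr g' ⟨x, hx⟩).symm.trans (e ▸ hr g ⟨x, hx⟩)
  obtain ⟨s, hs'⟩ := hs.hasRightInverse
  have hv : ∀ p, (c p : E) ∈ E' := fun p => (hN _).2 fun g hg =>
    congrArg Units.val (hi.fix p.1 trivial p.2 trivial g hg)
  let c' : (E' ≃ₐ[F] E') × (E' ≃ₐ[F] E') → E'ˣ := fun p =>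
    Units.mk0 ⟨c (s p.1, s p.2), hv _⟩ fun h => (c _).ne_zero (congrArg Subtype.val h)
  have hp : ∀ g h, Units.map (algebraMap E' E : E' →* E) (c' (r g, r h)) = c (g, h) := by
    intro g h
    have := hi.eq g trivial h trivial _ (hk g _ (hs' _).symm) _ (hk h _ (hs' _).symm)
    rw [mul_inv_cancel_left, mul_inv_cancel_left] at this
    rw [← this]
    exact Units.ext rfl
  have inj : Function.Injective (Units.map (algebraMap E' E : E' →* E)) :=
    Units.map_injective (algebraMap E' E).injective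
  have hu : ∀ (g : E ≃ₐ[F] E) (u : E'ˣ), Units.map (algebraMap E' E : E' →* E) (r g • u) =
      g • Units.map (algebraMap E' E : E' →* E) u := fun g u => Units.ext (hr g u)
  have hc' : IsMulCocycle₂ c' := fun g h k => by
    obtain ⟨g, rfl⟩ := hs g
    obtain ⟨h, rfl⟩ := hs h
    obtain ⟨k, rfl⟩ := hs k
    refine inj ?_
    rw [← map_mul r, ← map_mul r, map_mul (Units.map _), map_mul (Units.map _), hu, hp, hp, hp, hp]
    exact hc g h k
  refine ⟨E', c', hG, hm, hc', fun p => inj ?_, ?_⟩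
  · obtain ⟨g, hg⟩ := hs p.1
    obtain ⟨h, hh⟩ := hs p.2
    rw [map_pow, map_one, show p = (r g, r h) from Prod.ext hg.symm hh.symm, hp, hM]
  · rw [← ka_id (cls F c'), ka_pull (RingHom.id F) (G' := E ≃ₐ[F] E) (j := algebraMap E' E)
      (fun _ => rfl) (r := r) hr hc']
    exact congrArg _ (funext fun p => hp p.1 p.2)

/-- two embeddings of a normal extension have the same image -/
theorem kn_img {K K₂ Ω : Type} [Field K] [Field K₂] [Field Ω] [Algebra K K₂]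
    [FiniteDimensional K K₂] [IsGalois K K₂] {e e' : K₂ →+* Ω}
    (h : ∀ a, e (algebraMap K K₂ a) = e' (algebraMap K K₂ a)) (a : K₂) : ∃ b, e a = e' b := by
  let _ : Algebra K Ω := (e'.comp (algebraMap K K₂)).toAlgebra
  let _ : Algebra K₂ Ω := e'.toAlgebra
  have : IsScalarTower K K₂ Ω := .of_algebraMap_eq fun _ => rfl
  let φ : K₂ →ₐ[K] Ω := { e with commutes' := h }
  exact ⟨φ.restrictNormal K₂ a, (φ.restrictNormal_commutes K₂ a).symm⟩

theorem pfina_lift {S T Ω : Type} [Field S] [Field T] [Field Ω] [Algebra S T]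
    [Algebra.IsAlgebraic S T] [IsAlgClosed Ω] (i : S →+* Ω) :
    ∃ J : T →+* Ω, ∀ x, J (algebraMap S T x) = i x := by
  let _ : Algebra S Ω := i.toAlgebra
  let J : T →ₐ[S] Ω := IsAlgClosed.lift
  exact ⟨J, J.commutes⟩

/-- pass to an algebraic closure and restrict to `E` -/
theorem lad_of {K K₂ K₃ : Type} [Field K] [Field K₂] [Field K₃] [Algebra K K₂] [Algebra K K₃]
    [FiniteDimensional K K₂] [IsGalois K K₂] [FiniteDimensional K K₃] [IsGalois K K₃]
    [Algebra K[X] F] {l : ℕ} (hl : l.Prime) (E' : IntermediateField F E) (j₂ : K₂ →+* E)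
    (j₃ : K₃ →+* E) (h₂ : ∀ a, j₂ (algebraMap K K₂ a) = kap K F E a)
    (h₃ : ∀ a, j₃ (algebraMap K K₃ a) = kap K F E a)
    (h : ∀ g : E ≃ₐ[F] E, (∀ a, g (j₂ a) = j₂ a) → (∀ a, g (j₃ a) = j₃ a) →
      ∀ q : ℕ, q.Coprime l → g ^ q = 1 → ∀ x ∈ E', g x = x) : LAd l K K₂ K₃ F E' := by
  intro Ω _ _ _ i e₂ e₃ g he₂ he₃ hg₂ hg₃
  let Ω' := AlgebraicClosure Ω
  let ι : Ω →+* Ω' := algebraMap Ω Ω'
  have : IsAlgClosure F Ω' := ⟨inferInstance, Algebra.IsAlgebraic.trans F Ω Ω'⟩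
  have hg' : ∀ y, g.liftNormal Ω' (ι y) = ι (g y) := g.liftNormal_commutes Ω'
  obtain ⟨J, hJ⟩ : ∃ J : E →+* Ω', ∀ x : E', J x = ι (i x) :=
    pfina_lift (S := E') (T := E) (ι.comp (i : E' →+* Ω))
  have hF : ∀ a, J (algebraMap F E a) = ι (algebraMap F Ω a) := fun a =>
    (hJ (algebraMap F E' a)).trans (congrArg ι (i.commutes a))
  obtain ⟨g₀, h₀⟩ := exists_restrict (K := F) J (g.liftNormal Ω' : Ω' →+* Ω') fun a => by
    rw [hF]
    exact (hg' _).trans (congrArg ι (g.commutes a))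
  have hp : ∀ (k : ℕ) (z : E) (y : Ω), J z = ι y → J ((g₀ ^ k) z) = ι ((g ^ k) y) := by
    intro k z y e
    induction k with
    | zero => exact e
    | succ k ih =>
      rw [pow_succ', pow_succ', AlgEquiv.mul_apply, AlgEquiv.mul_apply, h₀, ih]
      exact hg' _
  have hx : ∀ (k : ℕ) (z : E) (y : Ω), J z = ι y → g y = y → (g₀ ^ k) z = z := fun k z y e hy =>
    J.injective ((hp k z y e).trans ((congrArg ι (MulAction.mem_stabilizer_iff.1
      (pow_mem (MulAction.mem_stabilizer_iff.2 hy : g ∈ _) k))).trans e.symm))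
  obtain ⟨m, q, hq, e⟩ := Nat.exists_eq_pow_mul_and_not_dvd (orderOf_pos g₀).ne' l hl.ne_one
  refine ⟨m, fun x => ι.injective ((hp _ _ _ (hJ x)).symm.trans (Eq.trans (congrArg J ?_) (hJ x)))⟩
  refine h _ (fun a => ?_) (fun a => ?_) q ((hl.coprime_iff_not_dvd.2 hq).symm)
    (by rw [← pow_mul, ← e, pow_orderOf_eq_one]) x x.2
  · obtain ⟨b, hb⟩ := kn_img (K := K) (e := J.comp j₂) (e' := ι.comp e₂)
      (fun a => ((congrArg J (h₂ a)).trans (hF _)).trans (congrArg ι (he₂ a).symm)) a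
    exact hx _ _ _ hb (hg₂ b)
  · obtain ⟨b, hb⟩ := kn_img (K := K) (e := J.comp j₃) (e' := ι.comp e₃)
      (fun a => ((congrArg J (h₃ a)).trans (hF _)).trans (congrArg ι (he₃ a).symm)) a
    exact hx _ _ _ hb (hg₃ b)

end Pool.Agent.ZCy.F.Kp
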