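import Pool.Agent.Lib.MP_751085_ag.ZF.K.VtB
import Pool.Agent.Lib.MP_751085_ag.ZF.K.Lpr
import Pool.Agent.Lib.MP_751085_ag.ZF.K.FinA
import Pool.Agent.Lib.MP_751085_ag.ZF.R8
import Pool.Agent.Lib.MP_751085_ag.ZF.K.KDf3

/-! Descent to the fixed field of the vertical inertia groups. -/

namespace Pool.Agent.ZCy.F.Kp

open Pool.Agent.ZFy Pool.Agent.ZFy.GM
open scoped Classical WithZero IntermediateField
open Polynomial groupCohomology

set_option linter.unusedSectionVars false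

theorem pcore2_ne {B K F E : Type} [CommRing B] [Field K] [Field F] [Field E] [Algebra B K]
    [IsFractionRing B K] [Algebra K[X] F] [Algebra F E] {P : B} (hP : P ≠ 0) :
    pB B K F E (C P) ≠ 0 := by
  have h := (map_ne_zero (kap K F E)).2 ((map_ne_zero_iff _ (IsFractionRing.injective B K)).2 hP)
  rwa [RingHom.comp_apply, ← map_C] at h

variable {A A₂ K K₂ F : Type} [CommRing A] [IsDomain A] [UniqueFactorizationMonoid A]
  [CommRing A₂] [IsDomain A₂] [UniqueFactorizationMonoid A₂] [Field K] [Field K₂]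
  [Algebra A K] [IsFractionRing A K] [Algebra A₂ K₂] [IsFractionRing A₂ K₂] [Algebra A A₂]
  [Algebra.IsIntegral A A₂] [Algebra K K₂] [Algebra A K₂] [IsScalarTower A K K₂]
  [IsScalarTower A A₂ K₂] [Algebra K₂ (Ks K)] [IsScalarTower K K₂ (Ks K)] [FiniteDimensional K K₂]
  [IsGalois K K₂] [Field F] [Algebra K[X] F] [Algebra F (Os K)] {l M : ℕ} {c : Cur K F} {Φ : A}
  {E : IntermediateField F (Os K)} {K₁ : IntermediateField K₂ (Ks K)} {n : ℕ} {π : Fin n → A₂}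
  {ϖ : Fin n → K₁} (hb : c.Bas K₂ l M Φ) (h : Big M A E K₁ π ϖ)
  {B : Type} [CommRing B] [IsDomain B] [UniqueFactorizationMonoid B] [Algebra B K]
  [IsFractionRing B K] (P₀ : B) {K₃ : Type} [Field K₃] [Algebra K K₃] [FiniteDimensional K K₃]
  [IsGalois K K₃] (e₃ : K₃ →ₐ[K] Ks K) (h3 : ∀ x, e₃ x ∈ K₁)

variable (K₂ c l Φ E) in
/-- the elements to be killed -/
def Zs : Set (E ≃ₐ[F] E) :=
  (⋃ w ∈ Wv A K F E Φ, (Ine F w : Set (E ≃ₐ[F] E))) ∪ (Pw F (pB B K F E) (C P₀) (c.Tm K₂ l P₀) ∪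
    Pl F l (S23 K₂ e₃ E) (WF l (c.χ.map (mapRingHom (algebraMap K K₃)))))

include hb h h3

theorem kc_le : Zs K₂ l c Φ E P₀ e₃ ⊆ secG K₂ E := by
  have := h.fin
  have := h.gal
  rintro z (hz | hz | hz)
  · obtain ⟨w, hw, hz⟩ := Set.mem_iUnion₂.1 hz
    exact kvtb_le hb h hw hz
  · exact (kx_pw c hb.sct h.nice h.frm P₀).2.1 hz
  · exact kx_lpr c e₃ hb.sct h.nice h.frm h3 hz

theorem kc_norm (g : E ≃ₐ[F] E) : ∀ z ∈ Zs K₂ l c Φ E P₀ e₃, g * z * g⁻¹ ∈ Zs K₂ l c Φ E P₀ e₃ := by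
  have := h.fin
  have := h.gal
  rintro z (hz | hz | hz)
  · obtain ⟨w, hw, hz⟩ := Set.mem_iUnion₂.1 hz
    exact .inl (Set.mem_iUnion₂.2 ⟨_, kx_stb g w hw, kz_ine hz g⟩)
  · exact .inr (.inl ((kx_pw c hb.sct h.nice h.frm P₀).1 g z hz))
  · exact .inr (.inr (kx_pl c e₃ h.frm _ g z hz))

theorem kc_infl {cc : (E ≃ₐ[F] E) × (E ≃ₐ[F] E) → Eˣ} {e : (E ≃ₐ[F] E) → Eˣ}
    (hcc : IsMulCocycle₂ cc) (hM : ∀ p, cc p ^ M = 1) (he : ∀ r, e r ^ M = 1)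
    (h1 : ∀ r ∈ secG K₂ E, ∀ r' ∈ secG K₂ E, cc (r, r') = dd e (r, r'))
    (H1 : ∀ (P : A) (v : Vl F), Prime P → ¬P ∣ Φ → Cen (pB A K F F) v (C P) → Unram v (cls F cc)) :
    ∃ x : (E ≃ₐ[F] E) → Eˣ, (∀ g, x g ^ M = 1) ∧
      Infl ⊤ (Subgroup.closure (Zs K₂ l c Φ E P₀ e₃)) (cc / dd x) := by
  have := h.fin
  have := h.gal
  have := h.nice.fin
  have := h.nice.gal
  obtain ⟨ϖ', hk⟩ := kx_kum hb h
  obtain ⟨p1, -, p3⟩ := kx_pw c hb.sct h.nice h.frm P₀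
  refine kk_desc hk hcc hM (fun r _ => he r) h1 _ ?_ (fun z hz => kc_le hb h P₀ e₃ h3 (.inr hz))
    ?_ fun w hw g hg n hn => ?_
  · rintro g z (hz | hz)
    exacts [.inl (p1 g z hz), .inr (kx_pl c e₃ h.frm _ g z hz)]
  · rintro z (hz | ⟨-, -, q, hq, hz⟩)
    · exact p3 z hz
    · obtain ⟨k, rfl⟩ := hb.sct.pw
      exact ⟨q, hq.pow_right k, hz⟩
  · obtain ⟨-, P, hP, hPΦ, hc⟩ := id hw
    have hn' := kz_ine hn g⁻¹
    rw [kz_dec.1 (inv_mem hg), inv_inv] at hn'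
    exact div_eq_div_iff_mul_eq_mul.1 (Unram.norm (w := w) (v := w.comap (algebraMap F E))
      (fun _ => Iff.rfl) hcc (hk.unit w hw) hM (H1 P (w.comap (algebraMap F E)) hP hPΦ hc) le_rfl he
      (fun n hn n' hn' => h1 n (hk.le w hw hn) n' (hk.le w hw hn')) hg hn hn' (by group))

theorem kc_ram (E' : IntermediateField F E) [IsGalois F E']
    (hE : ∀ x, x ∈ E' ↔ ∀ z ∈ Zs K₂ l c Φ E P₀ e₃, z x = x) : KRam K₂ K₃ c l Φ P₀ E' := by
  have := h.fin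
  have := h.gal
  have := h.nice.fin
  have := h.nice.gal
  have h₂ : ∀ a, h.frm.J (algebraMap K₂ K₁ (algebraMap K K₂ a)) = kap K F E a := fun a =>
    (congrArg h.frm.J (IsScalarTower.algebraMap_apply K K₂ K₁ a).symm).trans (ke_JK c h.frm a)
  refine ⟨⟨(h.frm.J.comp (algebraMap K₂ K₁)).codRestrict E' fun a => (hE _).2 fun z hz =>
    ke_sec_fix h.frm (kc_le hb h P₀ e₃ h3 hz) a, fun a => Subtype.ext (h₂ a)⟩, fun w hw => ?_,
    fun P w hP hPΦ hw => ?_, fun hT w hw => ?_, fun hW => ?_⟩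
  · obtain ⟨w₁, ho⟩ := kfin_ex E'.val w
    have h1 := nic_unr c hb.sct.neM h.nice (w := w₁) fun a ha => (ho.eq_one _).2 (hw a ha)
    refine kn_unr E'.val ho fun g hg y => ?_
    rw [h1, Subgroup.mem_bot] at hg
    rw [hg, AlgEquiv.one_apply]
  · obtain ⟨w₁, hn, ho⟩ := kn_over E'.val w (pcore2_ne hP.ne_zero) ((hw.2 _).2 dvd_rfl)
    have hc₁ := (kn_cen E'.val ((algebraMap K[X] F).comp (mapRingHom (algebraMap A K))) ho).2 hw
    exact kn_unr E'.val ho fun g hg y =>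
      (hE y).1 y.2 g (.inl (Set.mem_iUnion₂.2 ⟨w₁, ⟨hn, P, hP, hPΦ, hc₁⟩, hg⟩))
  · obtain ⟨w₁, -, ho⟩ := kn_over E'.val w (pcore2_ne hT.red.prime.ne_zero) ((hw.2 _).2 dvd_rfl)
    have hc₁ := (kn_cen E'.val ((algebraMap K[X] F).comp (mapRingHom (algebraMap B K))) ho).2 hw
    exact kn_tame E'.val ho fun g hg p a hp hw1 hg1 y =>
      (hE y).1 y.2 g (.inr (.inl ⟨hT, w₁, hc₁, hg, p, a, hp, hw1, hg1⟩))
  · refine lad_of hb.sct.prime E' (h.frm.J.comp (algebraMap K₂ K₁))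
      (h.frm.J.comp ((e₃ : K₃ →+* Ks K).codRestrict K₁ h3)) h₂
      (fun a => (congrArg h.frm.J (Subtype.ext (e₃.commutes a))).trans (ke_JK c h.frm a))
      fun g g2 g3 q hq hg x hx => (hE x).1 hx g (.inr (.inr ⟨hW, ?_, q, hq, hg⟩))
    rintro y (⟨a, ha⟩ | ⟨a, ha⟩)
    · rw [show y = _ from Subtype.ext (ha.trans (ke_J h.frm (algebraMap K₂ K₁ a)).symm)]
      exact g2 a
    · rw [show y = _ from Subtype.ext (ha.trans (ke_J h.frm ⟨e₃ a, h3 a⟩).symm)]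
      exact g3 a

end Pool.Agent.ZCy.F.Kp
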