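import Pool.Agent.Lib.MP_751085_ag.ZF.K.Core1
import Pool.Agent.Lib.MP_751085_ag.ZF.K.Core2

/-! Theorem K for a curve over a field with a factorial subring. -/

namespace Pool.Agent.ZCy.F.Kp

open Pool.Agent.ZFy Pool.Agent.ZFy.GM
open scoped Classical WithZero IntermediateField
open Polynomial groupCohomology

set_option linter.unusedSectionVars false

variable {A A₂ K K₂ F : Type} [CommRing A] [IsDomain A] [UniqueFactorizationMonoid A]
  [CommRing A₂] [IsDomain A₂] [UniqueFactorizationMonoid A₂] [Field K] [Field K₂]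
  [Algebra A K] [IsFractionRing A K] [Algebra A₂ K₂] [IsFractionRing A₂ K₂] [Algebra A A₂]
  [Algebra.IsIntegral A A₂] [Algebra K K₂] [Algebra A K₂] [IsScalarTower A K K₂]
  [IsScalarTower A A₂ K₂] [Algebra K₂ (Ks K)] [IsScalarTower K K₂ (Ks K)] [FiniteDimensional K K₂]
  [IsGalois K K₂] [Field F] [Algebra K[X] F] [Algebra F (Os K)] {l M : ℕ} {c : Cur K F} {Φ : A}

theorem coreK (hD : DIVp) (A₂ : Type) [CommRing A₂] [IsDomain A₂] [UniqueFactorizationMonoid A₂]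
    [Algebra A₂ K₂] [IsFractionRing A₂ K₂] [Algebra A A₂] [Algebra.IsIntegral A A₂]
    [IsScalarTower A A₂ K₂] (hb : c.Bas K₂ l M Φ) (hA : IsUnit (l : A)) (j : F →+* Ls K₂)
    (hj : ∀ x, algebraMap F (Os K) x = lm (algebraMap K₂ (Ks K)) (j x)) {a : BR F}
    (h0 : rs j a = 0) {N d : ℕ} (hM : c.χ.natDegree * N = M * d) (hd : d.Coprime N) (hNM : N ∣ M)
    (hN : N • a = 0) (H1 : ∀ v : Vl F, Triv (kap K F F) v → NT v → Unram v a)
    (H1' : ∀ (P : A) (v : Vl F), Prime P → ¬P ∣ Φ → Cen (pB A K F F) v (C P) → Unram v a)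
    {B : Type} [CommRing B] [IsDomain B] [UniqueFactorizationMonoid B] [Algebra B K]
    [IsFractionRing B K] (P₀ : B) (K₃ : Type) [Field K₃] [Algebra K K₃] [FiniteDimensional K K₃]
    [IsGalois K K₃] : ∃ R : KOut F a M, KRam K₂ K₃ c l Φ P₀ R.E := by
  let e₃ : K₃ →ₐ[K] Ks K := IsSepClosed.lift
  obtain ⟨E, K₁, n, π, ϖ, cc, e, h, h3, hcc, hp, rfl, he, h1⟩ :=
    kc_big (A := A) (A₂ := A₂) hD hb.sct hA j hj h0 hM hd hNM hN H1 e₃
  have := h.nice.fin
  have := h.nice.gal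
  obtain ⟨x, hx, hi⟩ := kc_infl hb h P₀ e₃ h3 hcc hp he h1 H1'
  obtain ⟨E', c', hgal, hfix, hc', hp', hcls⟩ := kn_fix _ (kc_norm hb h P₀ e₃ h3)
    (coc_div hcc (dd_coc x)) (M := M)
    (fun p => by rw [Pi.div_apply, div_pow, hp, kgrp_pow hx, div_one]) hi
  refine ⟨{ E := E', c := c', coc := hc', pw := hp', cls_eq := hcls.trans ?_ },
    kc_ram hb h P₀ e₃ h3 E' hfix⟩
  rw [cls_div hcc (dd_coc x), (ka_zero (K := F) (dd_coc x)).2 ⟨x, rfl⟩]
  exact sub_zero (G := BR F) _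

end Pool.Agent.ZCy.F.Kp
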