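import Pool.Agent.Lib.MP_751085_ag.ZF.K.FbC
import Pool.Agent.Lib.MP_751085_ag.ZC.K.Val

/-! The field of constants with roots of the ramified primes. -/

namespace Pool.Agent.ZCy.F.Kp

open Pool.Agent.ZFy Pool.Agent.ZFy.GM
open scoped Classical WithZero IntermediateField
open Polynomial groupCohomology

set_option linter.unusedSectionVars false

theorem ptheta_split {K Ω : Type} [Field K] [Field Ω] [Algebra K Ω] [Algebra.IsSeparable K Ω]
    {p : K[X]} (hs : (p.map (algebraMap K Ω)).Splits) :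
    FiniteDimensional K (IntermediateField.adjoin K (p.rootSet Ω)) ∧
      IsGalois K (IntermediateField.adjoin K (p.rootSet Ω)) := by
  have := IntermediateField.adjoin_rootSet_isSplittingField (K := K) (L := Ω) (p := p) hs
  have := IsSplittingField.finiteDimensional (IntermediateField.adjoin K (p.rootSet Ω)) p
  have := Normal.of_isSplittingField (E := IntermediateField.adjoin K (p.rootSet Ω)) p
  exact ⟨inferInstance, ⟨⟩⟩

theorem ptheta_exp {K K₂ Ω : Type} [Field K] [Field K₂] [Field Ω] [Algebra K K₂] [Algebra K Ω]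
    [Algebra.IsSeparable K K₂] [IsSepClosed Ω] {M : ℕ} (hM : (M : K) ≠ 0) (x : K₂) :
    ((expand K M (minpoly K x)).map (algebraMap K Ω)).Splits := by
  have hq : ((minpoly K x).map (algebraMap K Ω)).Splits :=
    IsSepClosed.splits_codomain _ (Algebra.IsSeparable.isSeparable K x)
  have h0 : (M : Ω) ≠ 0 := by
    rw [← map_natCast (algebraMap K Ω)]
    exact (_root_.map_ne_zero _).2 hM
  rw [map_expand, hq.eq_prod_roots, map_mul, expand_C, map_multiset_prod, Multiset.map_map]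
  refine Splits.C_mul (Splits.multisetProd fun f hf => ?_) _
  obtain ⟨z, -, rfl⟩ := Multiset.mem_map.1 hf
  simp only [Function.comp, map_sub, expand_X, expand_C]
  by_cases hz : z = 0
  · rw [hz, C_0, sub_zero]
    exact Splits.X_pow M
  · exact IsSepClosed.splits_of_separable _ (separable_X_pow_sub_C z h0 hz)

/-- a polynomial that splits in the separable closure -/
theorem kth_split {K : Type} [Field K] {p : K[X]} (hs : (p.map (algebraMap K (Ks K))).Splits) :
    FiniteDimensional K (IntermediateField.adjoin K (p.rootSet (Ks K))) ∧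
      IsGalois K (IntermediateField.adjoin K (p.rootSet (Ks K))) :=
  ptheta_split hs

/-- the minimal polynomial splits in `Ks K` with nonzero roots, which have `M`-th roots -/
theorem kth_exp {K K₂ : Type} [Field K] [Field K₂] [Algebra K K₂] [Algebra.IsSeparable K K₂]
    {M : ℕ} (hM : (M : K) ≠ 0) (x : K₂) :
    ((expand K M (minpoly K x)).map (algebraMap K (Ks K))).Splits :=
  ptheta_exp hM x

/-- the inertia group fixes all conjugates of an unramified Galois subextension -/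
theorem ptheta_fix {A K E₀ E : Type} [CommRing A] [Field K] [Field E₀] [Field E] [Algebra A K]
    [Algebra K E₀] [Algebra K E] [FiniteDimensional K E] [IsGalois K E₀] [IsGalois K E]
    (j : E₀ →ₐ[K] E) {Θ P : A} (hU : UnrOff K (toF A K E₀) Θ) (hP : Prime P) (hn : ¬P ∣ Θ)
    {w : Vl E} (hw : Cen (toF A K E) w P) {g : E ≃ₐ[K] E} (hg : g ∈ Ine K w) (σ : E ≃ₐ[K] E)
    (x : E₀) : g (σ (j x)) = σ (j x) := by
  let _ := (j : E₀ →+* E).toAlgebra
  have : IsScalarTower K E₀ E := .of_algebraMap_eq fun a => (j.commutes a).symm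
  have hr : ∀ (g : E ≃ₐ[K] E) x, j (g.restrictNormal E₀ x) = g (j x) := fun g x =>
    AlgEquiv.restrictNormal_commutes g E₀ x
  have e : ∀ a, j (toF A K E₀ a) = toF A K E a := fun a => j.commutes _
  have h0 : Ine K (w.comap (j : E₀ →+* E)) = ⊥ := hU P _ hP hn
    ⟨fun a => (congrArg w (e a)).trans_le (hw.1 a), fun a => by
      rw [← hw.2 a, ← e a]; rfl⟩
  have h1 := (kv_up j hr (w := w.comap (j : E₀ →+* E)) (w' := w) fun _ => Iff.rfl).2.2.2 g hg
  rw [h0, Subgroup.mem_bot] at h1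
  rw [← hr σ, ← hr g, h1, AlgEquiv.one_apply]

variable {A A₂ K K₂ : Type} [CommRing A] [IsDomain A] [UniqueFactorizationMonoid A]
  [CommRing A₂] [IsDomain A₂] [UniqueFactorizationMonoid A₂] [Field K] [Field K₂]
  [Algebra A K] [IsFractionRing A K] [Algebra A₂ K₂] [IsFractionRing A₂ K₂] [Algebra A A₂]
  [Algebra.IsIntegral A A₂] [Algebra K K₂] [Algebra A K₂] [IsScalarTower A K K₂]
  [IsScalarTower A A₂ K₂] [Algebra K₂ (Ks K)] [IsScalarTower K K₂ (Ks K)] [FiniteDimensional K K₂]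
  [IsGalois K K₂]

section

variable {E : Type} [Field E] [Algebra K E] [Algebra K₂ E] [IsScalarTower K K₂ E] {w : Vl E}

omit [Algebra K₂ (Ks K)] [IsScalarTower K K₂ (Ks K)]

theorem ptheta_tow (a : A) : toF A₂ K₂ E (algebraMap A A₂ a) = toF A K E a := by
  change algebraMap K₂ E (algebraMap A₂ K₂ _) = algebraMap K E (algebraMap A K a)
  rw [← IsScalarTower.algebraMap_apply A A₂ K₂, IsScalarTower.algebraMap_apply A K K₂,
    ← IsScalarTower.algebraMap_apply K K₂ E]

theorem ptheta_le (h : ∀ a, w (toF A K E a) ≤ 1) (σ : E ≃ₐ[K] E) (a : A₂) :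
    w (σ (toF A₂ K₂ E a)) ≤ 1 := by
  obtain ⟨p, hp, h0⟩ := Algebra.IsIntegral.isIntegral (R := A) a
  refine kz_int h ⟨p, hp, ?_⟩
  have h1 := congrArg (((σ : E →+* E)).comp (toF A₂ K₂ E)) h0
  rw [hom_eval₂, map_zero] at h1
  have h2 : ((σ : E →+* E).comp (toF A₂ K₂ E)).comp (algebraMap A A₂) = toF A K E :=
    RingHom.ext fun b => (congrArg σ (ptheta_tow b)).trans (σ.commutes _)
  rwa [h2] at h1

theorem ptheta_root {E₀ : Type} [Field E₀] [Algebra K E₀] [FiniteDimensional K E] [IsGalois K E₀]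
    [IsGalois K E] (j : E₀ →ₐ[K] E) (hj : ∀ a : K₂, ∃ x, j x = algebraMap K₂ E a) {Θ P : A}
    (hU : UnrOff K (toF A K E₀) Θ) (hP : Prime P) (hw : Cen (toF A K E) w P)
    (h1 : w (toF A K E Θ) = 1) {g : E ≃ₐ[K] E} (hg : g ∈ Ine K w) {M : ℕ}
    (hM : IsUnit (M : A)) {π : A₂}
    (hπ : π ∣ algebraMap A A₂ Θ) {z : E}
    (hz : aeval (z ^ M) (minpoly K (algebraMap A₂ K₂ π)) = 0) : g z = z := by
  have hM0 : M ≠ 0 := fun h => hM.ne_zero (by rw [h, Nat.cast_zero])
  have hn : ¬P ∣ Θ := fun h => ((hw.2 Θ).2 h).ne h1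
  rw [← minpoly.algebraMap_eq (algebraMap K₂ E).injective] at hz
  obtain ⟨σ, hσ⟩ := minpoly.exists_algEquiv_of_root' (Algebra.IsAlgebraic.isAlgebraic _) hz
  obtain ⟨c, hc⟩ := hπ
  have h2 : σ (toF A₂ K₂ E π) * σ (toF A₂ K₂ E c) = toF A K E Θ := by
    rw [← map_mul, ← map_mul, ← hc, ptheta_tow (K := K)]
    exact σ.commutes _
  have h3 : w (σ (toF A₂ K₂ E π)) = 1 :=
    eq_one_of_one_le_mul_left (ptheta_le hw.1 σ π) (ptheta_le hw.1 σ c)
      (by rw [← map_mul, h2, h1])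
  have h4 : w z = 1 := by
    have h5 : w z ^ M = 1 := by
      rw [← map_pow, ← hσ]
      exact h3
    exact (pow_eq_one_iff_of_nonneg zero_le hM0).1 h5
  obtain ⟨b, hb⟩ := hM.exists_right_inv
  have h6 : w (M : E) = 1 := by
    rw [← map_natCast (toF A K E)]
    exact eq_one_of_one_le_mul_left (hw.1 _) (hw.1 b)
      (by rw [← map_mul, ← map_mul, hb, map_one, map_one])
  refine kz_kum h6 hg h4 ?_
  obtain ⟨x, hx⟩ := hj (algebraMap A₂ K₂ π)
  rw [← hσ, ← hx]
  exact ptheta_fix j hU hP hn hw hg σ x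

end

omit [Algebra K₂ (Ks K)] [IsScalarTower K K₂ (Ks K)] in
theorem ptheta_main {Ω : Type} [Field Ω] [Algebra K Ω] [Algebra K₂ Ω] [IsScalarTower K K₂ Ω]
    [Algebra.IsSeparable K Ω] [IsSepClosed Ω] (S : Finset Ω) {M : ℕ} (hM : IsUnit (M : A)) :
    ∃ (K₁ : IntermediateField K₂ Ω) (n : ℕ) (π : Fin n → A₂) (ϖ : Fin n → K₁),
      FiniteDimensional K K₁ ∧ IsGalois K K₁ ∧ (∀ x ∈ S, x ∈ K₁) ∧ (∀ i, Prime (π i)) ∧
      (∀ i j, π i ∣ π j → i = j) ∧ (∀ i, ϖ i ^ M = toF A₂ K₂ K₁ (π i)) ∧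
      ∀ (w : Vl K₁) (P : A), Prime P → Cen (toF A K K₁) w P → Ine K w ≠ ⊥ →
        ∃ i, w (toF A₂ K₂ K₁ (π i)) < 1 := by
  have hMK : (M : K) ≠ 0 := by
    rw [← map_natCast (algebraMap A K)]
    exact (hM.map _).ne_zero
  have hM0 : 0 < M := Nat.pos_of_ne_zero fun h => hMK (by rw [h, Nat.cast_zero])
  have : NeZero (M : Ω) := ⟨by
    rw [← map_natCast (algebraMap K Ω)]
    exact (_root_.map_ne_zero _).2 hMK⟩
  obtain ⟨θ, hθ⟩ := Field.exists_primitive_element K K₂
  set p₀ : K[X] := ∏ z ∈ insert (algebraMap K₂ Ω θ) S, minpoly K z with hp₀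
  have hp0 : p₀ ≠ 0 := Finset.prod_ne_zero_iff.2 fun z _ =>
    minpoly.ne_zero (Algebra.IsIntegral.isIntegral z)
  set K₀ := IntermediateField.adjoin K (p₀.rootSet Ω) with hK₀
  have hS : ∀ z ∈ insert (algebraMap K₂ Ω θ) S, z ∈ K₀ := fun z hz =>
    IntermediateField.subset_adjoin _ _ (mem_rootSet.2 ⟨hp0, by
      rw [hp₀, map_prod]
      exact Finset.prod_eq_zero hz (minpoly.aeval K z)⟩)
  have h2 : ∀ a : K₂, algebraMap K₂ Ω a ∈ K₀ := fun a => by
    have : K⟮θ⟯ ≤ K₀.comap (IsScalarTower.toAlgHom K K₂ Ω) :=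
      IntermediateField.adjoin_simple_le_iff.2 (hS _ (Finset.mem_insert_self _ _))
    exact this (hθ ▸ IntermediateField.mem_top)
  have s0 : (p₀.map (algebraMap K Ω)).Splits := by
    rw [hp₀, Polynomial.map_prod]
    exact Splits.prod fun z _ => IsSepClosed.splits_codomain _ (Algebra.IsSeparable.isSeparable K z)
  obtain ⟨f0, g0⟩ := ptheta_split s0
  obtain ⟨Θ, hΘ, hU⟩ := kv_fin (A := A) (K := K) (E := K₀)
  have hΘ2 : algebraMap A A₂ Θ ≠ 0 := fun h => by
    have := ptheta_tow (A₂ := A₂) (K := K) (K₂ := K₂) (E := Ω) Θ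
    rw [h, map_zero] at this
    exact hΘ (IsFractionRing.injective A K ((algebraMap K Ω).injective
      (this.symm.trans (by simp))))
  let _ : StrongNormalizationMonoid A₂ := UniqueFactorizationMonoid.strongNormalizationMonoid
  set T := (UniqueFactorizationMonoid.normalizedFactors (algebraMap A A₂ Θ)).toFinset with hT
  let π : Fin T.card → A₂ := fun i => (T.equivFin.symm i).1
  have hπ : ∀ i, π i ∈ UniqueFactorizationMonoid.normalizedFactors (algebraMap A A₂ Θ) := fun i =>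
    Multiset.mem_toFinset.1 (T.equivFin.symm i).2
  set p₁ : K[X] := ∏ i, expand K M (minpoly K (algebraMap A₂ K₂ (π i))) with hp₁
  have hp1 : p₀ * p₁ ≠ 0 := mul_ne_zero hp0 (Finset.prod_ne_zero_iff.2 fun i _ =>
    (expand_ne_zero hM0).2 (minpoly.ne_zero (Algebra.IsIntegral.isIntegral _)))
  set K' := IntermediateField.adjoin K ((p₀ * p₁).rootSet Ω) with hK'
  have hle : K₀ ≤ K' := IntermediateField.adjoin.mono _ _ _ fun z hz =>
    mem_rootSet.2 ⟨hp1, by rw [map_mul, (mem_rootSet.1 hz).2, zero_mul]⟩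
  have s2 : (p₁.map (algebraMap K Ω)).Splits := by
    rw [hp₁, Polynomial.map_prod]
    exact Splits.prod fun i _ => ptheta_exp hMK (algebraMap A₂ K₂ (π i))
  have s1 : ((p₀ * p₁).map (algebraMap K Ω)).Splits :=
    (Polynomial.map_mul (algebraMap K Ω) (p := p₀) (q := p₁)).symm ▸ s0.mul s2
  obtain ⟨f1, g1⟩ := ptheta_split s1
  let K₁ : IntermediateField K₂ Ω := K'.toSubfield.toIntermediateField fun a => hle (h2 a)
  let e : K' ≃ₐ[K] K₁ :=
    { toFun := fun x => ⟨x.1, x.2⟩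
      invFun := fun x => ⟨x.1, x.2⟩
      left_inv := fun _ => rfl
      right_inv := fun _ => rfl
      map_mul' := fun _ _ => rfl
      map_add' := fun _ _ => rfl
      commutes' := fun _ => rfl }
  have f2 : FiniteDimensional K K₁ := e.toLinearEquiv.finiteDimensional
  have g2 : IsGalois K K₁ := IsGalois.of_algEquiv e
  choose r hr using fun i => IsSepClosed.exists_pow_nat_eq (toF A₂ K₂ Ω (π i)) M
  have hrm : ∀ i, r i ∈ K' := fun i =>
    IntermediateField.subset_adjoin _ _ (mem_rootSet.2 ⟨hp1, by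
      refine (map_mul _ _ _).trans (mul_eq_zero_of_right _ ((map_prod _ _ _).trans
        (Finset.prod_eq_zero (Finset.mem_univ i) ?_)))
      rw [expand_aeval, hr]
      exact (aeval_algebraMap_apply Ω (algebraMap A₂ K₂ (π i)) _).trans
        (by rw [minpoly.aeval, map_zero])⟩)
  refine ⟨K₁, T.card, π, fun i => ⟨r i, hrm i⟩, f2, g2,
    fun x hx => hle (hS x (Finset.mem_insert_of_mem hx)),
    fun i => UniqueFactorizationMonoid.prime_of_normalized_factor _ (hπ i),
    fun i j h => T.equivFin.symm.injective (Subtype.ext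
      (UniqueFactorizationMonoid.normalizedFactors_eq_of_dvd _ _ (hπ i) _ (hπ j) h)),
    fun i => Subtype.ext (hr i), fun w P hP hw hI => ?_⟩
  by_contra hcon
  have hle1 : ∀ a, w (toF A₂ K₂ K₁ a) ≤ 1 := fun a => ptheta_le (K₂ := K₂) hw.1 1 a
  have hall : ∀ q ∈ UniqueFactorizationMonoid.normalizedFactors (algebraMap A A₂ Θ),
      w (toF A₂ K₂ K₁ q) = 1 := fun q hq => by
    refine (hle1 q).eq_of_not_lt fun h => hcon ⟨T.equivFin ⟨q, Multiset.mem_toFinset.2 hq⟩, ?_⟩
    simpa only [π, Equiv.symm_apply_apply] using h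
  have h1 : w (toF A K K₁ Θ) = 1 := by
    obtain ⟨c, hc⟩ := (UniqueFactorizationMonoid.prod_normalizedFactors hΘ2).symm.dvd
    have h3 := Multiset.prod_induction (fun a => w (toF A₂ K₂ K₁ a) = 1) _
      (fun a b ha hb => by rw [map_mul, map_mul, ha, hb, one_mul]) (by simp) hall
    rw [hc, map_mul, map_mul, ptheta_tow (K := K)] at h3
    exact eq_one_of_one_le_mul_left (hw.1 Θ) (hle1 c) h3.ge
  let j : K₀ →ₐ[K] K₁ := (e : K' →ₐ[K] K₁).comp (IntermediateField.inclusion hle)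
  refine hI ((Subgroup.eq_bot_iff_forall _).2 fun g hg => ?_)
  have h4 : (g : K₁ →ₐ[K] K₁).comp (e : K' →ₐ[K] K₁) = e := by
    refine IntermediateField.algHom_ext_of_eq_adjoin K hK' fun z hz => ?_
    have h5 := (mem_rootSet.1 hz).2
    rw [map_mul, mul_eq_zero] at h5
    rcases h5 with h5 | h5
    · exact ptheta_fix j hU hP (fun h => ((hw.2 Θ).2 h).ne h1) hw hg 1
        ⟨z, IntermediateField.subset_adjoin _ _ (mem_rootSet.2 ⟨hp0, h5⟩)⟩
    · rw [hp₁, map_prod] at h5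
      obtain ⟨i, -, hi⟩ := Finset.prod_eq_zero_iff.1 h5
      rw [expand_aeval] at hi
      refine ptheta_root (K₂ := K₂) j (fun a => ⟨⟨_, h2 a⟩, rfl⟩) hU hP hw h1 hg hM
        (UniqueFactorizationMonoid.dvd_of_mem_normalizedFactors (hπ i)) ?_
      let ι : K₁ →ₐ[K] Ω := K'.val.comp (e.symm : K₁ →ₐ[K] K')
      exact ι.injective ((aeval_algHom_apply ι _ _).symm.trans (hi.trans (map_zero ι).symm))
  exact AlgEquiv.ext fun x => AlgHom.congr_fun h4 (e.symm x)

/-- The field of constants. -/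
theorem kt_theta (S : Finset (Ks K)) {M : ℕ} (hM : IsUnit (M : A)) :
    ∃ (K₁ : IntermediateField K₂ (Ks K)) (n : ℕ) (π : Fin n → A₂) (ϖ : Fin n → K₁),
      FiniteDimensional K K₁ ∧ IsGalois K K₁ ∧ (∀ x ∈ S, x ∈ K₁) ∧ (∀ i, Prime (π i)) ∧
      (∀ i j, π i ∣ π j → i = j) ∧ (∀ i, ϖ i ^ M = toF A₂ K₂ K₁ (π i)) ∧
      ∀ (w : Vl K₁) (P : A), Prime P → Cen (toF A K K₁) w P → Ine K w ≠ ⊥ →
        ∃ i, w (toF A₂ K₂ K₁ (π i)) < 1 :=
  ptheta_main S hM

end Pool.Agent.ZCy.F.Kp
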