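import Pool.Agent.Lib.MP_751085_ag.ZF.K.S3
import Pool.Agent.Lib.MP_751085_ag.ZF.K.SplitB
import Pool.Agent.Lib.MP_751085_ag.ZF.K.EnlB
import Pool.Agent.Lib.MP_751085_ag.ZF.K.Theta

/-! The big field. -/

namespace Pool.Agent.ZCy.F.Kp

open Pool.Agent.ZFy Pool.Agent.ZFy.GM
open scoped Classical WithZero IntermediateField
open Polynomial groupCohomology

set_option linter.unusedSectionVars false

variable {A A₂ K K₂ F : Type} [CommRing A] [IsDomain A] [UniqueFactorizationMonoid A]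
  [CommRing A₂] [IsDomain A₂] [UniqueFactorizationMonoid A₂] [Field K] [Field K₂]
  [Algebra A K] [IsFractionRing A K] [Algebra A₂ K₂] [IsFractionRing A₂ K₂] [Algebra A A₂]
  [Algebra.IsIntegral A A₂] [Algebra K K₂] [Algebra A K₂] [IsScalarTower A K K₂]
  [IsScalarTower A A₂ K₂] [Algebra K₂ (Ks K)] [IsScalarTower K K₂ (Ks K)] [FiniteDimensional K K₂]
  [IsGalois K K₂] [Field F] [Algebra K[X] F] [Algebra F (Os K)] {l M : ℕ} {c : Cur K F} {Φ : A}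

theorem kc_big (hD : DIVp) (hs : Sct (K := K) K₂ F l M) (hA : IsUnit (l : A)) (j : F →+* Ls K₂)
    (hj : ∀ x, algebraMap F (Os K) x = lm (algebraMap K₂ (Ks K)) (j x)) {a : BR F}
    (h0 : rs j a = 0) {N d : ℕ} (hM : c.χ.natDegree * N = M * d) (hd : d.Coprime N) (hNM : N ∣ M)
    (hN : N • a = 0) (H1 : ∀ v : Vl F, Triv (kap K F F) v → NT v → Unram v a)
    {K₃ : Type} [Field K₃] [Algebra K K₃] [FiniteDimensional K K₃] (e₃ : K₃ →ₐ[K] Ks K) :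
    ∃ (E : IntermediateField F (Os K)) (K₁ : IntermediateField K₂ (Ks K)) (n : ℕ) (π : Fin n → A₂)
      (ϖ : Fin n → K₁) (cc : (E ≃ₐ[F] E) × (E ≃ₐ[F] E) → Eˣ) (e : (E ≃ₐ[F] E) → Eˣ),
      Big M A E K₁ π ϖ ∧ (∀ x, e₃ x ∈ K₁) ∧ IsMulCocycle₂ cc ∧ (∀ p, cc p ^ M = 1) ∧
      cls F cc = a ∧ (∀ r, e r ^ M = 1) ∧
      ∀ r ∈ secG K₂ E, ∀ r' ∈ secG K₂ E, cc (r, r') = dd e (r, r') := by
  obtain ⟨E₀, hn₀, cc₀, hc₀, hp₀, hcl⟩ := ks_stage c hD hs.neM hM hd hNM hN H1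
  obtain ⟨S, e, h1, h2, h3⟩ := kp_split hs hn₀ j hj hc₀ hp₀ (hcl ▸ h0)
  have := hn₀.fin
  obtain ⟨S', hS'⟩ := ke_cf hs E₀
  obtain ⟨m, hm⟩ := hs.pw
  let b := Module.finBasis K K₃
  obtain ⟨K₁, n, π, ϖ, hfin, hgal, hS, hpr, hinj, hpw, hram⟩ :=
    kt_theta (A := A) (A₂ := A₂) (K₂ := K₂) (S ∪ S' ∪ Finset.univ.image fun i => e₃ (b i))
      (M := M) (by rw [hm, Nat.cast_pow]; exact hA.pow m)
  obtain ⟨E, hle, hn, hf⟩ := ke_enl c hn₀ K₁ fun y hy m =>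
    (IntermediateField.adjoin_le_iff (T := K₁)).2
      (fun x hx => hS x (Finset.mem_union_left _ (Finset.mem_union_right _ hx))) (hS' y hy m)
  obtain ⟨r, cc, hw, hcc, hv, hcl'⟩ := ke_inf hn₀ hn hle hc₀
  obtain ⟨e', h4, h5⟩ := kp_desc
    (fun x hx => hf.cst x (hS x (Finset.mem_union_left _ (Finset.mem_union_left _ hx))))
    (fun x => hf.cst _ (K₁.algebraMap_mem x)) h1 h2
    fun σ σ' g g' x y => (hv g g').trans (h3 σ σ' _ _ (hw _ _ x) (hw _ _ y))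
  refine ⟨E, K₁, n, π, ϖ, cc, e', ⟨hn, hfin, hgal, hf, hpr, hinj, hpw, hram⟩, fun x => ?_, hcc,
    fun p => Units.ext (Subtype.ext ?_), hcl'.trans hcl, h4, h5⟩
  · rw [← b.sum_repr x, map_sum]
    refine sum_mem fun i _ => ?_
    rw [map_smul]
    exact (K₁.restrictScalars K).smul_mem
      (hS _ (Finset.mem_union_right _ (Finset.mem_image_of_mem _ (Finset.mem_univ i))))
  have := congrArg (fun u : E₀ˣ => ((u : E₀) : Os K)) (hp₀ (r p.1, r p.2))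
  simp only [Units.val_pow_eq_pow_val, SubmonoidClass.coe_pow, Units.val_one, OneMemClass.coe_one]
    at this ⊢
  rw [hv p.1 p.2, this]

end Pool.Agent.ZCy.F.Kp
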