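import Pool.Agent.Lib.MP_751085_ag.ZF.K.Ffd
import Pool.Agent.Lib.MP_751085_ag.ZC.K.DivB
import Pool.Agent.Lib.MP_751085_ag.ZF.G.Rev

/-! Division of divisors supported at good places. -/

namespace Pool.Agent.ZCy.F.Kp

open Pool.Agent.ZFy Pool.Agent.ZFy.GM
open scoped Classical WithZero IntermediateField
open Polynomial groupCohomology

set_option linter.unusedSectionVars false

variable {𝕜 E : Type} [Field 𝕜] [IsAlgClosed 𝕜] [Field E] {ψ : 𝕜[X] →+* E} {θ : E}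
  {χ α β : 𝕜[X][X]} {Ψ : 𝕜[X]} {r : ℕ}

omit [IsAlgClosed 𝕜] in
theorem pdiva_e (ψ : 𝕜[X] →+* E) : eval₂RingHom (ψ.comp C) (ψ X) = ψ :=
  Polynomial.ringHom_ext (by simp) (by simp)

omit [IsAlgClosed 𝕜] in
theorem pdiva_e2 (ψ : 𝕜[X] →+* E) (θ : E) (G : 𝕜[X][X]) :
    ZeroCyc.e2 (ψ.comp C) (ψ X) θ G = G.eval₂ ψ θ := by
  rw [ZeroCyc.e2, pdiva_e]
  rfl

omit [IsAlgClosed 𝕜] in
theorem pdiva_c {v : Vl E} (hv : Triv (ψ.comp C) v) (c : 𝕜) : v (ψ.comp C c) ≤ 1 := by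
  rcases eq_or_ne c 0 with rfl | h
  · rw [map_zero, map_zero]
    exact zero_le
  · exact (hv c h).le

omit [IsAlgClosed 𝕜] in
/-- At infinity a term of weight `< m` has value `< v τ ^ m`. -/
theorem da_inf {b δ m : ℕ} (hw : ZeroCyc.Wt b δ χ) (h0 : χ.eval₂ ψ θ = 0) {v : Vl E}
    (hv : Triv (ψ.comp C) v) (h1 : 1 < v (ψ X)) {G : 𝕜[X][X]} (hG : ZeroCyc.Lead b m G) :
    v (G.eval₂ ψ θ) = v (ψ X) ^ m := by
  rw [← pdiva_e2] at h0 ⊢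
  exact ZeroCyc.val_lead (pdiva_c hv) h1 (ZeroCyc.val_root (pdiva_c hv) h1 hw h0) hG

omit [IsAlgClosed 𝕜] in
theorem pdiva_lv {f : PowerSeries 𝕜} (h : f ≠ 0) :
    lv 𝕜 (f : Ls 𝕜) = WithZero.exp (-(f.order.toNat : ℤ)) := by
  have h1 := (LaurentSeries.intValuation_le_iff_coeff_lt_eq_zero 𝕜 f).2
    PowerSeries.coeff_of_lt_order_toNat
  have h2 : (f : Ls 𝕜).coeff (f.order.toNat : ℕ) ≠ 0 := by
    rw [HahnSeries.ofPowerSeries_apply_coeff]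
    exact PowerSeries.coeff_order h
  have h3 := kl_lv (HahnSeries.ne_zero_of_coeff_ne_zero h2)
  rw [show Valued.v (f : Ls 𝕜) = _ from h3, WithZero.exp_le_exp, neg_le_neg_iff] at h1
  rw [h3, le_antisymm (HahnSeries.order_le_of_coeff_ne_zero h2) h1]

omit [IsAlgClosed 𝕜] in
theorem pdiva_fin (hm : χ.Monic) (h0 : χ.eval₂ ψ θ = 0) {v : Vl E} (hv : Triv (ψ.comp C) v)
    (h1 : v (ψ X) ≤ 1) {ρ u : 𝕜[X]} (h2 : v (ψ ρ) < 1) (hu : IsCoprime u ρ) (a : 𝕜[X][X]) :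
    v ((C u + C ρ * a).eval₂ ψ θ) = 1 := by
  have h3 : ∀ p : 𝕜[X], v (p.eval₂ (ψ.comp C) (ψ X)) ≤ 1 := fun p => by
    rw [← one_pow p.natDegree]
    exact ZeroCyc.cvv_inner (pdiva_c hv) le_rfl h1 fun j hj => le_natDegree_of_ne_zero hj
  have h4 : ∀ p, v (ψ p) ≤ 1 := fun p => RingHom.congr_fun (pdiva_e ψ) p ▸ h3 p
  have h5 : v θ ≤ 1 := ZeroCyc.cvv_root hm (fun i _ => by rw [one_pow]; exact h3 _)
    ((pdiva_e2 ψ θ χ).trans h0)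
  have h6 : v (a.eval₂ ψ θ) ≤ 1 := by
    rw [eval₂_eq_sum_range]
    refine v.map_sum_le fun i _ => ?_
    rw [map_mul, map_pow]
    exact mul_le_one' (h4 _) (pow_le_one' h5 i)
  have h7 : v (ψ u) = 1 := by
    obtain ⟨p, q, e⟩ := hu
    refine (h4 u).antisymm (not_lt.1 fun h => ?_)
    have := v.map_add_lt (x := ψ (p * u)) (y := ψ (q * ρ)) (g := 1)
      (by rw [map_mul, map_mul]; exact (mul_le_of_le_one_left' (h4 p)).trans_lt h)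
      (by rw [map_mul, map_mul]; exact (mul_le_of_le_one_left' (h4 q)).trans_lt h2)
    rw [← map_add, e, map_one, map_one] at this
    exact this.false
  rw [eval₂_add, eval₂_mul, eval₂_C, eval₂_C, v.map_add_eq_of_lt_left, h7]
  rw [h7, map_mul]
  exact (mul_le_of_le_one_right' h6).trans_lt h2

/-- The function is `y = G / u * (τ - t) ^ c₀`, `G = u + ρ a`. -/
theorem da_good (hD : DIVp) (h : FFd ψ θ χ) (hm : χ.Monic)
    (hb : C (Ψ ^ r) = α * χ + β * derivative χ) (h0 : Ψ ≠ 0) {M : ℕ} (hM : (M : 𝕜) ≠ 0)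
    (D : Vl E → ℤ) (hf : {v | GoodV (RingHom.id 𝕜) ψ Ψ v ∧ D v ≠ 0}.Finite) :
    ∃ (y : E) (c₀ : ℤ), y ≠ 0 ∧
      (∀ v, GoodV (RingHom.id 𝕜) ψ Ψ v → (M : ℤ) ∣ ord v y - χ.natDegree * D v) ∧
      (∀ v : Vl E, Triv (ψ.comp C) v → v (ψ X) ≤ 1 → v (ψ Ψ) < 1 → v y = 1) ∧
      ∀ v : Vl E, Triv (ψ.comp C) v → 1 < v (ψ X) → ord v y = c₀ * ord v (ψ X) := by
  have hi := ffd_irr h hm
  have hr := ffd_root h
  obtain ⟨c, rfl, hρ, hδ⟩ := kd_cv hm hb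
  have hpt : ∀ v : {v // GoodV (RingHom.id 𝕜) ψ Ψ v}, ∃ Q, c.Gp Q ∧
      ∀ a : 𝕜[X][X], v.1 (a.eval₂ ψ θ) = lv 𝕜 (ZeroCyc.jq c.χ Q a : Ls 𝕜) := by
    rintro ⟨v, t, φ, h1, h2, h3⟩
    obtain ⟨y, h4, h5⟩ := kd_pt h hm hb (t := t) h1 h2
    refine ⟨(t, y), ⟨h4.1, ?_⟩, fun a => (h3 _).trans (congrArg _ (h5 a))⟩
    rw [hρ, eval_pow]
    exact pow_ne_zero _ h1
  choose pt hg hv using hpt
  have hinj : Function.Injective pt := fun v w e => Subtype.ext <| Valuation.ext fun f => by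
    obtain ⟨a, b, -, rfl⟩ := h.frac f
    rw [map_div₀, map_div₀, hv, hv, hv, hv, e]
  have hval : ∀ v {m G}, ZeroCyc.Lead c.b m G →
      v.1 (G.eval₂ ψ θ) = WithZero.exp (-ZeroCyc.dv c.χ G (pt v)) := fun v m G hG => by
    rw [hv, pdiva_lv (hG.jq_ne c.wt (hg v).et), hG.dv_apply c.wt, if_pos (hg v).et]
    rfl
  rcases isEmpty_or_nonempty {v // GoodV (RingHom.id 𝕜) ψ Ψ v} with hE | ⟨⟨v₀⟩⟩
  · exact ⟨1, 0, one_ne_zero, fun v hv => hE.elim ⟨v, hv⟩, fun v _ _ _ => map_one v,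
      fun v _ _ => by rw [ord_one_v, zero_mul]⟩
  have hne : ∀ {m G}, ZeroCyc.Lead c.b m G → G.eval₂ ψ θ ≠ 0 := fun hG e =>
    WithZero.exp_ne_zero ((hval v₀ hG).symm.trans (by rw [e, map_zero]))
  let D₀ : {v // GoodV (RingHom.id 𝕜) ψ Ψ v} →₀ ℤ := Finsupp.ofSupportFinite (fun v => D v.1)
    ((hf.preimage Subtype.val_injective.injOn).subset fun v hv => ⟨v.2, hv⟩)
  have hD' : ZeroCyc.psh pt D₀ ∈ c.Dv := fun Q hQ => by
    obtain ⟨v, -, rfl⟩ := ZeroCyc.psh_ne_zero hQ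
    exact hg v
  obtain ⟨t, ht⟩ : ∃ t, Ψ.eval t ≠ 0 := by
    by_contra! e
    exact h0 (Polynomial.funext fun t => (e t).trans eval_zero.symm)
  have hu₁ := monic_X_sub_C t
  have hc₁ : IsCoprime (X - C t) c.ρ := ZeroCyc.Cv.cop_iff.2 fun s hs => by
    rw [eval_sub, eval_X, eval_C, sub_eq_zero] at hs
    rw [hs, hρ, eval_pow]
    exact pow_ne_zero _ ht
  obtain ⟨D₃, -, h3⟩ := hD 𝕜 c hi (c.δ • ZeroCyc.psh pt D₀ -
      (ZeroCyc.psh pt D₀).degree • ZeroCyc.dv c.χ (C (X - C t)))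
    (sub_mem (nsmul_mem hD' _) (zsmul_mem (ZeroCyc.Cv.dv_C_mem hu₁ hc₁) _)) (by
      rw [map_sub, map_nsmul, map_zsmul, ZeroCyc.Cv.degree_dv_C hu₁ hc₁, natDegree_X_sub_C]
      simp [mul_comm]) M hM
  obtain ⟨u, a, hw, -, h4⟩ := ZeroCyc.Cv.mem_PP.1 h3
  have l1 := hw.lead
  have l2 := ZeroCyc.lead_C (b := c.b) hw.monic
  have l3 := ZeroCyc.lead_C (b := c.b) hu₁
  refine ⟨(c.G u a).eval₂ ψ θ / (C u).eval₂ ψ θ *
    (C (X - C t)).eval₂ ψ θ ^ (ZeroCyc.psh pt D₀).degree, (ZeroCyc.psh pt D₀).degree,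
    mul_ne_zero (div_ne_zero (hne l1) (hne l2)) (zpow_ne_zero _ (hne l3)), fun v hv => ?_,
    fun v v1 v2 v3 => ?_, fun v v1 v2 => ?_⟩
  · have h5 := DFunLike.congr_fun h4 (pt ⟨v, hv⟩)
    simp only [Finsupp.sub_apply, Finsupp.smul_apply, ZeroCyc.psh_apply_inj hinj, nsmul_eq_mul,
      smul_eq_mul] at h5
    refine ⟨-D₃ (pt ⟨v, hv⟩), ?_⟩
    rw [ord, map_mul, map_div₀, map_zpow₀, hval ⟨v, hv⟩ l1, hval ⟨v, hv⟩ l2, hval ⟨v, hv⟩ l3,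
      ← WithZero.exp_sub, ← WithZero.exp_zsmul, ← WithZero.exp_add, WithZero.log_exp, ← hδ,
      smul_eq_mul, show D v = D₀ ⟨v, hv⟩ from rfl]
    linear_combination -h5
  · have v4 : v (ψ c.ρ) < 1 := by
      rw [hρ, map_pow, map_pow]
      exact pow_lt_one' v3 r.succ_ne_zero
    have v5 := pdiva_fin hm hr v1 v2 v4 hw.cop 0
    have v6 := pdiva_fin hm hr v1 v2 v4 hc₁ 0
    rw [mul_zero, add_zero] at v5 v6
    rw [map_mul, map_div₀, map_zpow₀, v5, v6, ZeroCyc.Cv.G, pdiva_fin hm hr v1 v2 v4 hw.cop a]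
    simp
  · rw [ord, map_mul, map_div₀, map_zpow₀, da_inf c.wt hr v1 v2 l1, da_inf c.wt hr v1 v2 l2,
      da_inf c.wt hr v1 v2 l3, div_self (pow_ne_zero _ (zero_lt_one.trans v2).ne'), one_mul,
      natDegree_X_sub_C, pow_one, WithZero.log_zpow, ord, smul_eq_mul, mul_neg]

end Pool.Agent.ZCy.F.Kp
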