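import Pool.Agent.Lib.MP_751085_ag.ZF.K.Ffd
import Pool.Agent.Lib.MP_751085_ag.ZF.G.Desc

/-! Geometrically irreducible curves. -/

namespace Pool.Agent.ZCy.F.Kp

open Pool.Agent.ZFy Pool.Agent.ZFy.GM
open scoped Classical WithZero IntermediateField
open Polynomial groupCohomology

set_option linter.unusedSectionVars false

variable {K K' E : Type} [Field K] [Field K'] [Field E] {χ : K[X][X]}

theorem pgp_pos {A : Type} [CommRing A] {q : A[X]} (hm : q.Monic) (hi : Irreducible q) :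
    0 < q.natDegree :=
  Nat.pos_of_ne_zero fun e => hi.ne_one (hm.natDegree_eq_zero.1 e)

theorem pgp_mm {T : Type} [Field T] (γ : K →+* K') (δ : K' →+* T) :
    (χ.map (mapRingHom γ)).map (mapRingHom δ) = χ.map (mapRingHom (δ.comp γ)) := by
  rw [Polynomial.map_map, mapRingHom_comp]

theorem pgp_bez {ρ : K[X]} {α β : K[X][X]} {A : Type} [CommRing A] (f : K[X] →+* A)
    (hb : C ρ = α * χ + β * derivative χ) :
    C (f ρ) = α.map f * χ.map f + β.map f * derivative (χ.map f) := by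
  rw [← map_C, hb, Polynomial.map_add, Polynomial.map_mul, Polynomial.map_mul, derivative_map]

theorem pgp_spl {T : Type} [Field T] {γ : K →+* K'} (δ : K' →+* T)
    (hs : (χ.map ((tL K').comp (mapRingHom γ))).Splits) :
    (χ.map ((tL T).comp (mapRingHom (δ.comp γ)))).Splits := by
  have h := hs.map (lm δ)
  rwa [Polynomial.map_map, show (lm δ).comp ((tL K').comp (mapRingHom γ)) =
    (tL T).comp (mapRingHom (δ.comp γ)) from RingHom.ext fun p =>
      (kl_lm_tM δ _).trans (congrArg _ (Polynomial.map_map _ _ _))] at h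

theorem pgp_emb (hm : χ.Monic) (h0 : 0 < χ.natDegree) {ψ : K[X] →+* E} {θ : E} (hf : FFd ψ θ χ)
    {L : Type} [Field L] {b : K[X] →+* L} (hb : Function.Injective b) (hs : (χ.map b).Splits) :
    ∃ j : E →+* L, ∀ p, j (ψ p) = b p := by
  obtain ⟨z, hz⟩ := hs.exists_eval_eq_zero (by
    rw [hm.degree_map]
    exact (natDegree_pos_iff_degree_pos.1 h0).ne')
  obtain ⟨j, hj, -⟩ := ffd_hom hf hm hb (by rwa [eval_map] at hz)
  exact ⟨j, hj⟩

theorem pgp_desc {T : Type} [Field T] (hm : χ.Monic) {ρ : K[X]} {α β : K[X][X]} (h0 : ρ ≠ 0)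
    (hb : C ρ = α * χ + β * derivative χ) {γ : K →+* K'} (hi : Irreducible (χ.map (mapRingHom γ)))
    (hs : (χ.map ((tL K').comp (mapRingHom γ))).Splits) (δ : K' →+* T) :
    Irreducible (χ.map (mapRingHom (δ.comp γ))) := by
  have hm' := hm.map (mapRingHom γ)
  obtain ⟨E, _, ψ, θ, hf⟩ := ffd_ex hm' hi
  obtain ⟨j, hj⟩ := pgp_emb hm' (pgp_pos hm' hi) hf (kl_tM_inj one_pos)
    (by rwa [Polynomial.map_map])
  rw [← pgp_mm]
  exact (ffd_etl hf hm' (Polynomial.map_ne_zero h0) (pgp_bez (mapRingHom γ) hb)).desc δ hj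

theorem _root_.Pool.Agent.ZFy.GP.pos (h : GP χ) : 0 < χ.natDegree :=
  (pgp_pos (h.monic.map _) h.irr).trans_le natDegree_map_le

theorem _root_.Pool.Agent.ZFy.GP.splits (h : GP χ) [IsSepClosed K'] (γ : K →+* K') :
    ((χ.map (mapRingHom γ)).map (tL K')).Splits := by
  let := γ.toAlgebra
  let δ : Ks K →ₐ[K] K' := IsSepClosed.lift
  have := pgp_spl δ.toRingHom h.spl
  rwa [show δ.toRingHom.comp (algebraMap K (Ks K)) = γ from δ.comp_algebraMap,
    ← Polynomial.map_map] at this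

theorem _root_.Pool.Agent.ZFy.GP.irr' (h : GP χ) (γ : K →+* K') :
    Irreducible (χ.map (mapRingHom γ)) := by
  obtain ⟨ρ, α, β, h0, hb⟩ := h.bez
  let := ((algebraMap K' (Kb K')).comp γ).toAlgebra
  let δ : Kb K →ₐ[K] Kb K' := IsAlgClosed.lift
  have := pgp_desc h.monic h0 hb h.irr (by rw [← Polynomial.map_map]; exact h.splits _) δ.toRingHom
  rw [show δ.toRingHom.comp (algebraMap K (Kb K)) = (algebraMap K' (Kb K')).comp γ from
    δ.comp_algebraMap, ← pgp_mm] at this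
  exact (h.monic.map _).irreducible_of_irreducible_map _ _ this

theorem _root_.Pool.Agent.ZFy.GP.map (h : GP χ) (γ : K →+* K') : GP (χ.map (mapRingHom γ)) := by
  obtain ⟨ρ, α, β, h0, hb⟩ := h.bez
  refine ⟨h.monic.map _, ⟨_, _, _, Polynomial.map_ne_zero h0, pgp_bez (mapRingHom γ) hb⟩, ?_, ?_⟩
  · rw [pgp_mm]
    exact h.irr' _
  · rw [← Polynomial.map_map, pgp_mm]
    exact h.splits _

theorem _root_.Pool.Agent.ZFy.GP.etl (h : GP χ) {ψ : K[X] →+* E} {θ : E} (hf : FFd ψ θ χ) :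
    ∃ D, Etl ψ θ χ D := by
  obtain ⟨ρ, α, β, h0, hb⟩ := h.bez
  exact ⟨ρ, ffd_etl hf h.monic h0 hb⟩

theorem _root_.Pool.Agent.ZFy.GP.sep (h : GP χ) {ψ : K[X] →+* E} (hψ : Function.Injective ψ) :
    (χ.map ψ).Separable := by
  obtain ⟨ρ, α, β, h0, hb⟩ := h.bez
  refine ⟨C (ψ ρ)⁻¹ * α.map ψ, C (ψ ρ)⁻¹ * β.map ψ, ?_⟩
  rw [mul_assoc, mul_assoc, ← mul_add, ← pgp_bez ψ hb, ← C_mul,
    inv_mul_cancel₀ ((map_ne_zero_iff ψ hψ).2 h0), C_1]

/-- an embedding at a point at infinity -/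
theorem _root_.Pool.Agent.ZFy.GP.emb (h : GP χ) {ψ : K[X] →+* E} {θ : E} (hf : FFd ψ θ χ)
    (γ : K →+* K') (hs : (χ.map ((tL K').comp (mapRingHom γ))).Splits) :
    ∃ j : E →+* Ls K', ∀ p, j (ψ p) = tL K' (p.map γ) :=
  pgp_emb h.monic h.pos hf (fun _ _ e => map_injective γ γ.injective (kl_tM_inj one_pos e)) hs

/-- The converse: an irreducible curve with a point at infinity over `K'`. -/
theorem gp_of [Algebra K K'] [Algebra.IsSeparable K K'] (hm : χ.Monic) {ρ : K[X]} {α β : K[X][X]}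
    (h0 : ρ ≠ 0) (hb : C ρ = α * χ + β * derivative χ)
    (hi : Irreducible (χ.map (mapRingHom (algebraMap K K'))))
    (hs : (χ.map ((tL K').comp (mapRingHom (algebraMap K K')))).Splits) : GP χ := by
  let δ : K' →ₐ[K] Kb K := IsAlgClosed.lift
  let δ' : K' →ₐ[K] Ks K := IsSepClosed.lift
  refine ⟨hm, ⟨ρ, α, β, h0, hb⟩, ?_, ?_⟩
  · rw [← δ.comp_algebraMap]
    exact pgp_desc hm h0 hb hi hs _
  · rw [← δ'.comp_algebraMap]
    exact pgp_spl _ hs

end Pool.Agent.ZCy.F.Kp
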