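import Pool.Agent.Lib.MP_751085_ag.ZF.K.Ffd
import Pool.Agent.Lib.MP_751085_ag.ZC.K.DivB
import Pool.Agent.Lib.MP_751085_ag.ZC.K.Val
import Pool.Agent.Lib.MP_751085_ag.ZC.V.Ctr

/-! Good places are given by expansions. -/

namespace Pool.Agent.ZCy.F.Kp

open Pool.Agent.ZFy Pool.Agent.ZFy.GM
open scoped Classical WithZero IntermediateField
open Polynomial groupCohomology

set_option linter.unusedSectionVars false

variable {𝕜 E : Type} [Field 𝕜] [IsAlgClosed 𝕜] [Field E] {ψ : 𝕜[X] →+* E} {θ : E}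
  {χ α β : 𝕜[X][X]} {Ψ : 𝕜[X]} {r : ℕ}

omit [IsAlgClosed 𝕜] in
theorem good_plc {v : Vl E} (hv : GoodV (RingHom.id 𝕜) ψ Ψ v) :
    Plc (ψ.comp C) v ∧ v (ψ X) ≤ 1 ∧ v (ψ Ψ) = 1 := by
  obtain ⟨t, φ, h1, h2, h3⟩ := hv
  have e : ∀ p, v (ψ p) = lv 𝕜 (tA t p) := fun p => by rw [h3, h2, Polynomial.map_id]
  have h0 : Ψ ≠ 0 := fun h => h1 (by rw [h, eval₂_zero])
  refine ⟨⟨⟨ψ (X - C t), by rw [e, klaub_X, klaub_single]⟩, fun a ha => ?_⟩,
    e _ ▸ klaub_le t X, ?_⟩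
  · rw [RingHom.comp_apply, e, kl_tA_C, kl_lv_hc ha]
  · rw [e, kl_lv (kl_order_tA t h0).1, (kl_order_tA t h0).2, rootMultiplicity_eq_zero h1]
    rfl

omit [IsAlgClosed 𝕜] in
theorem ppl3_dec {t y : 𝕜} {a : 𝕜[X][X]} (h : ZeroCyc.ee (t, y) a = 0) :
    ∃ b c, b * C (X - C t) + c * (X - C (C y)) = a :=
  Ideal.mem_span_pair.1 (mem_span_C_X_sub_C_X_sub_C_iff_eval_eval_eq_zero.2
    ((map_evalRingHom_eval t y a).symm.trans ((ZeroCyc.ee_eq_eval (t, y) a).symm.trans h)))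

omit [IsAlgClosed 𝕜] in
theorem ppl3_le (h : FFd ψ θ χ) (hm : χ.Monic) {v : Vl E} (hv : Triv (ψ.comp C) v)
    (h1 : v (ψ X) ≤ 1) (a : 𝕜[X][X]) : v (a.eval₂ ψ θ) ≤ 1 := by
  have h2 : ∀ p, v (ψ p) ≤ 1 := fun p => by
    induction p using Polynomial.induction_on' with
    | add p q hp hq => rw [map_add]; exact v.map_add_le hp hq
    | monomial n c =>
      rw [← C_mul_X_pow_eq_monomial, map_mul, map_mul, map_pow, map_pow]
      refine mul_le_one' ?_ (pow_le_one' h1 n)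
      rcases eq_or_ne c 0 with rfl | hc
      · simp
      · exact (hv c hc).le
  rw [eval₂_eq_sum_range]
  refine v.map_sum_le fun i _ => ?_
  rw [map_mul, map_pow]
  exact mul_le_one' (h2 _) (pow_le_one' (kval_int h2 ⟨χ, hm, ffd_root h⟩) i)

omit [IsAlgClosed 𝕜] in
theorem ppl3_lt {v : Vl E} (hv : Triv (ψ.comp C) v) (h1 : ∀ a : 𝕜[X][X], v (a.eval₂ ψ θ) ≤ 1)
    {t y : 𝕜} (ht : v (ψ (X - C t)) < 1) (hy : v (θ - ψ (C y)) < 1) (a : 𝕜[X][X]) :
    v (a.eval₂ ψ θ) < 1 ↔ ZeroCyc.ee (t, y) a = 0 := by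
  have key : ∀ a : 𝕜[X][X], ZeroCyc.ee (t, y) a = 0 → v (a.eval₂ ψ θ) < 1 := fun a h => by
    obtain ⟨b, c, rfl⟩ := ppl3_dec h
    rw [eval₂_add, eval₂_mul, eval₂_mul, eval₂_C, eval₂_sub, eval₂_X, eval₂_C]
    refine v.map_add_lt ?_ ?_ <;> rw [map_mul]
    exacts [(mul_le_of_le_one_left' (h1 b)).trans_lt ht, (mul_le_of_le_one_left' (h1 c)).trans_lt hy]
  refine ⟨fun h => by_contra fun h0 => ?_, key a⟩
  have h2 := v.map_sub_lt h (key (a - C (C (ZeroCyc.ee (t, y) a)))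
    (by rw [map_sub, ZeroCyc.ee_C, eval_C, sub_self]))
  rw [eval₂_sub, eval₂_C, sub_sub_cancel] at h2
  exact h2.ne (hv _ h0)

theorem ppl3_prod {v : Vl E} {c : 𝕜 →+* E} (hv : Triv c v) {x : E}
    (h : ∀ a, v (x - c a) = 1) {p : 𝕜[X]} (hp : p ≠ 0) : v (p.eval₂ c x) = 1 := by
  rw [(IsAlgClosed.splits p).eq_prod_roots, eval₂_mul, eval₂_C, map_mul,
    hv _ (leadingCoeff_ne_zero.2 hp), one_mul, eval₂_multiset_prod, map_multiset_prod]
  refine Multiset.prod_eq_one fun z hz => ?_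
  simp only [Multiset.map_map, Multiset.mem_map, Function.comp_apply] at hz
  obtain ⟨a, -, rfl⟩ := hz
  rw [eval₂_sub, eval₂_X, eval₂_C, h]

/-- the centre -/
theorem pl_cen (h : FFd ψ θ χ) (hm : χ.Monic) {v : Vl E} (hv : Plc (ψ.comp C) v)
    (h1 : v (ψ X) ≤ 1) : ∃ t y : 𝕜, ∀ a : 𝕜[X][X], v (a.eval₂ ψ θ) ≤ 1 ∧
      (v (a.eval₂ ψ θ) < 1 ↔ ZeroCyc.ee (t, y) a = 0) := by
  have h2 := ppl3_le h hm hv.2 h1
  obtain ⟨t, ht⟩ : ∃ t, v (ψ (X - C t)) < 1 := by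
    by_contra! hn
    have h3 : ∀ u : 𝕜[X], u ≠ 0 → v (ψ u) = 1 := fun u hu => by
      have := ppl3_prod hv.2 (x := ψ X) (fun a => by
        have h4 := h2 (C (X - C a))
        rw [eval₂_C] at h4
        exact map_sub ψ X (C a) ▸ h4.antisymm (hn a)) hu
      rwa [← hom_eval₂, eval₂_C_X] at this
    have h4 : ∀ a : 𝕜[X][X], a.eval₂ ψ θ ≠ 0 → v (a.eval₂ ψ θ) = 1 := fun a ha => by
      obtain ⟨u, α, β, hu, e⟩ := kl_bez hm (ffd_irr h hm) fun hd => ha ((h.ker a).2 hd)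
      have := congrArg (fun g => v (eval₂ ψ θ g)) e
      simp only [eval₂_C, eval₂_add, eval₂_mul, ffd_root h, mul_zero, zero_add, h3 u hu,
        map_mul] at this
      exact (h2 a).antisymm (this ▸ mul_le_of_le_one_left' (h2 β))
    obtain ⟨π, hπ⟩ := hv.1
    obtain ⟨a, b, hb, rfl⟩ := h.frac π
    have ha : a.eval₂ ψ θ ≠ 0 := fun e => by
      rw [e, zero_div, map_zero] at hπ
      exact WithZero.exp_ne_zero hπ.symm
    rw [map_div₀, h4 a ha, h4 b hb, div_one, ← WithZero.exp_zero, WithZero.exp_inj] at hπ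
    omega
  obtain ⟨y, hy⟩ : ∃ y, v (θ - ψ (C y)) < 1 := by
    by_contra! hn
    have h3 := ppl3_prod hv.2 (x := θ) (fun a => by
      have h4 := h2 (X - C (C a))
      rw [eval₂_sub, eval₂_X, eval₂_C] at h4
      exact h4.antisymm (hn a)) (hm.map (evalRingHom t)).ne_zero
    obtain ⟨c, hc⟩ : C (X - C t) ∣ χ - (χ.map (evalRingHom t)).map C :=
      (C_dvd_iff_dvd_coeff _ _).2 fun i => by
        rw [coeff_sub, coeff_map, coeff_map]
        exact X_sub_C_dvd_sub_C_eval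
    have h4 := congrArg (fun g => v (eval₂ ψ θ g)) hc
    simp only [eval₂_sub, ffd_root h, zero_sub, v.map_neg, eval₂_mul, eval₂_C, map_mul] at h4
    rw [eval₂_map, h3] at h4
    exact ((mul_le_of_le_one_right' (h2 c)).trans_lt ht).ne h4.symm
  exact ⟨t, y, fun a => ⟨h2 a, ppl3_lt hv.2 h2 ht hy a⟩⟩

/-- at an etale point `τ - t` is a uniformiser -/
theorem pl_good (h : FFd ψ θ χ) (hm : χ.Monic) (hb : C (Ψ ^ r) = α * χ + β * derivative χ)
    {v : Vl E} (hv : Plc (ψ.comp C) v) (h1 : v (ψ X) ≤ 1) (h2 : v (ψ Ψ) = 1) :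
    GoodV (RingHom.id 𝕜) ψ Ψ v := by
  obtain ⟨t, y, H⟩ := pl_cen h hm hv h1
  have h3 : ZeroCyc.ee (t, y) χ = 0 := (H χ).2.1 (by rw [ffd_root h, map_zero]; exact zero_lt_one)
  have h4 : Ψ.eval t ≠ 0 := fun e => by
    have := (H (C Ψ)).2.2 ((ZeroCyc.ee_C _ _).trans e)
    rw [eval₂_C] at this
    exact this.ne h2
  have hE : ZeroCyc.Et χ (t, y) := ⟨h3, fun h5 => by
    have e := congrArg (ZeroCyc.ee (t, y)) hb
    rw [map_add, map_mul, map_mul, h3, h5, mul_zero, mul_zero, add_zero, ZeroCyc.ee_C,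
      eval_pow] at e
    exact pow_ne_zero r h4 e⟩
  obtain ⟨φ, hφ⟩ := kd_exp h hm (ffd_irr h hm) hE
  have hx : Exp (RingHom.id 𝕜) ψ t φ := fun p => by
    have := hφ (C p)
    rw [eval₂_C, ZeroCyc.cvh_jq, eval₂_C, ← kd_tA] at this
    rwa [Polynomial.map_id]
  let w : Vl E := (lv 𝕜).comap φ
  obtain ⟨a1, a2, -⟩ := good_plc (Ψ := Ψ) (v := w) ⟨t, φ, h4, hx, fun _ => rfl⟩
  have a3 : w (ψ (X - C t)) = WithZero.exp (-1) := by
    change lv 𝕜 (φ _) = _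
    rw [hx, Polynomial.map_id, klaub_X, klaub_single]
  have a4 : WithZero.exp (-1 : ℤ) < 1 := klaub_single (F := 𝕜) ▸ klaub_lt
  have a5 := ppl3_le h hm a1.2 a2
  have a6 := ppl3_lt a1.2 a5 (a3.trans_lt a4) (y := y) (by
    have := hφ (X - C (C y))
    rw [eval₂_sub, eval₂_X, eval₂_C] at this
    change lv 𝕜 (φ _) < 1
    rw [this]
    refine ((LaurentSeries.intValuation_le_iff_coeff_lt_eq_zero 𝕜 _ (d := 1)).2
      fun n hn => ?_).trans_lt a4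
    rw [Nat.lt_one_iff.1 hn, PowerSeries.coeff_zero_eq_constantCoeff, ZeroCyc.constantCoeff_jq hm hE,
      map_sub, ZeroCyc.ee_X, ZeroCyc.ee_C, eval_C, sub_self])
  obtain ⟨b₀, c₀, e₀⟩ := ppl3_dec h3
  have hc : ZeroCyc.ee (t, y) c₀ ≠ 0 := fun e => hE.2 (by
    rw [← e₀]
    simp [e, ZeroCyc.ee_C, ZeroCyc.ee_X])
  have key : ∀ (m : ℕ) (a : 𝕜[X][X]), w (a.eval₂ ψ θ) = WithZero.exp (-m : ℤ) →
      v (a.eval₂ ψ θ) = v (ψ (X - C t)) ^ m := fun m => by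
    induction m with
    | zero =>
      exact fun a ha => ((H a).1.antisymm
        (not_lt.1 fun e => ((a6 a).2 ((H a).2.1 e)).ne ha)).trans (pow_zero _).symm
    | succ m ih =>
      intro a ha
      obtain ⟨b, c, rfl⟩ := ppl3_dec ((a6 a).1 (by
        rw [ha, ← WithZero.exp_zero, WithZero.exp_lt_exp]
        omega))
      have e : (b * C (X - C t) + c * (X - C (C y))).eval₂ ψ θ * c₀.eval₂ ψ θ =
          ψ (X - C t) * (b * c₀ - c * b₀).eval₂ ψ θ := by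
        have := ffd_root h
        rw [← e₀] at this
        simp only [eval₂_add, eval₂_mul, eval₂_sub, eval₂_C, eval₂_X] at this ⊢
        linear_combination eval₂ ψ θ c * this
      have e1 := congrArg w e
      have e2 := congrArg v e
      rw [map_mul, map_mul, (a5 c₀).antisymm (not_lt.1 fun e => hc ((a6 _).1 e)), mul_one, ha, a3,
        ← inv_mul_eq_iff_eq_mul₀ WithZero.exp_ne_zero, ← WithZero.exp_neg, ← WithZero.exp_add] at e1
      rw [map_mul, map_mul, (H c₀).1.antisymm (not_lt.1 fun e => hc ((H _).2.1 e)), mul_one] at e2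
      rw [e2, ih _ (e1.symm.trans (by congr 1; push_cast; ring)), pow_succ']
  have ex : ∀ a : 𝕜[X][X], a.eval₂ ψ θ ≠ 0 → ∃ m : ℕ, w (a.eval₂ ψ θ) = WithZero.exp (-m : ℤ) :=
    fun a ha => by
      have e := WithZero.exp_log ((map_ne_zero w).2 ha)
      have e1 := a5 a
      rw [← e, ← WithZero.exp_zero, WithZero.exp_le_exp] at e1
      exact ⟨(-WithZero.log (w (a.eval₂ ψ θ))).toNat, e.symm.trans (by congr 1; omega)⟩
  have hu : v (ψ (X - C t)) = WithZero.exp (-1) := by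
    have e := WithZero.exp_log ((map_ne_zero v).2 fun e : ψ (X - C t) = 0 =>
      WithZero.exp_ne_zero (by rw [← a3, e, map_zero]))
    have e1 := (H (C (X - C t))).2.2 (by simp [ZeroCyc.ee_C])
    obtain ⟨π, hπ⟩ := hv.1
    obtain ⟨a, b, hb, rfl⟩ := h.frac π
    obtain ⟨m, h5⟩ := ex a fun e => by
      rw [e, zero_div, map_zero] at hπ
      exact WithZero.exp_ne_zero hπ.symm
    obtain ⟨n, h6⟩ := ex b hb
    rw [eval₂_C, ← e, ← WithZero.exp_zero, WithZero.exp_lt_exp] at e1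
    rw [map_div₀, key m a h5, key n b h6, ← e, ← WithZero.exp_nsmul, ← WithZero.exp_nsmul,
      ← WithZero.exp_sub, WithZero.exp_inj, nsmul_eq_mul, nsmul_eq_mul, ← sub_mul] at hπ
    rw [← e, (Int.eq_one_or_neg_one_of_mul_eq_neg_one' hπ).elim (·.2) fun h7 => by omega]
  have fin : ∀ a : 𝕜[X][X], v (a.eval₂ ψ θ) = w (a.eval₂ ψ θ) := fun a => by
    rcases eq_or_ne (a.eval₂ ψ θ) 0 with e | e
    · rw [e, map_zero, map_zero]
    obtain ⟨m, h5⟩ := ex a e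
    rw [key m a h5, h5, hu, ← WithZero.exp_nsmul, nsmul_eq_mul, mul_neg, mul_one]
  refine ⟨t, φ, h4, hx, fun x => ?_⟩
  obtain ⟨a, b, -, rfl⟩ := h.frac x
  rw [map_div₀, fin, fin, ← map_div₀]
  rfl

end Pool.Agent.ZCy.F.Kp
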