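import Pool.Agent.Lib.MP_751085_ag.ZF.K.Ffd
import Pool.Agent.Lib.MP_751085_ag.ZC.V.Ctr
import Pool.Agent.Lib.MP_751085_ag.ZC.V.HarB
import Pool.Agent.Lib.MP_751085_ag.ZF.G.Rev

/-! Zeros and poles are finite in number. -/

namespace Pool.Agent.ZCy.F.Kp

open Pool.Agent.ZFy Pool.Agent.ZFy.GM
open scoped Classical WithZero IntermediateField
open Polynomial groupCohomology

set_option linter.unusedSectionVars false

variable {K L E : Type} [Field K] [Field L] [Field E]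

/-- a finite separable extension has finitely many normalised prolongations -/
theorem over_fin [Algebra L E] [FiniteDimensional L E] [Algebra.IsSeparable L E] (v : Vl L) :
    {w : Vl E | Nrm w ∧ Over (algebraMap L E) v w}.Finite := by
  obtain ⟨N, _, _, _, _, _, _, -⟩ := exists_gc L E
  have := Module.Finite.of_restrictScalars_finite L E N
  obtain ⟨u, hu⟩ := exists_over (E := N) v
  refine (Set.finite_iUnion fun g : N ≃ₐ[L] N => Set.Subsingleton.finite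
    (s := {w : Vl E | Nrm w ∧ ∀ x, w x ≤ 1 ↔ u (g (algebraMap E N x)) ≤ 1}) fun w h w' h' =>
      h'.1.eq_of_iff h.1 fun x => (h.2 x).trans (h'.2 x).symm).subset fun w hw => ?_
  obtain ⟨u', hu'⟩ := exists_over (E := N) w
  obtain ⟨g, hg⟩ := conj hu (show Over (algebraMap L N) v u' from fun x => by
    rw [IsScalarTower.algebraMap_apply L E N, hu', hw.2])
  exact Set.mem_iUnion.2 ⟨g, hw.1, fun x => (hu' x).symm.trans (hg _)⟩

variable {ψ : K[X] →+* E} {θ : E} {χ : K[X][X]} {D : K[X]}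

theorem cen_fin (h : Etl ψ θ χ D) {P : K[X]} (hP : Prime P) :
    {w : Vl E | Nrm w ∧ Cen ψ w P}.Finite := by
  obtain ⟨_, rfl⟩ := exists_frac h.inj
  have hα := isFr_alg K[X] (Fr K[X])
  obtain ⟨h1, h2, -⟩ := h.alg hα
  obtain ⟨v, hv, -⟩ := exists_vcen hα hP
  exact (over_fin v).subset fun w hw => ⟨hw.1, (hv.over hα hP).1 hw.2⟩

theorem pplfin_zer (h : Etl ψ θ χ D) {p : K[X]} (hp : p ≠ 0) :
    {v : Vl E | Plc (ψ.comp C) v ∧ v (ψ X) ≤ 1 ∧ v (ψ p) < 1}.Finite := by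
  refine ((UniqueFactorizationMonoid.factors p).finite_toSet.biUnion fun q hq =>
    cen_fin h (UniqueFactorizationMonoid.prime_of_factor q hq)).subset fun v ⟨h1, h2, h3⟩ => ?_
  obtain h4 | ⟨P, hP, h4⟩ := cen_poly (Hor.le_one h1.2 h2) h1.2
  · exact absurd (h4 p hp) h3.ne
  · obtain ⟨q, hq, e⟩ := UniqueFactorizationMonoid.exists_mem_factors_of_dvd hp hP.irreducible
      ((h4.2 p).1 h3)
    exact Set.mem_biUnion hq ⟨h1.1, h4.assoc e⟩

theorem inf_fin (h : Etl ψ θ χ D) : {v : Vl E | Plc (ψ.comp C) v ∧ 1 < v (ψ X)}.Finite := by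
  obtain ⟨_, _, _, -, h'⟩ := h.rvs
  refine (pplfin_zer h' X_ne_zero).subset fun v ⟨h1, h2⟩ => ?_
  have h3 : v (rvs ψ X) < 1 := by
    rw [rvs_X, map_inv₀]
    exact inv_lt_one_of_one_lt₀ h2
  exact ⟨⟨h1.1, hor_rvs.2 h1.2⟩, h3.le, h3⟩

theorem zer_fin (h : Etl ψ θ χ D) {p : K[X]} (hp : p ≠ 0) :
    {v : Vl E | Plc (ψ.comp C) v ∧ v (ψ X) ≤ 1 ∧ v (ψ p) < 1}.Finite := pplfin_zer h hp

theorem pplfin_pol (h : Etl ψ θ χ D) (u : E) :
    {v : Vl E | Plc (ψ.comp C) v ∧ 1 < v u}.Finite := by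
  obtain ⟨G, hG, h0⟩ := ffd_alg (etl_ffd h) h.monic u
  refine ((inf_fin h).union (zer_fin h (leadingCoeff_ne_zero.2 hG))).subset fun v ⟨h1, h2⟩ => ?_
  refine (lt_or_ge 1 (v (ψ X))).imp (fun h3 => ⟨h1, h3⟩) fun h3 => ⟨h1, h3, ?_⟩
  have h4 := Hor.le_one h1.2 h3
  refine (h4 _).lt_of_ne fun e => h2.not_ge ?_
  have h5 := le_one_of_int h4 (ψ.isIntegralElem_leadingCoeff_mul G u h0)
  rwa [map_mul, e, one_mul] at h5

theorem plc_fin (h : Etl ψ θ χ D) (u : E) :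
    {v : Vl E | Plc (ψ.comp C) v ∧ ord v u ≠ 0}.Finite := by
  refine ((pplfin_pol h u).union (pplfin_pol h u⁻¹)).subset fun v ⟨h1, h2⟩ => ?_
  have h0 : u ≠ 0 := fun e => h2 (e ▸ ord_zero v)
  refine (lt_or_gt_of_ne (mt (ord_eq_zero_v v h0).2 h2)).symm.imp (fun h3 => ⟨h1, h3⟩)
    fun h3 => ⟨h1, ?_⟩
  rw [map_inv₀]
  exact (one_lt_inv₀ (v.pos_iff.2 h0)).2 h3

end Pool.Agent.ZCy.F.Kp
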