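import Pool.Agent.Lib.MP_751085_ag.ZF.K.KDf2
import Pool.Agent.Lib.MP_751085_ag.ZF.G.Kind

/-! Purely inseparable extensions. -/

namespace Pool.Agent.ZCy.F.Kp

open Pool.Agent.ZFy Pool.Agent.ZFy.GM
open scoped Classical WithZero IntermediateField
open Polynomial groupCohomology

set_option linter.unusedSectionVars false

variable {K K' E E' : Type} [Field K] [Field K'] [Field E] [Field E']

theorem pi_cop {m : ℕ} (hm : (m : K) ≠ 0) (n : ℕ) : (ringExpChar K ^ n).Coprime m := by
  refine Nat.Coprime.pow_left n ?_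
  have h : ExpChar K (ringExpChar K) := inferInstance
  generalize ringExpChar K = q at h
  cases h with
  | zero => exact Nat.coprime_one_left m
  | prime hq => exact hq.coprime_iff_not_dvd.2 fun u => hm ((CharP.cast_eq_zero_iff K q m).2 u)

/-- `pow_of_coprime` -/
theorem pi_root {i : E →+* E'} (hi : PI i) {m : ℕ} (hm : (m : E) ≠ 0) {x : E} {z : E'}
    (h : i x = z ^ m) : ∃ y, x = y ^ m := by
  obtain ⟨n, y, hy⟩ := hi z
  exact pow_of_coprime (pi_cop hm n) (y := y)
    (i.injective (by rw [map_pow, map_pow, h, hy, pow_right_comm]))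

/-- an algebraic extension of a separably closed field -/
theorem pi_sep [IsSepClosed K] (γ : K →+* K') (h : ∀ y, γ.IsIntegralElem y) : PI γ := by
  let := γ.toAlgebra
  have : Algebra.IsIntegral K K' := ⟨h⟩
  exact fun y => IsPurelyInseparable.pow_mem K (ringExpChar K) y

theorem pi_ks (K : Type) [Field K] : PI (algebraMap (Ks K) (Kb K)) :=
  pi_sep _ fun y => (Algebra.IsIntegral.isIntegral (R := K) y).tower_top

theorem PI.int {γ : K →+* K'} (h : PI γ) (y : K') : γ.IsIntegralElem y := by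
  obtain ⟨n, a, ha⟩ := h y
  exact ⟨X ^ ringExpChar K ^ n - C a, monic_X_pow_sub_C a (expChar_pow_pos K _ n).ne',
    by simp [ha]⟩

/-- the elements with a power in the range form a subfield (`iterateFrobenius`) -/
theorem pi_clo {i : E →+* E'} {S : Set E'} (hS : Subfield.closure S = ⊤)
    (h : ∀ y ∈ S, ∃ n : ℕ, y ^ ringExpChar E ^ n ∈ i.range) : PI i := by
  let := i.toAlgebra
  exact fun y => (Subfield.closure_le (t := (perfectClosure E E').toSubfield)).2 h
    (hS ▸ Subfield.mem_top y)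

/-- `pi_clo` with the generators `θ`, `ψ' X`, `ψ' (C a)` -/
theorem ffd_pi {ψ : K[X] →+* E} {ψ' : K'[X] →+* E'} {θ : E} {χ' : K'[X][X]} {i : E →+* E'}
    {γ : K →+* K'} (h' : FFd ψ' (i θ) χ') (hc : ∀ p, i (ψ p) = ψ' (p.map γ)) (hγ : PI γ) :
    PI i := by
  let := i.toAlgebra
  have hq : ringExpChar E = ringExpChar K :=
    @ringExpChar.eq E _ _ (expChar_of_injective_ringHom (ψ.comp C).injective _)
  have h1 : ∀ p, ψ' p ∈ perfectClosure E E' := fun p => by
    induction p using Polynomial.induction_on with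
    | C a =>
      obtain ⟨n, b, hb⟩ := hγ a
      exact ⟨n, ψ (C b), (hc _).trans (by rw [map_C, hb, map_pow, map_pow, hq])⟩
    | add p q hp hq => exact map_add ψ' p q ▸ add_mem hp hq
    | monomial n a h =>
      rw [pow_succ, ← mul_assoc, map_mul, ← map_X γ, ← hc]
      exact mul_mem (by rwa [map_X]) (IntermediateField.algebraMap_mem _ _)
  have h2 : ∀ a : K'[X][X], a.eval₂ ψ' (i θ) ∈ perfectClosure E E' := fun a => by
    rw [eval₂_eq_sum_range]
    exact sum_mem fun k _ => mul_mem (h1 _) (pow_mem (IntermediateField.algebraMap_mem _ θ) k)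
  intro y
  obtain ⟨a, b, -, rfl⟩ := h'.frac y
  exact div_mem (h2 a) (h2 b)

/-- one exponent for finitely many elements -/
theorem PI.fin {i : E →+* E'} (hi : PI i) {ι : Type} [Finite ι] (y : ι → E') :
    ∃ (n : ℕ) (x : ι → E), ∀ k, i (x k) = y k ^ ringExpChar E ^ n := by
  choose n x hx using fun k => hi (y k)
  obtain ⟨N, hN⟩ := (Set.finite_range n).bddAbove
  refine ⟨N, fun k => x k ^ ringExpChar E ^ (N - n k), fun k => ?_⟩
  rw [map_pow, hx, ← pow_mul, ← pow_add, Nat.add_sub_cancel' (hN ⟨k, rfl⟩)]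

/-- the index is a power of the characteristic: apply `PI` to a uniformiser of `w` -/
theorem PI.idx {i : E →+* E'} (hi : PI i) {v : Vl E} {w : Vl E'} (hw : Nrm w) {e : ℕ}
    (h : Idx i v w e) {m : ℕ} (hm : (m : E) ≠ 0) : e.Coprime m := by
  obtain ⟨t, ht⟩ := hw
  obtain ⟨n, x, hx⟩ := hi t
  have h1 : w (i x) = WithZero.exp (-(ringExpChar E ^ n : ℕ) : ℤ) := by
    rw [hx, map_pow, ht, ← WithZero.exp_nsmul]
    simp
  have h0 : x ≠ 0 := fun u => WithZero.exp_ne_zero (h1.symm.trans (by rw [u, map_zero, map_zero]))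
  have h2 := congrArg WithZero.log (h1.symm.trans (h x h0))
  rw [WithZero.log_exp, WithZero.log_pow, nsmul_eq_mul] at h2
  exact (pi_cop hm n).coprime_dvd_left (Int.natCast_dvd_natCast.1 (dvd_neg.1 ⟨_, h2⟩))

end Pool.Agent.ZCy.F.Kp
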