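import Pool.Agent.Lib.MP_751085_ag.ZF.K.Amv
import Pool.Agent.Lib.MP_751085_ag.ZF.K.Pi
import Pool.Agent.Lib.MP_751085_ag.ZF.K.Ffd
import Pool.Agent.Lib.MP_751085_ag.ZF.K.Cst
import Pool.Agent.Lib.MP_751085_ag.ZC.V.Ctr
import Pool.Agent.Lib.MP_751085_ag.ZF.G.Rev

/-! Places under purely inseparable extensions of the constants. -/

namespace Pool.Agent.ZCy.F.Kp

open Pool.Agent.ZFy Pool.Agent.ZFy.GM
open scoped Classical WithZero IntermediateField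
open Polynomial groupCohomology

set_option linter.unusedSectionVars false

variable {K K' E E' : Type} [Field K] [Field K'] [Field E] [Field E'] {ψ : K[X] →+* E} {θ : E}
  {χ : K[X][X]} {D : K[X]} {ψ' : K'[X] →+* E'} {γ : K →+* K'} {i : E →+* E'}

theorem pplup_fin {L L' : Type} [Field L] [Field L'] {α : K[X] →+* L} {α' : K'[X] →+* L'}
    (hα : IsFr α) (hα' : IsFr α') (γ : K →+* K') {β : L →+* L'}
    (hβ : ∀ p, β (α p) = α' (p.map γ)) {v : Vl L} (hv : Hor α v) (hX : v (α X) ≤ 1) :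
    ∃ v' : Vl L', Hor α' v' ∧ Over β v v' := by
  rcases cen_poly (hv.le_one hX) hv with h | ⟨P, hP, h⟩
  · refine ⟨1, fun a ha => Valuation.one_apply_of_ne_zero (hα'.vfrc_ne (C_ne_zero.2 ha)),
      fun x => iff_of_true (Valuation.one_apply_le_one _) ?_⟩
    obtain ⟨a, b, hb, e⟩ := hα.2 x
    have := hv.le_one hX a
    rwa [← e, map_mul, h b hb, mul_one] at this
  · obtain ⟨P', hP', hd⟩ := WfDvdMonoid.exists_irreducible_factor (a := P.map γ)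
      (fun hu => hP.not_isUnit ((isUnit_map γ).1 hu)) (map_ne_zero hP.ne_zero)
    obtain ⟨v', h', -⟩ := exists_vcen hα' hP'.prime
    refine ⟨v', fun a ha => (h'.eq_one _).2 fun hd' =>
      hP'.not_isUnit (isUnit_of_dvd_unit hd' (isUnit_C.2 ha.isUnit)),
      Cen.iff hα hP h (v' := v'.comap β) ⟨fun a => ?_, fun a => ?_⟩⟩
    · rw [Valuation.comap_apply, hβ]
      exact h'.1 _
    · rw [Valuation.comap_apply, hβ, h'.2]
      refine ⟨fun h1 => ?_, fun h1 => hd.trans (Polynomial.map_dvd γ h1)⟩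
      by_contra hn
      exact hP'.not_isUnit
        (((hP.irreducible.coprime_iff_not_dvd.2 hn).map (mapRingHom γ)).isUnit_of_dvd' hd h1)

/-- a valuation of `K(t)` that is trivial on `K` extends to `K'(t)` -/
theorem rat_up {L L' : Type} [Field L] [Field L'] {α : K[X] →+* L} {α' : K'[X] →+* L'}
    (hα : IsFr α) (hα' : IsFr α') (γ : K →+* K') {v : Vl L} (hv : Triv (α.comp C) v) :
    ∃ v' : Vl L', Triv (α'.comp C) v' ∧
      ∀ p q : K[X], v (α p) ≤ v (α q) ↔ v' (α' (p.map γ)) ≤ v' (α' (q.map γ)) := by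
  obtain ⟨β, hβ⟩ := hα.exists_lift (β := α'.comp (mapRingHom γ))
    (hα'.1.comp (map_injective γ γ.injective))
  obtain ⟨v', h1, h2⟩ : ∃ v' : Vl L', Hor α' v' ∧ Over β v v' := by
    rcases le_total (v (α X)) 1 with hX | hX
    · exact pplup_fin hα hα' γ hβ hv hX
    · have e : β.comp (rvs α) = (rvs α').comp (mapRingHom γ) := by
        rw [← rvs_comp, ← rvs_map, show β.comp α = _ from RingHom.ext hβ]
      obtain ⟨v', h1, h2⟩ := pplup_fin (isFr_rvs hα) (isFr_rvs hα') γ (RingHom.congr_fun e)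
        (hor_rvs.2 hv) (by rw [rvs_X, map_inv₀]; exact inv_le_one_of_one_le₀ hX)
      exact ⟨v', hor_rvs.1 h1, h2⟩
  exact ⟨v', h1, fun p q => by rw [← h2.le_iff, hβ, hβ]; rfl⟩

theorem plc_up (h : Etl ψ θ χ D) (h' : FFd ψ' (i θ) (χ.map (mapRingHom γ)))
    (hc : ∀ p, i (ψ p) = ψ' (p.map γ)) {v : Vl E} (hv : Plc (ψ.comp C) v) :
    ∃ (w : Vl E') (e : ℕ), Plc (ψ'.comp C) w ∧ e ≠ 0 ∧ Idx i v w e := by
  have hm := h.monic.map (mapRingHom γ)
  obtain ⟨_, e0⟩ := exists_frac h.inj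
  obtain ⟨_, rfl⟩ := exists_frac (ffd_inj h' hm)
  have hf := isFr_alg K'[X] (Fr K'[X])
  have := (ffd_fin hf h' hm).1
  obtain ⟨v', h1, h2⟩ := rat_up (isFr_alg K[X] (Fr K[X])) hf γ
    (v := v.comap (algebraMap _ E)) (by subst e0; exact hv.2)
  obtain ⟨W, h3, h4⟩ := amv_etl γ h (ffd_irr h' hm) hf hc (P := v) (v₁ := v')
    (by subst e0; exact h2)
  obtain ⟨π, hπ⟩ := hv.1
  obtain ⟨w, n, h5, h6, h7⟩ := exists_nrm (v := W) (x := i π)
    ((_root_.map_ne_zero i).2 (v.ne_zero_iff.1 (hπ ▸ WithZero.exp_ne_zero)))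
    ((h4.lt_one π).2 ((lt_one_iff_le_exp _).2 hπ.le)).ne
  have h8 := h7.over h6
  obtain ⟨e, he, h9⟩ := Over.idx (φ := i) (v := v) (v' := w)
    (fun x => (h8 (i x)).symm.trans (h4 x)) hv.1
  exact ⟨w, e, ⟨h5, fun a ha => (h8.eq_one _).1 ((h3.eq_one _).2 (h1 a ha))⟩, he, h9⟩

theorem plc_pi (h : Etl ψ θ χ D) (h' : FFd ψ' (i θ) (χ.map (mapRingHom γ)))
    (hc : ∀ p, i (ψ p) = ψ' (p.map γ)) (hγ : PI γ) {m : ℕ} (hm : (m : K) ≠ 0) {v : Vl E}
    (hv : Plc (ψ.comp C) v) :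
    ∃ (w : Vl E') (e : ℕ), Plc (ψ'.comp C) w ∧ e ≠ 0 ∧ e.Coprime m ∧ Idx i v w e := by
  obtain ⟨w, e, h1, h2, h3⟩ := plc_up h h' hc hv
  refine ⟨w, e, h1, h2, (ffd_pi h' hc hγ).idx h1.1 h3 ?_, h3⟩
  rw [← map_natCast (ψ.comp C)]
  exact (_root_.map_ne_zero _).2 hm

theorem tyw_down (h : Etl ψ θ χ D) (h' : FFd ψ' (i θ) (χ.map (mapRingHom γ)))
    (hc : ∀ p, i (ψ p) = ψ' (p.map γ)) (hγ : PI γ) {m : ℕ} (hm : (m : K) ≠ 0) {u : E}
    (hu : TyW m (ψ'.comp C) (i u)) : TyW m (ψ.comp C) u := fun v hv => by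
  obtain ⟨w, e, h1, -, h2, h3⟩ := plc_pi h h' hc hγ hm hv
  have := hu w h1
  rw [h3.ord] at this
  exact (Nat.isCoprime_iff_coprime.2 h2.symm).dvd_of_dvd_mul_left this

end Pool.Agent.ZCy.F.Kp
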