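import Pool.Agent.Lib.MP_751085_ag.ZF.K.DivA
import Pool.Agent.Lib.MP_751085_ag.ZF.K.Pl3
import Pool.Agent.Lib.MP_751085_ag.ZF.K.PlFin
import Pool.Agent.Lib.MP_751085_ag.ZF.K.PlUp
import Pool.Agent.Lib.MP_751085_ag.ZF.K.Gp

/-! Division of divisors. -/

namespace Pool.Agent.ZCy.F.Kp

open Pool.Agent.ZFy Pool.Agent.ZFy.GM
open scoped Classical WithZero IntermediateField
open Polynomial groupCohomology

set_option linter.unusedSectionVars false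

variable {K E : Type} [Field K] [Field E] {ψ : K[X] →+* E} {θ : E} {χ : K[X][X]}

/-- prescribed orders at finitely many places -/
theorem wap_ord {S : Set (Vl E)} (hS : S.Finite) (hn : ∀ v ∈ S, Nrm v) (n : Vl E → ℤ) :
    ∃ y : E, y ≠ 0 ∧ ∀ v ∈ S, ord v y = n v := by
  have := hS.to_subtype
  choose y hy using fun v : S => (hn v v.2).surj (WithZero.exp (-n v))
  obtain ⟨N, hN⟩ := (hS.image n).bddAbove
  obtain ⟨x, hx⟩ := wap (fun v : S => (v : Vl E)) (fun v => hn v v.2) y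
    (fun _ _ e => congrArg y (Subtype.ext e)) (N.toNat + 1)
  have h1 : ∀ v ∈ S, v x = WithZero.exp (-n v) := fun v hv => by
    have h2 := hN ⟨v, hv, rfl⟩
    rw [← hy ⟨v, hv⟩]
    refine v.map_eq_of_sub_lt ((hx ⟨v, hv⟩).trans_lt ?_)
    rw [hy ⟨v, hv⟩, WithZero.exp_lt_exp]
    change _ < -n v
    omega
  by_cases h0 : x = 0
  · exact ⟨1, one_ne_zero, fun v hv =>
      absurd ((h1 v hv).symm.trans (h0 ▸ v.map_zero)) WithZero.exp_ne_zero⟩
  · exact ⟨x, h0, fun v hv => ord_eq_of v (h1 v hv)⟩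

/-- division of divisors over an algebraically closed field -/
theorem da_all [IsAlgClosed K] (hD : DIVp) (hg : GP χ) (h : FFd ψ θ χ) {M : ℕ} (hM : (M : K) ≠ 0)
    (D : Vl E → ℤ) (hf : {v | Plc (ψ.comp C) v ∧ D v ≠ 0}.Finite) :
    ∃ (y : E) (c₀ : ℤ), y ≠ 0 ∧ ∀ v, Plc (ψ.comp C) v →
      (M : ℤ) ∣ ord v y - χ.natDegree * D v - c₀ * min (ord v (ψ X)) 0 := by
  obtain ⟨ρ, α, β, h0, hb⟩ := hg.bez
  have he := ffd_etl h hg.monic h0 hb
  rw [← pow_one ρ] at hb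
  obtain ⟨y₀, h1, h2⟩ := wap_ord ((inf_fin he).union (zer_fin he h0))
    (fun v hv => hv.elim (·.1.1) (·.1.1)) D
  obtain ⟨y, c₀, h3, h4, h5, h6⟩ := da_good hD h hg.monic hb h0 hM (fun v => D v - ord v y₀)
    ((hf.union (plc_fin he y₀)).subset fun v hv => by
      by_cases h7 : D v = 0
      · exact Or.inr ⟨(good_plc hv.1).1, fun h8 => hv.2 (by rw [h7, h8, sub_zero])⟩
      · exact Or.inl ⟨(good_plc hv.1).1, h7⟩)
  refine ⟨y * y₀ ^ χ.natDegree, c₀, mul_ne_zero h3 (pow_ne_zero _ h1), fun v hv => ?_⟩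
  have hX : ψ X ≠ 0 := (map_ne_zero_iff ψ he.inj).2 X_ne_zero
  rw [ord_mul_v v h3 (pow_ne_zero _ h1), ord_pow_v]
  rcases lt_or_ge 1 (v (ψ X)) with h7 | h7
  · rw [h2 v (Or.inl ⟨hv, h7⟩), h6 v hv.2 h7,
      min_eq_left (le_of_not_ge (mt (ord_nonneg_v v hX).1 h7.not_ge))]
    exact ⟨0, by ring⟩
  rw [min_eq_right ((ord_nonneg_v v hX).2 h7), mul_zero, sub_zero]
  obtain ⟨_, _, h8⟩ := pl_cen h hg.monic hv h7
  rcases ((eval₂_C (a := ρ) ψ θ) ▸ (h8 (C ρ)).1).lt_or_eq with h9 | h9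
  · rw [h2 v (Or.inr ⟨hv, h7, h9⟩), (ord_eq_zero_v v h3).2 (h5 v hv.2 h7 h9)]
    exact ⟨0, by ring⟩
  · exact (h4 v (pl_good h hg.monic hb hv h7 h9)).trans (dvd_of_eq (by ring))

/-- division of divisors over a separably closed field -/
theorem ds_all [IsSepClosed K] (hD : DIVp) (hg : GP χ) (h : FFd ψ θ χ) {M : ℕ} (hM : (M : K) ≠ 0)
    (D : Vl E → ℤ) (hf : {v | Plc (ψ.comp C) v ∧ D v ≠ 0}.Finite) :
    ∃ (y : E) (q : ℕ) (c₀ : ℤ), y ≠ 0 ∧ q.Coprime M ∧ ∀ v, Plc (ψ.comp C) v →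
      (M : ℤ) ∣ ord v y - q * χ.natDegree * D v - c₀ * min (ord v (ψ X)) 0 := by
  obtain ⟨E', _, ψ', i, h', hc⟩ := ffd_bc h hg.monic (algebraMap K (Kb K)) hg.irr
  have hγ : PI (algebraMap K (Kb K)) := pi_sep _ fun y => Algebra.IsIntegral.isIntegral (R := K) y
  obtain ⟨D₀, he⟩ := hg.etl h
  choose w e h1 h2 h3 h4 using fun v : {v // Plc (ψ.comp C) v} => plc_pi he h' hc hγ hM v.2
  have hw : Function.Injective w := fun v v' hv => Subtype.ext (v'.2.1.eq_of_iff v.2.1 fun x =>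
    (((h4 v).over (h2 v)) x).symm.trans (hv ▸ ((h4 v').over (h2 v')) x))
  have hk : ∀ {S : Type} [Field S] (_ : K →+* S), (M : S) ≠ 0 := fun f h =>
    hM (f.injective ((map_natCast f M).trans (h.trans f.map_zero.symm)))
  obtain ⟨y', c₀, h5, h6⟩ := da_all hD (hg.map _) h' (hk (algebraMap K (Kb K)))
    (Function.extend w (fun v => e v * D v) 0)
    (((hf.preimage Subtype.val_injective.injOn).image w).subset fun u hu => by
      by_cases h7 : ∃ v, w v = u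
      · obtain ⟨v, rfl⟩ := h7
        exact ⟨v, ⟨v.2, right_ne_zero_of_mul (hw.extend_apply _ _ v ▸ hu.2)⟩, rfl⟩
      · exact absurd (Function.extend_apply' _ _ _ h7) hu.2)
  obtain ⟨n, y, hy⟩ := ffd_pi h' hc hγ y'
  refine ⟨y, _, (ringExpChar E ^ n : ℕ) * c₀, fun h0 => pow_ne_zero _ h5 (by rw [← hy, h0, map_zero]),
    pi_cop (hk (ψ.comp C)) n, fun v hv => ?_⟩
  have h7 := (h6 _ (h1 ⟨v, hv⟩)).mul_left (ringExpChar E ^ n : ℕ)
  have h8 := (h4 ⟨v, hv⟩).ord y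
  have h9 := (h4 ⟨v, hv⟩).ord (ψ X)
  rw [hy, ord_pow_v] at h8
  rw [hc, map_X] at h9
  rw [hw.extend_apply, hg.monic.natDegree_map, h9, mul_sub, mul_sub, h8,
    ← mul_zero (e ⟨v, hv⟩ : ℤ), ← mul_min_of_nonneg _ _ (Int.natCast_nonneg _)] at h7
  exact (Nat.isCoprime_iff_coprime.2 (h3 ⟨v, hv⟩).symm).dvd_of_dvd_mul_left
    (h7.trans (dvd_of_eq (by ring)))

end Pool.Agent.ZCy.F.Kp
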