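import Pool.Agent.Lib.MP_751085_ag.ZF.K.FbC
import Pool.Agent.Lib.MP_751085_ag.ZF.K.Gp

/-! The function field over the separable closure of the constants. -/

namespace Pool.Agent.ZCy.F.Kp

open Pool.Agent.ZFy Pool.Agent.ZFy.GM
open scoped Classical WithZero IntermediateField
open Polynomial groupCohomology

set_option linter.unusedSectionVars false

variable {K F : Type} [Field K] [Field F] [Algebra K[X] F] [Algebra F (Os K)] (c : Cur K F)

theorem kf_psb_C (a : Ks K) : psb K F (C a) = cb K F a := eval₂_C _ _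

theorem kf_psb_X : psb K F X = toF K[X] F (Fb K F) X := eval₂_X _ _

theorem kf_psb_comp : (psb K F).comp C = cb K F := RingHom.ext kf_psb_C

theorem kf_top : IntermediateField.adjoin F (Set.range (cb K F)) = ⊤ := by
  apply IntermediateField.lift_injective (Fb K F)
  rw [IntermediateField.lift_adjoin, IntermediateField.lift_top, ← Set.range_comp]
  rfl

theorem pfb_clo {S : Subfield (Fb K F)} (h1 : ∀ a, cb K F a ∈ S)
    (h2 : ∀ x, algebraMap F (Fb K F) x ∈ S) : S = ⊤ := eq_top_iff.2 fun f _ => by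
  have hf : f ∈ IntermediateField.adjoin F (Set.range (cb K F)) := kf_top (K := K) (F := F) ▸
    IntermediateField.mem_top
  refine IntermediateField.adjoin_induction F (p := fun x _ => x ∈ S) ?_ h2
    (fun x y _ _ => add_mem) (fun x _ => inv_mem) (fun x y _ _ => mul_mem) hf
  rintro _ ⟨a, rfl⟩
  exact h1 a

include c

theorem kf_C (a : K) : toF K[X] F (Os K) (C a) = hc (algebraMap K (Ks K) a) := by
  rw [c.inf, map_C, kl_tL_C]

theorem kf_psb_val (p : (Ks K)[X]) : (psb K F p : Os K) = tL _ p := by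
  have e : (algebraMap (Fb K F) (Os K)).comp (psb K F) = tL _ := by
    refine Polynomial.ringHom_ext (fun a => ?_) ?_
    · rw [kl_tL_C, RingHom.comp_apply, kf_psb_C]
      rfl
    · rw [RingHom.comp_apply, kf_psb_X, ← map_X (algebraMap K (Ks K)), ← c.inf]
      rfl
  exact RingHom.congr_fun e p

theorem kf_psb (p : K[X]) : psb K F (p.map (algebraMap K (Ks K))) = toF K[X] F (Fb K F) p :=
  Subtype.ext ((kf_psb_val c _).trans (c.inf p).symm)

theorem kf_cb (a : K) : cb K F (algebraMap K (Ks K) a) = kap K F (Fb K F) a := by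
  rw [← kf_psb_C, ← map_C, kf_psb c]
  rfl

theorem pfb_inj : Function.Injective (psb K F) := fun p q h => kl_tL_inj (by
  rw [← kf_psb_val c, ← kf_psb_val c, h])

theorem pfb_comp : (psb K F).comp (mapRingHom (algebraMap K (Ks K))) =
    (algebraMap F (Fb K F)).comp (algebraMap K[X] F) := RingHom.ext (kf_psb c)

theorem kf_ff : FFd (psb K F) (algebraMap F (Fb K F) c.θ)
    (c.χ.map (mapRingHom (algebraMap K (Ks K)))) := by
  refine ffd_of (pfb_inj c) (c.gp.monic.map _) (c.gp.irr' _) ?_ (pfb_clo (fun a => ?_) fun x => ?_)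
  · rw [eval₂_map, pfb_comp c, ← hom_eval₂, ffd_root c.ff, map_zero]
  · exact Subfield.subset_closure (Or.inl ⟨_, kf_psb_C a⟩)
  · have hx : x ∈ Subfield.closure (Set.range (algebraMap K[X] F) ∪ {c.θ}) :=
      ffd_clo c.ff ▸ Subfield.mem_top x
    refine Subfield.mem_comap.1 (Subfield.closure_le.2 ?_ hx)
    rintro _ (⟨p, rfl⟩ | rfl)
    · exact Subfield.subset_closure (Or.inl ⟨_, kf_psb c p⟩)
    · exact Subfield.subset_closure (Or.inr rfl)

theorem kf_galois : IsGalois F (Fb K F) := by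
  obtain ⟨ι, hι⟩ : ∃ ι : K →+* F, (algebraMap F (Fb K F)).comp ι =
      (cb K F).comp (algebraMap K (Ks K)) :=
    ⟨(algebraMap K[X] F).comp C, RingHom.ext fun a => (kf_cb c a).symm⟩
  have h : ∀ x ∈ Set.range (hc : Ks K →+* Os K), (IsIntegral F x ∧
      ((minpoly F x).map (algebraMap F (Fb K F))).Splits) ∧ IsSeparable F x := by
    rintro _ ⟨a, rfl⟩
    have hi : IsIntegral K a := Algebra.IsIntegral.isIntegral a
    have hm : ((minpoly K a).map ι).Monic := (minpoly.monic hi).map ι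
    have h1 : aeval (cb K F a) ((minpoly K a).map ι) = 0 := by
      rw [aeval_def, eval₂_map, hι, ← hom_eval₂, ← aeval_def, minpoly.aeval, map_zero]
    have h2 : aeval (hc a : Os K) ((minpoly K a).map ι) = 0 :=
      (aeval_algebraMap_apply (Os K) (cb K F a) _).trans (by rw [h1, map_zero])
    have hs : (minpoly K a).Separable := Algebra.IsSeparable.isSeparable K a
    refine ⟨⟨⟨_, hm, h2⟩, Splits.of_dvd ?_ (hm.map _).ne_zero
      (Polynomial.map_dvd _ (minpoly.dvd F _ h2))⟩, (hs.map (f := ι)).of_dvd (minpoly.dvd F _ h2)⟩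
    rw [Polynomial.map_map, hι, ← Polynomial.map_map]
    exact (IsSepClosed.splits_of_separable _ hs.map).map _
  have h1 : Algebra.IsAlgebraic F (Fb K F) := IntermediateField.isAlgebraic_adjoin fun x hx =>
    (h x hx).1.1
  have : Normal F (Fb K F) := normal_iff.2 fun x => ⟨Algebra.IsIntegral.isIntegral x, by
    rw [IntermediateField.minpoly_eq]
    exact IntermediateField.splits_of_mem_adjoin F (Os K) (fun x hx => (h x hx).1) x.2⟩
  have : Algebra.IsSeparable F (Fb K F) :=
    (IntermediateField.isSeparable_adjoin_iff_isSeparable F (Os K)).2 fun x hx => (h x hx).2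
  exact ⟨⟩

theorem kf_ne {M : ℕ} (hM : (M : K) ≠ 0) (E : Type) [Field E] [Algebra F E] : (M : E) ≠ 0 := by
  rw [← map_natCast (kap K F E)]
  exact (_root_.map_ne_zero _).2 hM

theorem kf_gam (σ : Ks K ≃ₐ[K] Ks K) :
    ∃ γ : Fb K F ≃ₐ[F] Fb K F, ∀ a, γ (cb K F a) = cb K F (σ a) := by
  have := kf_galois c
  have e : ∀ p : K[X], (p.map (algebraMap K (Ks K))).map (σ : Ks K →+* Ks K) =
      p.map (algebraMap K (Ks K)) := fun p => by
    rw [Polynomial.map_map]
    exact congrArg (fun f => p.map f) (RingHom.ext σ.commutes)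
  have e2 : ((psb K F).comp (mapRingHom (σ : Ks K →+* Ks K))).comp
      (mapRingHom (algebraMap K (Ks K))) = (psb K F).comp (mapRingHom (algebraMap K (Ks K))) :=
    RingHom.ext fun p => congrArg (psb K F) (e p)
  obtain ⟨j, h1, h2⟩ := ffd_hom (kf_ff c) (c.gp.monic.map _)
    (b := (psb K F).comp (mapRingHom (σ : Ks K →+* Ks K)))
    ((pfb_inj c).comp (map_injective _ σ.injective)) (z := algebraMap F (Fb K F) c.θ) (by
      rw [eval₂_map, e2, ← eval₂_map]
      exact ffd_root (kf_ff c))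
  have h3 : j.comp (algebraMap F (Fb K F)) = algebraMap F (Fb K F) :=
    ffd_ext c.ff (fun p => by
      have := h1 (p.map (algebraMap K (Ks K)))
      rw [RingHom.comp_apply, coe_mapRingHom, e, kf_psb c] at this
      exact this) h2
  let φ : Fb K F →ₐ[F] Fb K F := ⟨j, RingHom.congr_fun h3⟩
  refine ⟨AlgEquiv.ofBijective φ (Algebra.IsAlgebraic.algHom_bijective φ), fun a => ?_⟩
  have := h1 (C a)
  rw [RingHom.comp_apply, coe_mapRingHom, map_C, kf_psb_C, kf_psb_C] at this
  exact this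

theorem kf_sig (γ : Fb K F ≃ₐ[F] Fb K F) :
    ∃ σ : Ks K ≃ₐ[K] Ks K, ∀ a, γ (cb K F a) = cb K F (σ a) := by
  obtain ⟨t, ht⟩ := kl_hom (K₁ := Ks K)
    (((algebraMap (Fb K F) (Os K)).comp (γ : Fb K F →+* Fb K F)).comp (cb K F)) fun a => by
      rw [RingHom.comp_apply, RingHom.comp_apply, kf_cb c, ← kf_C c]
      exact congrArg Subtype.val (γ.commutes _)
  exact ⟨AlgEquiv.ofBijective t (Algebra.IsAlgebraic.algHom_bijective t),
    fun a => Subtype.ext (ht a)⟩

omit c in
theorem kf_gam_ext {T : Type} [Field T] [Algebra F T] {γ γ' : Fb K F →ₐ[F] T}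
    (h : ∀ a, γ (cb K F a) = γ' (cb K F a)) : γ = γ' := AlgHom.ext fun x => by
  have := pfb_clo (S := RingHom.eqLocusField (γ : Fb K F →+* T) γ') h
    fun x => (γ.commutes x).trans (γ'.commutes x).symm
  exact (this ▸ Subfield.mem_top x : x ∈ RingHom.eqLocusField (γ : Fb K F →+* T) γ')

theorem kf_gam_psb {γ : Fb K F ≃ₐ[F] Fb K F} {σ : Ks K ≃ₐ[K] Ks K}
    (h : ∀ a, γ (cb K F a) = cb K F (σ a)) (p : (Ks K)[X]) :
    γ (psb K F p) = psb K F (p.map (σ : Ks K →+* Ks K)) := by
  refine RingHom.congr_fun (f := (γ : Fb K F →+* Fb K F).comp (psb K F))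
    (g := (psb K F).comp (mapRingHom (σ : Ks K →+* Ks K)))
    (Polynomial.ringHom_ext (fun a => ?_) ?_) p
  · rw [RingHom.comp_apply, RingHom.comp_apply, coe_mapRingHom, map_C, kf_psb_C, kf_psb_C]
    exact h a
  · rw [RingHom.comp_apply, RingHom.comp_apply, coe_mapRingHom, map_X, kf_psb_X]
    exact γ.commutes _

/-- the place at infinity given by the embedding -/
theorem kf_inf : Plc (cb K F) ((lv (Ks K)).comap (algebraMap (Fb K F) (Os K))) ∧
    ∀ x : Fb K F, ord ((lv (Ks K)).comap (algebraMap (Fb K F) (Os K))) x = (x : Os K).order := by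
  refine ⟨⟨⟨(psb K F X)⁻¹, ?_⟩, fun a ha => kl_lv_hc ha⟩, fun x => kl_ord _⟩
  rw [map_inv₀, Valuation.comap_apply, WithZero.exp_neg, ← kl_lv_tL (T := Ks K), ← kf_psb_val c]
  rfl

theorem kf_root {M : ℕ} (hM : (M : K) ≠ 0) {u : Fb K F} (hu : TyW M (cb K F) u) :
    ∃ r : Os K, r ^ M = u := by
  refine kl_root' ?_ ((kf_inf c).2 u ▸ hu _ (kf_inf c).1)
  rw [← map_natCast (algebraMap K (Ks K))]
  exact (_root_.map_ne_zero _).2 hM

end Pool.Agent.ZCy.F.Kp
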