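import Pool.Agent.Lib.MP_751085_ag.ZF.K.Fb
import Pool.Agent.Lib.MP_751085_ag.ZF.K.Cst
import Pool.Agent.Lib.MP_751085_ag.ZF.K.DivB
import Pool.Agent.Lib.MP_751085_ag.ZC.K.Val

/-! Places of the function field over the separable closure of the constants. -/

namespace Pool.Agent.ZCy.F.Kp

open Pool.Agent.ZFy Pool.Agent.ZFy.GM
open scoped Classical WithZero IntermediateField
open Polynomial groupCohomology

set_option linter.unusedSectionVars false

variable {K F : Type} [Field K] [Field F] [Algebra K[X] F] [Algebra F (Os K)] (c : Cur K F)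

include c

theorem pfbb_ext {S T : Type} [Field S] [Algebra F S] [Field T] [Algebra F T] (j : S →ₐ[F] Fb K F)
    (f f' : S →ₐ[F] T) (h : ∀ x a, j x = cb K F a → f x = f' x) (x : S) : f x = f' x := by
  have h1 := cst_mem ((algebraMap K[X] F).comp C) _ (kf_cb c) kf_top j.fieldRange ⟨x, rfl⟩
  rw [AlgHom.coe_fieldRange, ← Set.image_preimage_eq_inter_range,
    ← IntermediateField.adjoin_map] at h1
  obtain ⟨y, hy, e⟩ := h1
  obtain rfl : y = x := j.injective e
  clear e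
  induction hy using IntermediateField.adjoin_induction with
  | mem y hy => exact hy.elim fun a e => h y a e.symm
  | algebraMap a => rw [f.commutes, f'.commutes]
  | add _ _ _ _ h1 h2 => rw [map_add, map_add, h1, h2]
  | inv _ _ h1 => rw [map_inv₀, map_inv₀, h1]
  | mul _ _ _ _ h1 h2 => rw [map_mul, map_mul, h1, h2]

omit c in
/-- the inclusion of `E ∩ Fb` in `E` -/
noncomputable def pfbb_i (E : IntermediateField F (Os K)) : E.comap (Fb K F).val →ₐ[F] E :=
  ((Fb K F).val.comp (E.comap (Fb K F).val).val).codRestrict E.toSubalgebra fun x => x.2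

theorem kb_eq {E : IntermediateField F (Os K)} {T : Type} [Field T] [Algebra F T]
    (g : E →ₐ[F] T) (γ : Fb K F →ₐ[F] T)
    (h : ∀ (x : E) (a : Ks K), (x : Os K) = hc a → g x = γ (cb K F a)) (x : E) (y : Fb K F)
    (e : (x : Os K) = y) : g x = γ y :=
  (congrArg g (Subtype.ext e)).trans (pfbb_ext c (E.comap (Fb K F).val).val (g.comp (pfbb_i E))
    (γ.comp (E.comap (Fb K F).val).val) (fun _ a e => (h _ a (congrArg Subtype.val e)).trans
      (congrArg γ e.symm)) ⟨y, show (y : Os K) ∈ E from e ▸ x.2⟩)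

theorem kb_fix {E : IntermediateField F (Os K)} {g : E ≃ₐ[F] E} (hg : FixC (⇑g)) (x : E)
    (hx : (x : Os K) ∈ Fb K F) : g x = x :=
  Subtype.ext (kb_eq c (E.val.comp (g : E →ₐ[F] E)) (Fb K F).val
    (fun x a e => (congrArg Subtype.val (hg x ⟨a, e.symm⟩)).trans e) x ⟨x, hx⟩ rfl)

theorem kf_unr {S : Type} [Field S] [Algebra F S] (j : S →ₐ[F] Fb K F) {w : Vl S}
    (hw : Triv (kap K F S) w) : Ine F w = ⊥ := by
  refine eq_bot_iff.2 fun g hg => Subgroup.mem_bot.2 (AlgEquiv.ext (pfbb_ext c j (g : S →ₐ[F] S)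
    (AlgHom.id F S) fun x a e => cst_fix ((algebraMap K[X] F).comp C) hw hg ?_))
  obtain ⟨p, hp, h0⟩ := Algebra.IsIntegral.isIntegral (R := K) a
  refine ⟨p, hp, j.injective ((hom_eval₂ _ _ (j : S →+* Fb K F) x).trans ?_)⟩
  rw [map_zero, ← map_zero (cb K F), ← h0, hom_eval₂, ← e]
  exact congrArg (p.eval₂ · _) (RingHom.ext fun b => (j.commutes _).trans (kf_cb c b).symm)

theorem kf_triv {v : Vl (Fb K F)} : Triv (cb K F) v ↔ Triv (kap K F (Fb K F)) v :=
  ⟨fun h a ha => kf_cb c a ▸ h _ ((_root_.map_ne_zero _).2 ha), fun h =>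
    triv_alg (γ := algebraMap K (Ks K)) Algebra.IsIntegral.isIntegral
      fun a ha => (congrArg v (kf_cb c a)).trans (h a ha)⟩

theorem kf_stb : Stb F {v : Vl (Fb K F) | Plc (cb K F) v} := fun g w hw =>
  ⟨kz_nrm hw.1 g, (kf_triv c).2 fun a ha =>
    (congrArg w (g.symm.commutes _)).trans ((kf_triv c).1 hw.2 a ha)⟩

theorem kf_tyw (γ : Fb K F ≃ₐ[F] Fb K F) {m : ℕ} {u : Fb K F} (hu : TyW m (cb K F) u) :
    TyW m (cb K F) (γ u) := fun v hv => hu _ (kf_stb c γ.symm v hv)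

omit c in
theorem kf_tyc (m : ℕ) (a : Ks K) : TyW m (cb K F) (cb K F a) := fun v hv => by
  by_cases ha : a = 0
  · simp [ha, ord_zero]
  · simp [ord, hv.2 a ha]

theorem kf_fin (f : Fb K F) : {v | Plc (cb K F) v ∧ ord v f ≠ 0}.Finite := by
  obtain ⟨D, h⟩ := (c.gp.map _).etl (kf_ff c)
  exact kf_psb_comp (K := K) (F := F) ▸ plc_fin h f

theorem kf_div (hD : DIVp) {M : ℕ} (hM : (M : K) ≠ 0) (D : Vl (Fb K F) → ℤ)
    (hf : {v | Plc (cb K F) v ∧ D v ≠ 0}.Finite) :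
    ∃ (y : Fb K F) (q : ℕ) (c₀ : ℤ), y ≠ 0 ∧ q.Coprime M ∧ ∀ v, Plc (cb K F) v → (M : ℤ) ∣
      ord v y - q * c.χ.natDegree * D v - c₀ * min (ord v (toF K[X] F (Fb K F) X)) 0 := by
  have := ds_all hD (c.gp.map _) (kf_ff c) (M := M) (by
    rwa [← map_natCast (algebraMap K (Ks K)), _root_.map_ne_zero]) D
  rw [kf_psb_comp, kf_psb_X, c.gp.monic.natDegree_map] at this
  exact this hf

/-- an element of `E ∩ Fb` whose orders are divisible by `m` in `Fb` -/
theorem kb_val {E : IntermediateField F (Os K)} {w : Vl E} (hw : Triv (kap K F E) w) {m : ℕ}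
    {x : E} {u : Fb K F} (e : (x : Os K) = u) (hu : TyW m (cb K F) u) (h0 : x ≠ 0) :
    ∃ y : E, (y : Os K) ∈ Fb K F ∧ w x = w y ^ m := by
  by_cases h1 : w x = 1
  · exact ⟨1, one_mem _, by rw [h1, map_one, one_pow]⟩
  obtain ⟨u, rfl, rfl⟩ : ∃ u' : E.comap (Fb K F).val, u = u' ∧ x = pfbb_i E u' :=
    ⟨⟨u, show (u : Os K) ∈ E from e ▸ x.2⟩, rfl, Subtype.ext e⟩
  have h2 : u ≠ 0 := fun h => h0 (by rw [h, map_zero])
  obtain ⟨v, k, h3, h4, h5⟩ := exists_nrm (v := w.comap (pfbb_i E).toRingHom) h2 h1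
  obtain ⟨n, hn⟩ := tyw_sep (kap K F (E.comap (Fb K F).val)) _ (kf_cb c)
    (IntermediateField.adjoin_eq_top_of_adjoin_eq_top F kf_top) hu v ⟨h3, fun a ha =>
      ((h5.over h4).eq_one _).1 ((congrArg w ((pfbb_i E).commutes _)).trans (hw a ha))⟩
  obtain ⟨y, hy⟩ := h3.surj (WithZero.exp (-n))
  refine ⟨pfbb_i E y, y.1.2, (h5 u h2).trans ?_⟩
  rw [show w (pfbb_i E y) = _ from h5 y fun h => WithZero.exp_ne_zero (hy.symm.trans
    (v.zero_iff.2 h)), pow_right_comm, hy, exp_neg_ord v h2, hn, ← mul_neg, ← nsmul_eq_mul,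
    WithZero.exp_nsmul]

end Pool.Agent.ZCy.F.Kp
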