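import Pool.Agent.Lib.MP_751085_ag.ZF.K.KDf2
import Pool.Agent.Lib.MP_751085_ag.ZC.K.LauB

/-! Laurent series over a separably closed field. -/

namespace Pool.Agent.ZCy.F.Kp

open Pool.Agent.ZFy Pool.Agent.ZFy.GM
open scoped Classical WithZero IntermediateField
open Polynomial groupCohomology

set_option linter.unusedSectionVars false

variable {K T : Type} [Field K] [Field T] {M : ℕ}

theorem kl_root' [IsSepClosed T] (hM : (M : T) ≠ 0) {y : Ls T} (h : (M : ℤ) ∣ y.order) :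
    ∃ r : Ls T, r ^ M = y := by
  have h0 : M ≠ 0 := fun e => hM (by rw [e, Nat.cast_zero])
  have : NeZero (M : T) := ⟨hM⟩
  rcases eq_or_ne y 0 with rfl | hy
  · exact ⟨0, zero_pow h0⟩
  obtain ⟨k, hk⟩ := h
  obtain ⟨z, hz⟩ := IsSepClosed.exists_pow_nat_eq
    (PowerSeries.constantCoeff (LaurentSeries.powerSeriesPart y)) M
  have hz0 : z ≠ 0 := by
    rintro rfl
    rw [zero_pow h0, ← PowerSeries.coeff_zero_eq_constantCoeff_apply,
      LaurentSeries.powerSeriesPart_coeff, Nat.cast_zero, add_zero] at hz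
    exact HahnSeries.coeff_order_eq_zero.not.2 hy hz.symm
  obtain ⟨η, h1, -⟩ := ZeroCyc.exists_hensel_series
    (monic_X_pow_sub_C (LaurentSeries.powerSeriesPart y) h0) (y := z) (by simp [hz]) (by
      simp [derivative_X_pow, hz0, hM])
  rw [eval_sub, eval_pow, eval_X, eval_C, sub_eq_zero] at h1
  refine ⟨HahnSeries.single k 1 * (η : Ls T), ?_⟩
  rw [mul_pow, HahnSeries.single_pow, one_pow, nsmul_eq_mul, ← hk, ← map_pow, h1,
    LaurentSeries.single_order_mul_powerSeriesPart]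

theorem kl_const' (ι : K →+* T) {y : Ls T} {p : K[X]} (hp : p ≠ 0) (hs : (p.map ι).Splits)
    (h : p.eval₂ (hc.comp ι) y = 0) : ∃ a, y = hc a ∧ p.eval₂ ι a = 0 := by
  obtain ⟨a, rfl⟩ := hs.mem_range_of_isRoot (map_ne_zero hp)
    (i := (hc : T →+* Ls T)) (x := y) (by rw [IsRoot, Polynomial.map_map, eval_map, h])
  exact ⟨a, rfl, (hc : T →+* Ls T).injective (by rw [hom_eval₂, h, map_zero])⟩

theorem kl_prim [IsSepClosed T] (hM : (M : T) ≠ 0) : ∃ ζ : T, IsPrimitiveRoot ζ M := by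
  have : NeZero (M : T) := ⟨hM⟩
  exact HasEnoughRootsOfUnity.exists_primitiveRoot T M

theorem kl_mu [IsSepClosed T] (hM : (M : T) ≠ 0) {y : Ls T} (h : y ^ M = 1) : ∃ a, y = hc a := by
  obtain ⟨ζ, hζ⟩ := kl_prim hM
  have : NeZero M := ⟨fun e => hM (by rw [e, Nat.cast_zero])⟩
  obtain ⟨i, -, e⟩ := (hζ.map_of_injective (hc : T →+* Ls T).injective).eq_pow_of_pow_eq_one h
  exact ⟨ζ ^ i, by rw [map_pow, e]⟩

theorem kl_tL_inj : Function.Injective (tL T) :=
  kl_tM_inj one_pos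

theorem kl_tL_C (a : T) : tL T (C a) = hc a :=
  kl_tM_C a

theorem kl_lm_tL (f : K →+* T) (p : K[X]) : lm f (tL K p) = tL T (p.map f) :=
  kl_lm_tM f p

theorem kl_lv_tL : lv T (tL T X) = WithZero.exp 1 := by
  rw [tL, tM, coe_eval₂RingHom, eval₂_X, kl_lv (HahnSeries.single_ne_zero one_ne_zero),
    HahnSeries.order_single one_ne_zero, neg_neg, Nat.cast_one]

theorem kl_hom {K₁ : Type} [Field K₁] [Algebra K K₁] [Algebra.IsSeparable K K₁] (ψ : K₁ →+* Os K)
    (h : ∀ a, ψ (algebraMap K K₁ a) = hc (algebraMap K (Ks K) a)) :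
    ∃ t : K₁ →ₐ[K] Ks K, ∀ a, ψ a = hc (t a) := by
  choose t ht _ using fun a => kl_const' (algebraMap K (Ks K)) (y := ψ a)
    (minpoly.ne_zero (Algebra.IsSeparable.isIntegral K a))
    (IsSepClosed.splits_codomain _ (Algebra.IsSeparable.isSeparable K a)) (by
      rw [show hc.comp _ = ψ.comp (algebraMap K K₁) from RingHom.ext fun a => (h a).symm,
        ← hom_eval₂, ← aeval_def, minpoly.aeval, map_zero])
  have hi := (hc : Ks K →+* Os K).injective
  exact ⟨⟨⟨⟨⟨t, hi (by rw [← ht, map_one, map_one])⟩, fun a b => hi (by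
    simp only [map_mul, ← ht])⟩, hi (by simp only [map_zero, ← ht]), fun a b => hi (by
    simp only [map_add, ← ht])⟩, fun a => hi ((ht _).symm.trans (h a))⟩, ht⟩

theorem kl_K1 (K₂ : Type) [Field K₂] [Algebra K K₂] [Algebra K₂ (Ks K)] [IsScalarTower K K₂ (Ks K)]
    [FiniteDimensional K K₂] (S : Finset (Ks K)) : ∃ K₁ : IntermediateField K₂ (Ks K),
      FiniteDimensional K K₁ ∧ IsGalois K K₁ ∧ ∀ x ∈ S, x ∈ K₁ := by
  let K' : IntermediateField K (Ks K) := IntermediateField.normalClosure K K₂ (Ks K) ⊔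
    FiniteGaloisIntermediateField.adjoin K (S : Set (Ks K))
  let K₁ : IntermediateField K₂ (Ks K) := K'.toSubfield.toIntermediateField fun a =>
    (le_sup_left : _ ≤ K')
      ((IsScalarTower.toAlgHom K K₂ (Ks K)).fieldRange_le_normalClosure ⟨a, rfl⟩)
  let e : K' ≃ₐ[K] K₁ :=
    { toFun := fun x => ⟨x.1, x.2⟩
      invFun := fun x => ⟨x.1, x.2⟩
      left_inv := fun _ => rfl
      right_inv := fun _ => rfl
      map_mul' := fun _ _ => rfl
      map_add' := fun _ _ => rfl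
      commutes' := fun _ => rfl }
  exact ⟨K₁, e.toLinearEquiv.finiteDimensional, IsGalois.of_algEquiv e, fun x hx =>
    (le_sup_right : _ ≤ K') (FiniteGaloisIntermediateField.subset_adjoin K _ hx)⟩

end Pool.Agent.ZCy.F.Kp
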