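import Pool.Agent.Lib.MP_751085_ag.ZF.K.FbB

/-! The field generated by the roots. -/

namespace Pool.Agent.ZCy.F.Kp

open Pool.Agent.ZFy Pool.Agent.ZFy.GM
open scoped Classical WithZero IntermediateField
open Polynomial groupCohomology

set_option linter.unusedSectionVars false

variable {K F : Type} [Field K] [Field F] [Algebra K[X] F] [Algebra F (Os K)] (c : Cur K F) {M : ℕ}

theorem fld_gal {F Ω : Type} [Field F] [Field Ω] [Algebra F Ω] {Z : Set Ω} (hf : Z.Finite)
    (h : ∀ z ∈ Z, IsSeparable F z ∧ ∃ p : F[X], p ≠ 0 ∧ aeval z p = 0 ∧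
      (p.map (algebraMap F Ω)).Splits ∧ ∀ z' : Ω, aeval z' p = 0 → z' ∈ Z) :
    FiniteDimensional F (IntermediateField.adjoin F Z) ∧
      IsGalois F (IntermediateField.adjoin F Z) := by
  have := hf.to_subtype
  have h1 := IntermediateField.finiteDimensional_adjoin (K := F) fun z hz => (h z hz).1.isIntegral
  have := (IntermediateField.isSeparable_adjoin_iff_isSeparable F Ω).2 fun z hz => (h z hz).1
  have : Normal F (IntermediateField.adjoin F Z) := normal_iff.2 fun x =>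
    ⟨.of_finite F x, IntermediateField.minpoly_eq x ▸ IntermediateField.splits_of_mem_adjoin F Ω
      (fun z hz => by
        obtain ⟨h2, p, h0, h3, h4, h5⟩ := h z hz
        refine ⟨h2.isIntegral, (IntermediateField.splits_of_splits h4 fun y hy =>
          IntermediateField.subset_adjoin _ _ (h5 y (mem_rootSet.1 hy).2)).of_dvd
            (map_ne_zero h0) (Polynomial.map_dvd _ (minpoly.dvd F z h3))⟩) x.2⟩
  exact ⟨h1, ⟨⟩⟩

theorem fld_cst (T : Finset (Fb K F)) : ∃ S : Finset (Ks K),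
    (∀ t ∈ T, (t : Os K) ∈ IntermediateField.adjoin F (hc '' (S : Set (Ks K)))) ∧
    ∀ s ∈ S, ∀ s' : Ks K, aeval s' (minpoly K s) = 0 → s' ∈ S := by
  have h1 : ∀ t : Fb K F, ∃ S : Finset (Ks K),
      (t : Os K) ∈ IntermediateField.adjoin F (hc '' (S : Set (Ks K))) := fun t => by
    obtain ⟨U, hU, ht⟩ := IntermediateField.exists_finset_of_mem_adjoin t.2
    obtain ⟨S, -, rfl⟩ := Finset.subset_set_image_iff.1 (Set.image_univ ▸ hU)
    exact ⟨S, by rwa [Finset.coe_image] at ht⟩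
  choose S hS using h1
  have h0 : ∀ a : Ks K, minpoly K a ≠ 0 := fun a =>
    minpoly.ne_zero (Algebra.IsIntegral.isIntegral a)
  have hm : ∀ s, s ∈ (T.biUnion S).biUnion (fun a => ((minpoly K a).aroots (Ks K)).toFinset) ↔
      ∃ a ∈ T.biUnion S, aeval s (minpoly K a) = 0 := fun s => by
    simp only [Finset.mem_biUnion (s := T.biUnion S), Multiset.mem_toFinset, mem_aroots, h0, ne_eq,
      not_false_eq_true, true_and]
  refine ⟨_, fun t ht => IntermediateField.adjoin.mono _ _ _ (Set.image_mono fun a ha => (hm a).2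
    ⟨a, Finset.mem_biUnion.2 ⟨t, ht, ha⟩, minpoly.aeval K a⟩) (hS t), fun s hs s' h => ?_⟩
  obtain ⟨a, ha, e⟩ := (hm s).1 hs
  exact (hm s').2 ⟨a, ha, aeval_eq_zero_of_dvd_aeval_eq_zero (minpoly.dvd K s e) h⟩

theorem pfld_expand {L : Type} [Field L] {q : L[X]} (hq : q.Splits) {M : ℕ}
    (h : ∀ z ∈ q.roots, (X ^ M - C z : L[X]).Splits) : (expand L M q).Splits := by
  rw [hq.eq_prod_roots, map_mul, expand_C, map_multiset_prod, Multiset.map_map]
  refine Splits.C_mul (Splits.multisetProd fun f hf => ?_) _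
  obtain ⟨z, hz, rfl⟩ := Multiset.mem_map.1 hf
  simpa only [Function.comp, map_sub, expand_X, expand_C] using h z hz

include c

theorem fld_conj (y : Fb K F) : ((minpoly F y).map (algebraMap F (Os K))).Splits ∧
    ∀ z : Os K, aeval z (minpoly F y) = 0 → ∃ γ : Fb K F ≃ₐ[F] Fb K F, z = γ y := by
  have := kf_galois c
  have h1 := Normal.splits (F := F) inferInstance y
  have e : (minpoly F y).map (algebraMap F (Os K)) =
      ((minpoly F y).map (algebraMap F (Fb K F))).map (algebraMap (Fb K F) (Os K)) := by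
    rw [map_map, ← IsScalarTower.algebraMap_eq]
  refine ⟨e ▸ h1.map _, fun z hz => ?_⟩
  obtain ⟨x, rfl⟩ := h1.mem_range_of_isRoot (i := algebraMap (Fb K F) (Os K)) (x := z)
    (map_ne_zero (minpoly.ne_zero (Algebra.IsIntegral.isIntegral y)))
    (by rw [← e, IsRoot, eval_map, ← aeval_def, hz])
  rw [aeval_algebraMap_apply, map_eq_zero] at hz
  obtain ⟨γ, rfl⟩ := minpoly.exists_algEquiv_of_root' (Algebra.IsAlgebraic.isAlgebraic y) hz
  exact ⟨γ, rfl⟩

theorem fld_spl (hM : (M : K) ≠ 0) {y : Fb K F} (hy : TyW M (cb K F) y) :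
    ((expand F M (minpoly F y)).map (algebraMap F (Os K))).Splits := by
  obtain ⟨ζ, hζ⟩ := kl_prim (T := Ks K) (M := M)
    (by rwa [← map_natCast (algebraMap K (Ks K)), _root_.map_ne_zero])
  obtain ⟨h1, h2⟩ := fld_conj c y
  rw [map_expand]
  refine pfld_expand h1 fun z hz => ?_
  obtain ⟨γ, rfl⟩ := h2 z (by rw [aeval_def, ← eval_map]; exact (mem_roots'.1 hz).2)
  obtain ⟨r, hr⟩ := kf_root c hM (kf_tyw c γ hy)
  exact X_pow_sub_C_splits_of_isPrimitiveRoot
    (hζ.map_of_injective (hc : Ks K →+* Os K).injective) hr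

theorem fld_sep (hM : (M : K) ≠ 0) {y : Fb K F} {z : Os K} (h : z ^ M = y) : IsSeparable F z := by
  have := kf_galois c
  have hM0 : M ≠ 0 := fun e => hM (by rw [e, Nat.cast_zero])
  by_cases h0 : y = 0
  · rw [h0, ZeroMemClass.coe_zero, pow_eq_zero_iff hM0] at h
    rw [h, ← map_zero (algebraMap F (Os K))]
    exact isSeparable_algebraMap 0
  refine IsSeparable.of_algebra_isSeparable_of_isSeparable F (E := Fb K F)
    ((separable_X_pow_sub_C y (kf_ne c hM _) h0).of_dvd (minpoly.dvd _ z ?_))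
  rw [map_sub, map_pow, aeval_X, aeval_C, h]
  exact sub_self _

theorem ks_field (hM : (M : K) ≠ 0) (T Y : Finset (Fb K F)) (hY : ∀ y ∈ Y, TyW M (cb K F) y) :
    ∃ E : IntermediateField F (Os K), Nice M E ∧ (∀ t ∈ T, (t : Os K) ∈ E) ∧
      ∀ y ∈ Y, ∃ r ∈ E, r ^ M = (y : Os K) := by
  have := kf_galois c
  have hM0 : 0 < M := Nat.pos_of_ne_zero fun e => hM (by rw [e, Nat.cast_zero])
  obtain ⟨S, hT, hS⟩ := fld_cst T
  have h0 : ∀ y : Fb K F, expand F M (minpoly F y) ≠ 0 := fun y =>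
    (expand_ne_zero hM0).2 (minpoly.ne_zero (Algebra.IsIntegral.isIntegral y))
  have hr : ∀ (y : Fb K F) (z : Os K), aeval z (expand F M (minpoly F y)) = 0 →
      ∃ γ : Fb K F ≃ₐ[F] Fb K F, z ^ M = γ y := fun y z h =>
    (fld_conj c y).2 _ (by rwa [expand_aeval] at h)
  let Z : Set (Os K) := hc '' (S : Set (Ks K)) ∪
    ⋃ y ∈ (Y : Set (Fb K F)), (expand F M (minpoly F y)).rootSet (Os K)
  have hZ : ∀ y ∈ Y, ∀ z, aeval z (expand F M (minpoly F y)) = 0 → z ∈ Z := fun y hy z h =>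
    Or.inr (Set.mem_biUnion hy (mem_rootSet.2 ⟨h0 y, h⟩))
  obtain ⟨h1, h2⟩ := fld_gal (F := F) (Z := Z) ((S.finite_toSet.image _).union
    (Y.finite_toSet.biUnion fun y _ => rootSet_finite _ _)) (by
      rintro z (⟨a, ha, rfl⟩ | hz)
      · obtain ⟨h1, h2⟩ := fld_conj c (cb K F a)
        refine ⟨fld_sep c hM (y := cb K F a ^ M) rfl, _,
          minpoly.ne_zero (Algebra.IsIntegral.isIntegral (cb K F a)), ?_, h1, fun z hz => ?_⟩
        · exact (aeval_algebraMap_apply (Os K) (cb K F a) _).trans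
            (by rw [minpoly.aeval, map_zero])
        · obtain ⟨γ, rfl⟩ := h2 z hz
          obtain ⟨σ, hσ⟩ := kf_sig c γ
          exact Or.inl ⟨σ a, hS a ha _ (by rw [aeval_algHom_apply, minpoly.aeval, map_zero]),
            congrArg Subtype.val (hσ a).symm⟩
      · obtain ⟨y, hy, hz⟩ := Set.mem_iUnion₂.1 hz
        obtain ⟨γ, e⟩ := hr y z (mem_rootSet.1 hz).2
        exact ⟨fld_sep c hM e, _, h0 y, (mem_rootSet.1 hz).2, fld_spl c hM (hY y hy), hZ y hy⟩)
  refine ⟨_, ⟨h1, h2, Z, rfl, ?_⟩, fun t ht =>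
    IntermediateField.adjoin.mono _ _ _ Set.subset_union_left (hT t ht), fun y hy => ?_⟩
  · rintro z (⟨a, -, rfl⟩ | hz)
    · exact ⟨cb K F a ^ M, rfl, tyw_pw M _ _⟩
    · obtain ⟨y, hy, hz⟩ := Set.mem_iUnion₂.1 hz
      obtain ⟨γ, e⟩ := hr y z (mem_rootSet.1 hz).2
      exact ⟨_, e.symm, kf_tyw c γ (hY y hy)⟩
  · obtain ⟨r, e⟩ := kf_root c hM (hY y hy)
    refine ⟨r, IntermediateField.subset_adjoin _ _ (hZ y hy r ?_), e⟩
    rw [expand_aeval, e]
    exact (aeval_algebraMap_apply (Os K) y _).trans (by rw [minpoly.aeval, map_zero])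

end Pool.Agent.ZCy.F.Kp
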