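import Pool.Agent.Lib.MP_751085_ag.ZF.K.KDf2
import Pool.Agent.Lib.MP_751085_ag.ZC.Z.SecI
import Pool.Agent.Lib.MP_751085_ag.ZF.G.Et0

/-! Automorphisms that act through the coefficients. -/

namespace Pool.Agent.ZCy.F.Kp

open Pool.Agent.ZFy Pool.Agent.ZFy.GM
open scoped Classical WithZero IntermediateField
open Polynomial groupCohomology

set_option linter.unusedSectionVars false

variable {L N : Type} [Field L] [Field N] {φ : L[X] →+* N} {ι : N →+* Ls L} {A : Vl L} {W : Vl N}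
  (hι : ∀ p, ι (φ p) = tL L p) (h : GW φ ι A W)

include hι h

/-- `gauss_of_int` -/
theorem GW.cst (a : L) : W (φ (C a)) = A a := by
  obtain ⟨b1, i, b2⟩ := gauss_of_int one_pos φ ι hι A W h.max (C a)
  have b0 := b1 0
  rw [coeff_C_zero] at b0
  rw [coeff_C] at b2
  split_ifs at b2
  · exact b2.symm
  · rw [map_zero] at b2
    exact le_antisymm (b2 ▸ zero_le) b0

theorem GW.gs : Gs φ W := fun p hp => by
  obtain ⟨b1, i, b2⟩ := gauss_of_int one_pos φ ι hι A W h.max p
  simp only [h.cst hι] at hp ⊢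
  exact ⟨b2 ▸ hp i, fun e i => (b1 i).trans_lt e⟩

omit h in
theorem psecj_mul (ha : ∀ x, ∃ G : L[X][X], G ≠ 0 ∧ G.eval₂ φ x = 0) (x : N) :
    ∃ b, φ.comp (mapRingHom A.integer.subtype) b ≠ 0 ∧ (φ.comp (mapRingHom
      A.integer.subtype)).IsIntegralElem (φ.comp (mapRingHom A.integer.subtype) b * x) := by
  have h0 : Function.Injective (mapRingHom A.integer.subtype) :=
    map_injective _ Subtype.val_injective
  have h1 : Function.Injective (φ.comp (mapRingHom A.integer.subtype)) :=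
    Function.Injective.comp (g := φ) (fun p q e => tL_injective (by rw [← hι, ← hι, e])) h0
  obtain ⟨G, h2, h3⟩ := ha x
  obtain ⟨s, G', h4, h5⟩ := get0_den (ι := mapRingHom A.integer.subtype) (fun p => by
    obtain ⟨d, d0, d1, d2⟩ := sec1_den A p
    obtain ⟨q, hq⟩ := (lifts_iff_coeff_lifts (f := A.integer.subtype) (C d * p)).2
      fun i => ⟨⟨_, d2 i⟩, (coeff_C_mul _).symm⟩
    exact ⟨C ⟨d, d1⟩, q, C_ne_zero.2 fun e => d0 (congrArg Subtype.val e), by
      rw [hq, coe_mapRingHom, map_C, mul_comm]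
      rfl⟩) G
  let := (φ.comp (mapRingHom A.integer.subtype)).toAlgebra
  obtain ⟨y, hy, hi⟩ := IsAlgebraic.exists_integral_multiple (R := A.integer[X]) (z := x)
    ⟨G', fun e => mul_ne_zero (C_ne_zero.2 ((map_ne_zero_iff _ h0).2 h4)) h2
      (by rw [← h5, e, Polynomial.map_zero]), by
      change G'.eval₂ (φ.comp _) x = 0
      rw [← eval₂_map, h5, eval₂_mul, h3, mul_zero]⟩
  exact ⟨y, (map_ne_zero_iff _ h1).2 hy, hi⟩

omit h in
theorem psecj_map {g : N →+* N} {γ : L →+* L} (hg : ∀ z, ι (g z) = lm γ (ι z)) (p : L[X]) :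
    g (φ p) = φ (p.map γ) := ι.injective (by rw [hg, hι, hι, lm_tM])

omit h in
theorem psecj_int {g : N →+* N} {γ : L →+* L} (hg : ∀ z, ι (g z) = lm γ (ι z))
    (hγ : ∀ a, A (γ a) = A a) (z : N)
    (hz : (φ.comp (mapRingHom A.integer.subtype)).IsIntegralElem z) :
    (φ.comp (mapRingHom A.integer.subtype)).IsIntegralElem (g z) := by
  let γO : A.integer →+* A.integer := (γ.comp A.integer.subtype).codRestrict
    A.integer fun a => (hγ a).trans_le a.2
  have e : g.comp (φ.comp (mapRingHom A.integer.subtype)) =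
      (φ.comp (mapRingHom A.integer.subtype)).comp (mapRingHom γO) := RingHom.ext fun p => by
    refine (psecj_map hι hg _).trans (congrArg φ ?_)
    rw [coe_mapRingHom, coe_mapRingHom, Polynomial.map_map, Polynomial.map_map]
    rfl
  have h4 := hz.map g
  rw [e] at h4
  exact h4.of_comp

variable (ha : ∀ x, ∃ G : L[X][X], G ≠ 0 ∧ G.eval₂ φ x = 0) {g : N →+* N} {γ : L →+* L}
  (hg : ∀ z, ι (g z) = lm γ (ι z)) (hγ : ∀ a, A (γ a) = A a)

include ha hg hγ

theorem GW.dec (x : N) : W (g x) = W x := seci_dec h.max (psecj_mul hι ha) hg hγ (psecj_int hι hg hγ) x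

/-- `seci_ine`, `seci_quot` -/
theorem GW.ine (hI : ∀ a, A a ≤ 1 → A (γ a - a) < 1) (x : N) (hx : W x ≤ 1) :
    W (g x - x) < 1 := by
  obtain ⟨b, hb, hz⟩ := psecj_mul (A := A) hι ha x
  obtain ⟨a, e⟩ : ∃ a : A.integer, A a = W (φ.comp (mapRingHom A.integer.subtype) b) := by
    obtain ⟨i, e⟩ := (gauss_of_int one_pos φ ι hι A W h.max (b.map A.integer.subtype)).2
    exact ⟨b.coeff i, by rwa [coeff_map] at e⟩
  have A0 : A a ≠ 0 := e ▸ (map_ne_zero W).2 hb
  have a0 : (a : L) ≠ 0 := (map_ne_zero A).1 A0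
  have hle : W (φ.comp (mapRingHom A.integer.subtype) b * x) ≤ A a := by
    rw [map_mul, ← e]
    exact mul_le_of_le_one_right' hx
  have hW : ∀ a, W (φ.comp C a) = A a := h.cst hι
  have key := fun {z : N} hz => seci_ine (c := φ.comp C) (z := z) h.max hg hγ (psecj_int hι hg hγ)
    (fun a => (hι _).trans (sec_tM_C a)) (fun a => (psecj_map hι hg _).trans (by rw [map_C]; rfl))
    hW (fun a h => by
      have := (φ.comp (mapRingHom A.integer.subtype)).isIntegralElem_map (x := C ⟨a, h⟩)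
      rwa [RingHom.comp_apply, coe_mapRingHom, map_C] at this) hI hz a0 a.2
  have h6 := seci_quot (h.dec hι ha hg hγ)
    (by rw [map_div₀, hW, div_le_one₀ (zero_lt_iff.2 A0)]; exact hle)
    (by rw [map_div₀, hW, ← e, div_self A0]) (key hz hle) (key (RingHom.isIntegralElem_map _) e.ge)
  rwa [div_div_div_cancel_right₀ ((map_ne_zero (φ.comp C)).2 a0), mul_div_cancel_left₀ _ hb] at h6

end Pool.Agent.ZCy.F.Kp
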