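import Pool.Agent.Lib.MP_751085_ag.ZF.K.GRKa
import Pool.Agent.Lib.MP_751085_ag.ZF.K.SecJ

/-! Good reduction at the vertical primes. -/

namespace Pool.Agent.ZCy.F.Kp

open Pool.Agent.ZFy Pool.Agent.ZFy.GM
open scoped Classical WithZero IntermediateField
open Polynomial groupCohomology

set_option linter.unusedSectionVars false

variable {K F : Type} [Field K] [Field F] [Algebra K[X] F] [Algebra F (Os K)] (c : Cur K F) {l M : ℕ}
variable {K₂ : Type} [Field K₂] [Algebra K K₂] [Algebra K₂ (Ks K)] [IsScalarTower K K₂ (Ks K)]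
  (hs : Sct (K := K) K₂ F l M) {E : IntermediateField F (Os K)} (h : Nice M E)
  {K₁ : IntermediateField K₂ (Ks K)} [FiniteDimensional K K₁] [IsGalois K K₁]
  (hf : Frm (K₁ : Set (Ks K)) E)
  {B : Type} [CommRing B] [IsDomain B] [UniqueFactorizationMonoid B] [Algebra B K]
  [IsFractionRing B K] {P : B} {w : Vl E}

include c hs h hf

/-- The geometric group fixes `w` and meets the inertia group trivially. -/
theorem kk_geo (hr : c.Red l P) (hw : Cen (pB B K F E) w (C P)) {g : E ≃ₐ[F] E} (hg : FixC (⇑g)) :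
    g ∈ Dec F w ∧ (g ∈ Ine F w → g = 1) := by
  have := h.fin
  obtain ⟨ι, A, W, -, hφ, -, hW, -, eW⟩ := kk_W c hs h hf hr hw
  have hJ := (ke_fixC hf _).1 hg
  have e : (g : E →+* E).comp hf.φ = hf.φ := Polynomial.ringHom_ext
    (fun a => by rw [RingHom.comp_apply, ke_phi_C]; exact hJ a)
    (by rw [RingHom.comp_apply, Frm.φ, coe_eval₂RingHom, eval₂_X]; exact g.commutes _)
  have e' : ∀ p, W.comap (g : E →+* E) (hf.φ p) = W (hf.φ p) := fun p =>
    congrArg W (DFunLike.congr_fun e p)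
  have ho : Over (RingHom.id E) W w := eW
  refine ⟨?_, fun hi => ?_⟩
  · rw [dec_congr eW]
    exact kv_dec (hW.uniq (W.comap (g : E →+* E))
      (fun p => by simpa only [e'] using hW.gs hφ p) fun a => by rw [e', hW.cst hφ])
  refine eq_one_of_graded (vtam_dvd (orderOf_dvd_of_pow_eq_one (nic_pow c hs.neM h hg))
    (kk_nat c hs hr hw).2) fun x hx => ?_
  obtain ⟨a, ha⟩ := hW.e1 x
  rw [← hW.cst hφ, ke_phi_C] at ha
  have h1 : w x = w (hf.J a) := (ho.eq_iff _ _).2 ha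
  have h0 : 0 < w (hf.J a) := h1 ▸ (Valuation.pos_iff w).2 hx
  have h2 := hi.2 (x / hf.J a) (by rw [map_div₀, h1, div_self h0.ne'])
  rwa [map_div₀, hJ, ← sub_div, map_div₀, div_lt_one₀ h0, ← h1] at h2

/-- An element of `secG` that is inertial on the constants is inertial. -/
theorem kk_sec (hr : c.Red l P) (hw : Cen (pB B K F E) w (C P)) {g : E ≃ₐ[F] E}
    (hg : g ∈ secG K₂ E) (h1 : ∀ a, w (g (hf.J a)) = w (hf.J a))
    (h2 : ∀ a, w (hf.J a) ≤ 1 → w (g (hf.J a) - hf.J a) < 1) : g ∈ Ine F w := by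
  obtain ⟨ι, A, W, hι, hφ, -, hW, eA, eW⟩ := kk_W c hs h hf hr hw
  obtain ⟨σ, hσ⟩ := hg
  obtain ⟨γ, hγ⟩ := ke_res c hf g
  have ho : Over hf.J A w := fun a => (eA a).symm
  have e : (K₁.val : K₁ →+* Ks K).comp (γ : K₁ →+* K₁) =
      (σ : Ks K →+* Ks K).comp (K₁.val : K₁ →+* Ks K) := RingHom.ext fun a =>
    (hc : Ks K →+* Os K).injective
      ((congrArg Subtype.val (hγ a)).trans (ke_cw hf hσ a))
  have hg : ∀ z, ι ((g : E →+* E) z) = lm (γ : K₁ →+* K₁) (ι z) := fun z =>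
    (lm (K₁.val : K₁ →+* Ks K)).injective (by
      rw [hι, kl_lm_lm, e, ← kl_lm_lm, hι]; exact hσ z)
  have hA : ∀ a, A ((γ : K₁ →+* K₁) a) = A a := fun a =>
    (ho.eq_iff _ _).1 ((congrArg w (hγ a)).trans (h1 a))
  rw [ine_congr eW]
  refine ⟨hW.dec hφ (kk_alg c h hf) hg hA, hW.ine hφ (kk_alg c h hf) hg hA fun a ha => ?_⟩
  rw [← ho.lt_one, map_sub, RingHom.coe_coe, hγ]
  exact h2 a ((ho a).2 ha)

/-- An inertial element that fixes `K₂` acts through the coefficients. -/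
theorem kk_cw (hr : c.Red l P) (hw : Cen (pB B K F E) w (C P)) {g : E ≃ₐ[F] E} (hg : g ∈ Ine F w)
    (h2 : ∀ a : K₂, g (hf.J (algebraMap K₂ K₁ a)) = hf.J (algebraMap K₂ K₁ a)) :
    g ∈ secG K₂ E := by
  have := h.gal
  obtain ⟨g₁, h1, h3⟩ := ke_dec c hf hs g h2
  have h5 : ∀ a, g₁ (hf.J a) = g (hf.J a) := fun a => by
    conv_lhs => rw [← (ke_fixC hf _).1 h3 a, ← AlgEquiv.mul_apply, mul_inv_cancel_left]
  have h6 := kk_sec c hs h hf hr hw h1 (fun a => by rw [h5]; exact hg.1 _)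
    fun a => by rw [h5]; exact hg.2 _
  exact inv_mul_eq_one.1 ((kk_geo c hs h hf hr hw h3).2 (mul_mem (inv_mem h6) hg)) ▸ h1

/-- `w` is determined by its restriction to the constants. -/
theorem kk_uniq (hr : c.Red l P) (hw : Cen (pB B K F E) w (C P)) {P' : B} (hP : Prime P')
    {w' : Vl E} (hw' : Cen (pB B K F E) w' (C P')) (e : ∀ a, w' (hf.J a) ≤ 1 ↔ w (hf.J a) ≤ 1)
    (x : E) : w' x ≤ 1 ↔ w x ≤ 1 := by
  obtain ⟨ι, A, W, -, -, -, hW, eA, eW⟩ := kk_W c hs h hf hr hw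
  exact (hW.uniq w' (kk_gs c hf hP hw')
    (fun a => by rw [ke_phi_C]; exact (e a).trans (eA a).symm) x).trans (eW x).symm

/-- The inertia group commutes with the geometric group. -/
theorem kk_comm (hr : c.Red l P) (hw : Cen (pB B K F E) w (C P)) {g g₀ : E ≃ₐ[F] E}
    (hg : g ∈ Ine F w) (h0 : FixC (⇑g₀)) : g * g₀ = g₀ * g := by
  have h1 := kz_ine (inv_mem hg) g₀
  rw [kz_dec.1 (kk_geo c hs h hf hr hw h0).1] at h1
  have h2 : g * g₀ * g⁻¹ * g₀⁻¹ ∈ fixC E :=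
    mul_mem ((nic_normal c).conj_mem g₀ h0 g) (inv_mem (show g₀ ∈ fixC E from h0))
  have h3 := (kk_geo c hs h hf hr hw h2).2 (by simpa only [mul_assoc] using mul_mem hg h1)
  rwa [mul_inv_eq_one, mul_inv_eq_iff_eq_mul] at h3

/-- Inertial automorphisms of the constants lift. -/
theorem kk_lift (hr : c.Red l P) (hw : Cen (pB B K F E) w (C P)) {g₁ : K₁ ≃ₐ[K₂] K₁}
    (hg : g₁ ∈ Ine K₂ (w.comap hf.J)) :
    ∃ g ∈ Ine F w, g ∈ secG K₂ E ∧ ∀ a, g (hf.J a) = hf.J (g₁ a) := by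
  have := h.gal
  obtain ⟨g, h1, h2⟩ := ke_lift hf hs g₁
  exact ⟨g, kk_sec c hs h hf hr hw h1 (fun a => by rw [h2]; exact hg.1 a)
    fun a ha => by rw [h2, ← map_sub]; exact hg.2 a ha, h1, h2⟩

omit hs hf in
/-- There is a valuation above a vertical prime. -/
theorem kk_ex (hP : Prime P) : ∃ w : Vl E, Cen (pB B K F E) w (C P) := by
  have := h.fin
  obtain ⟨_, e⟩ := exists_frac (ffd_inj c.ff c.gp.monic)
  have := (ffd_fin (isFr_alg K[X] (Fr K[X])) (e ▸ c.ff) c.gp.monic).1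
  obtain ⟨v, hv, -⟩ := exists_vcen ((isFr_alg B K).poly (isFr_alg K[X] (Fr K[X])))
    (prime_C_iff.2 hP)
  obtain ⟨v', h1⟩ := exists_over (E := F) v
  obtain ⟨w, h2⟩ := exists_over (E := E) v'
  have h3 : ∀ a, pB B K F E a = ((algebraMap F E).comp (algebraMap (Fr K[X]) F))
      (((algebraMap K[X] (Fr K[X])).comp (mapRingHom (algebraMap B K))) a) := fun a =>
    congrArg (algebraMap F E) (DFunLike.congr_fun e _).symm
  exact ⟨w, fun a => by rw [h3]; exact ((h1.trans h2) _).2 (hv.1 a),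
    fun a => by rw [h3, (h1.trans h2).lt_one]; exact hv.2 a⟩

end Pool.Agent.ZCy.F.Kp
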