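import Pool.Agent.Lib.MP_751085_ag.ZF.K.Gr1
import Pool.Agent.Lib.MP_751085_ag.ZF.K.Nic
import Pool.Agent.Lib.MP_751085_ag.ZF.K.Enl

/-! Good reduction at the vertical primes: the Gauss valuation. -/

namespace Pool.Agent.ZCy.F.Kp

open Pool.Agent.ZFy Pool.Agent.ZFy.GM
open scoped Classical WithZero IntermediateField
open Polynomial groupCohomology

set_option linter.unusedSectionVars false

theorem pgrka_top {F E : Type} [Field F] [Field E] [Algebra F E] {s : Set E}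
    {S : Subfield (IntermediateField.adjoin F s)} (h1 : ∀ x, algebraMap F _ x ∈ S)
    (h2 : ∀ x (hx : x ∈ s), ⟨x, IntermediateField.subset_adjoin _ _ hx⟩ ∈ S) : S = ⊤ := by
  refine eq_top_iff.2 fun ⟨x, hx⟩ h0 => ?_
  clear h0
  induction hx using IntermediateField.adjoin_induction with
  | mem x hx => exact h2 x hx
  | algebraMap x => exact h1 x
  | add x y _ _ h1 h2 => exact add_mem h1 h2
  | inv x _ h1 => exact inv_mem h1
  | mul x y _ _ h1 h2 => exact mul_mem h1 h2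

variable {K F : Type} [Field K] [Field F] [Algebra K[X] F] [Algebra F (Os K)] (c : Cur K F) {l M : ℕ}
variable {K₂ : Type} [Field K₂] [Algebra K K₂] [Algebra K₂ (Ks K)] [IsScalarTower K K₂ (Ks K)]
  (hs : Sct (K := K) K₂ F l M) {E : IntermediateField F (Os K)} (h : Nice M E)
  {K₁ : IntermediateField K₂ (Ks K)} [FiniteDimensional K K₁] [IsGalois K K₁]
  (hf : Frm (K₁ : Set (Ks K)) E)
  {B : Type} [CommRing B] [IsDomain B] [UniqueFactorizationMonoid B] [Algebra B K]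
  [IsFractionRing B K] {P : B} {w : Vl E}

include c

theorem kk_gs (hP : Prime P) (hw : Cen (pB B K F E) w (C P)) : Gs hf.φ w := by
  refine kq_gs (K := K) hP ?_
  rwa [show hf.φ.comp (mapRingHom ((algebraMap K K₁).comp (algebraMap B K))) = pB B K F E from
    RingHom.ext fun p => by
      rw [RingHom.comp_apply, coe_mapRingHom, ← Polynomial.map_map, ke_phi c hf]; rfl]

theorem kk_F1 : ∃ (F₁ : IntermediateField F E) (ψ : K₁[X] →+* F₁), (∀ p, (ψ p : E) = hf.φ p) ∧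
    FFd ψ (algebraMap F F₁ c.θ) (c.χ.map (mapRingHom (algebraMap K K₁))) := by
  let F₁ := IntermediateField.adjoin F (Set.range hf.J)
  let J : K₁ →+* F₁ := hf.J.codRestrict F₁ fun a => IntermediateField.subset_adjoin _ _ ⟨a, rfl⟩
  let ψ : K₁[X] →+* F₁ := eval₂RingHom J (toF K[X] F F₁ X)
  have e (p) : (ψ p : E) = hf.φ p := hom_eval₂ p J (algebraMap F₁ E) _
  have e1 (p : K[X]) : ψ (p.map (algebraMap K K₁)) = toF K[X] F F₁ p :=
    Subtype.ext ((e _).trans (ke_phi c hf p))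
  obtain ⟨ι, -, hι⟩ := ke_iota c hf
  refine ⟨F₁, ψ, e, ffd_of (fun a b h1 => kl_tL_inj (by rw [← hι, ← hι, ← e, ← e, h1]))
    (c.gp.monic.map _) (c.gp.irr' _) ?_ (pgrka_top (fun x => ?_) ?_)⟩
  · rw [eval₂_map, show ψ.comp (mapRingHom _) = toF K[X] F F₁ from RingHom.ext e1, ← hom_eval₂,
      ffd_root c.ff, map_zero]
  · refine Subfield.mem_comap.1 ((?_ : ⊤ ≤ Subfield.comap (algebraMap F F₁) _) trivial)
    rw [← ffd_clo c.ff, Subfield.closure_le]
    rintro _ (⟨p, rfl⟩ | rfl)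
    exacts [Subfield.subset_closure (.inl ⟨_, e1 p⟩), Subfield.subset_closure (.inr rfl)]
  · rintro _ ⟨a, rfl⟩
    exact Subfield.subset_closure (.inl ⟨C a, eval₂_C _ _⟩)

include h in
theorem kk_alg (x : E) : ∃ G : K₁[X][X], G ≠ 0 ∧ G.eval₂ hf.φ x = 0 := by
  have := h.fin
  have := h.gal
  obtain ⟨F₁, ψ, e, h1⟩ := kk_F1 c hf
  obtain ⟨D, h2⟩ := (c.gp.map _).etl h1
  obtain ⟨θ, χ, D', h3⟩ := etl_ext (F' := E) h2
  rw [← show tE E ψ = hf.φ from RingHom.ext e]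
  exact ffd_alg (etl_ffd h3) h3.monic x

theorem kk_J (b : B) : hf.J (toF B K K₁ b) = pB B K F E (C b) := by
  rw [RingHom.comp_apply, ke_JK c hf, RingHom.comp_apply (toF K[X] F E) (mapRingHom _),
    coe_mapRingHom, map_C]
  rfl

theorem kk_one (hw : Cen (pB B K F E) w (C P)) {b : B} (hb : ¬P ∣ b) :
    w (pB B K F E (C b)) = 1 :=
  (hw.eq_one _).2 fun h1 => hb (by simpa using (C_dvd_iff_dvd_coeff _ _).1 h1 0)

include hs in
theorem kk_nat (hr : c.Red l P) (hw : Cen (pB B K F E) w (C P)) :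
    w (l : E) = 1 ∧ w (M : E) = 1 := by
  obtain ⟨e, rfl⟩ := hs.pw
  have h1 : w (l : E) = 1 := by simpa only [map_natCast] using kk_one c hw hr.nd
  exact ⟨h1, by rw [Nat.cast_pow, map_pow, h1, one_pow]⟩

include hs h in
/-- `w` is the Gauss valuation of `gr1`. -/
theorem kk_W (hr : c.Red l P) (hw : Cen (pB B K F E) w (C P)) :
    ∃ (ι : E →+* Ls K₁) (A : Vl K₁) (W : Vl E),
      (∀ x, lm (K₁.val : K₁ →+* Ks K) (ι x) = (x : Os K)) ∧ (∀ p, ι (hf.φ p) = tL K₁ p) ∧ Nrm A ∧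
      GW hf.φ ι A W ∧ (∀ a, A a ≤ 1 ↔ w (hf.J a) ≤ 1) ∧ ∀ x, w x ≤ 1 ↔ W x ≤ 1 := by
  have := h.fin
  have := h.gal
  obtain ⟨ι, h1, hι⟩ := ke_iota c hf
  obtain ⟨F₁, ψ, e, h2⟩ := kk_F1 c hf
  obtain ⟨D, h3⟩ := (c.gp.map _).etl h2
  have eφ : tE E ψ = hf.φ := RingHom.ext e
  obtain ⟨A, hA, eA⟩ := kv_nrm (w := w.comap hf.J) (x := toF B K K₁ P)
    (by simpa using hr.prime.ne_zero) ((congrArg w (kk_J c hf P)).trans_lt ((hw.2 _).2 dvd_rfl))
  have eq : A.IsEquiv (w.comap hf.J) := Valuation.isEquiv_iff_val_le_one.2 (eA _)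
  obtain ⟨χ₀, Φ, -, h4, hΦ, hG⟩ := hr.ex
  let μ : B →+* A.integer := (toF B K K₁).codRestrict _ fun b =>
    (eA _).2 ((congrArg w (kk_J c hf b)).trans_le (hw.1 _))
  have hp : IsPGroup l (E ≃ₐ[F₁] E) := fun g => by
    obtain ⟨n, hn⟩ := hs.pw
    have h5 := nic_pow c hs.neM h (g := g.restrictScalars F) ((ke_fixC hf _).2 fun a => by
      rw [← ke_phi_C, ← e]; exact g.commutes _)
    refine ⟨n, AlgEquiv.restrictScalars_injective F ?_⟩
    rw [← hn]
    exact (map_pow (AlgEquiv.restrictScalarsHom F) g M).trans h5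
  have hu (v : Vl E) (hv : Triv ((tE E ψ).comp C) v) : Ine F₁ v = ⊥ := by
    have h5 := nic_unr c hs.neM h (w := v) fun a ha => by
      rw [← ke_JK c hf, ← ke_phi_C, ← eφ]
      exact hv _ (by simpa using ha)
    refine eq_bot_iff.2 fun g hg => AlgEquiv.restrictScalars_injective F ?_
    exact Subgroup.mem_bot.1 (h5.le ((kz_scal (L := F)).2.2 hg))
  rw [← h4, Polynomial.map_map, mapRingHom_comp] at h3
  obtain ⟨W, hW⟩ := gr1 (ι := ι) hG hA μ
    (eq.eq_one_iff_eq_one.2 ((congrArg w (kk_J c hf Φ)).trans (kk_one c hw hΦ))) hs.prime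
    (eq.eq_one_iff_eq_one.2 (by rw [Valuation.comap_apply, map_natCast, (kk_nat c hs hr hw).1]))
    h3 hp (by rw [eφ]; exact hι) hu
  rw [eφ] at hW
  exact ⟨ι, A, W, h1, hι, hA, hW, eA, fun x => hW.uniq w (kk_gs c hf hr.prime hw) (fun a => by
    rw [ke_phi_C]; exact (eA a).symm) x⟩

end Pool.Agent.ZCy.F.Kp
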