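import Pool.Agent.Lib.MP_751085_ag.ZF.K.SpD
import Pool.Agent.Lib.MP_751085_ag.ZF.K.Ffd
import Pool.Agent.Lib.MP_751085_ag.ZF.G.Lag
import Pool.Agent.Lib.MP_751085_ag.ZC.V.Har
import Pool.Agent.Lib.MP_751085_ag.ZC.V.Ext
import Pool.Agent.Lib.MP_751085_ag.ZC.V.Frc

/-! The Gauss valuation of a curve with irreducible reduction. -/

namespace Pool.Agent.ZCy.F.Kp

open Pool.Agent.ZFy Pool.Agent.ZFy.GM
open scoped Classical WithZero IntermediateField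
open Polynomial groupCohomology

set_option linter.unusedSectionVars false

variable {R KK T F Fs : Type} [CommRing R] [IsDomain R] [UniqueFactorizationMonoid R] [Field KK]
  [Field T] [Field F] [Field Fs] {α : R →+* KK} {π : R} {r : R →+* T} {χ : R[X][X]}
  {ψ : KK[X] →+* F} {θ : F} {ψ₀ : T[X] →+* Fs} {θ₀ : Fs} (h : GS α π r χ ψ θ ψ₀ θ₀)

theorem pgau1_ev (G : R[X][X]) : evl α ψ θ G = (G.map (mapRingHom α)).eval₂ ψ θ :=
  (eval₂_map _ _ _).symm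

theorem pgau1_C (p : R[X]) : evl α ψ θ (C p) = ψ.comp (mapRingHom α) p := eval₂_C _ _

theorem pgau1_pi : evl α ψ θ (C (C π)) = ψ (C (α π)) := (pgau1_C _).trans (congrArg ψ (map_C α))

include h

theorem GS.red_zero (G : R[X][X]) : G.map (mapRingHom r) = 0 ↔ C (C π) ∣ G := by
  simp only [C_dvd_iff_dvd_coeff, Polynomial.ext_iff, coeff_map, coe_mapRingHom, coeff_zero, h.ker]

theorem pgau1_root : evl α ψ θ χ = 0 := (pgau1_ev χ).trans (ffd_root h.ff)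

theorem pgau1_ne : ψ (C (α π)) ≠ 0 :=
  (map_ne_zero_iff ψ (ffd_inj h.ff (h.monic.map _))).2 (C_ne_zero.2 (h.fr.vfrc_ne h.prime.ne_zero))

theorem pgau1_ker (G : R[X][X]) :
    evl r ψ₀ θ₀ G = 0 ↔ χ.map (mapRingHom r) ∣ G.map (mapRingHom r) := by
  rw [pgau1_ev, h.ff₀.ker]

theorem pgau1_onto : Function.Surjective (Polynomial.map (mapRingHom r)) :=
  Polynomial.map_surjective _ (Polynomial.map_surjective r h.onto)

theorem GS.le_one {w : Vl F} (hw : Gau α ψ π w) (G : R[X][X]) : w (evl α ψ θ G) ≤ 1 :=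
  glag_eval (fun _ => hw.1 _) (le_one_of_int hw.1 ⟨χ, h.monic, pgau1_root h⟩)

theorem pgau1_lt {w : Vl F} (hw : Gau α ψ π w) {G : R[X][X]} (hG : G.map (mapRingHom r) = 0) :
    w (evl α ψ θ G) < 1 := by
  obtain ⟨H, rfl⟩ := (h.red_zero G).1 hG
  rw [map_mul, map_mul, pgau1_C]
  exact (mul_le_of_le_one_right' (h.le_one hw H)).trans_lt ((hw.2 _).2 dvd_rfl)

theorem GS.one {w : Vl F} (hw : Gau α ψ π w) {G : R[X][X]} (hG : evl r ψ₀ θ₀ G ≠ 0) :
    w (evl α ψ θ G) = 1 := by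
  have hm := h.monic.map (mapRingHom r)
  obtain ⟨u, a, b, hu, e⟩ := kl_bez hm (ffd_irr h.ff₀ hm) (mt (pgau1_ker h G).2 hG)
  obtain ⟨u, rfl⟩ := Polynomial.map_surjective r h.onto u
  obtain ⟨a, rfl⟩ := pgau1_onto h a
  obtain ⟨b, rfl⟩ := pgau1_onto h b
  have h1 : w (evl α ψ θ (C u)) = 1 := by
    rw [pgau1_C, hw.eq_one]
    intro hd
    have := (h.red_zero (C u)).2 (_root_.map_dvd C hd)
    rw [map_C, C_eq_zero] at this
    exact hu this
  have h2 := pgau1_lt h hw (G := a * χ + b * G - C u) (by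
    rw [Polynomial.map_sub, Polynomial.map_add, Polynomial.map_mul, Polynomial.map_mul, ← e, map_C]
    exact sub_self _)
  rw [map_sub, map_add, map_mul, map_mul, pgau1_root h, mul_zero, zero_add, ← h1] at h2
  have h3 := w.map_eq_of_sub_lt h2
  rw [h1, map_mul] at h3
  exact (h.le_one hw G).antisymm (h3.ge.trans (mul_le_of_le_one_left' (h.le_one hw b)))

theorem GS.lt_one {w : Vl F} (hw : Gau α ψ π w) {G : R[X][X]} (hG : evl r ψ₀ θ₀ G = 0) :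
    w (evl α ψ θ G) < 1 := by
  obtain ⟨b, e⟩ := (pgau1_ker h G).1 hG
  obtain ⟨b, rfl⟩ := pgau1_onto h b
  have h2 := pgau1_lt h hw (G := G - χ * b)
    (by rw [Polynomial.map_sub, Polynomial.map_mul, e, sub_self])
  rwa [map_sub, map_mul, pgau1_root h, zero_mul, sub_zero] at h2

theorem pgau1_split {G : R[X][X]} (h0 : G ≠ 0) (hG : G.degree < χ.degree) : ∃ (n : ℕ) (H : R[X][X]),
    evl r ψ₀ θ₀ H ≠ 0 ∧ evl α ψ θ G = ψ (C (α π)) ^ n * evl α ψ θ H := by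
  obtain ⟨n, H, hH, e⟩ := WfDvdMonoid.max_power_factor' h0
    (prime_C_iff.2 (prime_C_iff.2 h.prime)).not_isUnit
  refine ⟨n, H, fun h1 => hG.not_ge ?_, by rw [e, map_mul, map_pow, pgau1_pi]⟩
  rw [← h.monic.degree_map (mapRingHom r)]
  exact (degree_le_of_dvd ((pgau1_ker h H).1 h1) (mt (h.red_zero H).1 hH)).trans
    (degree_map_le.trans (degree_le_of_dvd (Dvd.intro_left _ e.symm) h0))

theorem GS.rep {x : F} (hx : x ≠ 0) : ∃ (G H : R[X][X]) (n : ℤ), evl r ψ₀ θ₀ G ≠ 0 ∧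
    evl r ψ₀ θ₀ H ≠ 0 ∧ x * evl α ψ θ H = ψ (C (α π)) ^ n * evl α ψ θ G := by
  have hm := h.monic.map (mapRingHom α)
  have hi : Function.Injective (mapRingHom α) := map_injective α h.fr.1
  have hs : ∀ y : KK[X], ∃ s p : R[X], s ≠ 0 ∧ y * mapRingHom α s = mapRingHom α p := fun y => by
    obtain ⟨s, p, h1, e⟩ := h.fr.vfrc_poly y
    exact ⟨s, p, (map_ne_zero_iff _ hi).1 h1, (mul_comm _ _).trans e.symm⟩
  obtain ⟨G, d, hd, hG, e⟩ := ffd_rep h.ff hm x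
  obtain ⟨s, G₁, s0, e₁⟩ := get0_den hs G
  obtain ⟨t, p, t0, e₂⟩ := hs d
  have G0 : G ≠ 0 := fun h0 => mul_ne_zero hx ((map_ne_zero_iff ψ (ffd_inj h.ff hm)).2 hd)
    (by rw [e, h0, eval₂_zero])
  have p0 : p ≠ 0 := (map_ne_zero_iff _ hi).1 (e₂ ▸ mul_ne_zero hd ((map_ne_zero_iff _ hi).2 t0))
  have d1 : (C t * G₁).degree = G.degree := by
    rw [degree_C_mul t0, ← degree_map_eq_of_injective hi, e₁,
      degree_C_mul ((map_ne_zero_iff _ hi).2 s0)]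
  rw [h.monic.degree_map] at hG
  obtain ⟨n, G', h1, e₃⟩ := pgau1_split h (G := C t * G₁)
    (degree_ne_bot.1 (d1 ▸ degree_ne_bot.2 G0)) (d1 ▸ hG)
  obtain ⟨m, H', h2, e₄⟩ := pgau1_split h (C_ne_zero.2 (mul_ne_zero p0 s0))
    (degree_C_le.trans_lt ((zero_le_degree_iff.2 G0).trans_lt hG))
  refine ⟨G', H', n - m, h1, h2, ?_⟩
  rw [zpow_sub₀ (pgau1_ne h), zpow_natCast, zpow_natCast, div_mul_eq_mul_div, ← e₃,
    eq_div_iff (pow_ne_zero m (pgau1_ne h)), mul_assoc, mul_comm _ (_ ^ m), ← e₄, map_mul (evl α ψ θ),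
    pgau1_C, pgau1_C, pgau1_ev, e₁, eval₂_mul, eval₂_C, ← e, map_mul, RingHom.comp_apply,
    RingHom.comp_apply, RingHom.comp_apply, ← e₂, map_mul]
  ring

/-- the integral elements -/
theorem GS.rep' {w : Vl F} (hw : Gau α ψ π w) {x : F} (hx : w x ≤ 1) : ∃ G H : R[X][X],
    evl r ψ₀ θ₀ H ≠ 0 ∧ x * evl α ψ θ H = evl α ψ θ G := by
  rcases eq_or_ne x 0 with rfl | h0
  · exact ⟨0, 1, by rw [map_one]; exact one_ne_zero, by rw [zero_mul, map_zero]⟩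
  obtain ⟨G, H, n, h1, h2, e⟩ := h.rep h0
  have h3 := congrArg w e
  rw [map_mul, map_mul, h.one hw h1, h.one hw h2, mul_one, mul_one, map_zpow₀] at h3
  have h4 : w (ψ (C (α π))) < 1 := by
    rw [← pgau1_pi (θ := θ), pgau1_C]
    exact (hw.2 _).2 dvd_rfl
  obtain ⟨m, rfl⟩ := Int.eq_ofNat_of_zero_le ((zpow_le_one_iff_right_of_lt_one₀
    (zero_lt_iff.2 ((Valuation.ne_zero_iff w).2 (pgau1_ne h))) h4).1 (h3 ▸ hx))
  exact ⟨C (C π) ^ m * G, H, h2, by rw [e, map_mul, map_pow, pgau1_pi, zpow_natCast]⟩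

theorem GS.ex : ∃ w : Vl F, Gau α ψ π w := by
  have hm := h.monic.map (mapRingHom α)
  obtain ⟨_, rfl⟩ := exists_frac (ffd_inj h.ff hm)
  have := (ffd_fin (isFr_alg _ _) h.ff hm).1
  exact (exists_cen_ext (h.fr.poly (isFr_alg _ _)) (prime_C_iff.2 h.prime)).imp fun _ hw => hw.2

end Pool.Agent.ZCy.F.Kp
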