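import Pool.Agent.Lib.MP_751085_ag.ZF.K.Gau1

/-! The residue map of the Gauss valuation. -/

namespace Pool.Agent.ZCy.F.Kp

open Pool.Agent.ZFy Pool.Agent.ZFy.GM
open scoped Classical WithZero IntermediateField
open Polynomial groupCohomology

set_option linter.unusedSectionVars false

variable {R KK T F Fs : Type} [CommRing R] [IsDomain R] [UniqueFactorizationMonoid R] [Field KK]
  [Field T] [Field F] [Field Fs] {α : R →+* KK} {π : R} {r : R →+* T} {χ : R[X][X]}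
  {ψ : KK[X] →+* F} {θ : F} {ψ₀ : T[X] →+* Fs} {θ₀ : Fs} (h : GS α π r χ ψ θ ψ₀ θ₀)

include h

/-- the residue map -/
theorem GS.red {w : Vl F} (hw : Gau α ψ π w) :
    ∃ ρ : w.integer →+* Fs, GR α π r ψ θ ψ₀ θ₀ w ρ := by
  obtain ⟨κ, _, ρ₀, h0, hs⟩ := exists_resf w
  let E : R[X][X] →+* w.integer := (evl α ψ θ).codRestrict w.integer (h.le_one hw)
  have hk : ∀ G, (ρ₀.comp E) G = 0 ↔ evl r ψ₀ θ₀ G = 0 := fun G => (h0 _).trans
    ⟨fun h1 => by_contra fun h2 => h1.ne (h.one hw h2), h.lt_one hw⟩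
  obtain ⟨j, hj⟩ := pffd_lift (ρ₀.comp E) (evl r ψ₀ θ₀) hk fun x => by
    obtain ⟨y, rfl⟩ := hs x
    obtain ⟨G, H, hH, e⟩ := h.rep' hw y.2
    exact ⟨G, H, eq_div_of_mul_eq ((hk H).not.2 hH)
      ((map_mul ρ₀ _ _).symm.trans (congrArg ρ₀ (Subtype.ext e)))⟩
  refine ⟨j.comp ρ₀, hw, h0.comp j, fun z => ?_, fun G y e => ?_⟩
  · obtain ⟨a, b, -, rfl⟩ := h.ff₀.frac z
    obtain ⟨a, rfl⟩ := map_surjective (mapRingHom r) (map_surjective r h.onto) a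
    obtain ⟨b, rfl⟩ := map_surjective (mapRingHom r) (map_surjective r h.onto) b
    obtain ⟨y, hy⟩ := hs (ρ₀.comp E a / ρ₀.comp E b)
    refine ⟨y, ?_⟩
    rw [RingHom.comp_apply, hy, map_div₀, hj, hj, eval₂_map, eval₂_map]
    rfl
  · rw [show y = E G from Subtype.ext e]
    exact hj G

variable {R' KK' T' F' Fs' : Type} [CommRing R'] [IsDomain R'] [UniqueFactorizationMonoid R']
  [Field KK'] [Field T'] [Field F'] [Field Fs'] {α' : R' →+* KK'} {π' : R'} {r' : R' →+* T'}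
  {χ' : R'[X][X]} {ψ' : KK'[X] →+* F'} {θ' : F'} {ψ₀' : T'[X] →+* Fs'} {θ₀' : Fs'}

omit h in
theorem pgau2_mul {w : Vl F} {ρ : w.integer →+* Fs} (h : GS α π r χ ψ θ ψ₀ θ₀)
    (hρ : GR α π r ψ θ ψ₀ θ₀ w ρ) {y : w.integer} {G H : R[X][X]}
    (e : y * evl α ψ θ H = evl α ψ θ G) : ρ y * evl r ψ₀ θ₀ H = evl r ψ₀ θ₀ G := by
  rw [← hρ.ev H ⟨_, h.le_one hρ.gau H⟩ rfl, ← map_mul]
  exact hρ.ev G _ e

/-- compatibility of the residue maps -/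
theorem GS.map (h' : GS α' π' r' χ' ψ' θ' ψ₀' θ₀') (f : R →+* R') {i : F →+* F'} {j : Fs →+* Fs'}
    (hi : ∀ G, i (evl α ψ θ G) = evl α' ψ' θ' (G.map (mapRingHom f)))
    (hj : ∀ G, j (evl r ψ₀ θ₀ G) = evl r' ψ₀' θ₀' (G.map (mapRingHom f))) {w : Vl F}
    {ρ : w.integer →+* Fs} (hρ : GR α π r ψ θ ψ₀ θ₀ w ρ) {w' : Vl F'} {ρ' : w'.integer →+* Fs'}
    (hρ' : GR α' π' r' ψ' θ' ψ₀' θ₀' w' ρ') (y : w.integer) :
    ∃ y' : w'.integer, (y' : F') = i y ∧ ρ' y' = j (ρ y) := by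
  obtain ⟨G, H, hH, e⟩ := h.rep' hρ.gau y.2
  have h1 : evl r' ψ₀' θ₀' (H.map (mapRingHom f)) ≠ 0 := hj H ▸ (map_ne_zero j).2 hH
  have h2 := congrArg i e
  rw [map_mul, hi, hi] at h2
  have h3 := congrArg w' h2
  rw [map_mul, h'.one hρ'.gau h1, mul_one] at h3
  refine ⟨⟨i y, h3.trans_le (h'.le_one hρ'.gau _)⟩, rfl, mul_right_cancel₀ h1 ?_⟩
  rw [pgau2_mul h' hρ' h2, ← hj, ← hj, ← map_mul, pgau2_mul h hρ e]

omit h in
theorem evl_map (f : R →+* R') {s : KK →+* KK'} (hs : ∀ a, s (α a) = α' (f a)) {i : F →+* F'}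
    (h1 : ∀ p, i (ψ p) = ψ' (p.map s)) (h2 : i θ = θ') (G : R[X][X]) :
    i (evl α ψ θ G) = evl α' ψ' θ' (G.map (mapRingHom f)) := by
  have e : i.comp (ψ.comp (mapRingHom α)) = (ψ'.comp (mapRingHom α')).comp (mapRingHom f) :=
    RingHom.ext fun p => (h1 _).trans (congrArg ψ' (by
      simp only [coe_mapRingHom, map_map, show s.comp α = α'.comp f from RingHom.ext hs]))
  rw [evl, evl, coe_eval₂RingHom, coe_eval₂RingHom, hom_eval₂, eval₂_map, e, h2]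

end Pool.Agent.ZCy.F.Kp
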