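import Pool.Agent.Lib.MP_751085_ag.ZF.K.Gr1a
import Pool.Agent.Lib.MP_751085_ag.ZF.K.Amv
import Pool.Agent.Lib.MP_751085_ag.ZF.K.Ffd
import Pool.Agent.Lib.MP_751085_ag.ZF.G.Desc
import Pool.Agent.Lib.MP_751085_ag.ZF.G.Prim
import Pool.Agent.Lib.MP_751085_ag.ZC.K.G0a

/-! Good reduction of an unramified cover of a curve with a good model. -/

namespace Pool.Agent.ZCy.F.Kp

open Pool.Agent.ZFy Pool.Agent.ZFy.GM
open scoped Classical WithZero IntermediateField PowerSeries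
open Polynomial groupCohomology

set_option linter.unusedSectionVars false

/-- a complete extension with algebraically closed residue field -/
theorem g1_zorn {L : Type} [Field L] {A : Vl L} (hA : Nrm A) :
    ∃ (R : Type) (_ : CommRing R) (_ : IsDomain R) (_ : CDVR R)
      (_ : IsAlgClosed (IsLocalRing.ResidueField R)) (π : R) (f : A.integer →+* R)
      (γ : L →+* Fr R), Irreducible π ∧ (∀ a : A.integer, γ a = algebraMap R (Fr R) (f a)) ∧
      ∀ A' : Vl (Fr R), Cen (algebraMap R (Fr R)) A' π →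
        A' (algebraMap R (Fr R) π) = WithZero.exp (-1) → ∀ x, A' (γ x) = A x := by
  obtain ⟨R, _, _, _, w, γ, h1, h2, h3⟩ := zorn hA
  obtain ⟨π, hπ⟩ := IsDiscreteValuationRing.exists_irreducible R
  obtain ⟨e, he⟩ := h2.exists_equiv
  refine ⟨R, inferInstance, inferInstance, inferInstance, h1, π,
    (e.symm : _ →+* R).comp (h3.over one_ne_zero).int, γ, hπ, fun a => ?_, fun A' hc h0 x => ?_⟩
  · exact (congrArg Subtype.val (e.apply_symm_apply ((h3.over one_ne_zero).int a))).symm.trans (he _)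
  · rw [h2.1.eq_of_iff ⟨_, h0⟩ ((h2.cen hπ).iff h2.isFr hπ.prime hc)]
    exact idx_one_iff.1 h3 x

theorem pgr1_le {K E E' : Type} [Field K] [Field E] [Field E'] {φ : K[X] →+* E} {φ' : K[X] →+* E'}
    (hi : Function.Injective φ) (hi' : Function.Injective φ') {w : Vl E} {w' : Vl E'} (h : Gs φ w)
    (h' : Gs φ' w') (e : ∀ a, w' (φ' (C a)) ≤ 1 ↔ w (φ (C a)) ≤ 1) (p q : K[X]) :
    w' (φ' p) ≤ w' (φ' q) ↔ w (φ p) ≤ w (φ q) := by
  obtain ⟨b, hb⟩ := (isFr_alg K[X] (Fr K[X])).exists_lift hi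
  obtain ⟨b', hb'⟩ := (isFr_alg K[X] (Fr K[X])).exists_lift hi'
  have key : Over (RingHom.id _) (w.comap b) (w'.comap b') := kq_eq (K := K)
    (by simpa only [Valuation.comap_apply, hb, hb'] using e)
    (fun p => by simpa only [Valuation.comap_apply, hb] using h p)
    (fun p => by simpa only [Valuation.comap_apply, hb'] using h' p)
  simpa only [Valuation.comap_apply, RingHom.id_apply, hb, hb'] using
    key.le_iff (algebraMap _ _ p) (algebraMap _ _ q)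

/-- a Gauss valuation extends to a Gauss valuation -/
theorem g1_up {L N R E₁ : Type} [Field L] [Field N] [CommRing R] [IsDomain R] [CDVR R] [Field E₁]
    {φ : L[X] →+* N} {θ : N} {χ : L[X][X]} {D : L[X]} (h : Etl φ θ χ D) {ι : N →+* Ls L}
    (hι : ∀ p, ι (φ p) = tL L p) (γ : L →+* Fr R) {φ₁ : (Fr R)[X] →+* E₁} {θ₁ : E₁}
    {χ₁ : (Fr R)[X][X]} {D₁ : (Fr R)[X]} (h₁ : Etl φ₁ θ₁ χ₁ D₁) {j : N →+* E₁}
    (hj : ∀ p, j (φ p) = φ₁ (p.map γ)) {π : R} (hπ : Irreducible π) {A' : Vl (Fr R)}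
    (hc : Cen (algebraMap R (Fr R)) A' π) {W' : Vl N} (hW : Gs φ W')
    (e : ∀ a, W' (φ (C a)) ≤ 1 ↔ A' (γ a) ≤ 1) :
    ∃ W₁ : Vl E₁, Gau (algebraMap R (Fr R)) φ₁ π W₁ ∧ Over j W' W₁ := by
  obtain ⟨_, rfl⟩ := exists_frac h₁.inj
  have hα := isFr_alg (Fr R)[X] (Fr (Fr R)[X])
  have := (h₁.alg hα).1
  have hβ := (isFr_alg R (Fr R)).poly hα
  have hP : Prime (C π) := prime_C_iff.2 hπ.prime
  obtain ⟨v, hv, -⟩ := exists_vcen hβ hP
  have hg : Gs (algebraMap (Fr R)[X] (Fr (Fr R)[X])) v := kq_gs (K := Fr R) hπ.prime hv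
  have e1 : ∀ a : R, v.comap ((algebraMap (Fr R)[X] (Fr (Fr R)[X])).comp C) (algebraMap R _ a) =
      v (algebraMap (Fr R)[X] _ ((C a).map (algebraMap R (Fr R)))) := fun a => by
    rw [map_C]
    rfl
  have e2 := hc.iff (isFr_alg R (Fr R)) hπ.prime
    (v' := v.comap ((algebraMap (Fr R)[X] (Fr (Fr R)[X])).comp C))
    ⟨fun a => (e1 a).trans_le (hv.1 _), fun a => by
      rw [e1]
      exact (hv.2 _).trans ⟨fun h => by simpa using (C_dvd_iff_dvd_coeff _ _).1 h 0, map_dvd C⟩⟩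
  obtain ⟨W, h1, h2⟩ := amv_etl γ h (h.desc γ hι) hα hj (v₁ := v) fun p q => (pgr1_le
    (φ' := (algebraMap (Fr R)[X] (Fr (Fr R)[X])).comp (mapRingHom γ)) h.inj
    (hα.1.comp (map_injective γ γ.injective)) hW
    (fun p => by
      have := hg (p.map γ)
      simpa only [RingHom.comp_apply, coe_mapRingHom, map_C, coeff_map] using this)
    (fun a => by
      rw [e, ← e2, RingHom.comp_apply, coe_mapRingHom, map_C]
      rfl) p q).symm
  exact ⟨W, (hv.over hβ hP).2 h1, h2⟩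

/-- good reduction of an unramified `l`-cover -/
theorem gr1 {B L F₁ N : Type} [CommRing B] [Field L] [Field F₁] [Field N] [Algebra F₁ N]
    [FiniteDimensional F₁ N] [IsGalois F₁ N] {χ₀ : B[X][X]} {Φ : B}
    (hG : GoodC χ₀ fun _ _ η => IsUnit (η Φ)) {A : Vl L} (hA : Nrm A) (μ : B →+* A.integer)
    (hΦ : A (μ Φ) = 1) {l : ℕ} (hl : l.Prime) (hl1 : A (l : L) = 1) {ψ : L[X] →+* F₁} {θ : F₁}
    {D : L[X]} (h : Etl ψ θ (χ₀.map (mapRingHom (A.integer.subtype.comp μ))) D)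
    (hp : IsPGroup l (N ≃ₐ[F₁] N)) {ι : N →+* Ls L} (hι : ∀ p, ι (tE N ψ p) = tL L p)
    (hu : ∀ w : Vl N, Triv ((tE N ψ).comp C) w → Ine F₁ w = ⊥) :
    ∃ W : Vl N, GW (tE N ψ) ι A W := by
  obtain ⟨R, _, _, _, _, π, f, γ, hπ, hf, hγ⟩ := g1_zorn hA
  obtain ⟨v, A', hc, h0, h1, h2⟩ := kg0_val hπ
  obtain ⟨ω, hω⟩ := kg0_om R
  have hι₁ : ∀ p, ι.comp (algebraMap F₁ N) (ψ p) = tL L p := hι
  obtain ⟨FR, _, ψ', i, hF, hi⟩ := ffd_bc (etl_ffd h) h.monic γ (h.desc γ hι₁)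
  obtain ⟨l₁, hl₁, hθ⟩ := ffd_hom hF (h.monic.map _) (tL_injective (R := Fr R))
    ((gdesc_root γ hι₁ _).trans (by rw [h.root, map_zero, map_zero]))
  obtain ⟨E₁, _, _, _, _, j, J₁, r, hj, hJ1, hJ2, hr1, hr⟩ := kg0_comp i l₁ ((lm γ).comp ι)
    (RingHom.congr_fun (h.hom_ext (j := ((lm γ).comp ι).comp (algebraMap F₁ N)) (j' := l₁.comp i)
      (fun p => ((congrArg (lm γ) (hι p)).trans (lm_tM γ 1 p)).trans
        ((congrArg l₁ (hi p)).trans (hl₁ _)).symm) hθ.symm))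
  have hjφ : ∀ p, j (tE N ψ p) = tE E₁ ψ' (p.map γ) := fun p => (hj _).trans (congrArg _ (hi p))
  have hι' : ∀ p, J₁ (tE E₁ ψ' p) = tL (Fr R) p := fun p => (hJ1 _).trans (hl₁ p)
  have I := Valuation.integer.integers A
  obtain ⟨hfr, hun⟩ := (hG R (Fr R) FR (f.comp μ) (algebraMap R (Fr R)) ψ' (i θ) l (isFr_alg _ _)
    ((I.isUnit_iff_valuation_eq_one.2 hΦ).map f) (by
      rwa [Polynomial.map_map, mapRingHom_comp, show γ.comp (A.integer.subtype.comp μ) =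
        (algebraMap R (Fr R)).comp (f.comp μ) from RingHom.ext fun a => hf (μ a)] at hF) hl (by
      rw [← map_natCast f]
      exact (I.isUnit_iff_valuation_eq_one.2 (by rwa [map_natCast])).map f)).ta E₁ J₁
    (hp.of_injective r hr1) hι' fun w hw => Rs.ine_bot hr hr1 (Over.comap j w)
      (hu _ fun x hx => (congrArg w ((hjφ _).trans (congrArg _ (map_C γ)))).trans
        (hw _ ((map_ne_zero γ).2 hx)))
  obtain ⟨J, hJ⟩ := g1_fac hω hfr
  refine ⟨(v.comap J).comap j, fun x => (hA.surj _).imp fun a ha => ha.symm, fun z hz => ?_,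
    fun W' hW e x => ?_⟩
  · simpa only [hγ A' hc h0, Valuation.comap_apply, RingHom.comp_apply] using
      g1_max hι hω h1 h2 γ (J := J.comp j) (fun z => (hJ _).trans (hJ2 z)) hf hz
  · obtain ⟨_, _, _, hN⟩ := etl_ext (F' := N) h
    obtain ⟨p, q, hb⟩ := h.bez
    obtain ⟨_, _, _, hE⟩ := etl_ext (F' := E₁) (ffd_etl hF (h.monic.map _) (ρ := D.map γ)
      (α := p.map (mapRingHom γ)) (β := q.map (mapRingHom γ)) (map_ne_zero h.ne) (by
        rw [derivative_map, ← Polynomial.map_mul, ← Polynomial.map_mul, ← Polynomial.map_add, ← hb,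
          map_C, coe_mapRingHom]))
    obtain ⟨W₁, g1, ho⟩ := g1_up hN hι γ hE hjφ hπ hc hW fun a => by rw [e, hγ A' hc h0]
    exact (ho x).symm.trans (hun π _ W₁ hπ (g1_gau hω h1 h2 hι' hJ hc) g1 _)

end Pool.Agent.ZCy.F.Kp
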