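import Pool.Agent.Lib.MP_751085_ag.ZF.K.KDf2
import Pool.Agent.Lib.MP_751085_ag.ZC.Z.Pole
import Pool.Agent.Lib.MP_751085_ag.ZC.K.G0b
import Pool.Agent.Lib.MP_751085_ag.ZC.K.Lau

/-! Good reduction: the value of an integral element. -/

namespace Pool.Agent.ZCy.F.Kp

open Pool.Agent.ZFy Pool.Agent.ZFy.GM
open scoped Classical WithZero IntermediateField PowerSeries
open Polynomial groupCohomology

set_option linter.unusedSectionVars false

theorem pgr1a_lm {R S : Type} [CommRing R] [CommRing S] (f : R →+* S) (a : R⟦X⟧) :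
    lm f (a : Ls R) = (PowerSeries.map f a : Ls S) := by
  ext j
  rw [lm_coeff, PowerSeries.coeff_coe, PowerSeries.coeff_coe]
  split_ifs <;> simp

variable {L N R : Type} [Field L] [Field N] [CommRing R] [IsDomain R] [CDVR R] {φ : L[X] →+* N}
  {ι : N →+* Ls L} (hι : ∀ p, ι (φ p) = tL L p) {ω : Fr R⟦X⟧ →+* Ls (Fr R)}
  (hω : ∀ a : R⟦X⟧, ω (algebraMap R⟦X⟧ _ a) = (PowerSeries.map (algebraMap R (Fr R)) a : Ls (Fr R)))
  {J : N →+* Fr R⟦X⟧} {v : Vl (Fr R⟦X⟧)} {A' : Vl (Fr R)}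
  (h1 : v (algebraMap R⟦X⟧ (Fr R⟦X⟧) PowerSeries.X) = 1) (h2 : ∀ a : R⟦X⟧,
    (∀ j, A' (algebraMap R (Fr R) (PowerSeries.coeff j a)) ≤ v (algebraMap R⟦X⟧ _ a)) ∧
    ∃ j, A' (algebraMap R (Fr R) (PowerSeries.coeff j a)) = v (algebraMap R⟦X⟧ _ a))

include hι hω h1 h2

omit h1 h2 in
theorem pgr1a_pol (γ : L →+* Fr R) (hJ : ∀ z, ω (J z) = lm γ (ι z)) {O : Type} [CommRing O]
    {s : O →+* L} {f : O →+* R} (hf : ∀ a, γ (s a) = algebraMap R (Fr R) (f a)) (p : O[X]) :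
    ∃ (m : ℕ) (a : R⟦X⟧), J (φ (p.map s)) * algebraMap R⟦X⟧ _ PowerSeries.X ^ m =
      algebraMap R⟦X⟧ _ a := by
  obtain ⟨m, hm⟩ := exists_pole (tL R (p.map f))
  obtain ⟨a, ha⟩ := (pole_iff _ _).1 hm
  refine ⟨m, a, ω.injective ?_⟩
  have e : tL R (p.map f) * ((PowerSeries.X ^ m : R⟦X⟧) : Ls R) = (a : Ls R) := by
    rw [ha, HahnSeries.ofPowerSeries_X_pow, mul_right_comm, HahnSeries.single_mul_single,
      neg_add_cancel, mul_one, HahnSeries.single_zero_one, one_mul]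
  rw [map_mul, hJ, hι, lm_tM, Polynomial.map_map,
    RingHom.ext (f := γ.comp s) (g := (algebraMap R (Fr R)).comp f) hf, ← Polynomial.map_map,
    ← lm_tM, ← map_pow, hω, hω, ← pgr1a_lm, ← pgr1a_lm, ← map_mul, e]

omit h1 h2 in
theorem pgr1a_int (γ : L →+* Fr R) (hJ : ∀ z, ω (J z) = lm γ (ι z)) {O : Type} [CommRing O]
    {s : O →+* L} {f : O →+* R} (hf : ∀ a, γ (s a) = algebraMap R (Fr R) (f a)) {z : N}
    (hz : (φ.comp (mapRingHom s)).IsIntegralElem z) :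
    ∃ (m : ℕ) (a : R⟦X⟧), J z * algebraMap R⟦X⟧ _ PowerSeries.X ^ m = algebraMap R⟦X⟧ _ a := by
  have hS : Submonoid.powers (PowerSeries.X : R⟦X⟧) ≤ nonZeroDivisors _ :=
    powers_le_nonZeroDivisors_of_noZeroDivisors PowerSeries.X_ne_zero
  let B := Localization.subalgebra.ofField (Fr R⟦X⟧) _ hS
  let g : O[X] →+* B := (J.comp (φ.comp (mapRingHom s))).codRestrict B fun p => by
    obtain ⟨m, a, h⟩ := pgr1a_pol hι hω γ hJ hf p
    refine ⟨a, _, ⟨m, rfl⟩, ?_⟩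
    rw [← h, map_pow, mul_inv_cancel_right₀ (pow_ne_zero _
      ((map_ne_zero_iff _ (IsFractionRing.injective R⟦X⟧ _)).2 PowerSeries.X_ne_zero))]
    rfl
  obtain ⟨P, hP, h0⟩ := hz
  have hi : IsIntegral B (J z) := ⟨P.map g, hP.map g, by
    rw [Polynomial.eval₂_map]
    have h1 := congrArg J h0
    rw [Polynomial.hom_eval₂, map_zero] at h1
    exact h1⟩
  obtain ⟨⟨_, m, rfl⟩, h⟩ := hi.exists_multiple_integral_of_isLocalization
    (Submonoid.powers (PowerSeries.X : R⟦X⟧))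
  obtain ⟨a, ha⟩ := IsIntegrallyClosed.isIntegral_iff.1 h
  exact ⟨m, a, by rw [ha, Submonoid.smul_def, Algebra.smul_def, map_pow, mul_comm]⟩

theorem g1_max (γ : L →+* Fr R) (hJ : ∀ z, ω (J z) = lm γ (ι z)) {O : Type} [CommRing O]
    {s : O →+* L} {f : O →+* R} (hf : ∀ a, γ (s a) = algebraMap R (Fr R) (f a)) {z : N}
    (hz : (φ.comp (mapRingHom s)).IsIntegralElem z) :
    (∀ j, A' (γ ((ι z).coeff j)) ≤ v (J z)) ∧ ∃ j, A' (γ ((ι z).coeff j)) = v (J z) := by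
  obtain ⟨m, a, h⟩ := pgr1a_int hι hω γ hJ hf hz
  have hv : v (J z) = v (algebraMap R⟦X⟧ _ a) := by
    rw [← h, map_mul, map_pow, h1, one_pow, mul_one]
  have hc : ∀ j, γ ((ι z).coeff j) = if j + m < 0 then 0 else
      algebraMap R (Fr R) (PowerSeries.coeff (j + m).natAbs a) := fun j => by
    have e := congrArg (fun y => (ω y).coeff (j + m)) h
    simp only [map_mul] at e
    rwa [← map_pow, hω, map_pow, PowerSeries.map_X, HahnSeries.ofPowerSeries_X_pow, hJ, hω,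
      HahnSeries.coeff_mul_single_add, mul_one, lm_coeff, PowerSeries.coeff_coe,
      PowerSeries.coeff_map] at e
  rw [hv]
  refine ⟨fun j => ?_, ?_⟩
  · rw [hc]
    split_ifs
    · rw [map_zero]
      exact zero_le
    · exact (h2 a).1 _
  · obtain ⟨j, hj⟩ := (h2 a).2
    refine ⟨j - m, ?_⟩
    rw [hc, sub_add_cancel, if_neg (by omega), Int.natAbs_natCast, hj]

omit hι h1 h2 in
/-- factorisation through the fraction field of the power series ring -/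
theorem g1_fac {ι' : N →+* Ls (Fr R)} (h : ∀ x, ∃ a b : Ps R, b ≠ 0 ∧
    ι' x * lau (algebraMap R (Fr R)) b = lau (algebraMap R (Fr R)) a) :
    ∃ J : N →+* Fr R⟦X⟧, ∀ z, ω (J z) = ι' z := by
  have H : ∀ x, ∃ y, ω y = ι' x := fun x => by
    obtain ⟨a, b, hb, e⟩ := h x
    refine ⟨algebraMap R⟦X⟧ _ a / algebraMap R⟦X⟧ _ b, ?_⟩
    rw [map_div₀, div_eq_iff ((map_ne_zero ω).2
      ((map_ne_zero_iff _ (IsFractionRing.injective R⟦X⟧ _)).2 hb)), hω, hω]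
    exact e.symm
  choose J hJ using H
  exact ⟨⟨⟨⟨J, ω.injective (by rw [hJ, map_one, map_one])⟩,
    fun a b => ω.injective (by simp only [hJ, map_mul])⟩,
    ω.injective (by simp only [hJ, map_zero]),
    fun a b => ω.injective (by simp only [hJ, map_add])⟩, hJ⟩

omit hι in
/-- `g1_max` for `z = φ' (p.map _)`, `kl_coeff_tM` -/
theorem g1_gau {φ' : (Fr R)[X] →+* N} {ι' : N →+* Ls (Fr R)} (hι' : ∀ p, ι' (φ' p) = tL _ p)
    (hJ : ∀ z, ω (J z) = ι' z) {π : R} (hc : Cen (algebraMap R (Fr R)) A' π) :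
    Gau (algebraMap R (Fr R)) φ' π (v.comap J) := by
  have H : ∀ p : R[X], (∀ i, A' (algebraMap R (Fr R) (p.coeff i)) ≤
      v (J (φ' (p.map (algebraMap R (Fr R)))))) ∧ ∃ i, v (J (φ' (p.map (algebraMap R (Fr R))))) ≤
        A' (algebraMap R (Fr R) (p.coeff i)) := fun p => by
    obtain ⟨h3, j, h4⟩ := g1_max hι' hω h1 h2 (RingHom.id _)
      (fun z => (hJ z).trans (HahnSeries.ext rfl)) (s := algebraMap R (Fr R)) (f := RingHom.id R)
      (fun _ => rfl) (RingHom.isIntegralElem_map _ (x := p))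
    rw [RingHom.comp_apply, coe_mapRingHom, hι'] at h3 h4
    refine ⟨fun i => ?_, ?_⟩
    · have := h3 (-(i : ℤ))
      rwa [tL_coeff, coeff_map] at this
    · rcases tM_coeff_cases one_pos (p.map (algebraMap R (Fr R))) j with e | ⟨i, e⟩
      · rw [e, map_zero, map_zero] at h4
        exact ⟨0, h4.ge.trans zero_le⟩
      · rw [e, coeff_map] at h4
        exact ⟨i, h4.ge⟩
  refine ⟨fun p => ?_, fun p => ⟨fun h => (C_dvd_iff_dvd_coeff _ _).2 fun i =>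
    (hc.2 _).1 (((H p).1 i).trans_lt h), fun h => ?_⟩⟩
  · obtain ⟨i, hi⟩ := (H p).2
    exact hi.trans (hc.1 _)
  · obtain ⟨i, hi⟩ := (H p).2
    exact hi.trans_lt ((hc.2 _).2 ((C_dvd_iff_dvd_coeff _ _).1 h i))

end Pool.Agent.ZCy.F.Kp
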