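import Pool.Agent.Lib.MP_751085_ag.ZF.K.Fb
import Pool.Agent.Lib.MP_751085_ag.ZF.K.Pi
import Pool.Agent.Lib.MP_751085_ag.ZF.K.NeedA
import Pool.Agent.Lib.MP_751085_ag.ZF.A5b
import Pool.Agent.Lib.MP_751085_ag.ZC.K.G0a

/-! Classes of invertible order die over the separable closure of the constants. -/

namespace Pool.Agent.ZCy.F.Kp

open Pool.Agent.ZFy Pool.Agent.ZFy.GM
open scoped Classical WithZero IntermediateField
open Polynomial groupCohomology

set_option linter.unusedSectionVars false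

/-- the compositum of a Galois and a purely inseparable extension -/
theorem ki_comp {E E' S : Type} [Field E] [Field E'] [Field S] [Algebra E S] [FiniteDimensional E S]
    [IsGalois E S] {i : E →+* E'} (hi : PI i) :
    ∃ (S' : Type) (_ : Field S') (_ : Algebra E' S') (_ : FiniteDimensional E' S')
      (_ : IsGalois E' S') (j : S →+* S') (r : (S' ≃ₐ[E'] S') → S ≃ₐ[E] S),
      (∀ a, j (algebraMap E S a) = algebraMap E' S' (i a)) ∧ (∀ g x, j (r g x) = g (j x)) ∧
      Function.Bijective r ∧ PI j := by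
  obtain ⟨S', _, _, _, _, j, r, hj, hr, hin, ha⟩ := exists_bc S i
  have hS : ExpChar S (ringExpChar E) :=
    expChar_of_injective_ringHom (algebraMap E S).injective _
  have h1 : ∀ y, ∃ (n : ℕ) (a : E),
      j (algebraMap E S a) = algebraMap E' S' y ^ ringExpChar E ^ n := fun y => by
    obtain ⟨n, a, e⟩ := hi y
    exact ⟨n, a, by rw [hj, e, map_pow]⟩
  refine ⟨S', inferInstance, inferInstance, inferInstance, inferInstance, j, r, hj, hr,
    ⟨hin, hr.surj fun x hx g => ?_⟩,
    pi_clo (S := Set.range (algebraMap E' S') ∪ Set.range j) ?_ ?_⟩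
  · obtain ⟨y, hy⟩ := mem_range_of_fix hx
    obtain ⟨n, a, e⟩ := h1 y
    rw [hy, ← map_pow] at e
    refine (iterateFrobenius S (ringExpChar E) n).injective ?_
    rw [iterateFrobenius_def, iterateFrobenius_def, ← map_pow, ← j.injective e, g.commutes]
  · rw [← IntermediateField.adjoin_toSubfield, ha]
    rfl
  · rintro _ (⟨y, rfl⟩ | ⟨y, rfl⟩)
    · obtain ⟨n, a, e⟩ := h1 y
      exact ⟨n, _, e.trans (by rw [ringExpChar.eq S (ringExpChar E)])⟩
    · exact ⟨0, y, by rw [pow_zero, pow_one]⟩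

/-- restriction to a purely inseparable extension is injective on classes of invertible order -/
theorem ki_ins {E E' : Type} [Field E] [Field E'] {i : E →+* E'} (hi : PI i) {N : ℕ}
    (hN : (N : E) ≠ 0) {a : BR E} (ha : N • a = 0) (h : rs i a = 0) : a = 0 := by
  obtain ⟨S, _, _, c, -, hc, rfl⟩ := exists_cls a ∅
  obtain ⟨S', _, _, _, _, j, r, hj, hr, hb, hp⟩ := ki_comp (S := S) hi
  have hr' : ∀ g x, j (r g • x) = g • j x := hr
  rw [ka_pull i hj hr' hc, ka_zero (pull_coc hr' hc)] at h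
  obtain ⟨e, he⟩ := h
  obtain ⟨n, x, hx⟩ := hp.fin fun g => (e g : S')
  have h0 : ∀ g, x g ≠ 0 := fun g u =>
    pow_ne_zero _ (e g).ne_zero ((hx g).symm.trans (by rw [u, map_zero]))
  obtain ⟨s, hs, hs'⟩ := Function.bijective_iff_has_inverse.1 hb
  have h1 : pull j r (dd fun g => Units.mk0 (x (s g)) (h0 _)) = pull j r c ^ ringExpChar S ^ n := by
    rw [he]
    exact (pull_dd hr' _).trans ((congrArg dd (funext fun g => Units.ext
      (by simpa [hs g] using hx g))).trans (dd_pow e _))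
  have h2 : ringExpChar S ^ n • cls E c = 0 := by
    rw [← cls_pow hc, ka_zero (coc_pow hc _)]
    refine ⟨fun g => Units.mk0 (x (s g)) (h0 _), funext fun p =>
      Units.map_injective (f := (j : S →* S')) j.injective ?_⟩
    have := congrFun h1 (s p.1, s p.2)
    simp only [pull, Pi.pow_apply, hs' p.1, hs' p.2] at this
    exact (map_pow _ _ _).trans this.symm
  have hN' : (N : S) ≠ 0 := by rwa [← map_natCast (algebraMap E S), _root_.map_ne_zero]
  exact AddMonoid.addOrderOf_eq_one_iff.1 (Nat.eq_one_of_dvd_coprimes (pi_cop hN' n)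
    (addOrderOf_dvd_of_nsmul_eq_zero h2) (addOrderOf_dvd_of_nsmul_eq_zero ha))

theorem pins_smul {E E' : Type} [Field E] [Field E'] (i : E →+* E') {N : ℕ} {a : BR E}
    (ha : N • a = 0) : N • rs i a = 0 := by rw [← map_nsmul, ha, map_zero]

/-- the theorem of Tsen for a plane curve -/
theorem ki_tsen {T E : Type} [Field T] [IsAlgClosed T] [Field E] {ψ : T[X] →+* E} {θ : E}
    {χ : T[X][X]} (h : FFd ψ θ χ) (hm : χ.Monic) (a : BR E) : a = 0 := by
  let : Algebra T E := (ψ.comp C).toAlgebra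
  let ψ₀ : T[X] →+* T⟮ψ X⟯ := (aeval (IntermediateField.AdjoinSimple.gen T (ψ X))).toRingHom
  have e : (algebraMap T⟮ψ X⟯ E).comp ψ₀ = ψ :=
    Polynomial.ringHom_ext (fun a => congrArg Subtype.val (aeval_C _ a))
      (congrArg Subtype.val (aeval_X _))
  have h1 : ∀ q : T[X][X], q.eval₂ ψ θ = aeval θ (q.map ψ₀) := fun q => by
    rw [aeval_def, eval₂_map, e]
  have hi : IsIntegral T⟮ψ X⟯ θ := ⟨_, hm.map ψ₀, by
    rw [← aeval_def, ← h1]
    exact (h.ker _).2 dvd_rfl⟩
  have h2 : ∀ q : T[X][X], q.eval₂ ψ θ ∈ T⟮ψ X⟯⟮θ⟯ := fun q => by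
    rw [h1]
    exact IntermediateField.algebra_adjoin_le_adjoin _ _ (aeval_mem_adjoin_singleton _ _)
  have ht : T⟮ψ X⟯⟮θ⟯ = ⊤ := eq_top_iff.2 fun f _ => by
    obtain ⟨p, q, -, rfl⟩ := h.frac f
    exact div_mem (h2 p) (h2 q)
  have hf := IntermediateField.adjoin.finiteDimensional hi
  rw [ht] at hf
  have : FiniteDimensional T⟮ψ X⟯ E :=
    Module.Finite.equiv IntermediateField.topEquiv.toLinearEquiv
  exact tsen (k := T) (ψ X) a

variable {K F : Type} [Field K] [Field F] [Algebra K[X] F] [Algebra F (Os K)] (c : Cur K F)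

include c in
theorem ki_fb {N : ℕ} (hN : (N : K) ≠ 0) {a : BR F} (ha : N • a = 0) :
    rs (algebraMap F (Fb K F)) a = 0 := by
  have hm := c.gp.monic.map (mapRingHom (algebraMap K (Ks K)))
  obtain ⟨E', _, ψ', i, h', hc⟩ := ffd_bc (kf_ff c) hm (algebraMap (Ks K) (Kb K)) (by
    rw [Polynomial.map_map, mapRingHom_comp, ← IsScalarTower.algebraMap_eq]
    exact c.gp.irr)
  exact ki_ins (ffd_pi h' hc (pi_ks K)) (kf_ne c hN _) (pins_smul _ ha)
    (ki_tsen h' (hm.map _) _)

end Pool.Agent.ZCy.F.Kp
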