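import Pool.Agent.Lib.MP_751085_ag.ZF.K.PlUp
import Pool.Agent.Lib.MP_751085_ag.ZF.K.Gp

/-! Finiteness of the Kummer classes over a separably closed field. -/

namespace Pool.Agent.ZCy.F.Kp

open Pool.Agent.ZFy Pool.Agent.ZFy.GM
open scoped Classical WithZero IntermediateField
open Polynomial groupCohomology

set_option linter.unusedSectionVars false

theorem fin_sep (hF : FIN) {K E : Type} [Field K] [IsSepClosed K] [Field E] {ψ : K[X] →+* E} {θ : E}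
    {χ : K[X][X]} (hg : GP χ) (h : FFd ψ θ χ) {l : ℕ} (hl : l.Prime) (hl0 : (l : K) ≠ 0) :
    ∃ U : Finset E, (∀ u ∈ U, TyW l (ψ.comp C) u) ∧
      ∀ u, TyW l (ψ.comp C) u → ∃ u' ∈ U, ∃ z, u = u' * z ^ l := by
  let γ := algebraMap K (Kb K)
  obtain ⟨E', _, ψ', i, h', hc⟩ := ffd_bc h hg.monic γ hg.irr
  have hi := ffd_pi h' hc (pi_sep γ fun y => Algebra.IsIntegral.isIntegral y)
  obtain ⟨U, hU⟩ := hF (Kb K) E' ψ' (i θ) _ l hl
    (by rwa [← map_natCast γ, _root_.map_ne_zero]) (hg.monic.map _) h' (hg.splits γ)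
    ((hg.map γ).sep (ffd_inj h' (hg.monic.map _)))
  have h0 : TyW l (ψ.comp C) (0 : E) := fun v _ => by simp [ord]
  have key : ∀ u' : E', ∃ u₀ : E, TyW l (ψ.comp C) u₀ ∧ ∀ u, TyW l (ψ.comp C) u → u ≠ 0 →
      ∀ z, i u = u' * z ^ l → ∃ y, u = u₀ * y ^ l := fun u' => by
    by_cases k : ∃ u₀, TyW l (ψ.comp C) u₀ ∧ u₀ ≠ 0 ∧ ∃ z, i u₀ = u' * z ^ l
    · obtain ⟨u₀, k1, k2, z₀, k3⟩ := k
      refine ⟨u₀, k1, fun u _ _ z e => ?_⟩
      obtain ⟨y, hy⟩ := pi_root hi (m := l)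
        (by rwa [← map_natCast (ψ.comp C), _root_.map_ne_zero]) (x := u / u₀) (z := z / z₀) (by
          rw [map_div₀, e, k3, div_pow,
            mul_div_mul_left _ _ (left_ne_zero_of_mul (k3 ▸ (_root_.map_ne_zero i).2 k2))])
      exact ⟨y, by rw [← hy, mul_div_cancel₀ _ k2]⟩
    · exact ⟨0, h0, fun u k1 k2 z e => (k ⟨u, k1, k2, z, e⟩).elim⟩
  choose f f1 f2 using key
  refine ⟨insert 0 (U.image f), fun u hu => ?_, fun u hu => ?_⟩
  · rcases Finset.mem_insert.1 hu with rfl | hu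
    · exact h0
    · obtain ⟨u', -, rfl⟩ := Finset.mem_image.1 hu
      exact f1 u'
  · by_cases k : u = 0
    · exact ⟨0, Finset.mem_insert_self _ _, 1, by simp [k]⟩
    obtain ⟨u', k1, z, e⟩ := hU (i u) (tyw_up γ i (fun a => by simp [hc]) hu)
    exact ⟨f u', Finset.mem_insert_of_mem (Finset.mem_image_of_mem f k1), f2 u' u hu k z e⟩

theorem k0_abs {K Ω K₁ : Type} [Field K] [Field Ω] [Field K₁] [Algebra K Ω] [IsGalois K Ω]
    [Algebra K K₁] [FiniteDimensional K K₁] [IsGalois K K₁] (e : K₁ →ₐ[K] Ω)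
    (H : Subgroup (Ω ≃ₐ[K] Ω)) (hH : H.Normal) (h : ∀ σ : Ω ≃ₐ[K] Ω, (∀ a, σ (e a) = e a) → σ ∈ H) :
    ∃ (K₀ : IntermediateField K Ω) (j : K₀ →ₐ[K] K₁), FiniteDimensional K K₀ ∧ IsGalois K K₀ ∧
      (∀ x, e (j x) = x) ∧ ∀ σ, σ ∈ H ↔ ∀ x ∈ K₀, σ x = x := by
  let := e.toRingHom.toAlgebra
  have : IsScalarTower K K₁ Ω := IsScalarTower.of_algebraMap_eq fun a => (e.commutes a).symm
  let r : (Ω ≃ₐ[K] Ω) →* (K₁ ≃ₐ[K] K₁) := AlgEquiv.restrictNormalHom K₁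
  have hr : ∀ σ x, e (r σ x) = σ (e x) := fun σ x => σ.restrictNormal_commutes K₁ x
  have := hH.map r (AlgEquiv.restrictNormalHom_surjective Ω)
  let L := IntermediateField.fixedField (H.map r)
  let q := IntermediateField.equivMap L e
  refine ⟨L.map e, L.val.comp q.symm, q.toLinearEquiv.finiteDimensional, IsGalois.of_algEquiv q,
    fun x => congrArg Subtype.val (q.apply_symm_apply x), fun σ => ⟨fun hσ => ?_, fun hσ => ?_⟩⟩
  · rintro _ ⟨y, hy, rfl⟩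
    exact (hr σ y).symm.trans (congrArg e (hy ⟨_, σ, hσ, rfl⟩))
  · obtain ⟨τ, hτ, k⟩ : r σ ∈ H.map r := by
      rw [← IntermediateField.fixingSubgroup_fixedField (H.map r)]
      exact fun y => e.injective ((hr σ y).trans (hσ _ ⟨y, y.2, rfl⟩))
    refine (H.mul_mem_cancel_left (H.inv_mem hτ)).1 (h _ fun a => ?_)
    rw [← hr, map_mul, map_inv, k, inv_mul_cancel, AlgEquiv.one_apply]

theorem k0_conj {A K K₁ : Type} [CommRing A] [IsDomain A] [UniqueFactorizationMonoid A] [Field K]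
    [Field K₁] [Algebra A K] [IsFractionRing A K] [Algebra K K₁] [FiniteDimensional K K₁]
    [IsGalois K K₁] {P : A} (hP : Prime P) {w w' : Vl K₁} (h : Cen (toF A K K₁) w P)
    (h' : Cen (toF A K K₁) w' P) {g : K₁ ≃ₐ[K] K₁} (hg : g ∈ Ine K w) :
    ∃ t : K₁ ≃ₐ[K] K₁, t * g * t⁻¹ ∈ Ine K w' := by
  obtain ⟨t, ht⟩ := Cen.conj (isFr_alg A K) hP h' h
  exact ⟨t, mem_ine_comap.1 (ine_congr (K := K) (u := w) (w := w'.comap (t : K₁ →+* K₁)) ht ▸ hg)⟩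

end Pool.Agent.ZCy.F.Kp
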