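import Pool.Agent.Lib.MP_751085_ag.ZF.K.GDefs
import Pool.Agent.Lib.MP_751085_ag.ZC.K.KDef2
import Pool.Agent.Lib.MP_796ce4_ag.ZY.CvP

/-! Block K in any characteristic: definitions. -/

namespace Pool.Agent.ZFy

open Pool.Agent.ZCy
open scoped Classical WithZero
open Polynomial

/-- a geometrically irreducible separable plane curve that splits at infinity -/
structure GP {K : Type} [Field K] (χ : K[X][X]) : Prop where
  monic : χ.Monic
  bez : ∃ (ρ : K[X]) (α β : K[X][X]), ρ ≠ 0 ∧ C ρ = α * χ + β * derivative χ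
  irr : Irreducible (χ.map (mapRingHom (algebraMap K (Kb K))))
  spl : (χ.map ((tL (Ks K)).comp (mapRingHom (algebraMap K (Ks K))))).Splits

/-- The automorphisms of the constants over `K` fix the unramified Kummer classes of the curve
`χ = 0`. -/
def WF (l : ℕ) {K : Type} [Field K] (χ : K[X][X]) : Prop :=
  ∀ (T Fs : Type) [Field T] [Algebra K T] [IsAlgClosure K T] [Field Fs] (ψ : T[X] →+* Fs) (θ : Fs)
    (σ : T ≃ₐ[K] T) (g : Fs →+* Fs), FFd ψ θ (χ.map (mapRingHom (algebraMap K T))) →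
    (∀ p, g (ψ p) = ψ (p.map (σ : T →+* T))) → g θ = θ →
    ∀ u, TyW l (ψ.comp C) u → ∃ z, g u = u * z ^ l

/-- Divisors of degree zero are divisible modulo principal divisors. -/
def DIVp : Prop :=
  ∀ (𝕜 : Type) [Field 𝕜] [IsAlgClosed 𝕜] (c : ZeroCyc.Cv 𝕜), Irreducible c.χ →
    ∀ D ∈ c.Dv, D.degree = 0 → ∀ M : ℕ, (M : 𝕜) ≠ 0 → ∃ D' ∈ c.Dv, D - M • D' ∈ c.PP

end Pool.Agent.ZFy

namespace Pool.Agent.ZCy.F.Kp

open Pool.Agent.ZFy
open scoped Classical WithZero IntermediateField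
open Polynomial groupCohomology

set_option linter.unusedSectionVars false

/-- Laurent series over the separable closure -/
abbrev Os (K : Type) [Field K] : Type := Ls (Ks K)

/-- the constants `K` in an extension `E` of `F` -/
noncomputable abbrev kap (K F E : Type) [Field K] [Field F] [Field E] [Algebra K[X] F]
    [Algebra F E] : K →+* E := (toF K[X] F E).comp C

variable (K F : Type) [Field K] [Field F] [Algebra K[X] F] [Algebra F (Os K)]

/-- A plane curve over `K` with function field `F`, embedded in Laurent series in `1 / τ`. -/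
structure Cur where
  χ : K[X][X]
  θ : F
  gp : GP χ
  ff : FFd (algebraMap K[X] F) θ χ
  inf : ∀ p : K[X], toF K[X] F (Os K) p = tL _ (p.map (algebraMap K (Ks K)))

/-- the compositum of `F` and the constants -/
noncomputable def Fb : IntermediateField F (Os K) :=
  IntermediateField.adjoin F (Set.range (hc : Ks K →+* Os K))

/-- the constants of `Fb` -/
noncomputable def cb : Ks K →+* Fb K F :=
  (hc : Ks K →+* Os K).codRestrict (Fb K F) fun a => IntermediateField.subset_adjoin _ _ ⟨a, rfl⟩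

/-- the polynomials in `τ` over the constants -/
noncomputable def psb : (Ks K)[X] →+* Fb K F := eval₂RingHom (cb K F) (toF K[X] F (Fb K F) X)

variable {K F}

/-- `g` fixes the constants -/
def FixC {E : IntermediateField F (Os K)} (g : E → E) : Prop :=
  ∀ x : E, (x : Os K) ∈ Set.range (hc : Ks K →+* Os K) → g x = x

/-- `g` is the action of `σ` on the coefficients -/
def Cw {E : IntermediateField F (Os K)} (σ : Ks K →+* Ks K) (g : E → E) : Prop :=
  ∀ x : E, (g x : Os K) = lm σ x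

/-- the admissible fields: generated by roots of unramified Kummer classes -/
structure Nice (M : ℕ) (E : IntermediateField F (Os K)) : Prop where
  fin : FiniteDimensional F E
  gal : IsGalois F E
  gen : ∃ Z : Set (Os K), E = IntermediateField.adjoin F Z ∧
    ∀ z ∈ Z, ∃ u : Fb K F, (u : Os K) = z ^ M ∧ TyW M (cb K F) u

/-- `S` is the field of constants and of coefficients of `E` -/
structure Frm (S : Set (Ks K)) (E : IntermediateField F (Os K)) : Prop where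
  cf : ∀ y ∈ E, ∀ n, y.coeff n ∈ S
  cst : ∀ a ∈ S, hc a ∈ E

/-- the elements that act through automorphisms of the coefficients over `K₂` -/
def secG (K₂ : Type) [Field K₂] [Algebra K₂ (Ks K)] (E : IntermediateField F (Os K)) :
    Subgroup (E ≃ₐ[F] E) where
  carrier := {g | ∃ σ : Ks K ≃ₐ[K₂] Ks K, Cw (σ : Ks K →+* Ks K) g}
  one_mem' := ⟨1, fun _ => rfl⟩
  mul_mem' := fun {_ b} ⟨σ, h⟩ ⟨σ', h'⟩ => ⟨σ * σ', fun x =>
    (h (b x)).trans (congrArg (lm (σ : Ks K →+* Ks K)) (h' x))⟩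
  inv_mem' := fun {a} ⟨σ, h⟩ => ⟨σ⁻¹, fun x => by
    have h1 := h (a⁻¹ x)
    rw [← AlgEquiv.mul_apply, mul_inv_cancel, AlgEquiv.one_apply] at h1
    rw [h1]
    ext n
    exact congrArg Subtype.val (σ.symm_apply_apply _).symm⟩

/-- the constants of `E` -/
noncomputable def Frm.J {K₂ : Type} [Field K₂] [Algebra K₂ (Ks K)] {E : IntermediateField F (Os K)}
    {K₁ : IntermediateField K₂ (Ks K)} (hf : Frm (K₁ : Set (Ks K)) E) : K₁ →+* E :=
  ((hc : Ks K →+* Os K).comp (K₁.val : K₁ →+* Ks K)).codRestrict E fun a => hf.cst a a.2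

variable {A : Type} [CommRing A] [Algebra A K]

/-- the curve has a good model at the prime `P`, which does not divide `l` -/
structure Cur.Red (c : Cur K F) (l : ℕ) (P : A) : Prop where
  prime : Prime P
  nd : ¬P ∣ (l : A)
  ex : ∃ (χ₀ : A[X][X]) (Φ : A), χ₀.Monic ∧ χ₀.map (mapRingHom (algebraMap A K)) = c.χ ∧ ¬P ∣ Φ ∧
    GoodC χ₀ fun _ _ η => IsUnit (η Φ)

variable (K₂ : Type) [Field K₂] [Algebra K K₂] [Algebra K₂ (Ks K)]

/-- `M` is a power of `l`, and `K₂` contains the roots of unity and the coefficients of `F`. -/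
structure Sct (F : Type) [Field F] [Algebra F (Os K)] (l M : ℕ) : Prop where
  prime : l.Prime
  ne : (l : K) ≠ 0
  pw : ∃ e, M = l ^ e
  root : ∃ ζ : K₂, IsPrimitiveRoot ζ M
  sec : ∃ j : F →+* Ls K₂, ∀ x, algebraMap F (Os K) x = lm (algebraMap K₂ (Ks K)) (j x)

/-- The hypotheses on the curve and on the field `K₂`. -/
structure Cur.Bas (c : Cur K F) (l M : ℕ) (Φ : A) : Prop where
  sct : Sct (K := K) K₂ F l M
  red : ∀ P : A, Prime P → ¬P ∣ Φ → c.Red l P
  unr : UnrOff K (toF A K K₂) 1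

/-- The hypotheses for tameness at the prime `P`. -/
structure Cur.Tm (c : Cur K F) (l : ℕ) (P : A) : Prop where
  red : c.Red l P
  tame : ∀ w : Vl K₂, Cen (toF A K K₂) w P → Tame K w

variable {K₂} {A₂ : Type} [CommRing A₂] [Algebra A₂ K₂] [IsScalarTower K K₂ (Ks K)]

/-- The field `E` with constants `K₁`, which contain roots `ϖ i` of the ramified primes `π i`. -/
structure Big (M : ℕ) (A : Type) [CommRing A] [Algebra A K]
    (E : IntermediateField F (Os K)) (K₁ : IntermediateField K₂ (Ks K)) {n : ℕ} (π : Fin n → A₂)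
    (ϖ : Fin n → K₁) : Prop where
  nice : Nice M E
  fin : FiniteDimensional K K₁
  gal : IsGalois K K₁
  frm : Frm (K₁ : Set (Ks K)) E
  prime : ∀ i, Prime (π i)
  inj : ∀ i j, π i ∣ π j → i = j
  pw : ∀ i, ϖ i ^ M = toF A₂ K₂ K₁ (π i)
  ram : ∀ (w : Vl K₁) (P : A), Prime P → Cen (toF A K K₁) w P → Ine K w ≠ ⊥ →
    ∃ i, w (toF A₂ K₂ K₁ (π i)) < 1

/-- the elements of order prime to `l` that fix `S`, if `T` holds -/
def Pl (F : Type) {E : Type} [Field F] [Field E] [Algebra F E] (l : ℕ) (S : Set E) (T : Prop) :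
    Set (E ≃ₐ[F] E) :=
  {g | T ∧ (∀ x ∈ S, g x = x) ∧ ∃ q : ℕ, q.Coprime l ∧ g ^ q = 1}

/-- The data for the Kummer characters. -/
structure KumD (F : Type) {E : Type} [Field F] [Field E] [Algebra F E] (M : ℕ) (𝒲 : Set (Vl E))
    (R : Subgroup (E ≃ₐ[F] E)) {k : ℕ} (ϖ : Fin k → Eˣ) : Prop where
  pos : 0 < M
  stb : Stb F 𝒲
  mu : ∀ r ∈ R, ∀ a : Eˣ, a ^ M = 1 → r • a = a
  pw : ∀ r ∈ R, ∀ i, r • ϖ i ^ M = ϖ i ^ M
  le : ∀ w ∈ 𝒲, Ine F w ≤ R
  cyc : ∀ w ∈ 𝒲, ∃ s ∈ Ine F w, ∀ n ∈ Ine F w, ∃ j q : ℕ, q.Coprime M ∧ (n * (s ^ j)⁻¹) ^ q = 1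
  unit : ∀ w ∈ 𝒲, w (M : E) = 1
  one : ∀ w ∈ 𝒲, Ine F w ≠ ⊥ → ∃ i, w (ϖ i : E) < 1 ∧ (∀ j, j ≠ i → w (ϖ j : E) = 1) ∧
    ∀ m : ℕ, (∀ g ∈ Ine F w, g ((ϖ i : E) ^ m) = (ϖ i : E) ^ m) → M ∣ m
  conj : ∀ w ∈ 𝒲, ∀ w' ∈ 𝒲, ∀ i, w (ϖ i : E) < 1 → w' (ϖ i : E) < 1 → ∃ r ∈ R, w' = vsm r w

/-- an automorphism that fixes `K₂` and `K₃` has `l`-power order on `E` -/
def LAd (l : ℕ) (K K₂ K₃ F E : Type) [Field K] [Field K₂] [Field K₃] [Field F] [Field E]
    [Algebra K K₂] [Algebra K K₃] [Algebra K[X] F] [Algebra F E] : Prop :=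
  ∀ (Ω : Type) [Field Ω] [Algebra F Ω] [Algebra.IsAlgebraic F Ω] (i : E →ₐ[F] Ω) (e₂ : K₂ →+* Ω)
    (e₃ : K₃ →+* Ω) (g : Ω ≃ₐ[F] Ω), (∀ a, e₂ (algebraMap K K₂ a) = kap K F Ω a) →
    (∀ a, e₃ (algebraMap K K₃ a) = kap K F Ω a) → (∀ a, g (e₂ a) = e₂ a) → (∀ a, g (e₃ a) = e₃ a) →
    ∃ m : ℕ, ∀ x, (g ^ l ^ m) (i x) = i x

end Pool.Agent.ZCy.F.Kp
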