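import Pool.Agent.Lib.MP_751085_ag.ZF.K.KDefs
import Pool.Agent.Lib.MP_751085_ag.ZC.K.GauC
import Pool.Agent.Lib.MP_751085_ag.ZF.G.Defs

/-! Block K in any characteristic: more definitions. -/

namespace Pool.Agent.ZCy.F.Kp

open Pool.Agent.ZFy Pool.Agent.ZFy.GM
open scoped Classical WithZero IntermediateField
open Polynomial groupCohomology

set_option linter.unusedSectionVars false

/-- purely inseparable -/
def PI {A B : Type} [Field A] [Field B] (i : A →+* B) : Prop :=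
  ∀ y, ∃ n : ℕ, y ^ ringExpChar A ^ n ∈ i.range

/-- not trivial -/
def NT {E : Type} [Field E] (v : Vl E) : Prop := ∃ x, x ≠ 0 ∧ v x < 1

/-- `W` is the only Gauss valuation above `A`, and it is the sup norm of the expansions -/
structure GW {L N : Type} [Field L] [Field N] (φ : L[X] →+* N) (ι : N →+* Ls L) (A : Vl L)
    (W : Vl N) : Prop where
  e1 : ∀ x, ∃ a, W x = A a
  max : ∀ z, (φ.comp (mapRingHom A.integer.subtype)).IsIntegralElem z →
    (∀ j, A ((ι z).coeff j) ≤ W z) ∧ ∃ j, A ((ι z).coeff j) = W z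
  uniq : ∀ W' : Vl N, Gs φ W' → (∀ a, W' (φ (C a)) ≤ 1 ↔ A a ≤ 1) → ∀ x, W' x ≤ 1 ↔ W x ≤ 1

/-- all coefficients are integral and one is a unit -/
def Prm {L : Type} [Field L] (v : Vl L) (G : L[X][X]) : Prop :=
  (∀ i j, v ((G.coeff i).coeff j) ≤ 1) ∧ ∃ i j, v ((G.coeff i).coeff j) = 1

variable {K F : Type} [Field K] [Field F] [Algebra K[X] F] [Algebra F (Os K)]

/-- the geometric Galois group -/
def fixC (E : IntermediateField F (Os K)) : Subgroup (E ≃ₐ[F] E) where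
  carrier := {g | FixC (⇑g)}
  one_mem' := fun _ _ => rfl
  mul_mem' := fun {a b} ha hb x hx => by rw [AlgEquiv.mul_apply, hb x hx, ha x hx]
  inv_mem' := fun {a} ha x hx => by
    have := congrArg (fun y => a⁻¹ y) (ha x hx)
    simpa using this.symm

variable (F) in
/-- `σ` fixes the unramified Kummer classes -/
def WS (l : ℕ) (σ : Ks K ≃ₐ[K] Ks K) : Prop :=
  ∀ γ : Fb K F ≃ₐ[F] Fb K F, (∀ a, γ (cb K F a) = cb K F (σ a)) →
    ∀ u, TyW l (cb K F) u → ∃ z, γ u = u * z ^ l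

/-- the elements of `E` that come from `K₂` or `K₃` -/
def S23 (K₂ : Type) [Field K₂] [Algebra K₂ (Ks K)] {K₃ : Type} [Field K₃] [Algebra K K₃]
    (e₃ : K₃ →ₐ[K] Ks K) (E : IntermediateField F (Os K)) : Set E :=
  {x | (∃ a : K₂, (x : Os K) = hc (algebraMap K₂ (Ks K) a)) ∨ ∃ a, (x : Os K) = hc (e₃ a)}

/-- polynomials in `τ` over the constants of `E` -/
noncomputable def Frm.φ {K₂ : Type} [Field K₂] [Algebra K₂ (Ks K)] {E : IntermediateField F (Os K)}
    {K₁ : IntermediateField K₂ (Ks K)} (hf : Frm (K₁ : Set (Ks K)) E) : K₁[X] →+* E :=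
  eval₂RingHom hf.J (toF K[X] F E X)

end Pool.Agent.ZCy.F.Kp
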