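import Pool.Agent.Lib.MP_751085_ag.ZF.K.KDf2
import Pool.Agent.Lib.MP_751085_ag.ZC.K.Val
import Pool.Agent.Lib.MP_751085_ag.ZC.K.GrpB
import Pool.Agent.Lib.MP_751085_ag.ZC.V.Tam

/-! Characters of inertia groups are Kummer characters; descent of the cocycle. -/

namespace Pool.Agent.ZCy.F.Kp

open Pool.Agent.ZFy Pool.Agent.ZFy.GM
open scoped Classical WithZero IntermediateField
open Polynomial groupCohomology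

set_option linter.unusedSectionVars false

variable {F E : Type} [Field F] [Field E] [Algebra F E] {M k : ℕ}

/-- the image of the tame character is cyclic, its kernel has order prime to `M` -/
theorem kc_cyc [FiniteDimensional F E] {w : Vl E} (hw : Nrm w) (hM : w (M : E) = 1) :
    ∃ s ∈ Ine F w, ∀ n ∈ Ine F w, ∃ j q : ℕ, q.Coprime M ∧ (n * (s ^ j)⁻¹) ^ q = 1 := by
  obtain ⟨κ, _, ρ, hρ, -⟩ := exists_resf w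
  obtain ⟨θ, -, hθ⟩ := exists_theta (K := F) hw hρ
  have : Finite θ.range := Finite.of_surjective _ θ.rangeRestrict_surjective
  obtain ⟨⟨_, s, rfl⟩, hs⟩ := IsCyclic.exists_monoid_generator (α := θ.range)
  refine ⟨s, s.2, fun n hn => ?_⟩
  obtain ⟨j, hj⟩ := hs ⟨_, ⟨n, hn⟩, rfl⟩
  have h1 : θ s ^ j = θ ⟨n, hn⟩ := congrArg Subtype.val hj
  refine ⟨j, _, Nat.coprime_of_dvd fun p hp h2 h3 => ?_, pow_orderOf_eq_one _⟩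
  have h4 := orderOf_pow_orderOf_div (orderOf_pos _).ne' h2
  have h5 := hθ ((⟨n, hn⟩ * (s ^ j)⁻¹) ^ (orderOf (n * (s.1 ^ j)⁻¹) / p))
    ((congrArg (fun m : ℕ => w (m : E)) h4).trans (vtam_dvd h3 hM))
    (by rw [map_pow, map_mul, map_inv, map_pow, h1, mul_inv_cancel, one_pow])
  exact hp.ne_one (h4.symm.trans (orderOf_eq_one_iff.2 (congrArg Subtype.val h5)))

/-- the Kummer character -/
noncomputable def KumD.kap {𝒲 : Set (Vl E)} {R : Subgroup (E ≃ₐ[F] E)} {ϖ : Fin k → Eˣ}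
    (h : KumD F M 𝒲 R ϖ) (i : Fin k) : R →* Eˣ :=
  MonoidHom.mk' (fun r => r.1 • ϖ i / ϖ i) fun r r' => by
    have e : r.1 • (r'.1 • ϖ i / ϖ i) = r'.1 • ϖ i / ϖ i := h.mu _ r.2 _ (by
      rw [div_pow, ← smul_pow', h.pw _ r'.2, div_self'])
    rw [← e, smul_div', mul_comm, div_mul_div_cancel, Subgroup.coe_mul, mul_smul]

theorem pkum_pow {𝒲 : Set (Vl E)} {R : Subgroup (E ≃ₐ[F] E)} {ϖ : Fin k → Eˣ}
    (h : KumD F M 𝒲 R ϖ) (i : Fin k) (r : R) : h.kap i r ^ M = 1 := by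
  change (r.1 • ϖ i / ϖ i) ^ M = 1
  rw [div_pow, ← smul_pow', h.pw _ r.2, div_self']

/-- a homomorphism to an `M`-torsion group is determined by its value at `s` (`kgrpb_tors`) -/
theorem kk_gen {G A : Type} [Group G] [CommGroup A] {I : Subgroup G} {s : G} (hs : s ∈ I)
    (hc : ∀ n ∈ I, ∃ j q : ℕ, q.Coprime M ∧ (n * (s ^ j)⁻¹) ^ q = 1) {ψ ψ' : G → A}
    (h1 : ∀ n ∈ I, ψ n ^ M = 1) (h2 : ∀ n ∈ I, ∀ n' ∈ I, ψ (n * n') = ψ n * ψ n')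
    (h1' : ∀ n ∈ I, ψ' n ^ M = 1) (h2' : ∀ n ∈ I, ∀ n' ∈ I, ψ' (n * n') = ψ' n * ψ' n')
    (e : ψ s = ψ' s) : ∀ n ∈ I, ψ n = ψ' n := by
  intro n hn
  have h3 : ∀ n ∈ I, ∀ n' ∈ I, ψ (n * n') / ψ' (n * n') = ψ n / ψ' n * (ψ n' / ψ' n') :=
    fun n hn n' hn' => by rw [h2 n hn n' hn', h2' n hn n' hn', mul_div_mul_comm]
  have h4 : ∀ j : ℕ, ψ (s ^ j) / ψ' (s ^ j) = 1 := fun j => by
    induction j with
    | zero => exact pow_zero s ▸ kgrpb_one (f := fun n => ψ n / ψ' n) h3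
    | succ j ih => rw [pow_succ, h3 _ (pow_mem hs j) _ hs, ih, e, div_self', one_mul]
  obtain ⟨j, q, hq, h5⟩ := hc n hn
  have h6 := mul_mem hn (inv_mem (pow_mem hs j))
  have h7 := h3 _ h6 _ (pow_mem hs j)
  rw [inv_mul_cancel_right, h4, mul_one, kgrpb_tors (f := fun n => ψ n / ψ' n) h3 h6 hq h5
    (by rw [div_pow, h1 _ h6, h1' _ h6, div_one])] at h7
  exact div_eq_one.1 h7

theorem kk_loc {𝒲 : Set (Vl E)} {R : Subgroup (E ≃ₐ[F] E)} {ϖ : Fin k → Eˣ} (h : KumD F M 𝒲 R ϖ)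
    {w : Vl E} (hw : w ∈ 𝒲) {i : Fin k} (hi : w (ϖ i : E) < 1) {ψ : (E ≃ₐ[F] E) → Eˣ}
    (h1 : ∀ n ∈ Ine F w, ψ n ^ M = 1)
    (h2 : ∀ n ∈ Ine F w, ∀ n' ∈ Ine F w, ψ (n * n') = ψ n * ψ n') :
    ∃ a : ℕ, ∀ n ∈ Ine F w, ψ n = (n • ϖ i / ϖ i) ^ a := by
  by_cases hb : Ine F w = ⊥
  · refine ⟨0, fun n hn => ?_⟩
    rw [hb, Subgroup.mem_bot] at hn
    rw [hn, kgrpb_one h2, pow_zero]
  obtain ⟨j, -, h3, h4⟩ := h.one w hw hb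
  obtain rfl : i = j := not_not.1 fun e => hi.ne (h3 i e)
  obtain ⟨s, hs, hc⟩ := h.cyc w hw
  have k0 : ∀ n ∈ Ine F w, (n • ϖ i / ϖ i) ^ M = 1 := fun n hn => pkum_pow h i ⟨n, h.le w hw hn⟩
  have k1 : ∀ a : ℕ, ∀ n ∈ Ine F w, ((n • ϖ i / ϖ i) ^ a) ^ M = 1 := fun a n hn => by
    rw [pow_right_comm, k0 n hn, one_pow]
  have k2 : ∀ a : ℕ, ∀ n ∈ Ine F w, ∀ n' ∈ Ine F w, ((n * n') • ϖ i / ϖ i) ^ a =
      (n • ϖ i / ϖ i) ^ a * (n' • ϖ i / ϖ i) ^ a := fun a n hn n' hn' => by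
    rw [← mul_pow]
    exact congrArg (· ^ a) ((h.kap i).map_mul ⟨n, h.le w hw hn⟩ ⟨n', h.le w hw hn'⟩)
  have hp : IsPrimitiveRoot (s • ϖ i / ϖ i) M := ⟨k0 s hs, fun m hm => h4 m fun g hg => by
    have e1 : (g • ϖ i / ϖ i) ^ m = 1 := kk_gen (ψ' := fun _ => 1) hs hc (k1 m) (k2 m)
      (fun _ _ => one_pow _) (fun _ _ _ _ => (one_mul _).symm) hm g hg
    rw [div_pow, div_eq_one, ← smul_pow'] at e1
    exact congrArg Units.val e1⟩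
  have : NeZero M := ⟨h.pos.ne'⟩
  obtain ⟨a, -, ha⟩ := hp.eq_pow_of_mem_rootsOfUnity ((mem_rootsOfUnity _ _).2 (h1 s hs))
  exact ⟨a, kk_gen hs hc h1 h2 (k1 a) (k2 a) ha.symm⟩

theorem kk_kum {𝒲 : Set (Vl E)} {R : Subgroup (E ≃ₐ[F] E)} {ϖ : Fin k → Eˣ} (h : KumD F M 𝒲 R ϖ)
    (ψ : 𝒲 → (E ≃ₐ[F] E) → Eˣ) (h1 : ∀ w : 𝒲, ∀ n ∈ Ine F w.1, ψ w n ^ M = 1)
    (h2 : ∀ w : 𝒲, ∀ n ∈ Ine F w.1, ∀ n' ∈ Ine F w.1, ψ w (n * n') = ψ w n * ψ w n')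
    (h3 : ∀ r ∈ R, ∀ w : 𝒲, ∀ n ∈ Ine F w.1,
      ψ ⟨vsm r w, h.stb r _ w.2⟩ (r * n * r⁻¹) = ψ w n) :
    ∃ ψ₀ : (E ≃ₐ[F] E) → Eˣ, (∀ r ∈ R, ψ₀ r ^ M = 1) ∧
      (∀ r ∈ R, ∀ r' ∈ R, ψ₀ (r * r') = ψ₀ r * ψ₀ r') ∧
      ∀ w : 𝒲, ∀ n ∈ Ine F w.1, ψ₀ n = ψ w n := by
  have key : ∀ i, ∃ a : ℕ, ∀ w : 𝒲, w.1 (ϖ i : E) < 1 → ∀ n ∈ Ine F w.1,
      ψ w n = (n • ϖ i / ϖ i) ^ a := fun i => by
    by_cases hi : ∃ w : 𝒲, w.1 (ϖ i : E) < 1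
    · obtain ⟨w, hw⟩ := hi
      obtain ⟨a, ha⟩ := kk_loc h w.2 hw (h1 w) (h2 w)
      refine ⟨a, fun w' hw' n hn => ?_⟩
      obtain ⟨r, hr, e⟩ := h.conj _ w.2 _ w'.2 i hw hw'
      obtain rfl : w' = ⟨vsm r w, h.stb r _ w.2⟩ := Subtype.ext e
      have h4 : r⁻¹ * n * r⁻¹⁻¹ ∈ Ine F w.1 := by
        have := kz_ine hn r⁻¹
        rwa [show vsm r⁻¹ (vsm r w.1) = w.1 from Valuation.ext fun x =>
          congrArg w.1 (r.symm_apply_apply x)] at this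
      have h5 := h3 r hr w _ h4
      rw [show r * (r⁻¹ * n * r⁻¹⁻¹) * r⁻¹ = n by group] at h5
      rw [h5, ha _ h4]
      congr 1
      have hn' := h.le _ (h.stb r _ w.2) hn
      change h.kap i (⟨r, hr⟩⁻¹ * ⟨n, hn'⟩ * ⟨r, hr⟩⁻¹⁻¹) = h.kap i ⟨n, hn'⟩
      rw [map_mul, map_mul, map_inv (h.kap i) ⟨r, hr⟩⁻¹, mul_right_comm, mul_inv_cancel, one_mul]
    · exact ⟨0, fun w hw => (hi ⟨w, hw⟩).elim⟩
  choose a ha using key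
  refine ⟨fun r => ∏ i, (r • ϖ i / ϖ i) ^ a i, fun r hr => ?_, fun r hr r' hr' => ?_,
    fun w n hn => ?_⟩
  · rw [← Finset.prod_pow]
    refine Finset.prod_eq_one fun i _ => ?_
    rw [pow_right_comm, show (r • ϖ i / ϖ i) ^ M = 1 from pkum_pow h i ⟨r, hr⟩, one_pow]
  · rw [← Finset.prod_mul_distrib]
    refine Finset.prod_congr rfl fun i _ => ?_
    rw [← mul_pow]
    exact congrArg (· ^ a i) ((h.kap i).map_mul ⟨r, hr⟩ ⟨r', hr'⟩)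
  · by_cases hb : Ine F w.1 = ⊥
    · rw [hb, Subgroup.mem_bot] at hn
      simp [hn, kgrpb_one (h2 w)]
    obtain ⟨i, h4, h5, -⟩ := h.one w w.2 hb
    rw [ha i w h4 n hn]
    refine Finset.prod_eq_single i (fun j _ hj => ?_) fun hi => (hi (Finset.mem_univ i)).elim
    have e : n • ϖ j = ϖ j := Units.ext (kz_kum (h.unit _ w.2) hn (h5 j hj)
      (congrArg Units.val (h.pw n (h.le _ w.2 hn) j)))
    rw [e, div_self', one_pow]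

theorem kk_desc {𝒲 : Set (Vl E)} {R : Subgroup (E ≃ₐ[F] E)} {ϖ : Fin k → Eˣ} (h : KumD F M 𝒲 R ϖ)
    {c : (E ≃ₐ[F] E) × (E ≃ₐ[F] E) → Eˣ} (hc : IsMulCocycle₂ c) (hM : ∀ p, c p ^ M = 1)
    {e : (E ≃ₐ[F] E) → Eˣ} (he : ∀ r ∈ R, e r ^ M = 1)
    (h1 : ∀ r ∈ R, ∀ r' ∈ R, c (r, r') = dd e (r, r')) (P : Set (E ≃ₐ[F] E))
    (hP : ∀ g, ∀ x ∈ P, g * x * g⁻¹ ∈ P) (hPR : P ⊆ R)
    (hPo : ∀ x ∈ P, ∃ q : ℕ, q.Coprime M ∧ x ^ q = 1)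
    (res : ∀ w ∈ 𝒲, ∀ g ∈ Dec F w, ∀ n ∈ Ine F w,
      c (g, g⁻¹ * n * g) * e n = c (n, g) * g • e (g⁻¹ * n * g)) :
    ∃ x : (E ≃ₐ[F] E) → Eˣ, (∀ g, x g ^ M = 1) ∧
      Infl ⊤ (Subgroup.closure ((⋃ w ∈ 𝒲, (Ine F w : Set (E ≃ₐ[F] E))) ∪ P)) (c / dd x) := by
  let := h.stb.act
  rw [Set.biUnion_eq_iUnion]
  exact kg_glue hc hM h.mu he h1 (fun w : 𝒲 => Ine F w.1) (fun g w n hn => kz_ine hn g)
    (fun w => h.le _ w.2) P hP hPR hPo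
    (fun w g hg => res _ w.2 g (kz_dec.2 (congrArg Subtype.val hg))) (kk_kum h)

end Pool.Agent.ZCy.F.Kp
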