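import Pool.Agent.Lib.MP_751085_ag.ZF.K.FbB
import Pool.Agent.Lib.MP_751085_ag.ZC.K.Grp

/-! The generic fibre. -/

namespace Pool.Agent.ZCy.F.Kp

open Pool.Agent.ZFy Pool.Agent.ZFy.GM
open scoped Classical WithZero IntermediateField
open Polynomial groupCohomology

set_option linter.unusedSectionVars false

section

variable {F E : Type} [Field F] [Field E]

theorem ks1_mul (v : Vl E) {x y : E} (hx : x ≠ 0) (hy : y ≠ 0) :
    ord v (x * y) = ord v x + ord v y := by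
  rw [ord, ord, ord, map_mul, WithZero.log_mul ((map_ne_zero v).2 hx) ((map_ne_zero v).2 hy),
    neg_add]

theorem ks1_div (v : Vl E) {x y : E} (hx : x ≠ 0) (hy : y ≠ 0) :
    ord v (x / y) = ord v x - ord v y := by
  rw [eq_sub_iff_add_eq, ← ks1_mul v (div_ne_zero hx hy) hy, div_mul_cancel₀ _ hy]

theorem ks1_pow (v : Vl E) (x : E) (n : ℕ) : ord v (x ^ n) = n * ord v x := by
  rw [ord, ord, map_pow, WithZero.log_pow, nsmul_eq_mul, mul_neg]

theorem ks1_dd [Algebra F E] (v : Vl E) {N : ℕ} {a : Eˣ}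
    {u : (E ≃ₐ[F] E) → Eˣ} {g g' : E ≃ₐ[F] E} (e : a ^ N = dd u (g, g')) :
    N * ord v (a : E) = ord v (g (u g')) - ord v (u (g * g') : E) + ord v (u g : E) := by
  have h1 : g (u g') ≠ 0 := (map_ne_zero g).2 (u g').ne_zero
  have h2 : (a : E) ^ N = g (u g') / u (g * g') * u g := by
    rw [← Units.val_pow_eq_pow_val, e, dd, Units.val_mul, Units.val_div_eq_div_val]
    rfl
  rw [← ks1_pow, h2, ks1_mul v (div_ne_zero h1 (u _).ne_zero) (u g).ne_zero,
    ks1_div v h1 (u _).ne_zero]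

theorem ks1_add {G : Type} [Group G] [Finite G] {f : G → ℤ} (h : ∀ a b, f (a * b) = f a + f b)
    (a : G) : f a = 0 := by
  have := Fintype.ofFinite G
  have h1 : ∑ b, f (a * b) = ∑ b, f b := Fintype.sum_equiv (Equiv.mulLeft a) _ _ fun _ => rfl
  simp only [h, Finset.sum_add_distrib, Finset.sum_const, nsmul_eq_mul, add_eq_right] at h1
  exact (mul_eq_zero.1 h1).resolve_left (Nat.cast_ne_zero.2 Fintype.card_ne_zero)

end

variable {K F : Type} [Field K] [Field F] [Algebra K[X] F] [Algebra F (Os K)] (c : Cur K F) {M : ℕ}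

/-- the generic fibre -/
theorem ks_one (hD : DIVp) (hM0 : (M : K) ≠ 0) {N : ℕ} (hM : M ∣ c.χ.natDegree * N)
    (S : IntermediateField F (Fb K F)) [FiniteDimensional F S] [IsGalois F S]
    {r : (Fb K F ≃ₐ[F] Fb K F) → S ≃ₐ[F] S} (hr : ∀ γ x, (r γ x : Fb K F) = γ x)
    {h : (S ≃ₐ[F] S) × (S ≃ₐ[F] S) → Sˣ} {u : (S ≃ₐ[F] S) → Sˣ} (hu : ∀ p, h p ^ N = dd u p)
    (hv : ∀ w : Vl S, Triv (kap K F S) w →
      ∃ lam : (S ≃ₐ[F] S) → ℤ, ∀ g ∈ Dec F w, ∀ g' ∈ Dec F w,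
        ord w (h (g, g') : S) = lam g + lam g' - lam (g * g')) :
    ∃ (y : Fb K F) (q : ℕ), y ≠ 0 ∧ q.Coprime M ∧ ∀ γ : Fb K F ≃ₐ[F] Fb K F,
      TyW M (cb K F) (((u (r γ) : S) : Fb K F) ^ (q * c.χ.natDegree) * y / γ y) := by
  let := (kf_stb c).act
  have hmul : ∀ γ γ', r (γ * γ') = r γ * r γ' := fun γ γ' => AlgEquiv.ext fun x =>
    Subtype.ext (by rw [hr, AlgEquiv.mul_apply, AlgEquiv.mul_apply, hr, hr])
  let j : S →+* Fb K F := S.val
  obtain ⟨E, hE, hx⟩ := kg_orb (G := Fb K F ≃ₐ[F] Fb K F)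
    (W := {v | Plc (cb K F) v})
    (fun γ v => ((ord v.1 ((u (r γ) : S) : Fb K F) : ℤ) : ZMod N)) (fun g g' s => by
      have h1 := ks1_dd (s.1.comap j) (hu (r g, r g'))
      rw [← hmul] at h1
      have h2 : ord (s.1.comap j) (r g (u (r g'))) = ord (g⁻¹ • s).1 ((u (r g') : S) : Fb K F) :=
        congrArg (ord s.1) (hr g _)
      have h3 := congrArg (Int.cast : ℤ → ZMod N) h1
      rw [h2, Int.cast_mul, Int.cast_natCast, ZMod.natCast_self, zero_mul, Int.cast_add,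
        Int.cast_sub] at h3
      change ((ord (s.1.comap j) _ : ℤ) : ZMod N) = ((ord (s.1.comap j) _ : ℤ) : ZMod N) + _
      linear_combination h3) fun g s e => by
      obtain ⟨lam, hl⟩ := hv (s.1.comap j) ((kf_triv c).1 s.2.2)
      have hg : r g ∈ Dec F (s.1.comap j) := fun x => by
        have h4 := congrArg (fun w => w.1 (g x)) e
        change s.1 (g.symm (g x)) = _ at h4
        rw [g.symm_apply_apply, ← hr] at h4
        exact h4.symm
      have h4 := ks1_add (G := Dec F (s.1.comap j))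
        (f := fun a => ord (s.1.comap j) (u a : S) - N * lam a) (fun a b => by
          have h5 := ks1_dd (s.1.comap j) (hu (a, b))
          have h6 : ord (s.1.comap j) (a.1 (u b)) = ord (s.1.comap j) (u b : S) :=
            congrArg (fun z => -WithZero.log z) (a.2 _)
          rw [hl a a.2 b b.2, h6] at h5
          rw [Subgroup.coe_mul]
          linear_combination h5) ⟨_, hg⟩
      exact (ZMod.intCast_zmod_eq_zero_iff_dvd _ _).2 ⟨_, sub_eq_zero.1 h4⟩
  choose t ht using hE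
  let D : Vl (Fb K F) → ℤ := fun v =>
    if e : Plc (cb K F) v then
      -ord v ((u (r (t ⟨v, e⟩)) : S) : Fb K F) else 0
  obtain ⟨y, q, c₀, hy, hq, hD⟩ := kf_div c hD hM0 D ((Set.finite_iUnion fun g : S ≃ₐ[F] S =>
    kf_fin c ((u g : S) : Fb K F)).subset fun v e => Set.mem_iUnion.2
      ⟨r (t ⟨v, e.1⟩), e.1, fun h0 => e.2 (by simp only [D, dif_pos e.1, h0, neg_zero])⟩)
  refine ⟨y, q, hy, hq, fun γ v e => ?_⟩
  have e' : Plc (cb K F) _ :=
    (γ⁻¹ • (⟨v, e⟩ : {v | Plc (cb K F) v})).2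
  have h1 := hD v e
  have h2 := hD _ e'
  have h3 := hx γ ⟨v, e⟩
  rw [ht, ht, ← Int.cast_sub, eq_comm, ZMod.intCast_eq_intCast_iff_dvd_sub] at h3
  simp only [D, dif_pos e] at h1
  simp only [D, dif_pos e'] at h2
  have h0 : ((u (r γ) : S) : Fb K F) ≠ 0 := (map_ne_zero j).2 (u _).ne_zero
  have h4 := ((Int.natCast_dvd_natCast.2 hM).trans ((Nat.cast_mul (α := ℤ) _ _).dvd.trans
    (mul_dvd_mul_left (c.χ.natDegree : ℤ) h3))).mul_left q
  have h5 : ord v (γ (toF K[X] F (Fb K F) X)) = ord v (toF K[X] F (Fb K F) X) :=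
    congrArg _ (γ.commutes _)
  rw [ks1_div v (mul_ne_zero (pow_ne_zero _ h0) hy) ((map_ne_zero γ).2 hy),
    ks1_mul v (pow_ne_zero _ h0) hy, ks1_pow]
  refine ((h4.add h1).sub h2).trans (dvd_of_eq ?_)
  change _ - (ord v (γ y) - _ - _ * min (ord v (γ _)) 0) = _
  rw [h5, Nat.cast_mul]
  ring

end Pool.Agent.ZCy.F.Kp
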