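import Pool.Agent.Lib.MP_751085_ag.ZF.K.S1
import Pool.Agent.Lib.MP_751085_ag.ZF.K.Fld
import Pool.Agent.Lib.MP_751085_ag.ZF.K.Ins
import Pool.Agent.Lib.MP_751085_ag.ZF.R3b

/-! A cocycle in roots of unity on an admissible field. -/

namespace Pool.Agent.ZCy.F.Kp

open Pool.Agent.ZFy Pool.Agent.ZFy.GM
open scoped Classical WithZero IntermediateField
open Polynomial groupCohomology

set_option linter.unusedSectionVars false

theorem ks3_one {G A : Type} [Group G] [CommGroup A] [MulDistribMulAction G A] {a b N M : ℕ}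
    (hM : a * N = M * b) {H : G × G → A} {U ρ : G → A} {y : A} (hH : ∀ p, H p ^ N = dd U p)
    (hρ : ∀ g, ρ g ^ M = U g ^ a * (y / g • y)) (p : G × G) : (H ^ b / dd ρ) p ^ M = 1 := by
  rw [Pi.div_apply, div_pow, Pi.pow_apply, ← pow_mul, mul_comm b, ← hM, pow_mul', hH]
  simp only [dd, mul_pow, div_pow, ← smul_pow', hρ, smul_mul', smul_div', mul_smul]
  apply Additive.ofMul.injective
  simp only [ofMul_mul, ofMul_div, ofMul_one]
  abel

theorem ks3_fin {F S E : Type} [Field F] [Field S] [Field E] [Algebra F S] [Algebra F E]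
    [FiniteDimensional F S] [IsGalois F S] [FiniteDimensional F E] [IsGalois F E]
    (j : S →ₐ[F] E) {r : (E ≃ₐ[F] E) → S ≃ₐ[F] S} (hj : ∀ g x, j (r g x) = g (j x))
    {h : (S ≃ₐ[F] S) × (S ≃ₐ[F] S) → Sˣ} (hh : IsMulCocycle₂ h) {u : (S ≃ₐ[F] S) → Sˣ}
    {a b N M : ℕ} (hM : a * N = M * b) (hb : b.Coprime N) (hN : 0 < N) (hu : h ^ N = dd u)
    (h0 : 0 < M) {y : E} (hy : y ≠ 0) (H : ∀ g, ∃ ρ : E, ρ ^ M = j (u (r g)) ^ a * y / g y) :
    ∃ cc : (E ≃ₐ[F] E) × (E ≃ₐ[F] E) → Eˣ, IsMulCocycle₂ cc ∧ (∀ p, cc p ^ M = 1) ∧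
      cls F cc = cls F h := by
  replace hj : ∀ g x, (j : S →+* E) (r g • x) = g • (j : S →+* E) x := hj
  have hρ (g : E ≃ₐ[F] E) : ∃ ρ : Eˣ, ρ ^ M = Units.map ((j : S →+* E) : S →* E) (u (r g)) ^ a *
      (Units.mk0 y hy / g • Units.mk0 y hy) := by
    obtain ⟨ρ, e⟩ := H g
    have e' : ρ ^ M = (Units.map ((j : S →+* E) : S →* E) (u (r g)) ^ a *
        (Units.mk0 y hy / g • Units.mk0 y hy) : Eˣ) := by
      rw [Units.val_mul, Units.val_pow_eq_pow_val, Units.val_div_eq_div_val, ← mul_div_assoc]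
      exact e
    refine ⟨Units.mk0 ρ fun e0 => ?_, Units.ext e'⟩
    rw [e0, zero_pow h0.ne'] at e'
    exact Units.ne_zero _ e'.symm
  choose ρ hρ using hρ
  have hp := pull_coc hj hh
  have hc := coc_div (coc_pow hp b) (dd_coc ρ)
  obtain ⟨k, m, hk⟩ : ∃ k m, k * b + N = 1 + m * N := by
    obtain ⟨k, hk⟩ := Nat.exists_mul_mod_eq_of_coprime 1 hb hN.ne'
    obtain ⟨m, hm⟩ := (Nat.modEq_iff_dvd' (by omega)).1
      (show 1 ≡ k * b + N [MOD N] by rw [Nat.ModEq, Nat.add_mod_right, mul_comm, hk.2])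
    exact ⟨k, m, by rw [mul_comm m, ← hm]; omega⟩
  have h1 : N • cls F h = 0 := (cls_pow hh N).symm.trans (hu ▸ cls_dd u)
  refine ⟨(pull j r h ^ b / dd ρ) ^ k, coc_pow hc k, fun p => ?_, ?_⟩
  · rw [Pi.pow_apply, ← pow_mul, pow_mul', ks3_one hM (fun p => ?_) hρ, one_pow]
    refine Eq.trans ?_ (congrFun (pull_dd hj u) p)
    exact (map_pow _ _ _).symm.trans (congrArg _ (congrFun hu _))
  · have key : ∀ {A : Type} [AddCommGroup A] {x : A}, N • x = 0 → k • (b • x - 0) = x :=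
      fun {_ _ x} h => by
        have e := congrArg (· • x) hk
        simpa only [add_nsmul, mul_nsmul', h, nsmul_zero, add_zero, one_nsmul, sub_zero] using e
    have e : cls F (pull (j : S →+* E) r h) = cls F h :=
      (ka_pull (RingHom.id F) j.commutes hj hh).symm.trans (ka_id _)
    exact (cls_pow hc k).trans ((congrArg (k • ·) ((cls_div (coc_pow hp b) (dd_coc ρ)).trans
      (congrArg₂ (· - ·) ((cls_pow hp b).trans (congrArg (b • ·) e)) (cls_dd ρ)))).trans
        (key (A := BR F) h1))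

variable {K F : Type} [Field K] [Field F] [Algebra K[X] F] [Algebra F (Os K)] (c : Cur K F) {M : ℕ}

/-- The class dies over `Fb`; take roots of the cochain that bounds its `N`-th power. -/
theorem ks_stage (hD : DIVp) (hM0 : (M : K) ≠ 0) {N d : ℕ} (hM : c.χ.natDegree * N = M * d)
    (hd : d.Coprime N) (hNM : N ∣ M) {a : BR F} (hN : N • a = 0)
    (H1 : ∀ v : Vl F, Triv (kap K F F) v → NT v → Unram v a) :
    ∃ (E : IntermediateField F (Os K)) (_ : Nice M E) (cc : (E ≃ₐ[F] E) × (E ≃ₐ[F] E) → Eˣ),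
      IsMulCocycle₂ cc ∧ (∀ p, cc p ^ M = 1) ∧ cls F cc = a := by
  have := kf_galois c
  have hN0 : (N : K) ≠ 0 := fun e => hM0 (by
    obtain ⟨m, rfl⟩ := hNM
    rw [Nat.cast_mul, e, zero_mul])
  have hp : ∀ {n : ℕ}, (n : K) ≠ 0 → 0 < n := fun h => Nat.pos_of_ne_zero fun e => h (by simp [e])
  obtain ⟨S, _, _, h, hh, rfl⟩ := ka_split (T := Fb K F) (ki_fb c hN0 hN)
  obtain ⟨u, hu⟩ := (ka_zero (K := F) (coc_pow hh N)).1 ((cls_pow hh N).trans hN)
  obtain ⟨r, -, hr⟩ := exists_lk_of (γ := RingHom.id F) (j := (S.val : S →+* Fb K F)) fun _ => rfl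
  obtain ⟨y, q₀, hy0, hq₀, hy⟩ := ks_one c hD hM0 ⟨d, hM⟩ S (r := r) hr (congrFun hu) fun w hw => by
    refine Unram.int (E := S) (v := w.comap (algebraMap F S)) ?_ (fun _ => Iff.rfl)
      (kf_unr c S.val hw) hh rfl
    by_cases hn : NT (w.comap (algebraMap F S))
    · exact H1 _ hw hn
    · have h1 : ∀ x, x ≠ 0 → 1 ≤ w.comap (algebraMap F S) x := fun x hx =>
        not_lt.1 fun e => hn ⟨x, hx, e⟩
      exact unram_triv (fun x hx => le_antisymm (by
        have := h1 _ (inv_ne_zero hx)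
        rwa [map_inv₀, one_le_inv₀ (zero_lt_one.trans_le (h1 x hx))] at this) (h1 x hx)) _
  let D₀ := FiniteGaloisIntermediateField.adjoin F ({y} : Set (Fb K F))
  let D : IntermediateField F (Fb K F) := S ⊔ D₀.toIntermediateField
  have hS : S ≤ D := le_sup_left
  have hyD : y ∈ D := (le_sup_right : _ ≤ D) (FiniteGaloisIntermediateField.subset_adjoin F _ rfl)
  let B := Module.finBasis F D
  let z : (D ≃ₐ[F] D) → Fb K F := fun σ => ((u (r (σ.liftNormal _)) : S) : Fb K F) ^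
    (q₀ * c.χ.natDegree) * y / σ.liftNormal (Fb K F) y
  obtain ⟨E, hE, hT, hY⟩ := ks_field c hM0 (Finset.univ.image fun i => (B i : Fb K F))
    (Finset.univ.image z) fun x hx => by
      obtain ⟨σ, -, rfl⟩ := Finset.mem_image.1 hx
      exact hy _
  have := hE.fin
  have := hE.gal
  have hD (x : D) : ((Fb K F).val.comp D.val) x ∈ E := by
    rw [← B.sum_repr x, map_sum]
    exact sum_mem fun i _ => by
      rw [map_smul]
      exact E.smul_mem (hT _ (Finset.mem_image_of_mem _ (Finset.mem_univ i)))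
  let i : D →ₐ[F] E := ((Fb K F).val.comp D.val).codRestrict E.toSubalgebra hD
  obtain ⟨q, -, hq⟩ := exists_lk_of (γ := RingHom.id F) (j := (i : D →+* E)) i.commutes
  have hl (g : E ≃ₐ[F] E) (x : D) :
      (((q g).liftNormal (Fb K F) x : Fb K F) : Os K) = (g (i x) : E) :=
    (congrArg Subtype.val ((q g).liftNormal_commutes (Fb K F) x)).trans
      (congrArg Subtype.val (hq g x))
  refine ⟨E, hE, ks3_fin (i.comp (IntermediateField.inclusion hS))
    (r := fun g => r ((q g).liftNormal _)) (fun g x => Subtype.ext ((congrArg Subtype.val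
      (hr _ x)).trans (hl g (IntermediateField.inclusion hS x)))) hh (a := q₀ * c.χ.natDegree)
    (b := q₀ * d) (by rw [mul_assoc, hM]; ring) ((hq₀.coprime_dvd_right hNM).mul_left hd) (hp hN0)
    hu (hp hM0) (y := i ⟨y, hyD⟩)
    ((_root_.map_ne_zero i).2 fun e => hy0 (congrArg Subtype.val e)) fun g => ?_⟩
  obtain ⟨ρ, hρ, e⟩ := hY _ (Finset.mem_image_of_mem z (Finset.mem_univ (q g)))
  refine ⟨⟨ρ, hρ⟩, Subtype.ext ?_⟩
  push_cast
  rw [e]
  simp only [z]
  push_cast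
  exact congrArg (_ / ·) (hl g ⟨y, hyD⟩)

end Pool.Agent.ZCy.F.Kp
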