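import Pool.Agent.Lib.MP_751085_ag.ZF.K.Gau2
import Pool.Agent.Lib.MP_751085_ag.ZF.K.Gp
import Pool.Agent.Lib.MP_751085_ag.ZC.V.Cv

/-! Powers over the algebraic closure give powers in the special fibre. -/

namespace Pool.Agent.ZCy.F.Kp

open Pool.Agent.ZFy Pool.Agent.ZFy.GM
open scoped Classical WithZero IntermediateField
open Polynomial groupCohomology

set_option linter.unusedSectionVars false

theorem pspb_lift {M : Type} [Field M] (P : M[X][X]) : ∃ S : Set M, S.Finite ∧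
    ∀ (K : Type) [Field K] (γ : K →+* M), S ⊆ Set.range γ →
      ∃ Q : K[X][X], Q.map (mapRingHom γ) = P :=
  ⟨⋃ q ∈ P.coeffs, (q.coeffs : Set M), P.coeffs.finite_toSet.biUnion fun q _ => q.coeffs.finite_toSet,
    fun _ _ _ h => (mem_lifts _).1 ((lifts_iff_coeffs_subset_range _).2 fun q hq =>
      (mem_lifts q).1 ((lifts_iff_coeffs_subset_range q).2 fun _ hc =>
        h (Set.mem_biUnion hq hc)))⟩

/-- a root over the algebraic closure is defined over a finite extension -/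
theorem sp_fin {KK M F F' : Type} [Field KK] [Field M] [Field F] [Field F'] [Algebra KK M]
    [Algebra.IsAlgebraic KK M] {χ : KK[X][X]} (hg : GP χ) {ψ : KK[X] →+* F} {θ : F} (h : FFd ψ θ χ)
    {ψ' : M[X] →+* F'} {i : F →+* F'} (h' : FFd ψ' (i θ) (χ.map (mapRingHom (algebraMap KK M))))
    (hc : ∀ p, i (ψ p) = ψ' (p.map (algebraMap KK M))) {x : F} {t : F'} {l : ℕ} (e : i x = t ^ l) :
    ∃ (K₁ F₁ : Type) (_ : Field K₁) (_ : Field F₁) (_ : Algebra KK K₁) (_ : FiniteDimensional KK K₁)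
      (ψ₁ : K₁[X] →+* F₁) (i₁ : F →+* F₁) (t₁ : F₁),
      FFd ψ₁ (i₁ θ) (χ.map (mapRingHom (algebraMap KK K₁))) ∧
      (∀ p, i₁ (ψ p) = ψ₁ (p.map (algebraMap KK K₁))) ∧ i₁ x = t₁ ^ l := by
  obtain ⟨a, b, -, rfl⟩ := h'.frac t
  obtain ⟨S, hS, ha⟩ := pspb_lift a
  obtain ⟨S', hS', hb⟩ := pspb_lift b
  have := (hS.union hS').to_subtype
  let K₁ := IntermediateField.adjoin KK (S ∪ S')
  have hf : FiniteDimensional KK K₁ :=
    IntermediateField.finiteDimensional_adjoin fun x _ => Algebra.IsIntegral.isIntegral x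
  obtain ⟨a, rfl⟩ := ha K₁ (algebraMap K₁ M) fun x hx =>
    ⟨⟨x, IntermediateField.subset_adjoin _ _ (.inl hx)⟩, rfl⟩
  obtain ⟨b, rfl⟩ := hb K₁ (algebraMap K₁ M) fun x hx =>
    ⟨⟨x, IntermediateField.subset_adjoin _ _ (.inr hx)⟩, rfl⟩
  obtain ⟨F₁, _, ψ₁, i₁, h₁, hc₁⟩ := ffd_bc h hg.monic (algebraMap KK K₁) (hg.irr' _)
  obtain ⟨j, h1, h2⟩ := ffd_map (ψ' := ψ') (θ' := i θ) h₁ (hg.monic.map _) (algebraMap K₁ M)
    (by rwa [pgp_mm, ← IsScalarTower.algebraMap_eq])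
  have h3 : j.comp i₁ = i := ffd_ext h (fun p => by
    rw [RingHom.comp_apply, hc₁, h1, Polynomial.map_map, ← IsScalarTower.algebraMap_eq, hc]) h2
  have h4 : ∀ Q : K₁[X][X], j (Q.eval₂ ψ₁ (i₁ θ)) =
      (Q.map (mapRingHom (algebraMap K₁ M))).eval₂ ψ' (i θ) := fun Q => by
    rw [hom_eval₂, h2, eval₂_map]
    exact congrArg (Q.eval₂ · _) (RingHom.ext h1)
  refine ⟨K₁, F₁, inferInstance, inferInstance, inferInstance, hf, ψ₁, i₁,
    a.eval₂ ψ₁ (i₁ θ) / b.eval₂ ψ₁ (i₁ θ), h₁, hc₁, j.injective ?_⟩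
  rw [map_pow, map_div₀, h4, h4, ← e, ← h3, RingHom.comp_apply]

/-- a discrete valuation ring above `π` with the same residue field -/
theorem sp_dvr {R KK T K₁ : Type} [CommRing R] [IsDomain R] [UniqueFactorizationMonoid R] [Field KK]
    [Field T] [IsAlgClosed T] [Field K₁] [Algebra KK K₁] [FiniteDimensional KK K₁] {α : R →+* KK}
    (hα : IsFr α) {π : R} (hπ : Prime π) {r : R →+* T} (hr : ∀ a, r a = 0 ↔ π ∣ a)
    (_hs : Function.Surjective r) : ∃ (R' : Type) (_ : CommRing R') (_ : IsDomain R')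
      (_ : UniqueFactorizationMonoid R') (α' : R' →+* K₁) (π' : R') (r' : R' →+* T) (f : R →+* R'),
      IsFr α' ∧ Prime π' ∧ (∀ a, r' a = 0 ↔ π' ∣ a) ∧
      (∀ a, α' (f a) = algebraMap KK K₁ (α a)) ∧ ∀ a, r' (f a) = r a := by
  obtain ⟨v, hv, h1⟩ := exists_vcen hα hπ
  obtain ⟨ρ, hρ, h2, -⟩ := hv.exists_red hα hπ hr
  obtain ⟨v', hn, ho⟩ := exists_over_nrm (E := K₁) ⟨_, h1⟩
  obtain ⟨ρ', hρ', h3⟩ := exists_red_over ho hρ
  have := hn.isVR.dvr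
  obtain ⟨π', hπ'⟩ := IsDiscreteValuationRing.exists_irreducible v'.integer
  exact ⟨v'.integer, inferInstance, inferInstance, inferInstance, v'.integer.subtype, π', ρ',
    ho.int.comp (α.codRestrict v.integer hv.1), hn.isVR.isFr, hπ'.prime,
    fun a => (hρ' a).trans ((hn.isVR.cen hπ').2 a), fun _ => rfl, fun a => (h3 _).trans (h2 a)⟩

variable {R KK T F Fs : Type} [CommRing R] [IsDomain R] [UniqueFactorizationMonoid R] [Field KK]
  [Field T] [Field F] [Field Fs] {α : R →+* KK} {π : R} {r : R →+* T} {χ : R[X][X]}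
  {ψ : KK[X] →+* F} {θ : F} {ψ₀ : T[X] →+* Fs} {θ₀ : Fs} (h : GS α π r χ ψ θ ψ₀ θ₀)

include h in
theorem sp_pow [IsAlgClosed T] (hg : GP (χ.map (mapRingHom α))) {w : Vl F} {ρ : w.integer →+* Fs}
    (hρ : GR α π r ψ θ ψ₀ θ₀ w ρ) {M F' : Type} [Field M] [Field F'] [Algebra KK M]
    [Algebra.IsAlgebraic KK M] {ψ' : M[X] →+* F'} {i : F →+* F'}
    (h' : FFd ψ' (i θ) ((χ.map (mapRingHom α)).map (mapRingHom (algebraMap KK M))))
    (hc : ∀ p, i (ψ p) = ψ' (p.map (algebraMap KK M))) {x : w.integer} {t : F'} {l : ℕ}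
    (hl : l ≠ 0) (e : i x = t ^ l) : ∃ z, ρ x = z ^ l := by
  obtain ⟨K₁, F₁, _, _, _, _, ψ₁, i₁, t₁, h₁, hc₁, e₁⟩ := sp_fin hg h.ff h' hc e
  obtain ⟨R', _, _, _, α', π', r', f, h1, h2, h3, h4, h5⟩ :=
    sp_dvr (K₁ := K₁) h.fr h.prime h.ker h.onto
  have h6 : GS α' π' r' (χ.map (mapRingHom f)) ψ₁ (i₁ θ) ψ₀ θ₀ := by
    refine ⟨h1, h2, h3, fun y => (h.onto y).elim fun a ha => ⟨f a, (h5 a).trans ha⟩,
      h.monic.map _, ?_, ?_⟩
    · rw [Polynomial.map_map, mapRingHom_comp] at h₁ ⊢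
      rwa [show α'.comp f = (algebraMap KK K₁).comp α from RingHom.ext h4]
    · rw [Polynomial.map_map, mapRingHom_comp, show r'.comp f = r from RingHom.ext h5]
      exact h.ff₀
  obtain ⟨w', hw'⟩ := h6.ex
  obtain ⟨ρ', hρ'⟩ := h6.red hw'
  obtain ⟨y, hy, hy'⟩ := h.map h6 f (j := RingHom.id Fs)
    (evl_map f (fun a => (h4 a).symm) hc₁ rfl)
    (evl_map f (s := RingHom.id T) (fun a => (h5 a).symm) (fun p => by simp) rfl) hρ hρ' x
  have h7 : w' t₁ ≤ 1 := (pow_le_one_iff_of_nonneg zero_le hl).1 (by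
    rw [← map_pow, ← e₁, ← hy]; exact y.2)
  exact ⟨ρ' ⟨t₁, h7⟩, hy'.symm.trans (by
    rw [← map_pow]; exact congrArg ρ' (Subtype.ext (hy.trans e₁)))⟩

end Pool.Agent.ZCy.F.Kp
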