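import Pool.Agent.Lib.MP_751085_ag.ZF.K.KDf2

/-! A curve over a ring with irreducible reduction: definitions. -/

namespace Pool.Agent.ZCy.F.Kp

open Pool.Agent.ZFy Pool.Agent.ZFy.GM
open scoped Classical WithZero IntermediateField
open Polynomial groupCohomology

set_option linter.unusedSectionVars false

variable {R KK T F Fs : Type} [CommRing R] [Field KK] [Field T] [Field F] [Field Fs]

/-- the curve `χ = 0` over `R` has the function field `F`, its reduction modulo `π` has `Fs` -/
structure GS (α : R →+* KK) (π : R) (r : R →+* T) (χ : R[X][X]) (ψ : KK[X] →+* F) (θ : F)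
    (ψ₀ : T[X] →+* Fs) (θ₀ : Fs) : Prop where
  fr : IsFr α
  prime : Prime π
  ker : ∀ a, r a = 0 ↔ π ∣ a
  onto : Function.Surjective r
  monic : χ.Monic
  ff : FFd ψ θ (χ.map (mapRingHom α))
  ff₀ : FFd ψ₀ θ₀ (χ.map (mapRingHom r))

/-- evaluation of a polynomial over `R` at the generic point of the curve -/
noncomputable def evl (α : R →+* KK) (ψ : KK[X] →+* F) (θ : F) : R[X][X] →+* F :=
  eval₂RingHom (ψ.comp (mapRingHom α)) θ

/-- the Gauss valuation and its residue map -/
structure GR (α : R →+* KK) (π : R) (r : R →+* T) (ψ : KK[X] →+* F) (θ : F)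
    (ψ₀ : T[X] →+* Fs) (θ₀ : Fs) (w : Vl F) (ρ : w.integer →+* Fs) : Prop where
  gau : Gau α ψ π w
  red : IsRed w ρ
  onto : Function.Surjective ρ
  ev : ∀ (G : R[X][X]) (y : w.integer), (y : F) = evl α ψ θ G → ρ y = evl r ψ₀ θ₀ G

end Pool.Agent.ZCy.F.Kp
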