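import Pool.Agent.Lib.MP_751085_ag.ZF.K.Vt
import Pool.Agent.Lib.MP_751085_ag.ZF.K.Kum
import Pool.Agent.Lib.MP_751085_ag.ZC.K.ValB

/-! The Kummer data. -/

namespace Pool.Agent.ZCy.F.Kp

open Pool.Agent.ZFy Pool.Agent.ZFy.GM
open scoped Classical WithZero IntermediateField
open Polynomial groupCohomology

set_option linter.unusedSectionVars false

variable {A A₂ K K₂ F : Type} [CommRing A] [IsDomain A] [UniqueFactorizationMonoid A]
  [CommRing A₂] [IsDomain A₂] [UniqueFactorizationMonoid A₂] [Field K] [Field K₂]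
  [Algebra A K] [IsFractionRing A K] [Algebra A₂ K₂] [IsFractionRing A₂ K₂] [Algebra A A₂]
  [Algebra.IsIntegral A A₂] [Algebra K K₂] [Algebra A K₂] [IsScalarTower A K K₂]
  [IsScalarTower A A₂ K₂] [Algebra K₂ (Ks K)] [IsScalarTower K K₂ (Ks K)] [FiniteDimensional K K₂]
  [IsGalois K K₂] [Field F] [Algebra K[X] F] [Algebra F (Os K)] {l M : ℕ} {c : Cur K F} {Φ : A}
  {E : IntermediateField F (Os K)} {K₁ : IntermediateField K₂ (Ks K)} {n : ℕ} {π : Fin n → A₂}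
  {ϖ : Fin n → K₁} (hb : c.Bas K₂ l M Φ) (h : Big M A E K₁ π ϖ)

include hb h

theorem kvtb_le {w : Vl E} (hw : w ∈ Wv A K F E Φ) : Ine F w ≤ secG K₂ E := by
  have := h.fin
  have := h.gal
  obtain ⟨-, P, hP, h1, h2⟩ := hw
  exact kx_ine c hb.sct h.nice h.frm (hb.red P hP h1) hb.unr h2

theorem kvtb_pw (i : Fin n) : h.frm.J (ϖ i) ^ M =
    h.frm.J (algebraMap K₂ K₁ (algebraMap A₂ K₂ (π i))) := by
  rw [← map_pow, h.pw]; rfl

omit h in
theorem pvtb_pos : M ≠ 0 := fun e => hb.sct.neM (by rw [e, Nat.cast_zero])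

theorem pvtb_ne (i : Fin n) : h.frm.J (ϖ i) ≠ 0 := ne_zero_pow (pvtb_pos hb) (by
  rw [kvtb_pw hb h, _root_.map_ne_zero, _root_.map_ne_zero,
    map_ne_zero_iff _ (IsFractionRing.injective _ _)]
  exact (h.prime i).ne_zero)

theorem kvtb_cen {w : Vl E} {P : A} (hP : Prime P) (hw : Cen (pB A K F E) w (C P)) :
    (∀ a, w (h.frm.J (algebraMap K₂ K₁ (algebraMap A₂ K₂ a))) ≤ 1) ∧ ∀ i, w (h.frm.J (ϖ i)) < 1 →
      Cen (algebraMap A₂ K₂) (w.comap (h.frm.J.comp (algebraMap K₂ K₁))) (π i) := by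
  have := h.fin
  have := h.gal
  have e : toF A K K₂ = (algebraMap A₂ K₂).comp (algebraMap A A₂) :=
    (IsScalarTower.algebraMap_eq A K K₂).symm.trans (IsScalarTower.algebraMap_eq A A₂ K₂)
  have h1 : Function.Injective (toF A K K₂) :=
    (algebraMap K K₂).injective.comp (IsFractionRing.injective A K)
  have h2 := (kx_cen c h.frm hw).2
  rw [e] at h1 h2
  obtain ⟨q, hq, h3, -⟩ := kz_cen_up (Function.Injective.of_comp h1) hP h2
  refine ⟨h3.1, fun i hi => ⟨h3.1, fun a => ?_⟩⟩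
  have h4 : q ∣ π i := (h3.2 _).1 (by
    change w (h.frm.J _) < 1
    rw [← kvtb_pw hb h, map_pow]
    exact pow_lt_one₀ zero_le hi (pvtb_pos hb))
  rw [h3.2, (hq.associated_of_dvd (h.prime i) h4).dvd_iff_dvd_left]

theorem kx_one {w : Vl E} (hw : w ∈ Wv A K F E Φ) (hI : Ine F w ≠ ⊥) :
    ∃ i, w (h.frm.J (ϖ i)) < 1 ∧ (∀ j, j ≠ i → w (h.frm.J (ϖ j)) = 1) ∧ ∀ m : ℕ,
      (∀ g ∈ Ine F w, g (h.frm.J (ϖ i) ^ m) = h.frm.J (ϖ i) ^ m) → M ∣ m := by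
  have := h.fin
  have := h.gal
  have := Module.Finite.of_restrictScalars_finite K K₂ K₁
  have := IsGalois.tower_top_of_isGalois K K₂ K₁
  have hw' := hw
  obtain ⟨-, P, hP, hΦ, hc'⟩ := hw'
  obtain ⟨i, hi⟩ := h.ram (w.comap h.frm.J) P hP (kx_cen c h.frm hc').1 fun h0 => hI <|
    (Subgroup.eq_bot_iff_forall _).2 fun g hg => by
      obtain ⟨⟨g₁, h1, h2⟩, -⟩ := kx_res c h.frm hg
      rw [h0, Subgroup.mem_bot] at h1
      subst h1
      exact ke_sec_one h.frm (kvtb_le hb h hw hg) ((ke_fixC h.frm _).2 fun a => (h2 a).symm)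
  have h1 : w (h.frm.J (ϖ i)) < 1 := by
    rw [← pow_lt_one_iff_of_nonneg zero_le (pvtb_pos hb), ← map_pow, kvtb_pw hb h]
    exact hi
  obtain ⟨h2, h3⟩ := kvtb_cen hb h hP hc'
  refine ⟨i, h1, fun j hj => ?_, fun m hf => ?_⟩
  · rw [← pow_eq_one_iff_of_nonneg zero_le (pvtb_pos hb), ← map_pow, kvtb_pw hb h]
    exact (h2 _).eq_of_not_lt fun h4 => hj (h.inj i j (((h3 i h1).2 _).1 h4)).symm
  · obtain ⟨y, hy⟩ := kv_fix (K := K₂) (w := w.comap h.frm.J) (x := ϖ i ^ m) fun g₁ hg => by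
      obtain ⟨g, h4, -, h5⟩ := kk_lift c hb.sct h.nice h.frm (hb.red P hP hΦ) hc' hg
      exact h.frm.J.injective (by rw [← h5, map_pow, hf g h4])
    have h0 : w (h.frm.J (ϖ i)) ≠ 0 := w.ne_zero_iff.2 (pvtb_ne hb h i)
    rw [map_pow, Valuation.comap_apply] at hy
    obtain ⟨z, hz⟩ := (kv_cen (h.prime i) (h3 i h1) (h3 i h1)).2 y fun e =>
      pow_ne_zero m h0 (by rw [hy, e, map_zero, map_zero])
    have e : w (h.frm.J (ϖ i)) ^ (m : ℤ) = w (h.frm.J (ϖ i)) ^ (M * z : ℤ) := by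
      rw [zpow_mul, zpow_natCast, zpow_natCast, hy, ← map_pow, kvtb_pw hb h]
      exact hz
    exact Int.natCast_dvd_natCast.1 ⟨z, zpow_right_injective₀ (zero_lt_iff.2 h0) h1.ne e⟩

omit hb h in
theorem kx_stb : Stb F (Wv A K F E Φ) := by
  rintro g w ⟨h1, P, hP, h2, h3⟩
  exact ⟨kz_nrm h1 g, P, hP, h2,
    kz_cen ((algebraMap K[X] F).comp (mapRingHom (algebraMap A K))) h3 g⟩

theorem kx_conj {w w' : Vl E} (hw : w ∈ Wv A K F E Φ) (hw' : w' ∈ Wv A K F E Φ) {i : Fin n}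
    (h1 : w (h.frm.J (ϖ i)) < 1) (h2 : w' (h.frm.J (ϖ i)) < 1) :
    ∃ r ∈ secG K₂ E, w' = vsm r w := by
  obtain ⟨hn', P', hP', -, hc'⟩ := hw'
  have := h.fin
  have := h.gal
  have := Module.Finite.of_restrictScalars_finite K K₂ K₁
  have := IsGalois.tower_top_of_isGalois K K₂ K₁
  have := h.nice.gal
  obtain ⟨g, hg⟩ := kv_conj (K := K₂) (w := w.comap h.frm.J) (w' := w'.comap h.frm.J)
    (v := w.comap (h.frm.J.comp (algebraMap K₂ K₁))) (fun _ => Iff.rfl) <| by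
      obtain ⟨-, P, hP, -, hc⟩ := hw
      exact (kv_cen (h.prime i) ((kvtb_cen hb h hP hc).2 i h1) ((kvtb_cen hb h hP' hc').2 i h2)).1
  obtain ⟨r, hr, h3⟩ := ke_lift h.frm hb.sct g
  obtain ⟨hn, P, hP, h6, hc⟩ := kx_stb r⁻¹ w hw
  exact ⟨r⁻¹, inv_mem hr, kv_eq hn hn' (kk_uniq c hb.sct h.nice h.frm (hb.red P hP h6) hc hP' hc'
    fun a => (hg a).trans (congrArg (w · ≤ 1) (h3 a)).symm.to_iff)⟩

theorem kx_kum : ∃ ϖ' : Fin n → Eˣ, KumD F M (Wv A K F E Φ) (secG K₂ E) ϖ' := by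
  have := h.fin
  have := h.gal
  have := h.nice.fin
  have h1 : ∀ w ∈ Wv A K F E Φ, w (M : E) = 1 := fun w ⟨_, P, hP, h1, h2⟩ =>
    (kk_nat c hb.sct (hb.red P hP h1) h2).2
  refine ⟨fun i => Units.mk0 _ (pvtb_ne hb h i), Nat.pos_of_ne_zero (pvtb_pos hb), kx_stb,
    fun r hr a ha => Units.ext ?_, fun r hr i => Units.ext ?_, fun w => kvtb_le hb h,
    fun w hw => kc_cyc hw.1 (h1 w hw), h1, fun w => kx_one hb h,
    fun w hw w' hw' i => kx_conj hb h hw hw'⟩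
  · obtain ⟨m, hm⟩ := ke_mu h.frm hb.sct (x := (a : E)) (congrArg Units.val ha)
    change r (a : E) = a
    rw [hm, ke_sec_fix h.frm hr]
  · change r (h.frm.J (ϖ i) ^ M) = h.frm.J (ϖ i) ^ M
    rw [kvtb_pw hb h, ke_sec_fix h.frm hr]

end Pool.Agent.ZCy.F.Kp
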