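import Pool.Agent.Lib.MP_751085_ag.ZF.K.FbB
import Pool.Agent.Lib.MP_751085_ag.ZF.K.PlUp

/-! The action of the Galois group of the constants on Kummer classes. -/

namespace Pool.Agent.ZCy.F.Kp

open Pool.Agent.ZFy Pool.Agent.ZFy.GM
open scoped Classical WithZero IntermediateField
open Polynomial groupCohomology

set_option linter.unusedSectionVars false

variable {K F : Type} [Field K] [Field F] [Algebra K[X] F] [Algebra F (Os K)] (c : Cur K F) {l : ℕ}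

include c

/-- base change along a purely inseparable `γ₀` -/
theorem wf_bc {T Fs : Type} [Field T] [Field Fs] {γ₀ : Ks K →+* T} (h0 : PI γ₀) {ψ : T[X] →+* Fs}
    {θ : Fs} (h : FFd ψ θ (c.χ.map (mapRingHom (γ₀.comp (algebraMap K (Ks K)))))) :
    ∃ i : Fb K F →+* Fs, PI i ∧ (∀ p, i (psb K F p) = ψ (p.map γ₀)) ∧
      i (algebraMap F (Fb K F) c.θ) = θ ∧ ∀ (σ : Ks K ≃ₐ[K] Ks K) (γ : Fb K F ≃ₐ[F] Fb K F)
        (s : T →+* T) (g : Fs →+* Fs), (∀ a, γ (cb K F a) = cb K F (σ a)) →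
        (∀ a, s (γ₀ a) = γ₀ (σ a)) → (∀ p, g (ψ p) = ψ (p.map s)) → g θ = θ →
        ∀ x, g (i x) = i (γ x) := by
  have h1 := (pgp_mm (χ := c.χ) (algebraMap K (Ks K)) γ₀).symm ▸ h
  obtain ⟨i, hi, hθ⟩ := ffd_map (kf_ff c) (c.gp.monic.map _) γ₀ h1
  refine ⟨i, ffd_pi (hθ.symm ▸ h1) hi h0, hi, hθ, fun σ γ s g hγ hs hg hg' => RingHom.congr_fun
    (ffd_ext (kf_ff c) (j := g.comp i) (j' := i.comp (γ : Fb K F →+* Fb K F)) (fun p => ?_) ?_)⟩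
  · show g (i _) = i (γ _)
    rw [hi, hg, kf_gam_psb c hγ, hi, Polynomial.map_map, Polynomial.map_map,
      show s.comp γ₀ = γ₀.comp (σ : Ks K →+* Ks K) from RingHom.ext hs]
  · show g (i _) = i (γ _)
    rw [γ.commutes, hθ, hg']

/-- pass to the algebraic closure of the constants -/
theorem wf_ws (hl : (l : K) ≠ 0) {K₃ : Type} [Field K₃] [Algebra K K₃] (e₃ : K₃ →ₐ[K] Ks K)
    (hW : WF l (c.χ.map (mapRingHom (algebraMap K K₃)))) {σ : Ks K ≃ₐ[K] Ks K}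
    (hσ : ∀ a, σ (e₃ a) = e₃ a) : WS F l σ := by
  intro γ hγ u hu
  obtain rfl | h0 := eq_or_ne u 0
  · exact ⟨1, by simp⟩
  let γ₀ := algebraMap (Ks K) (Kb K)
  let : Algebra K₃ (Kb K) := (γ₀.comp (e₃ : K₃ →+* Ks K)).toAlgebra
  have : IsScalarTower K K₃ (Kb K) := .of_algebraMap_eq fun a =>
    (congrArg γ₀ (e₃.commutes a)).symm
  have : IsAlgClosure K₃ (Kb K) := ⟨inferInstance, .tower_top (K := K) K₃⟩
  have hs := σ.liftNormal_commutes (Kb K)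
  let s : Kb K ≃ₐ[K₃] Kb K := .ofRingEquiv (f := (σ.liftNormal (Kb K)).toRingEquiv) fun a =>
    (hs (e₃ a)).trans (congrArg γ₀ (hσ a))
  have e : (algebraMap K₃ (Kb K)).comp (algebraMap K K₃) = γ₀.comp (algebraMap K (Ks K)) :=
    RingHom.ext fun a => congrArg γ₀ (e₃.commutes a)
  have hm := c.gp.monic.map (mapRingHom (γ₀.comp (algebraMap K (Ks K))))
  obtain ⟨Fs, _, ψ, θ, hf⟩ := ffd_ex hm (c.gp.irr' _)
  obtain ⟨g, hg, hg'⟩ := ffd_hom hf hm (b := ψ.comp (mapRingHom (s : Kb K →+* Kb K)))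
    ((ffd_inj hf hm).comp (map_injective _ s.injective)) (z := θ) (by
      rw [← eval₂_map, pgp_mm, show (s : Kb K →+* Kb K).comp (γ₀.comp (algebraMap K (Ks K))) =
        γ₀.comp (algebraMap K (Ks K)) from RingHom.ext fun a =>
          (hs _).trans (congrArg γ₀ (σ.commutes a))]
      exact ffd_root hf)
  obtain ⟨i, hp, hi, -, hc⟩ := wf_bc c (pi_ks K) hf
  obtain ⟨z, hz⟩ := hW (Kb K) Fs ψ θ s g (by rwa [pgp_mm, e]) hg hg' (i u)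
    (tyw_up γ₀ i (fun a => by rw [← kf_psb_C, hi, map_C]; rfl) hu)
  rw [hc σ γ s g hγ hs hg hg'] at hz
  obtain ⟨y, hy⟩ := pi_root hp (kf_ne c hl _) (x := γ u / u) (z := z)
    (by rw [map_div₀, hz, mul_div_cancel_left₀ _ ((map_ne_zero i).2 h0)])
  exact ⟨y, by rw [← hy, mul_div_cancel₀ _ h0]⟩

omit c in
theorem pwfs_res {L T : Type} (S : Type) [Field L] [Field S] [Field T] [Algebra L S] [Algebra L T]
    [Normal L S] [IsSepClosed S] [IsAlgClosure L T] (s : T ≃ₐ[L] T) :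
    ∃ (γ₀ : S →ₐ[L] T) (σ : S ≃ₐ[L] S), PI (γ₀ : S →+* T) ∧ ∀ a, s (γ₀ a) = γ₀ (σ a) := by
  have : IsAlgClosed T := IsAlgClosure.isAlgClosed L
  let γ₀ : S →ₐ[L] T := IsAlgClosed.lift
  let := (γ₀ : S →+* T).toAlgebra
  have : IsScalarTower L S T := .of_algebraMap_eq fun a => (γ₀.commutes a).symm
  exact ⟨γ₀, s.restrictNormal S,
    pi_sep _ fun y => (Algebra.IsIntegral.isIntegral (R := L) y).tower_top, fun a =>
      (s.restrictNormal_commutes S a).symm⟩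

/-- descend from an algebraic closure `T` of `K₀` -/
theorem ws_wf (hl : (l : K) ≠ 0) (K₀ : IntermediateField K (Ks K))
    (h : ∀ σ : Ks K ≃ₐ[K] Ks K, (∀ x ∈ K₀, σ x = x) → WS F l σ) :
    WF l (c.χ.map (mapRingHom (algebraMap K K₀))) := by
  intro T Fs _ _ _ _ ψ θ s g hf hg hg' u hu
  obtain rfl | h0 := eq_or_ne u 0
  · exact ⟨1, by simp⟩
  have : Normal K₀ (Ks K) := .tower_top_of_normal K K₀ _
  obtain ⟨γ₀, σ, hp, hs⟩ := pwfs_res (Ks K) s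
  obtain ⟨γ, hγ⟩ := kf_gam c (σ.restrictScalars K)
  have e : (algebraMap K₀ T).comp (algebraMap K K₀) =
      (γ₀ : Ks K →+* T).comp (algebraMap K (Ks K)) :=
    RingHom.ext fun a => (γ₀.commutes _).symm
  rw [pgp_mm, e] at hf
  obtain ⟨i, hq, hi, hθ, hc⟩ := wf_bc c hp hf
  obtain ⟨n, u₀, hu₀⟩ := hq u
  obtain ⟨D, hD⟩ := (c.gp.map _).etl (kf_ff c)
  have h1 := tyw_down hD (by rwa [pgp_mm, hθ]) hi hp
    (by rw [← map_natCast (algebraMap K (Ks K))]; exact (_root_.map_ne_zero _).2 hl)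
    (hu₀.symm ▸ tyw_pow hu _)
  obtain ⟨z, hz⟩ := h _ (fun x hx => σ.commutes ⟨x, hx⟩) γ hγ u₀
    (kf_psb_comp (K := K) (F := F) ▸ h1)
  have h2 := hc _ γ s g hγ hs hg hg' u₀
  rw [hz, map_mul, hu₀, map_pow, map_pow] at h2
  obtain ⟨y, hy⟩ := pow_of_coprime (pi_cop (kf_ne c hl (Fb K F)) n) (x := g u / u) (y := i z)
    (by rw [div_pow, h2, mul_div_cancel_left₀ _ (pow_ne_zero _ h0)])
  exact ⟨y, by rw [← hy, mul_div_cancel₀ _ h0]⟩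

/-- it is enough to test one lift -/
theorem ws_of {σ : Ks K ≃ₐ[K] Ks K} {γ : Fb K F ≃ₐ[F] Fb K F}
    (hγ : ∀ a, γ (cb K F a) = cb K F (σ a))
    (h : ∀ u, TyW l (cb K F) u → ∃ z, γ u = u * z ^ l) : WS F l σ := fun γ' h' => by
  have := kf_gam_ext (γ := (γ' : Fb K F →ₐ[F] Fb K F)) (γ' := (γ : Fb K F →ₐ[F] Fb K F))
    fun a => (h' a).trans (hγ a).symm
  rwa [show γ' = γ from AlgEquiv.ext (AlgHom.congr_fun this)]

theorem ws_grp (l : ℕ) : ∃ H : Subgroup (Ks K ≃ₐ[K] Ks K), H.Normal ∧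
    ∀ σ, σ ∈ H ↔ WS F l σ := by
  have hi : ∀ {σ : Ks K ≃ₐ[K] Ks K} {γ : Fb K F ≃ₐ[F] Fb K F},
      (∀ a, γ (cb K F a) = cb K F (σ a)) → ∀ a, γ⁻¹ (cb K F a) = cb K F (σ⁻¹ a) :=
    fun {σ γ} h a => γ.symm_apply_eq.2 (by rw [h]; exact congrArg _ (σ.apply_symm_apply a).symm)
  have hm : ∀ {σ σ' : Ks K ≃ₐ[K] Ks K} {γ γ' : Fb K F ≃ₐ[F] Fb K F},
      (∀ a, γ (cb K F a) = cb K F (σ a)) → (∀ a, γ' (cb K F a) = cb K F (σ' a)) →
      ∀ a, (γ * γ') (cb K F a) = cb K F ((σ * σ') a) :=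
    fun h h' a => by rw [AlgEquiv.mul_apply, h', h, AlgEquiv.mul_apply]
  refine ⟨⟨⟨⟨{σ | WS F l σ}, fun {σ σ'} h h' => ?_⟩,
    ws_of c (γ := 1) (fun _ => rfl) fun u _ => ⟨1, by simp⟩⟩, fun {σ} h => ?_⟩,
    ⟨fun σ h τ => ?_⟩, fun _ => Iff.rfl⟩
  · obtain ⟨γ, hγ⟩ := kf_gam c σ
    obtain ⟨γ', hγ'⟩ := kf_gam c σ'
    refine ws_of c (hm hγ hγ') fun u hu => ?_
    obtain ⟨z, hz⟩ := h γ hγ u hu
    obtain ⟨z', hz'⟩ := h' γ' hγ' u hu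
    exact ⟨z * γ z', by rw [AlgEquiv.mul_apply, hz', map_mul, hz, map_pow, mul_pow, mul_assoc]⟩
  · obtain ⟨γ, hγ⟩ := kf_gam c σ
    refine ws_of c (hi hγ) fun u hu => ?_
    obtain rfl | h0 := eq_or_ne u 0
    · exact ⟨1, by simp⟩
    obtain ⟨z, hz⟩ := h γ hγ _ (kf_tyw c γ⁻¹ hu)
    have e : u = γ⁻¹ u * z ^ l := (γ.apply_symm_apply u).symm.trans hz
    exact ⟨z⁻¹, by rw [inv_pow, eq_mul_inv_iff_mul_eq₀ (right_ne_zero_of_mul (e ▸ h0)), ← e]⟩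
  · obtain ⟨γ, hγ⟩ := kf_gam c σ
    obtain ⟨δ, hδ⟩ := kf_gam c τ
    refine ws_of c (hm (hm hδ hγ) (hi hδ)) fun u hu => ?_
    obtain ⟨z, hz⟩ := h γ hγ _ (kf_tyw c δ⁻¹ hu)
    exact ⟨δ z, by
      rw [AlgEquiv.mul_apply, AlgEquiv.mul_apply, hz, map_mul, map_pow]
      exact congrArg (· * _) (δ.apply_symm_apply u)⟩

end Pool.Agent.ZCy.F.Kp
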