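import Pool.Agent.Lib.MP_751085_ag.ZF.K.WrB
import Pool.Agent.Lib.MP_751085_ag.ZF.K.Gp
import Pool.Agent.Lib.MP_751085_ag.ZC.K.WrC

/-! The generic fibre of a chart. -/

namespace Pool.Agent.ZCy.F.Kp

open Pool.Agent.ZFy Pool.Agent.ZFy.GM
open scoped Classical WithZero IntermediateField
open Polynomial groupCohomology

set_option linter.unusedSectionVars false

theorem pwrg_map {A B : Type} [CommRing A] [CommRing B] {ρ : A} {χ α β : A[X]} (f : A →+* B)
    (hb : C ρ = α * χ + β * derivative χ) :
    C (f ρ) = α.map f * χ.map f + β.map f * derivative (χ.map f) := by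
  rw [← map_C, hb, Polynomial.map_add, Polynomial.map_mul, Polynomial.map_mul, derivative_map]

/-- a monic polynomial over power series with separable split reduction splits -/
theorem kx_series {F : Type} [Field F] {f : (Ps F)[X]} (hm : f.Monic)
    (hs : (f.map (PowerSeries.constantCoeff : Ps F →+* F)).Separable)
    (hp : (f.map (PowerSeries.constantCoeff : Ps F →+* F)).Splits) : f.Splits := by
  have hex : ∀ y : F, ∃ η : Ps F, y ∈ (f.map PowerSeries.constantCoeff).roots.toFinset →
      f.eval η = 0 ∧ PowerSeries.constantCoeff η = y := fun y => by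
    by_cases hy : y ∈ (f.map PowerSeries.constantCoeff).roots.toFinset
    · have h0 := (isRoot_of_mem_roots (Multiset.mem_toFinset.1 hy)).eq_zero
      have h1 := hs.eval₂_derivative_ne_zero (RingHom.id F) h0
      rw [derivative_map, eval₂_map, RingHom.id_comp] at h1
      obtain ⟨η, h⟩ := ZeroCyc.exists_hensel_series hm (y := y) (by rwa [← eval_map]) h1.isUnit
      exact ⟨η, fun _ => h⟩
    · exact ⟨0, fun h => absurd h hy⟩
  choose η hη using hex
  rw [ZeroCyc.cvb_eq_prod _ (η := η) (fun y hy y' hy' e => by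
    rw [← (hη y hy).2, ← (hη y' hy').2, e]) hm (by
      rw [Multiset.toFinset_card_of_nodup (nodup_roots hs), ← hp.natDegree_eq_card_roots,
        hm.natDegree_map]) fun y hy => (hη y hy).1]
  exact Splits.prod fun _ _ => Splits.X_sub_C _

theorem kx_inf {F : Type} [Field F] {χ : F[X][X]} {δ : ℕ} (hm : χ.Monic) (hd : χ.natDegree = δ)
    (hw : ∀ i, (χ.coeff i).natDegree ≤ δ - i) {t : F[X]}
    (ht : t = ∑ i ∈ Finset.range (δ + 1), monomial i ((χ.coeff i).coeff (δ - i)))
    (hs : t.Separable) (hp : t.Splits) : (χ.map (tL F)).Splits := by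
  obtain ⟨f, hf⟩ : ∃ f : (Ps F)[X], f = ∑ i ∈ Finset.range (δ + 1),
    monomial i ((reflect (δ - i) (χ.coeff i) : F[X]) : Ps F) := ⟨_, rfl⟩
  have hc : ∀ i, f.coeff i = (reflect (δ - i) (χ.coeff i) : F[X]) := fun i => by
    simp only [hf, finsetSum_coeff, coeff_monomial, Finset.sum_ite_eq', Finset.mem_range]
    split_ifs with h
    · rfl
    · rw [coeff_eq_zero_of_natDegree_lt (p := χ) (by omega), reflect_zero, Polynomial.coe_zero]
  have h1 : f.coeff δ = 1 := by
    rw [hc, ← hd, hm.coeff_natDegree, tsub_self, reflect_one, pow_zero, Polynomial.coe_one]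
  have h2 : f.natDegree ≤ δ := natDegree_le_iff_coeff_eq_zero.2 fun i hi => by
    rw [hc, coeff_eq_zero_of_natDegree_lt (p := χ) (by omega), reflect_zero, Polynomial.coe_zero]
  have hfm : f.Monic := monic_of_natDegree_le_of_coeff_eq_one δ h2 h1
  have h3 : f.natDegree = δ := h2.antisymm (le_natDegree_of_ne_zero (h1 ▸ one_ne_zero))
  have h4 : χ.map (tL F) =
      (f.map (HahnSeries.ofPowerSeries ℤ F)).scaleRoots (HahnSeries.single (-1) 1) := by
    ext i : 1
    rw [coeff_scaleRoots, hfm.natDegree_map, h3, coeff_map, coeff_map, hc, kh_reflect (hw i)]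
  have h5 : f.map PowerSeries.constantCoeff = t := by
    simp only [hf, ht, Polynomial.map_sum, map_monomial, Polynomial.constantCoeff_coe,
      coeff_reflect, revAt_zero]
  rw [h4]
  exact ((kx_series hfm (h5 ▸ hs) (h5 ▸ hp)).map _).scaleRoots _

section ring

variable {R σ : Type} [CommRing R] (c : PChart R σ)

theorem kx_tmon : c.top.Monic := by
  refine monic_of_natDegree_le_of_coeff_eq_one c.δ (natDegree_sum_le_of_forall_le _ _ fun i hi =>
    (natDegree_monomial_le _).trans (Nat.lt_succ_iff.1 (Finset.mem_range.1 hi))) ?_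
  simp only [PChart.top, finsetSum_coeff, coeff_monomial, Finset.sum_ite_eq', Finset.mem_range]
  rw [if_pos (Nat.lt_succ_self _), ← c.deg, c.monic.coeff_natDegree, tsub_self, Finsupp.single_zero,
    MvPolynomial.coeff_zero_one]

theorem kx_mon : (cχ c).Monic := c.monic.map _

theorem kx_bez : ∃ (ρ : (MP σ R)[X]) (α β : (MP σ R)[X][X]), ρ.Monic ∧
    C ρ = α * cχ c + β * derivative (cχ c) := by
  obtain ⟨α, β, h⟩ := c.bez
  obtain ⟨r, u, e⟩ := c.dvd
  let o := (MvPolynomial.optionEquivLeft R σ : MP (Option σ) R →+* (MP σ R)[X])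
  refine ⟨tp c.Ψ ^ r, (C u * α).map o, (C u * β).map o, c.tm.1.pow r, ?_⟩
  rw [cχ, derivative_map, ← Polynomial.map_mul, ← Polynomial.map_mul, ← Polynomial.map_add,
    mul_assoc, mul_assoc, ← mul_add, ← h, ← C_mul, mul_comm, ← e, map_C, map_pow o]
  rfl

theorem kx_map {S : Type} [CommRing S] {φ : R →+* S} {c₀ : PChart R σ} {c : PChart S σ}
    (h : c₀.IsMap φ c) : cχ c = (cχ c₀).map (mapRingHom (MvPolynomial.map φ)) := by
  rw [cχ, cχ, h.χ, coe_mapRingHom, Polynomial.map_map, Polynomial.map_map]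
  exact congrArg (Polynomial.map · _) (RingHom.ext (tp_map φ))

theorem kx_hyp {c : PChart R (Option σ)} {c' : PChart R σ} (h : c.IsHyp c') :
    cχ c' = (cχ c).map (mapRingHom hyp0) := by
  rw [cχ, cχ, h.χ, Polynomial.map_map, Polynomial.map_map]
  exact congrArg (Polynomial.map · _) (RingHom.ext tp_hyp)

theorem kx_good {S : Type} [CommRing S] {φ : R →+* S} {c₀ : PChart R σ} {c : PChart S σ}
    (h : c₀.IsMap φ c) {Φ : MP σ R} (hG : GoodM c₀ Φ) : GoodM c (MvPolynomial.map φ Φ) := by
  intro T KK F _ _ _ _ _ _ η α ψ θ l hα hU hf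
  refine hG T KK F (η.comp (MvPolynomial.map φ)) α ψ θ l hα hU ?_
  rwa [kx_map h, Polynomial.map_map, mapRingHom_comp] at hf

end ring

variable {k σ K' : Type} [Field k] [Field K'] (c : PChart k σ)

theorem kx_deg (β : MP σ k →+* K') : ((cχ c).map (mapRingHom β)).natDegree = c.δ := by
  rw [(kx_mon c).natDegree_map, cχ, c.monic.natDegree_map, c.deg]

theorem kx_tq : c.χ.map (tq k σ) = (cχ c).map (mapRingHom (algebraMap (MP σ k) (RF σ k))) :=
  (Polynomial.map_map _ _ _).symm

theorem kx_sep {φ : MP (Option σ) k →+* K'} (hφ : Function.Injective φ) :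
    c.D ≠ 0 ∧ (c.χ.map φ).Separable := by
  obtain ⟨α, β, h⟩ := c.bez
  obtain ⟨r, u, e⟩ := c.dvd
  have h0 : c.D ≠ 0 := fun h0 => (c.tm.1.pow r).ne_zero (by
    rw [← map_pow, e, h0, zero_mul, map_zero])
  refine ⟨h0, C (φ c.D)⁻¹ * α.map φ, C (φ c.D)⁻¹ * β.map φ, ?_⟩
  rw [mul_assoc, mul_assoc, ← mul_add, ← pwrg_map φ h, ← C_mul,
    inv_mul_cancel₀ ((map_ne_zero_iff φ hφ).2 h0), C_1]

theorem kx_spl (β : MP σ k →+* K') (hs : (c.top.map (β.comp MvPolynomial.C)).Splits) :
    (((cχ c).map (mapRingHom β)).map (tL K')).Splits := by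
  have hd : ∀ p : MP (Option σ) k, (tp p).natDegree ≤ p.totalDegree := fun p =>
    (MvPolynomial.natDegree_optionEquivLeft k p).trans_le (MvPolynomial.degreeOf_le_totalDegree _ _)
  refine kx_inf ((kx_mon c).map _) (kx_deg c β) (fun i => ?_) ?_
    (Separable.map (show c.top.Separable from c.sep)) hs
  · rw [cχ, coeff_map, coeff_map]
    exact natDegree_map_le.trans ((hd _).trans (c.wt i))
  rw [PChart.top, Polynomial.map_sum]
  refine Finset.sum_congr rfl fun i _ => ?_
  have : ((tp (c.χ.coeff i)).coeff (c.δ - i)).totalDegree = 0 := by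
    rcases (c.wt i).eq_or_lt with e | e
    · exact Nat.add_eq_right.1 (le_antisymm ((MvPolynomial.totalDegree_coeff_optionEquivLeft_add_le
        k σ _ _ e.ge).trans e.le) (Nat.le_add_left _ _))
    · rw [coeff_eq_zero_of_natDegree_lt ((hd _).trans_lt e), MvPolynomial.totalDegree_zero]
  rw [Polynomial.map_monomial, cχ, coeff_map, coeff_map, coe_mapRingHom, coeff_map,
    coeff_single_none]
  exact congrArg (fun x => monomial i (β x)) (MvPolynomial.totalDegree_eq_zero_iff_eq_C.1 this).symm

theorem kx_irr (hi : c.GI) {k₂ : Type} [Field k₂] [Algebra k k₂] [Algebra.IsAlgebraic k k₂] :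
    Irreducible ((cχ c).map (mapRingHom ((algebraMap (MP σ k₂) (RF σ k₂)).comp
      (MvPolynomial.map (algebraMap k k₂))))) := by
  let i : k₂ →ₐ[k] AlgebraicClosure k := IsAlgClosed.lift
  have hm := c.monic.map (MvPolynomial.map (algebraMap k k₂))
  have h1 := hm.irreducible_of_irreducible_map (MvPolynomial.map (i : k₂ →+* AlgebraicClosure k)) _
    (by
      rw [Polynomial.map_map, show (MvPolynomial.map (i : k₂ →+* AlgebraicClosure k)).comp
        (MvPolynomial.map (algebraMap k k₂)) = MvPolynomial.map (algebraMap k _) from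
          RingHom.ext fun p => by rw [RingHom.comp_apply, MvPolynomial.map_map, i.comp_algebraMap]]
      exact hi)
  obtain ⟨_, -, ht⟩ := kw_alg k₂ σ
  rw [hm.irreducible_iff_irreducible_map_fraction_map (K := RF (Option σ) k₂),
    ← show (algebraMap (RF σ k₂)[X] _).comp (tq k₂ σ) = _ from RingHom.ext ht,
    ← Polynomial.map_map] at h1
  have h2 := (hm.map _).irreducible_of_irreducible_map _ _ h1
  rw [Polynomial.map_map] at h2
  rw [cχ, Polynomial.map_map]
  refine (congrArg (fun f => Irreducible (c.χ.map f)) (RingHom.ext fun p => ?_)).mp h2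
  rw [RingHom.comp_apply, tq_apply, tp_map, Polynomial.map_map]
  rfl

theorem kx_gp (hi : c.GI) {β : MP σ k →+* K'} (hβ : Function.Injective β) :
    GP ((cχ c).map (mapRingHom β)) := by
  have : IsGalois k c.top.SplittingField := .of_separable_splitting_field (p := c.top) c.sep
  obtain ⟨g, h⟩ := exists_rfMap σ (algebraMap k c.top.SplittingField)
  let := g.toAlgebra
  obtain ⟨_, _⟩ := kx_gal (σ := σ) (k := k) (k₂ := c.top.SplittingField) h
  obtain ⟨ρ, α, γ, hρ, hb⟩ := kx_bez c
  have e : ((cχ c).map (mapRingHom (algebraMap _ (RF σ k)))).map (mapRingHom g) = (cχ c).map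
      (mapRingHom ((algebraMap (MP σ c.top.SplittingField) _).comp
        (MvPolynomial.map (algebraMap k _)))) := by
    rw [Polynomial.map_map, mapRingHom_comp]
    exact congrArg (fun f => (cχ c).map (mapRingHom f)) (RingHom.ext h)
  have H := gp_of (K' := RF σ c.top.SplittingField) ((kx_mon c).map _) (hρ.map _).ne_zero
    (pwrg_map (mapRingHom (algebraMap _ (RF σ k))) hb) (e ▸ kx_irr c hi) (by
      rw [← Polynomial.map_map]
      refine e ▸ kx_spl c _ ?_
      have := (SplittingField.splits c.top).map (algebraMap _ (RF σ c.top.SplittingField))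
      rw [Polynomial.map_map] at this
      refine (congrArg (fun f => (c.top.map f).Splits) (RingHom.ext fun a => ?_)).mp this
      exact congrArg (algebraMap (MP σ c.top.SplittingField) (RF σ c.top.SplittingField))
        (MvPolynomial.map_C (algebraMap k _) a).symm)
  obtain ⟨j, hj⟩ := (isFr_alg (MP σ k) (RF σ k)).exists_lift hβ
  have := H.map j
  rwa [Polynomial.map_map, mapRingHom_comp, show j.comp (algebraMap _ _) = β from RingHom.ext hj] at this

end Pool.Agent.ZCy.F.Kp
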